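import Pool.Agent.H.MP_08eaf3_pr.J.Bd

/-!
# Part J: corners (J3)
-/

set_option autoImplicit false
set_option linter.unusedSectionVars false

open MeasureTheory ProbabilityTheory Filter Topology Matrix

namespace SKC.J

open SKC.A

section

variable {K : Type} [Fintype K]

/-- `f` is a linear function plus a constant plus a small remainder -/
def Near (f : (K → ℝ) → ℝ) (s : K → ℝ) (a : ℝ) {J : Type} (S : Finset J) (w : J → ℝ)
    (t : J → K → ℝ) : Prop :=
  LG f ∧ ∀ z, 0 ≤ f z - (dot s z + a) ∧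
    Real.exp (f z - (dot s z + a)) ≤ 1 + ∑ j ∈ S, w j * Real.exp (dot (t j) z)

/-- linear part plus constant is of class `LG` -/
theorem Corner_LG_lin (s : K → ℝ) (a : ℝ) : LG (fun z : K → ℝ => dot s z + a) := by
  have h := (LG.dot_right s).add (LG.const (K := K) a)
  have e : (fun z : K → ℝ => dot s z + a) = (fun z => dot z s + a) := by
    funext z
    rw [dot_comm]
  rw [e]
  exact h

theorem Corner_LG_R {f : (K → ℝ) → ℝ} (hf : LG f) (s : K → ℝ) (a : ℝ) :
    LG (fun z : K → ℝ => f z - (dot s z + a)) := by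
  have h := hf.add ((Corner_LG_lin s a).const_mul (-1))
  have e : (fun z : K → ℝ => f z - (dot s z + a)) = (fun z => f z + (-1) * (dot s z + a)) := by
    funext z
    ring
  rw [e]
  exact h

/-- one step applied to linear plus remainder -/
theorem Corner_Tm {f : (K → ℝ) → ℝ} (hf : LG f) (s : K → ℝ) (a m : ℝ) (B : Matrix K K ℝ) (z : K → ℝ) :
    Tm m B f z = dot s z + (a + m / 2 * dot s ((B * Bᵀ).mulVec s)) +
      Tm m B (fun y => f y - (dot s y + a)) (z + m • (B * Bᵀ).mulVec s) := by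
  have hR := Corner_LG_R hf s a
  by_cases hm : m = 0
  · subst hm
    rw [Tm_zero, Tm_zero, zero_smul, add_zero]
    have hi1 := int_LG hf B z
    have hi2 := int_LG (Corner_LG_lin s a) B z
    have h1 : ∫ x, (f (z + B.mulVec x) - (dot s (z + B.mulVec x) + a)) ∂(gam K) =
        ∫ x, f (z + B.mulVec x) ∂(gam K) - ∫ x, (dot s (z + B.mulVec x) + a) ∂(gam K) :=
      integral_sub hi1 hi2
    have h2 : ∫ x, (dot s (z + B.mulVec x) + a) ∂(gam K) = dot s z + a := by
      have h3 : ∀ x : K → ℝ, dot s (z + B.mulVec x) + a = (dot s z + a) + dot x (Bᵀ.mulVec s) := by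
        intro x
        rw [dot_add_right, dot_comm x, dot_transpose]
        ring
      simp only [h3]
      have hi3 : Integrable (fun x : K → ℝ => dot x (Bᵀ.mulVec s)) (gam K) :=
        (EG.dot_right (Bᵀ.mulVec s)).integrable
      rw [integral_add (integrable_const _) hi3, integral_dot, integral_const, probReal_univ,
        one_smul, add_zero]
    rw [h1, h2]
    ring
  · rw [Tm_ne hm, Tm_ne hm]
    set A := B * Bᵀ with hA
    have h1 : ∀ x : K → ℝ, Real.exp (m * f (z + B.mulVec x)) =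
        Real.exp (m * (dot s z + a)) *
          (Real.exp (m * (f (z + B.mulVec x) - (dot s (z + B.mulVec x) + a))) *
            Real.exp (dot (m • s) (B.mulVec x))) := by
      intro x
      rw [← Real.exp_add, ← Real.exp_add, dot_smul_left, dot_add_right]
      congr 1
      ring
    have h2 := cm_step' B (m • s)
      (fun w => Real.exp (m * (f (z + w) - (dot s (z + w) + a))))
    beta_reduce at h2
    have h3 : ∀ x : K → ℝ, z + (B.mulVec x + A.mulVec (m • s)) = z + m • A.mulVec s + B.mulVec x := by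
      intro x
      rw [Matrix.mulVec_smul, add_comm (B.mulVec x), add_assoc]
    rw [← hA] at h2
    simp only [h3] at h2
    simp only [h1]
    rw [integral_const_mul, h2]
    have hZ := Z_pos hR m B (z + m • A.mulVec s)
    beta_reduce at hZ
    rw [Real.log_mul (Real.exp_pos _).ne' (mul_pos (Real.exp_pos _) hZ).ne',
      Real.log_mul (Real.exp_pos _).ne' hZ.ne', Real.log_exp, Real.log_exp, Matrix.mulVec_smul,
      dot_smul_left, dot_smul_right]
    field_simp
    ring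

theorem Corner_int_exp_dot (t : K → ℝ) (B : Matrix K K ℝ) (z : K → ℝ) :
    Integrable (fun x : K → ℝ => Real.exp (dot t (z + B.mulVec x))) (gam K) := by
  have e : ∀ x : K → ℝ, Real.exp (dot t (z + B.mulVec x)) =
      Real.exp (dot t z) * Real.exp (dot x (Bᵀ.mulVec t)) := by
    intro x
    rw [dot_add_right, dot_comm x, dot_transpose, Real.exp_add]
  simp only [e]
  exact (EG.exp_dot (Bᵀ.mulVec t)).integrable.const_mul _

theorem Corner_exp_dot (t : K → ℝ) (B : Matrix K K ℝ) (z : K → ℝ) :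
    ∫ x, Real.exp (dot t (z + B.mulVec x)) ∂(gam K) =
      Real.exp (dot t ((B * Bᵀ).mulVec t) / 2) * Real.exp (dot t z) := by
  have e : ∀ x : K → ℝ, Real.exp (dot t (z + B.mulVec x)) =
      Real.exp (dot t z) * ((1 : ℝ) * Real.exp (dot t (B.mulVec x))) := by
    intro x
    rw [dot_add_right, one_mul, Real.exp_add]
  simp only [e]
  rw [integral_const_mul]
  have h := cm_step' B t (fun _ => (1 : ℝ))
  rw [h, integral_const, probReal_univ, one_smul]
  ring

/-- One step. With `A = B Bᵀ` and `R = f - <s,·> - a ≥ 0`: by `cm_step'` with `θ = m • s`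
`T_m f (z) = <s,z> + a + (m/2) <s,As> + T_m R (z + m A s)` (for `m = 0`: linearity of the integral, `integral_dot`),
`T_m R ≥ 0` (`Tm_ge_avg`), and `exp(T_m R (z')) ≤ ∫ exp(R(z' + Bx)) ≤ 1 + ∑ w_j ∫ exp <t_j, z' + Bx>` (`exp_Tm_le`),
`∫ exp <t, Bx> = exp(<t, A t>/2)` (`cm_step'` with `G = 1`). -/
theorem Near_step {f : (K → ℝ) → ℝ} {s : K → ℝ} {a : ℝ} {J : Type} {S : Finset J} {w : J → ℝ}
    {t : J → K → ℝ} (hf : Near f s a S w t) (hw : ∀ j ∈ S, 0 ≤ w j) {m : ℝ} (hm : 0 ≤ m)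
    (hm1 : m ≤ 1) (B : Matrix K K ℝ) :
    Near (Tm m B f) s (a + m / 2 * dot s ((B * Bᵀ).mulVec s)) S
      (fun j => w j * Real.exp (dot (t j) ((B * Bᵀ).mulVec (t j)) / 2 +
        m * dot (t j) ((B * Bᵀ).mulVec s))) t := by
  obtain ⟨hLG, hb⟩ := hf
  have hR := Corner_LG_R hLG s a
  refine ⟨SKC.B.LG_Tm hLG m B, fun z => ?_⟩
  have e := Corner_Tm hLG s a m B z
  set A := B * Bᵀ with hA
  set z' : K → ℝ := z + m • A.mulVec s with hz'
  have e2 : Tm m B f z - (dot s z + (a + m / 2 * dot s (A.mulVec s))) =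
      Tm m B (fun y => f y - (dot s y + a)) z' := by
    rw [e]
    ring
  rw [e2]
  constructor
  · refine le_trans ?_ (Tm_ge_avg hR hm B z')
    exact integral_nonneg fun x => (hb _).1
  · refine (exp_Tm_le hR hm hm1 B z').trans ?_
    have hi : ∀ j ∈ S, Integrable (fun x : K → ℝ => w j * Real.exp (dot (t j) (z' + B.mulVec x))) (gam K) :=
      fun j _ => (Corner_int_exp_dot (t j) B z').const_mul _
    have hint : Integrable (fun x : K → ℝ => Real.exp (f (z' + B.mulVec x) -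
        (dot s (z' + B.mulVec x) + a))) (gam K) := by
      have := int_exp hR 1 B z'
      simpa using this
    have h1 : ∫ x, Real.exp (f (z' + B.mulVec x) - (dot s (z' + B.mulVec x) + a)) ∂(gam K) ≤
        ∫ x, (1 + ∑ j ∈ S, w j * Real.exp (dot (t j) (z' + B.mulVec x))) ∂(gam K) := by
      refine integral_mono hint ((integrable_const 1).add (integrable_finsetSum S hi)) fun x => ?_
      exact (hb _).2
    refine h1.trans (le_of_eq ?_)
    rw [integral_add (integrable_const 1) (integrable_finsetSum S hi), integral_finsetSum S hi,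
      integral_const, probReal_univ, one_smul]
    congr 1
    refine Finset.sum_congr rfl fun j _ => ?_
    rw [integral_const_mul, Corner_exp_dot, hz', dot_add_right, dot_smul_right, mul_assoc,
      ← Real.exp_add, ← Real.exp_add]
    congr 2
    ring

theorem Near_mono {f : (K → ℝ) → ℝ} {s : K → ℝ} {a : ℝ} {J : Type} {S : Finset J} {w w' : J → ℝ}
    {t : J → K → ℝ} (hf : Near f s a S w t) (hw : ∀ j ∈ S, w j ≤ w' j) : Near f s a S w' t := by
  refine ⟨hf.1, fun z => ⟨(hf.2 z).1, (hf.2 z).2.trans ?_⟩⟩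
  exact add_le_add_right (Finset.sum_le_sum fun j hj =>
    mul_le_mul_of_nonneg_right (hw j hj) (Real.exp_pos _).le) 1

/-- sum of the constants along a list -/
noncomputable def aS (β : K → ℝ) (s : K → ℝ) : List (Step K) → ℝ
  | [] => 0
  | (x :: l) => aS β s l + x.1 / 2 * dot s ((Bm β x.2 * (Bm β x.2)ᵀ).mulVec s)

/-- the whole list: induction with `Near_step`, `Near_mono`; all entries of `s` at most `1`, of `t j` at
most `2` in absolute value: the exponent in `Near_step` is at most `2 tv + 2 tv` (`abs_quad_le` for `t j / 2`). -/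
theorem Near_PsiL (β : K → ℝ) {F : (K → ℝ) → ℝ} {s : K → ℝ} {J : Type} {S : Finset J}
    {w : J → ℝ} {t : J → K → ℝ} (hs : ∀ c, |s c| ≤ 1) (ht : ∀ j ∈ S, ∀ c, |t j c| ≤ 2)
    (hw : ∀ j ∈ S, 0 ≤ w j) (hF : Near F s 0 S w t) (l : List (Step K))
    (hl : ∀ a ∈ l, 0 ≤ a.1 ∧ a.1 ≤ 1) :
    Near (PsiL β l F) s (aS β s l) S (fun j => w j * Real.exp (4 * tvs β l)) t := by
  induction l with
  | nil =>
    show Near F s 0 S (fun j => w j * Real.exp (4 * 0)) t
    have e : (fun j => w j * Real.exp (4 * 0)) = w := by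
      funext j
      rw [mul_zero, Real.exp_zero, mul_one]
    rw [e]
    exact hF
  | cons x l ih =>
    have ih' := ih (fun a ha => hl a (List.mem_cons_of_mem x ha))
    obtain ⟨hm, hm1⟩ := hl x List.mem_cons_self
    have hw' : ∀ j ∈ S, 0 ≤ w j * Real.exp (4 * tvs β l) := fun j hj =>
      mul_nonneg (hw j hj) (Real.exp_pos _).le
    have h1 := Near_step ih' hw' hm hm1 (Bm β x.2)
    show Near (Tm x.1 (Bm β x.2) (PsiL β l F)) s
      (aS β s l + x.1 / 2 * dot s ((Bm β x.2 * (Bm β x.2)ᵀ).mulVec s)) S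
      (fun j => w j * Real.exp (4 * (tv β x.2 + tvs β l))) t
    refine Near_mono h1 fun j hj => ?_
    set A := Bm β x.2 * (Bm β x.2)ᵀ with hA
    rw [mul_assoc, ← Real.exp_add]
    refine mul_le_mul_of_nonneg_left (Real.exp_le_exp.mpr ?_) (hw j hj)
    have ht2 : ∀ c, |((1 / 2 : ℝ) • t j) c| ≤ 1 := by
      intro c
      rw [Pi.smul_apply, smul_eq_mul, abs_mul]
      have := ht j hj c
      have h2 : |(1 / 2 : ℝ)| = 1 / 2 := abs_of_pos (by norm_num)
      rw [h2]
      linarith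
    have h3 := abs_le.mp (abs_quad_le β x.2 ht2 ht2)
    have h4 := abs_le.mp (abs_quad_le β x.2 ht2 hs)
    rw [← hA, Matrix.mulVec_smul, dot_smul_left, dot_smul_right] at h3
    rw [← hA, dot_smul_left] at h4
    have h5 : x.1 * dot (t j) (A.mulVec s) ≤ 2 * tv β x.2 := by
      have h6 : dot (t j) (A.mulVec s) ≤ 2 * tv β x.2 := by linarith [h4.2]
      have h7 := tv_nonneg β x.2
      nlinarith
    linarith [h3.2]

end

section Pair

/-- the family of exponents for the corner `(σ0, σ1)` -/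
def tt (σ : Fin 2 → ℝ) : Fin 3 → Fin 2 → ℝ :=
  ![![-(2 * σ 0), 0], ![0, -(2 * σ 1)], ![-(2 * σ 0), -(2 * σ 1)]]

theorem Corner_cosh {σ : ℝ} (hσ : σ = 1 ∨ σ = -1) (t : ℝ) :
    2 * Real.cosh t = Real.exp (σ * t) * (1 + Real.exp (-(2 * σ) * t)) := by
  rw [mul_add, mul_one, ← Real.exp_add, Real.cosh_eq]
  rcases hσ with h | h
  · rw [h, one_mul, show t + -(2 * 1) * t = -t by ring]
    ring
  · rw [h, show -1 * t + -(2 * -1) * t = t by ring, show -1 * t = -t by ring]
    ring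

theorem Corner_tt0 (σ z : Fin 2 → ℝ) : dot (tt σ 0) z = -(2 * σ 0) * z 0 := by
  unfold dot
  rw [Fin.sum_univ_two]
  simp [tt]

theorem Corner_tt1 (σ z : Fin 2 → ℝ) : dot (tt σ 1) z = -(2 * σ 1) * z 1 := by
  unfold dot
  rw [Fin.sum_univ_two]
  simp [tt]

theorem Corner_tt2 (σ z : Fin 2 → ℝ) : dot (tt σ 2) z = -(2 * σ 0) * z 0 + -(2 * σ 1) * z 1 := by
  unfold dot
  rw [Fin.sum_univ_two]
  simp [tt]

/-- `F0` near a corner: `exp(F0 z - σ0 z0 - σ1 z1) = (1 + exp(-2σ0 z0)) (1 + exp(-2σ1 z1))` for signs `σ` -/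
theorem Near_F0 (σ : Fin 2 → ℝ) (hσ : ∀ c, σ c = 1 ∨ σ c = -1) :
    Near (F0 : (Fin 2 → ℝ) → ℝ) σ 0 (Finset.univ : Finset (Fin 3)) (fun _ => 1) (tt σ) := by
  have key : ∀ z : Fin 2 → ℝ, Real.exp (F0 z - (dot σ z + 0)) =
      (1 + Real.exp (-(2 * σ 0) * z 0)) * (1 + Real.exp (-(2 * σ 1) * z 1)) := by
    intro z
    have hd : dot σ z = σ 0 * z 0 + σ 1 * z 1 := by
      unfold dot
      rw [Fin.sum_univ_two]
    rw [add_zero, Real.exp_sub, exp_F0, Fin.prod_univ_two, hd, Real.exp_add, Corner_cosh (hσ 0),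
      Corner_cosh (hσ 1)]
    have h1 := (Real.exp_pos (σ 0 * z 0)).ne'
    have h2 := (Real.exp_pos (σ 1 * z 1)).ne'
    field_simp
  refine ⟨LG_F0, fun z => ⟨?_, ?_⟩⟩
  · have h1 : (1 : ℝ) ≤ Real.exp (F0 z - (dot σ z + 0)) := by
      rw [key]
      have h2 := Real.exp_pos (-(2 * σ 0) * z 0)
      have h3 := Real.exp_pos (-(2 * σ 1) * z 1)
      nlinarith [mul_pos h2 h3]
    rw [← Real.exp_zero] at h1
    exact Real.exp_le_exp.mp h1
  · rw [key, Fin.sum_univ_three, Corner_tt0, Corner_tt1, Corner_tt2, Real.exp_add]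
    apply le_of_eq
    ring

/-- `a_{(1,1)} - a_{(1,-1)} = 4 b1 b2 G` -/
theorem aS_diff (b1 b2 : ℝ) (l : List (Step (Fin 2))) :
    aS (be b1 b2) ![1, 1] l - aS (be b1 b2) ![1, -1] l = 4 * b1 * b2 * Gl l := by
  induction l with
  | nil => simp [aS, Gl]
  | cons x l ih =>
    have hG : Gl (x :: l) = x.1 * (x.2 * x.2ᵀ) 0 1 + Gl l := by
      unfold Gl
      rw [List.map_cons, List.sum_cons]
    have hsym : (x.2 * x.2ᵀ) 1 0 = (x.2 * x.2ᵀ) 0 1 := by
      rw [Matrix.mul_apply, Matrix.mul_apply]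
      refine Finset.sum_congr rfl fun k _ => ?_
      rw [Matrix.transpose_apply, Matrix.transpose_apply, mul_comm]
    have h01 := cov_Bm (be b1 b2) x.2 0 1
    have h10 := cov_Bm (be b1 b2) x.2 1 0
    rw [hsym] at h10
    have hb0 : be b1 b2 0 = b1 := rfl
    have hb1 : be b1 b2 1 = b2 := rfl
    rw [hb0, hb1] at h01 h10
    set A := Bm (be b1 b2) x.2 * (Bm (be b1 b2) x.2)ᵀ with hA
    have hd1 : dot ![1, 1] (A.mulVec ![1, 1]) = A 0 0 + A 0 1 + (A 1 0 + A 1 1) := by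
      unfold dot
      rw [Fin.sum_univ_two]
      simp [Matrix.mulVec, dotProduct, Fin.sum_univ_two]
    have hd2 : dot ![1, -1] (A.mulVec ![1, -1]) = A 0 0 - A 0 1 - (A 1 0 - A 1 1) := by
      unfold dot
      rw [Fin.sum_univ_two]
      simp [Matrix.mulVec, dotProduct, Fin.sum_univ_two]
      ring
    show aS (be b1 b2) ![1, 1] l + x.1 / 2 * dot ![1, 1] (A.mulVec ![1, 1]) -
      (aS (be b1 b2) ![1, -1] l + x.1 / 2 * dot ![1, -1] (A.mulVec ![1, -1])) = _
    rw [hd1, hd2, hG, h01, h10]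
    linear_combination ih

theorem Corner_bd (b1 b2 : ℝ) {σ : Fin 2 → ℝ} (hσ : ∀ c, σ c = 1 ∨ σ c = -1)
    {l : List (Step (Fin 2))} (hl : Ok l) (z : Fin 2 → ℝ) :
    0 ≤ PsiL (be b1 b2) l F0 z - (dot σ z + aS (be b1 b2) σ l) ∧
      PsiL (be b1 b2) l F0 z - (dot σ z + aS (be b1 b2) σ l) ≤
        Real.log (1 + Real.exp (4 * C0 (be b1 b2)) * (Real.exp (-(2 * σ 0) * z 0) +
          Real.exp (-(2 * σ 1) * z 1) + Real.exp (-(2 * σ 0) * z 0 + -(2 * σ 1) * z 1))) := by
  have hs : ∀ c, |σ c| ≤ 1 := by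
    intro c
    rcases hσ c with h | h <;> rw [h] <;> simp
  have ht : ∀ j ∈ (Finset.univ : Finset (Fin 3)), ∀ c, |tt σ j c| ≤ 2 := by
    intro j _ c
    have h0 := hs 0
    have h1 := hs 1
    rw [abs_le] at h0 h1
    rw [abs_le]
    fin_cases j <;> fin_cases c <;> simp [tt] <;> constructor <;> linarith
  have h := Near_PsiL (be b1 b2) hs ht (fun _ _ => zero_le_one) (Near_F0 σ hσ) l hl.2.1
  obtain ⟨h1, h2⟩ := h.2 z
  refine ⟨h1, ?_⟩
  have hpos : 0 < 1 + Real.exp (4 * C0 (be b1 b2)) * (Real.exp (-(2 * σ 0) * z 0) +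
      Real.exp (-(2 * σ 1) * z 1) + Real.exp (-(2 * σ 0) * z 0 + -(2 * σ 1) * z 1)) := by positivity
  rw [Real.le_log_iff_exp_le hpos]
  refine h2.trans ?_
  rw [Fin.sum_univ_three, Corner_tt0, Corner_tt1, Corner_tt2]
  have h3 : Real.exp (4 * tvs (be b1 b2) l) ≤ Real.exp (4 * C0 (be b1 b2)) :=
    Real.exp_le_exp.mpr (mul_le_mul_of_nonneg_left (tvs_le hl) (by norm_num))
  have h4 : 0 ≤ Real.exp (-(2 * σ 0) * z 0) + Real.exp (-(2 * σ 1) * z 1) +
      Real.exp (-(2 * σ 0) * z 0 + -(2 * σ 1) * z 1) := by positivity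
  have h5 := mul_le_mul_of_nonneg_right h3 h4
  linarith

/-- J3: the corners `(+,+)` and `(+,-)`: `Near_F0`, `Near_PsiL`, `C = exp(4 C0)` -/
theorem corner (b1 b2 : ℝ) : ∃ C : ℝ, 0 ≤ C ∧ ∀ l : List (Step (Fin 2)), Ok l →
    ∃ a a' : ℝ, a - a' = 4 * b1 * b2 * Gl l ∧
      (∀ z : Fin 2 → ℝ, 0 ≤ PsiL (be b1 b2) l F0 z - (z 0 + z 1 + a) ∧
        PsiL (be b1 b2) l F0 z - (z 0 + z 1 + a) ≤
          Real.log (1 + C * (Real.exp (-(2 * z 0)) + Real.exp (-(2 * z 1)) +
            Real.exp (-(2 * z 0) - 2 * z 1)))) ∧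
      (∀ z : Fin 2 → ℝ, 0 ≤ PsiL (be b1 b2) l F0 z - (z 0 - z 1 + a') ∧
        PsiL (be b1 b2) l F0 z - (z 0 - z 1 + a') ≤
          Real.log (1 + C * (Real.exp (-(2 * z 0)) + Real.exp (2 * z 1) +
            Real.exp (-(2 * z 0) + 2 * z 1)))) := by
  have hC : 0 ≤ Real.exp (4 * C0 (be b1 b2)) := (Real.exp_pos _).le
  refine ⟨Real.exp (4 * C0 (be b1 b2)), hC, fun l hl => ⟨aS (be b1 b2) ![1, 1] l, aS (be b1 b2) ![1, -1] l,
    aS_diff b1 b2 l, fun z => ?_, fun z => ?_⟩⟩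
  · have h := Corner_bd b1 b2 (σ := ![1, 1]) (fun c => by fin_cases c <;> simp) hl z
    have hd : dot (![1, 1] : Fin 2 → ℝ) z = z 0 + z 1 := by
      unfold dot
      rw [Fin.sum_univ_two]
      simp
    rw [hd] at h
    have e0 : -(2 * (![1, 1] : Fin 2 → ℝ) 0) * z 0 = -(2 * z 0) := by
      simp
    have e1 : -(2 * (![1, 1] : Fin 2 → ℝ) 1) * z 1 = -(2 * z 1) := by
      simp
    rw [e0, e1] at h
    have e2 : -(2 * z 0) + -(2 * z 1) = -(2 * z 0) - 2 * z 1 := by ring
    rw [e2] at h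
    exact h
  · have h := Corner_bd b1 b2 (σ := ![1, -1]) (fun c => by fin_cases c <;> simp) hl z
    have hd : dot (![1, -1] : Fin 2 → ℝ) z = z 0 - z 1 := by
      unfold dot
      rw [Fin.sum_univ_two]
      simp
      ring
    rw [hd] at h
    have e0 : -(2 * (![1, -1] : Fin 2 → ℝ) 0) * z 0 = -(2 * z 0) := by
      simp
    have e1 : -(2 * (![1, -1] : Fin 2 → ℝ) 1) * z 1 = 2 * z 1 := by
      simp
    rw [e0, e1] at h
    exact h

end Pair

end SKC.J
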