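import Pool.Agent.H.MP_08eaf3_pr.J.Lin
import Pool.Agent.H.MP_08eaf3_pr.B.Comp
import Pool.Agent.H.MP_08eaf3_pr.B.TxB

/-!
# Part J: derivatives of a step
-/

set_option autoImplicit false
set_option linter.unusedSectionVars false

open MeasureTheory ProbabilityTheory Filter Topology Matrix

namespace SKC.J

open SKC.A

section

variable {K : Type} [Fintype K] [DecidableEq K]

/-- `(e, x) ↦ f (e + B x)` is a `StepFn` : `SKC.B.stepFn_comp` with `s = 1` and the linear map `B` -/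
theorem stepFn_step {f : (K → ℝ) → ℝ} (hf : SKC.B.Adm f) (B : Matrix K K ℝ) :
    SKC.B.StepFn (fun (e : K → ℝ) (x : K → ℝ) => f (e + B.mulVec x)) := by
  have h1 := SKC.B.stepFn_comp hf (s := fun _ => (1 : ℝ)) contDiff_const ⟨1, fun e => by rw [abs_one]⟩
    ⟨0, fun e => by rw [fderiv_fun_const, Pi.zero_apply, norm_zero]⟩
    ⟨0, fun e => by
      have h2 : fderiv ℝ (fun _ : K → ℝ => (1 : ℝ)) = fun _ => 0 := by
        funext e
        rw [fderiv_fun_const, Pi.zero_apply]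
      rw [h2, fderiv_fun_const, Pi.zero_apply]
      exact le_of_eq ContinuousLinearMap.opNorm_zero⟩
    (LinearMap.toContinuousLinearMap (Matrix.mulVecLin B))
  have h3 : (fun (e : K → ℝ) (x : K → ℝ) =>
      f (e + (1 : ℝ) • (LinearMap.toContinuousLinearMap (Matrix.mulVecLin B)) x)) =
      fun e x => f (e + B.mulVec x) := by
    funext e x
    rw [one_smul]
    rfl
  rw [← h3]
  exact h1

/-- a step of an admissible function is admissible (`SKC.B.adm_Tx`, `SKC.B.Tm_eq`) -/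
theorem adm_Tm {f : (K → ℝ) → ℝ} (hf : SKC.B.Adm f) (m : ℝ) (B : Matrix K K ℝ) :
    SKC.B.Adm (Tm m B f) :=
  SKC.B.adm_Tx (stepFn_step hf B) m

/-- (`SKC.B.Tx_fderiv`, `SKC.B.comp_const_fderiv`) -/
theorem fderiv_Tm {f : (K → ℝ) → ℝ} (hf : SKC.B.Adm f) (m : ℝ) (B : Matrix K K ℝ) (z v : K → ℝ) :
    fderiv ℝ (Tm m B f) z v = Es m B f (fun y => fderiv ℝ f y v) z := by
  have h1 := (SKC.B.Tx_fderiv (stepFn_step hf B) m).2 z v
  have h2 : (fun x : K → ℝ => fderiv ℝ (fun e' : K → ℝ => f (e' + B.mulVec x)) z v) =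
      fun x => fderiv ℝ f (z + B.mulVec x) v := by
    funext x
    exact SKC.B.comp_const_fderiv hf.cd _ _ _
  rw [h2] at h1
  exact h1

/-- (`SKC.B.Tx_fderiv2`, `SKC.B.comp_const_fderiv`, `SKC.B.comp_const_fderiv2`) -/
theorem fderiv2_Tm {f : (K → ℝ) → ℝ} (hf : SKC.B.Adm f) (m : ℝ) (B : Matrix K K ℝ) (z v w : K → ℝ) :
    fderiv ℝ (fderiv ℝ (Tm m B f)) z v w +
        m * (fderiv ℝ (Tm m B f) z v * fderiv ℝ (Tm m B f) z w) =
      Es m B f (fun y => fderiv ℝ (fderiv ℝ f) y v w + m * (fderiv ℝ f y v * fderiv ℝ f y w)) z := by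
  have h1 := SKC.B.Tx_fderiv2 (stepFn_step hf B) m z v w
  have h2 : (fun x : K → ℝ => fderiv ℝ (fderiv ℝ (fun e' : K → ℝ => f (e' + B.mulVec x))) z v w +
        m * (fderiv ℝ (fun e' : K → ℝ => f (e' + B.mulVec x)) z v *
          fderiv ℝ (fun e' : K → ℝ => f (e' + B.mulVec x)) z w)) =
      fun x => fderiv ℝ (fderiv ℝ f) (z + B.mulVec x) v w +
        m * (fderiv ℝ f (z + B.mulVec x) v * fderiv ℝ f (z + B.mulVec x) w) := by
    funext x
    rw [SKC.B.comp_const_fderiv2 hf.cd, SKC.B.comp_const_fderiv hf.cd,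
      SKC.B.comp_const_fderiv hf.cd]
  rw [h2] at h1
  exact h1

/-- first and second derivatives of an admissible function are in the class `EG` (they are continuous
and bounded) -/
theorem EG_fderiv {f : (K → ℝ) → ℝ} (hf : SKC.B.Adm f) (v : K → ℝ) :
    EG (fun y => fderiv ℝ f y v) := by
  obtain ⟨C, hC⟩ := hf.b1
  have hc : Continuous (fderiv ℝ f) := hf.cd.continuous_fderiv (by norm_num)
  refine EG.of_bdd (hc.clm_apply continuous_const) (A := C * ‖v‖) fun z => ?_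
  rw [← Real.norm_eq_abs]
  exact ((fderiv ℝ f z).le_opNorm v).trans (mul_le_mul_of_nonneg_right (hC z) (norm_nonneg v))

theorem EG_fderiv2 {f : (K → ℝ) → ℝ} (hf : SKC.B.Adm f) (v w : K → ℝ) :
    EG (fun y => fderiv ℝ (fderiv ℝ f) y v w) := by
  obtain ⟨C, hC⟩ := hf.b2
  have hc : Continuous (fderiv ℝ (fderiv ℝ f)) :=
    (hf.cd.fderiv_right (m := 1) (by norm_num)).continuous_fderiv (by norm_num)
  refine EG.of_bdd ((hc.clm_apply continuous_const).clm_apply continuous_const)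
    (A := C * ‖v‖ * ‖w‖) fun z => ?_
  rw [← Real.norm_eq_abs]
  refine ((fderiv ℝ (fderiv ℝ f) z v).le_opNorm w).trans ?_
  refine mul_le_mul_of_nonneg_right ?_ (norm_nonneg w)
  exact ((fderiv ℝ (fderiv ℝ f) z).le_opNorm v).trans
    (mul_le_mul_of_nonneg_right (hC z) (norm_nonneg v))

end

end SKC.J
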