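import Pool.Agent.H.MP_08eaf3_pr.J.F0
import Pool.Agent.H.MP_08eaf3_pr.J.DerT

/-!
# Part J: derivatives of the level functions (J1)
-/

set_option autoImplicit false
set_option linter.unusedSectionVars false

open MeasureTheory ProbabilityTheory Filter Topology Matrix

namespace SKC.J

open SKC.A

section

variable {K : Type} [Fintype K] [DecidableEq K]

/-- expansion of a second derivative in its first argument -/
theorem Der_lin (L : (K → ℝ) →L[ℝ] ((K → ℝ) →L[ℝ] ℝ)) (v w : K → ℝ) :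
    L v w = ∑ d, v d * L (Pi.single d 1) w := by
  have h : v = ∑ d, v d • (Pi.single d (1 : ℝ) : K → ℝ) := by
    ext1 j
    simp [Finset.sum_apply, Pi.single_apply]
  conv_lhs => rw [h]
  rw [map_sum, _root_.sum_apply]
  apply Finset.sum_congr rfl
  intro d _
  rw [map_smul, _root_.smul_apply, smul_eq_mul]

/-- induction with `adm_F0`, `adm_Tm` -/
theorem adm_PsiL (β : K → ℝ) (l : List (Step K)) : SKC.B.Adm (PsiL β l F0) := by
  induction l with
  | nil => exact adm_F0
  | cons s l ih => exact adm_Tm ih s.1 (Bm β s.2)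

/-- the magnetisation is the derivative in the direction `single c 1`: induction with `fderiv_Tm`, `fderiv_F0` -/
theorem PsiL_fderiv (β : K → ℝ) (l : List (Step K)) (c : K) (z : K → ℝ) :
    fderiv ℝ (PsiL β l F0) z (Pi.single c 1) = Mg β l c z := by
  induction l generalizing z with
  | nil =>
    show fderiv ℝ (F0 : (K → ℝ) → ℝ) z (Pi.single c 1) = Real.tanh (z c)
    rw [fderiv_F0, Finset.sum_eq_single c]
    · rw [Pi.single_eq_same, mul_one]
    · intro d _ hd
      rw [Pi.single_eq_of_ne hd, mul_zero]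
    · intro hc
      exact absurd (Finset.mem_univ c) hc
  | cons s l ih =>
    show fderiv ℝ (Tm s.1 (Bm β s.2) (PsiL β l F0)) z (Pi.single c 1) =
      Es s.1 (Bm β s.2) (PsiL β l F0) (Mg β l c) z
    rw [fderiv_Tm (adm_PsiL β l), funext ih]

/-- the Hessian is positive semidefinite. Induction: for `[]` by `fderiv2_F0`; for a step by
`fderiv2_Tm`: `D²T(v,v) + m (DT v)² = Es[D²f(v,v) + m (Df v)²] ≥ m Es[(Df v)²] ≥ m (Es[Df v])² = m (DT v)²`
(`Es_sq_le`, `fderiv_Tm`, `m ≥ 0`). -/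
theorem PsiL_hess_nonneg (β : K → ℝ) (l : List (Step K)) (hl : ∀ a ∈ l, 0 ≤ a.1) (z v : K → ℝ) :
    0 ≤ fderiv ℝ (fderiv ℝ (PsiL β l F0)) z v v := by
  induction l generalizing z with
  | nil =>
    show 0 ≤ fderiv ℝ (fderiv ℝ (F0 : (K → ℝ) → ℝ)) z v v
    rw [fderiv2_F0]
    apply Finset.sum_nonneg
    intro c _
    have h1 := abs_tanh_lt (z c)
    have h2 : Real.tanh (z c) ^ 2 ≤ 1 := by
      rw [← sq_abs]
      exact pow_le_one₀ (abs_nonneg _) h1.le
    exact mul_nonneg (by linarith) (mul_self_nonneg _)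
  | cons s l ih =>
    show 0 ≤ fderiv ℝ (fderiv ℝ (Tm s.1 (Bm β s.2) (PsiL β l F0))) z v v
    have hA := adm_PsiL β l
    have hm : 0 ≤ s.1 := hl s (List.mem_cons_self)
    have hL : LG (PsiL β l (F0 : (K → ℝ) → ℝ)) := LG_PsiL β l LG_F0
    have h1 := fderiv2_Tm hA s.1 (Bm β s.2) z v v
    have h2 := fderiv_Tm hA s.1 (Bm β s.2) z v
    have hE1 := EG_fderiv hA v
    have hE2 := EG_fderiv2 hA v v
    have h3 := Es_sq_le hL hE1 s.1 (Bm β s.2) z
    have h4 := Es_mono hL ((hE1.mul hE1).const_mul s.1)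
      (hE2.add ((hE1.mul hE1).const_mul s.1)) (fun y => by
        have := ih (fun a ha => hl a (List.mem_cons_of_mem s ha)) y
        linarith) s.1 (Bm β s.2) z
    rw [Es_smul] at h4
    rw [h2] at h1
    have h5 : Es s.1 (Bm β s.2) (PsiL β l F0) (fun y => fderiv ℝ (PsiL β l F0) y v ^ 2) z =
        Es s.1 (Bm β s.2) (PsiL β l F0)
          (fun y => fderiv ℝ (PsiL β l F0) y v * fderiv ℝ (PsiL β l F0) y v) z := by
      congr 1
      funext y
      ring
    rw [h5] at h3
    have h6 := mul_le_mul_of_nonneg_left h3 hm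
    nlinarith

/-- diagonal of the Hessian. Induction with `fderiv2_Tm` and `m ≤ 1`:
`T_cc + m (T_c)² = Es[f_cc + m f_c²] ≤ Es[1 - (1-m) f_c²] ≤ 1 - (1-m) (T_c)²`. Base: `fderiv2_F0`. -/
theorem PsiL_hess_le (β : K → ℝ) (l : List (Step K)) (hl : ∀ a ∈ l, a.1 ≤ 1) (c : K)
    (z : K → ℝ) :
    fderiv ℝ (fderiv ℝ (PsiL β l F0)) z (Pi.single c 1) (Pi.single c 1) ≤
      1 - fderiv ℝ (PsiL β l F0) z (Pi.single c 1) ^ 2 := by
  induction l generalizing z with
  | nil =>
    show fderiv ℝ (fderiv ℝ (F0 : (K → ℝ) → ℝ)) z (Pi.single c 1) (Pi.single c 1) ≤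
      1 - fderiv ℝ (F0 : (K → ℝ) → ℝ) z (Pi.single c 1) ^ 2
    have h1 : fderiv ℝ (F0 : (K → ℝ) → ℝ) z (Pi.single c 1) = Real.tanh (z c) := by
      rw [fderiv_F0, Finset.sum_eq_single c]
      · rw [Pi.single_eq_same, mul_one]
      · intro d _ hd
        rw [Pi.single_eq_of_ne hd, mul_zero]
      · intro hc
        exact absurd (Finset.mem_univ c) hc
    have h2 : fderiv ℝ (fderiv ℝ (F0 : (K → ℝ) → ℝ)) z (Pi.single c 1) (Pi.single c 1) =
        1 - Real.tanh (z c) ^ 2 := by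
      rw [fderiv2_F0, Finset.sum_eq_single c]
      · rw [Pi.single_eq_same, mul_one, mul_one]
      · intro d _ hd
        rw [Pi.single_eq_of_ne hd, mul_zero, mul_zero]
      · intro hc
        exact absurd (Finset.mem_univ c) hc
    rw [h1, h2]
  | cons s l ih =>
    show fderiv ℝ (fderiv ℝ (Tm s.1 (Bm β s.2) (PsiL β l F0))) z (Pi.single c 1) (Pi.single c 1) ≤
      1 - fderiv ℝ (Tm s.1 (Bm β s.2) (PsiL β l F0)) z (Pi.single c 1) ^ 2
    have hA := adm_PsiL β l
    have hm : s.1 ≤ 1 := hl s (List.mem_cons_self)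
    have hL : LG (PsiL β l (F0 : (K → ℝ) → ℝ)) := LG_PsiL β l LG_F0
    have h1 := fderiv2_Tm hA s.1 (Bm β s.2) z (Pi.single c 1) (Pi.single c 1)
    have h2 := fderiv_Tm hA s.1 (Bm β s.2) z (Pi.single c 1)
    have hE1 := EG_fderiv hA (Pi.single c 1)
    have hE2 := EG_fderiv2 hA (Pi.single c 1) (Pi.single c 1)
    have h3 := Es_sq_le hL hE1 s.1 (Bm β s.2) z
    have h4 := Es_mono hL (hE2.add ((hE1.mul hE1).const_mul s.1))
      ((EG.const 1).sub ((hE1.pow 2).const_mul (1 - s.1))) (fun y => by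
        have := ih (fun a ha => hl a (List.mem_cons_of_mem s ha)) y
        nlinarith) s.1 (Bm β s.2) z
    rw [Es_sub hL (EG.const 1) ((hE1.pow 2).const_mul (1 - s.1)), Es_smul, Es_const hL] at h4
    rw [h2] at h1 ⊢
    have h6 := mul_le_mul_of_nonneg_left h3 (sub_nonneg.mpr hm)
    nlinarith

/-- all entries of the Hessian are at most `1`: positive semidefiniteness for
`v = single c 1 ± single d 1` (symmetry of the second derivative: `ContDiffAt.isSymmSndFDerivAt` or
`second_derivative_symmetric`), and `PsiL_hess_le` -/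
theorem PsiL_hess_abs (β : K → ℝ) (l : List (Step K)) (hl : ∀ a ∈ l, 0 ≤ a.1 ∧ a.1 ≤ 1) (c d : K)
    (z : K → ℝ) :
    |fderiv ℝ (fderiv ℝ (PsiL β l F0)) z (Pi.single d 1) (Pi.single c 1)| ≤ 1 := by
  obtain ⟨L, hL⟩ : ∃ L, L = fderiv ℝ (fderiv ℝ (PsiL β l F0)) z := ⟨_, rfl⟩
  have hsym : ∀ v w : K → ℝ, L v w = L w v := by
    have h1 : ContDiffAt ℝ 2 (PsiL β l F0) z := (adm_PsiL β l).cd.contDiffAt
    have h2 := h1.isSymmSndFDerivAt (by simp)
    intro v w
    rw [hL]
    exact h2 v w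
  have hnn : ∀ v : K → ℝ, 0 ≤ L v v := by
    intro v
    rw [hL]
    exact PsiL_hess_nonneg β l (fun a ha => (hl a ha).1) z v
  have hle : ∀ e : K, L (Pi.single e 1) (Pi.single e 1) ≤ 1 := by
    intro e
    have h1 := PsiL_hess_le β l (fun a ha => (hl a ha).2) e z
    rw [← hL] at h1
    nlinarith [sq_nonneg (fderiv ℝ (PsiL β l F0) z (Pi.single e 1))]
  rw [← hL]
  have h1 := hnn (Pi.single d 1 + Pi.single c 1)
  have h2 := hnn (Pi.single d 1 - Pi.single c 1)
  simp only [map_add, _root_.add_apply] at h1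
  simp only [map_sub, _root_.sub_apply] at h2
  have h3 := hsym (Pi.single c 1) (Pi.single d 1)
  have h4 := hle c
  have h5 := hle d
  rw [abs_le]
  constructor <;> linarith

/-- J1: the magnetisation is the derivative (chain rule with `adm_PsiL`, `PsiL_fderiv`) -/
theorem PsiL_deriv (β : K → ℝ) (l : List (Step K)) (c : K) (z : K → ℝ) :
    HasDerivAt (fun h : ℝ => PsiL β l F0 (z + h • Pi.single c 1)) (Mg β l c z) 0 := by
  have hA := adm_PsiL β l
  have h1 : HasFDerivAt (PsiL β l F0) (fderiv ℝ (PsiL β l F0) z) z :=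
    (hA.cd.differentiable (by norm_num) z).hasFDerivAt
  have h2 : HasDerivAt (fun h : ℝ => z + h • (Pi.single c (1 : ℝ) : K → ℝ)) (Pi.single c 1) 0 := by
    have h3 := ((hasDerivAt_id (0 : ℝ)).smul_const (Pi.single c (1 : ℝ) : K → ℝ)).const_add z
    simpa using h3
  have h4 : z + (0 : ℝ) • (Pi.single c (1 : ℝ) : K → ℝ) = z := by simp
  have h5 := HasFDerivAt.comp_hasDerivAt (x := (0 : ℝ)) (l := PsiL β l F0)
    (l' := fderiv ℝ (PsiL β l F0) z)
    (f := fun h : ℝ => z + h • (Pi.single c (1 : ℝ) : K → ℝ)) (f' := Pi.single c 1)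
    (by rw [h4]; exact h1) h2
  rw [PsiL_fderiv] at h5
  exact h5

/-- J1: Lipschitz bound: `g t = Mg (z' + t (z - z')) = fderiv Ψ (z' + t (z-z')) (single c 1)` has derivative
`∑_d D²Ψ(single d 1, single c 1) (z-z')_d`, bounded by `n1 (z - z')` by `PsiL_hess_abs`; mean value theorem
(`Convex.norm_image_sub_le_of_norm_hasDerivWithin_le` or `image_norm_le_of_norm_deriv_right_le_deriv_boundary`) -/
theorem Mg_lip (β : K → ℝ) (l : List (Step K)) (hl : ∀ a ∈ l, 0 ≤ a.1 ∧ a.1 ≤ 1) (c : K)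
    (z z' : K → ℝ) : |Mg β l c z - Mg β l c z'| ≤ n1 (z - z') := by
  have hA := adm_PsiL β l
  have hcd : ContDiff ℝ 1 (fderiv ℝ (PsiL β l F0)) :=
    hA.cd.fderiv_right (by norm_num)
  have hd : ∀ t : ℝ, HasDerivAt
      (fun t : ℝ => fderiv ℝ (PsiL β l F0) (z' + t • (z - z')) (Pi.single c 1))
      (fderiv ℝ (fderiv ℝ (PsiL β l F0)) (z' + t • (z - z')) (z - z') (Pi.single c 1)) t := by
    intro t
    have h1 : HasFDerivAt (fderiv ℝ (PsiL β l F0))
        (fderiv ℝ (fderiv ℝ (PsiL β l F0)) (z' + t • (z - z'))) (z' + t • (z - z')) :=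
      (hcd.differentiable (by norm_num) _).hasFDerivAt
    have h2 : HasDerivAt (fun h : ℝ => z' + h • (z - z')) (z - z') t := by
      have h3 := ((hasDerivAt_id t).smul_const (z - z')).const_add z'
      simpa using h3
    have h3 := h1.comp_hasDerivAt t h2
    have h4 := h3.clm_apply (hasDerivAt_const t (Pi.single c (1 : ℝ) : K → ℝ))
    simpa using h4
  have hb : ∀ t : ℝ, ‖fderiv ℝ (fderiv ℝ (PsiL β l F0)) (z' + t • (z - z')) (z - z')
      (Pi.single c 1)‖ ≤ n1 (z - z') := by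
    intro t
    rw [Der_lin, Real.norm_eq_abs]
    unfold n1
    refine (Finset.abs_sum_le_sum_abs _ _).trans (Finset.sum_le_sum fun d _ => ?_)
    rw [abs_mul]
    calc |(z - z') d| * _ ≤ |(z - z') d| * 1 :=
          mul_le_mul_of_nonneg_left (PsiL_hess_abs β l hl c d _) (abs_nonneg _)
      _ = _ := mul_one _
  have h := norm_image_sub_le_of_norm_deriv_le_segment_01'
    (fun t _ => (hd t).hasDerivWithinAt) (fun t _ => hb t)
  simp only [one_smul, zero_smul, add_zero, add_sub_cancel] at h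
  rw [PsiL_fderiv, PsiL_fderiv, Real.norm_eq_abs] at h
  exact h

end

end SKC.J
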