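import Pool.Agent.H.MP_08eaf3_pr.J.F0

/-!
# Part J: bounds of the level functions (J2), convexity, Lipschitz bound
-/

set_option autoImplicit false
set_option linter.unusedSectionVars false

open MeasureTheory ProbabilityTheory Filter Topology Matrix

namespace SKC.J

open SKC.A

section

variable {K : Type} [Fintype K] [DecidableEq K]

/-- induction with `F0_lip`, `Tm_lip` -/
theorem PsiL_lip (β : K → ℝ) (l : List (Step K)) (z z' : K → ℝ) :
    |PsiL β l F0 z - PsiL β l F0 z'| ≤ n1 (z - z') := by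
  induction l generalizing z z' with
  | nil => exact F0_lip z z'
  | cons s l ih =>
    have h := Tm_lip (LG_PsiL β l LG_F0) (L := 1)
      (fun y y' => by rw [one_mul]; exact ih y y') s.1 (Bm β s.2) z z'
    rw [one_mul] at h
    exact h

theorem Bd_LG_n1 : LG (n1 : (K → ℝ) → ℝ) := by
  refine ⟨continuous_n1, 1, fun z => ?_⟩
  rw [abs_of_nonneg (n1_nonneg z)]
  linarith

theorem Bd_n1_two (z : K → ℝ) : n1 (z + z) = 2 * n1 z := by
  unfold n1
  rw [Finset.mul_sum]
  refine Finset.sum_congr rfl fun c _ => ?_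
  rw [Pi.add_apply, ← two_mul, abs_mul, abs_two]

/-- `E |z_c + (B x)_c| ≥ |z_c|` for every `c` (Jensen, the mean of `(B x)_c` is `0`: `integral_dot`) -/
theorem n1_le_avg (B : Matrix K K ℝ) (z : K → ℝ) : n1 z ≤ ∫ x, n1 (z + B.mulVec x) ∂(gam K) := by
  have h1 := integral_gam_neg (fun x => n1 (z + B.mulVec x))
  have i1 : Integrable (fun x => n1 (z + B.mulVec x)) (gam K) := int_LG Bd_LG_n1 B z
  have i2 : Integrable (fun x => n1 (z + B.mulVec (-x))) (gam K) := by
    have h2 := int_LG Bd_LG_n1 (-B) z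
    refine h2.congr (Filter.Eventually.of_forall fun x => ?_)
    beta_reduce
    rw [Matrix.mulVec_neg, Matrix.neg_mulVec]
  have h3 : ∫ _x, 2 * n1 z ∂(gam K) ≤
      ∫ x, (n1 (z + B.mulVec x) + n1 (z + B.mulVec (-x))) ∂(gam K) := by
    refine integral_mono (integrable_const _) (i1.add i2) fun x => ?_
    have h4 := n1_add_le (z + B.mulVec x) (z + B.mulVec (-x))
    have h5 : z + B.mulVec x + (z + B.mulVec (-x)) = z + z := by
      rw [Matrix.mulVec_neg]
      abel
    rw [h5, Bd_n1_two] at h4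
    exact h4
  rw [integral_add i1 i2, integral_const, probReal_univ, one_smul] at h3
  beta_reduce at h1
  linarith

/-- lower bound, general terminal function: `Tm_ge_avg`, `n1_le_avg`, induction -/
theorem PsiL_ge (β : K → ℝ) (l : List (Step K)) (hl : ∀ a ∈ l, 0 ≤ a.1) {F : (K → ℝ) → ℝ}
    (hF : LG F) (h : ∀ z, n1 z ≤ F z) (z : K → ℝ) : n1 z ≤ PsiL β l F z := by
  induction l generalizing z with
  | nil => exact h z
  | cons s l ih =>
    have ih' := ih (fun a ha => hl a (List.mem_cons_of_mem s ha))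
    have hG := LG_PsiL β l hF
    calc n1 z ≤ ∫ x, n1 (z + (Bm β s.2).mulVec x) ∂(gam K) := n1_le_avg _ z
      _ ≤ ∫ x, PsiL β l F (z + (Bm β s.2).mulVec x) ∂(gam K) :=
          integral_mono (int_LG Bd_LG_n1 _ z) (int_LG hG _ z) fun x => ih' _
      _ ≤ Tm s.1 (Bm β s.2) (PsiL β l F) z := Tm_ge_avg hG (hl s List.mem_cons_self) _ z
      _ = PsiL β (s :: l) F z := rfl

theorem Bd_exp_F0 (y : K → ℝ) :
    Real.exp (F0 y) = ∑ s : K → Bool, Real.exp (dot (fun c => sg (s c)) y) := by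
  rw [F0_lse]
  unfold lse
  rw [Real.exp_log (Finset.sum_pos (fun _ _ => Real.exp_pos _) Finset.univ_nonempty)]
  rfl

theorem Bd_sg (b : Bool) : |sg b| ≤ 1 := by
  cases b <;> simp [sg]

theorem Bd_exp_avg (β : K → ℝ) (E : Matrix K K ℝ) (θ : K → ℝ) (hθ : ∀ c, |θ c| ≤ 1) (z : K → ℝ) :
    Integrable (fun x => Real.exp (dot θ (z + (Bm β E).mulVec x))) (gam K) ∧
    ∫ x, Real.exp (dot θ (z + (Bm β E).mulVec x)) ∂(gam K) ≤
      Real.exp (dot θ z) * Real.exp (tv β E / 2) := by
  have e0 : ∀ y : K → ℝ, Real.exp (dot θ y) = Real.exp (dot y θ) := fun y => by rw [dot_comm]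
  constructor
  · have h1 := int_EG (EG.exp_dot θ) (Bm β E) z
    refine h1.congr (Filter.Eventually.of_forall fun x => ?_)
    beta_reduce
    rw [e0]
  · have h1 := cm_step' (Bm β E) θ (fun _ => 1)
    simp only [one_mul, integral_const, probReal_univ, smul_eq_mul, mul_one] at h1
    have h2 : ∫ x, Real.exp (dot θ (z + (Bm β E).mulVec x)) ∂(gam K) =
        Real.exp (dot θ z) * ∫ x, Real.exp (dot θ ((Bm β E).mulVec x)) ∂(gam K) := by
      rw [← integral_const_mul]
      refine integral_congr_ae (Filter.Eventually.of_forall fun x => ?_)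
      beta_reduce
      rw [dot_add_right, Real.exp_add]
    rw [h2, h1]
    refine mul_le_mul_of_nonneg_left (Real.exp_le_exp.2 ?_) (Real.exp_pos _).le
    have h3 := abs_quad_le β E hθ hθ
    linarith [(abs_le.1 h3).2]

/-- `E exp(F0 (z + B x)) ≤ exp(F0 z + tv/2)`: `exp F0 = ∑_s exp <s, z>`, `cm_step'` with `G = 1` (or
`integral_exp_dot`) and `abs_quad_le` -/
theorem exp_F0_avg_le (β : K → ℝ) (E : Matrix K K ℝ) (z : K → ℝ) :
    ∫ x, Real.exp (F0 (z + (Bm β E).mulVec x)) ∂(gam K) ≤ Real.exp (F0 z + tv β E / 2) := by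
  simp only [Bd_exp_F0]
  have hb := fun s : K → Bool => Bd_exp_avg β E (fun c => sg (s c)) (fun c => Bd_sg (s c)) z
  rw [integral_finsetSum _ fun s _ => (hb s).1, Real.exp_add, Bd_exp_F0, Finset.sum_mul]
  exact Finset.sum_le_sum fun s _ => (hb s).2

/-- upper bound: `f ≤ F0 + a` implies `T_m f ≤ F0 + a + tv/2` (`Tm_mono'`, `Tm_add_const`, `exp_Tm_le`,
`exp_F0_avg_le`); induction over the list -/
theorem PsiL_le (β : K → ℝ) (l : List (Step K)) (hl : ∀ a ∈ l, 0 ≤ a.1 ∧ a.1 ≤ 1) (z : K → ℝ) :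
    PsiL β l F0 z ≤ F0 z + tvs β l / 2 := by
  induction l generalizing z with
  | nil =>
    show (F0 z : ℝ) ≤ F0 z + 0 / 2
    linarith
  | cons s l ih =>
    have ih' := ih (fun a ha => hl a (List.mem_cons_of_mem s ha))
    have hs := hl s List.mem_cons_self
    have hG := LG_PsiL β l (LG_F0 (K := K))
    have h1 : Tm s.1 (Bm β s.2) (PsiL β l F0) z ≤
        Tm s.1 (Bm β s.2) (fun y => F0 y + tvs β l / 2) z :=
      Tm_mono' hG (LG_F0.add (LG.const _)) ih' _ _ z
    rw [Tm_add_const LG_F0] at h1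
    have h2 := (exp_Tm_le LG_F0 hs.1 hs.2 (Bm β s.2) z).trans (exp_F0_avg_le β s.2 z)
    have h3 := Real.exp_le_exp.1 h2
    show Tm s.1 (Bm β s.2) (PsiL β l F0) z ≤ F0 z + (tv β s.2 + tvs β l) / 2
    linarith

/-- constant of J2 -/
noncomputable def C2 (β : K → ℝ) : ℝ := C0 β / 2 + Fintype.card K * Real.log 2

theorem C2_nonneg (β : K → ℝ) : 0 ≤ C2 β := by
  unfold C2
  have h1 := C0_nonneg β
  have h2 : 0 ≤ (Fintype.card K : ℝ) * Real.log 2 :=
    mul_nonneg (Nat.cast_nonneg _) (Real.log_nonneg (by norm_num))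
  linarith

/-- J2 -/
theorem PsiL_bounds' (β : K → ℝ) (l : List (Step K)) (hl : Ok l) (z : K → ℝ) :
    n1 z ≤ PsiL β l F0 z ∧ PsiL β l F0 z ≤ n1 z + C2 β := by
  refine ⟨PsiL_ge β l (fun a ha => (hl.2.1 a ha).1) LG_F0 n1_le_F0 z, ?_⟩
  have h1 := PsiL_le β l hl.2.1 z
  have h2 := F0_le z
  have h3 := tvs_le (β := β) hl
  unfold C2
  linarith

theorem Bd_aff (B : Matrix K K ℝ) (z w x : K → ℝ) {a b : ℝ} (hab : a + b = 1) :
    a • z + b • w + B.mulVec x = a • (z + B.mulVec x) + b • (w + B.mulVec x) := by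
  have h1 : B.mulVec x = a • B.mulVec x + b • B.mulVec x := by
    rw [← add_smul, hab, one_smul]
  conv_lhs => rw [h1]
  rw [smul_add, smul_add]
  abel

theorem Bd_exp_conv {s t P Q a b : ℝ} (ha : 0 ≤ a) (hb : 0 ≤ b) (hab : a + b = 1) (hP : 0 < P)
    (hQ : 0 < Q) : Real.exp (a * s + b * t) ≤
      Real.exp (a * Real.log P + b * Real.log Q) *
        (a * (P⁻¹ * Real.exp s) + b * (Q⁻¹ * Real.exp t)) := by
  have h1 := convexOn_exp.2 (Set.mem_univ (s - Real.log P)) (Set.mem_univ (t - Real.log Q)) ha hb hab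
  simp only [smul_eq_mul] at h1
  rw [Real.exp_sub, Real.exp_sub, Real.exp_log hP, Real.exp_log hQ] at h1
  have h2 : Real.exp (a * s + b * t) = Real.exp (a * Real.log P + b * Real.log Q) *
      Real.exp (a * (s - Real.log P) + b * (t - Real.log Q)) := by
    rw [← Real.exp_add]
    congr 1
    ring
  rw [h2]
  refine mul_le_mul_of_nonneg_left (h1.trans (le_of_eq ?_)) (Real.exp_pos _).le
  rw [div_eq_inv_mul, div_eq_inv_mul]

/-- convexity of a step, `m ≥ 0`. For `m = 0` linearity. For `m > 0` and `0 < a, b`, `a + b = 1`, put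
`P = ∫ exp(m f(z+Bx))`, `Q = ∫ exp(m f(w+Bx))`; then `f(a z + b w + Bx) ≤ a f(z+Bx) + b f(w+Bx)` and by convexity of `exp`
`exp(a (m f(z+Bx) - log P) + b (m f(w+Bx) - log Q)) ≤ a exp(m f(z+Bx) - log P) + b exp(m f(w+Bx) - log Q)`;
integrate: `∫ exp(m f(az+bw+Bx)) ≤ exp(a log P + b log Q) (a + b)`. -/
theorem Tm_convex {f : (K → ℝ) → ℝ} (hf : LG f) (hc : ConvexOn ℝ Set.univ f) {m : ℝ} (hm : 0 ≤ m)
    (B : Matrix K K ℝ) : ConvexOn ℝ Set.univ (Tm m B f) := by
  refine ⟨convex_univ, fun z _ w _ a b ha hb hab => ?_⟩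
  have key : ∀ x : K → ℝ, f (a • z + b • w + B.mulVec x) ≤
      a * f (z + B.mulVec x) + b * f (w + B.mulVec x) := by
    intro x
    rw [Bd_aff B z w x hab]
    have h1 := hc.2 (Set.mem_univ (z + B.mulVec x)) (Set.mem_univ (w + B.mulVec x)) ha hb hab
    simpa only [smul_eq_mul] using h1
  simp only [smul_eq_mul]
  rcases hm.eq_or_lt with h0 | h0
  · rw [← h0, Tm_zero, Tm_zero, Tm_zero, ← integral_const_mul, ← integral_const_mul,
      ← integral_add ((int_LG hf B z).const_mul a) ((int_LG hf B w).const_mul b)]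
    exact integral_mono (int_LG hf B _)
      (((int_LG hf B z).const_mul a).add ((int_LG hf B w).const_mul b)) key
  · rw [Tm_ne h0.ne', Tm_ne h0.ne', Tm_ne h0.ne']
    have hP := Z_pos hf m B z
    have hQ := Z_pos hf m B w
    set P : ℝ := ∫ x, Real.exp (m * f (z + B.mulVec x)) ∂(gam K) with hPdef
    set Q : ℝ := ∫ x, Real.exp (m * f (w + B.mulVec x)) ∂(gam K) with hQdef
    have i1 := ((int_exp hf m B z).const_mul P⁻¹).const_mul a
    have i2 := ((int_exp hf m B w).const_mul Q⁻¹).const_mul b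
    have h2 : ∫ x, Real.exp (m * f (a • z + b • w + B.mulVec x)) ∂(gam K) ≤
        Real.exp (a * Real.log P + b * Real.log Q) := by
      have h3 : ∫ x, Real.exp (a * Real.log P + b * Real.log Q) *
          (a * (P⁻¹ * Real.exp (m * f (z + B.mulVec x))) +
            b * (Q⁻¹ * Real.exp (m * f (w + B.mulVec x)))) ∂(gam K) =
          Real.exp (a * Real.log P + b * Real.log Q) := by
        rw [integral_const_mul, integral_add i1 i2, integral_const_mul, integral_const_mul,
          integral_const_mul, integral_const_mul, ← hPdef, ← hQdef, inv_mul_cancel₀ hP.ne',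
          inv_mul_cancel₀ hQ.ne', mul_one, mul_one, hab, mul_one]
      rw [← h3]
      refine integral_mono (int_exp hf m B _) ((i1.add i2).const_mul _) fun x => ?_
      refine le_trans (Real.exp_le_exp.2 ?_) (Bd_exp_conv ha hb hab hP hQ)
      calc m * f (a • z + b • w + B.mulVec x)
          ≤ m * (a * f (z + B.mulVec x) + b * f (w + B.mulVec x)) :=
            mul_le_mul_of_nonneg_left (key x) h0.le
        _ = a * (m * f (z + B.mulVec x)) + b * (m * f (w + B.mulVec x)) := by ring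
    have h4 : Real.log (∫ x, Real.exp (m * f (a • z + b • w + B.mulVec x)) ∂(gam K)) ≤
        a * Real.log P + b * Real.log Q := by
      rw [Real.log_le_iff_le_exp (Z_pos hf m B _)]
      exact h2
    calc 1 / m * Real.log (∫ x, Real.exp (m * f (a • z + b • w + B.mulVec x)) ∂(gam K))
        ≤ 1 / m * (a * Real.log P + b * Real.log Q) :=
          mul_le_mul_of_nonneg_left h4 (one_div_nonneg.2 h0.le)
      _ = a * (1 / m * Real.log P) + b * (1 / m * Real.log Q) := by ring

/-- the same argument with a finite sum (`exp F0 = ∑_s exp <s,z>`), or from `F0_eq` (`log (2 cosh t)` is convex) -/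
theorem F0_convex : ConvexOn ℝ Set.univ (F0 : (K → ℝ) → ℝ) := by
  refine ⟨convex_univ, fun z _ w _ a b ha hb hab => ?_⟩
  simp only [smul_eq_mul]
  have hP := Real.exp_pos (F0 z : ℝ)
  have hQ := Real.exp_pos (F0 w : ℝ)
  set P : ℝ := Real.exp (F0 z) with hPdef
  set Q : ℝ := Real.exp (F0 w) with hQdef
  have h2 : Real.exp (F0 (a • z + b • w)) ≤ Real.exp (a * Real.log P + b * Real.log Q) := by
    have h3 : ∑ s : K → Bool, Real.exp (a * Real.log P + b * Real.log Q) *
        (a * (P⁻¹ * Real.exp (dot (fun c => sg (s c)) z)) +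
          b * (Q⁻¹ * Real.exp (dot (fun c => sg (s c)) w))) =
        Real.exp (a * Real.log P + b * Real.log Q) := by
      rw [← Finset.mul_sum, Finset.sum_add_distrib, ← Finset.mul_sum, ← Finset.mul_sum,
        ← Finset.mul_sum, ← Finset.mul_sum, ← Bd_exp_F0, ← Bd_exp_F0, ← hPdef, ← hQdef,
        inv_mul_cancel₀ hP.ne', inv_mul_cancel₀ hQ.ne', mul_one, mul_one, hab, mul_one]
    rw [← h3, Bd_exp_F0]
    refine Finset.sum_le_sum fun s _ => ?_
    have h4 : dot (fun c => sg (s c)) (a • z + b • w) =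
        a * dot (fun c => sg (s c)) z + b * dot (fun c => sg (s c)) w := by
      rw [dot_add_right, dot_smul_right, dot_smul_right]
    rw [h4]
    exact Bd_exp_conv ha hb hab hP hQ
  have h5 := Real.exp_le_exp.1 h2
  rw [hPdef, hQdef, Real.log_exp, Real.log_exp] at h5
  exact h5

theorem PsiL_convex' (β : K → ℝ) (l : List (Step K)) (hl : ∀ a ∈ l, 0 ≤ a.1) :
    ConvexOn ℝ Set.univ (PsiL β l F0) := by
  induction l with
  | nil => exact F0_convex
  | cons s l ih =>
    exact Tm_convex (LG_PsiL β l LG_F0) (ih fun a ha => hl a (List.mem_cons_of_mem s ha))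
      (hl s List.mem_cons_self) (Bm β s.2)

end

end SKC.J
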