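import Pool.Agent.H.MP_08eaf3_pr.J.Law1
import Pool.Agent.H.MP_08eaf3_pr.J.Bd

/-!
# Part J: decoupling of pair chains with diagonal increments
-/

set_option autoImplicit false
set_option linter.unusedSectionVars false

open MeasureTheory ProbabilityTheory Filter Topology Matrix

namespace SKC.J

open SKC.A

section DiagAux

/-- a function of one variable whose `Unit` version is of linear growth is continuous -/
theorem Diag_cont {f : ℝ → ℝ} (h : LG (fun y : Unit → ℝ => f (y ()))) : Continuous f := by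
  have h1 : Continuous (fun v : ℝ => (fun _ : Unit => v)) := continuous_pi fun _ => continuous_id
  exact h.1.comp h1

theorem Diag_LG {f : ℝ → ℝ} (h : LG (fun y : Unit → ℝ => f (y ()))) (c : Fin 2) :
    LG (fun y : Fin 2 → ℝ => f (y c)) := by
  refine ⟨(Diag_cont h).comp (continuous_apply c), ?_⟩
  obtain ⟨C, -, hC, hb⟩ := h.bound 0
  refine ⟨C, fun y => ?_⟩
  have h1 := hb (fun _ => y c)
  have h2 : n1 (fun _ : Unit => y c) = |y c| := by
    unfold n1
    simp
  have h3 : |y c| ≤ n1 y := Finset.single_le_sum (f := fun i => |y i|) (fun _ _ => abs_nonneg _)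
    (Finset.mem_univ c)
  rw [h2] at h1
  exact h1.trans (mul_le_mul_of_nonneg_left (by linarith) hC.le)

theorem Diag_cov (b1 b2 : ℝ) (E : Matrix (Fin 2) (Fin 2) ℝ) (hE : (E * Eᵀ) 0 1 = 0) :
    (Bm (be b1 b2) E * (Bm (be b1 b2) E)ᵀ) 0 1 = 0 := by
  rw [cov_Bm, hE, mul_zero]

/-- product formula for the increment of a pair step with diagonal covariance -/
theorem Diag_prod (b1 b2 m : ℝ) (E : Matrix (Fin 2) (Fin 2) ℝ) (hE : (E * Eᵀ) 0 1 = 0)
    (φ ψ : ℝ → ℝ) (hφ : Continuous φ) (hψ : Continuous ψ) (z : Fin 2 → ℝ) :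
    ∫ x, φ ((z + (Bm (be b1 b2) E).mulVec x) 0) * ψ ((z + (Bm (be b1 b2) E).mulVec x) 1)
        ∂(gam (Fin 2)) =
      (∫ x, φ (((fun _ : Unit => z 0) + (Bm (fun _ : Unit => b1) (pr 0 (m, E)).2).mulVec x) ())
        ∂(gam Unit)) *
      ∫ x, ψ (((fun _ : Unit => z 1) + (Bm (fun _ : Unit => b2) (pr 1 (m, E)).2).mulVec x) ())
        ∂(gam Unit) := by
  have h1 := diag_law (Bm (be b1 b2) E) (Diag_cov b1 b2 E hE) (fun t => φ (z 0 + t))
    (fun t => ψ (z 1 + t)) (hφ.comp (continuous_const.add continuous_id))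
    (hψ.comp (continuous_const.add continuous_id))
  have h2 := proj_law (be b1 b2) E 0 (fun t => φ (z 0 + t))
    (hφ.comp (continuous_const.add continuous_id))
  have h3 := proj_law (be b1 b2) E 1 (fun t => ψ (z 1 + t))
    (hψ.comp (continuous_const.add continuous_id))
  rw [h2, h3] at h1
  exact h1

/-- `psi1` as a function on `Unit → ℝ` -/
theorem Diag_psi1 (b : ℝ) (l : List (Step Unit)) :
    (fun y : Unit → ℝ => psi1 b l (y ())) = PsiL (fun _ : Unit => b) l F0 := by
  funext y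
  rfl

theorem Diag_LG_psi1 (b : ℝ) (l : List (Step Unit)) : LG (fun y : Unit → ℝ => psi1 b l (y ())) := by
  rw [Diag_psi1]
  exact LG_PsiL _ l LG_F0

end DiagAux

section Pair

/-- one step of a sum of functions of one coordinate, `(E Eᵀ)_01 = 0`. `m = 0`: linearity of the integral and
`proj_law`; `m ≠ 0`: `exp(m(f0 + f1))` is a product, `diag_law` and `proj_law`, logarithm of a product. -/
theorem Tm_diag (b1 b2 m : ℝ) (E : Matrix (Fin 2) (Fin 2) ℝ) (hE : (E * Eᵀ) 0 1 = 0)
    (f0 f1 : ℝ → ℝ) (h0 : LG (fun y : Unit → ℝ => f0 (y ()))) (h1 : LG (fun y : Unit → ℝ => f1 (y ())))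
    (z : Fin 2 → ℝ) :
    Tm m (Bm (be b1 b2) E) (fun y => f0 (y 0) + f1 (y 1)) z =
      Tm m (Bm (fun _ : Unit => b1) (pr 0 (m, E)).2) (fun y => f0 (y ())) (fun _ => z 0) +
      Tm m (Bm (fun _ : Unit => b2) (pr 1 (m, E)).2) (fun y => f1 (y ())) (fun _ => z 1) := by
  have c0 := Diag_cont h0
  have c1 := Diag_cont h1
  by_cases hm : m = 0
  · subst hm
    rw [Tm_zero, Tm_zero, Tm_zero,
      integral_add (int_LG (Diag_LG h0 0) (Bm (be b1 b2) E) z)
        (int_LG (Diag_LG h1 1) (Bm (be b1 b2) E) z)]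
    have e0 := proj_law (be b1 b2) E 0 (fun t => f0 (z 0 + t))
      (c0.comp (continuous_const.add continuous_id))
    have e1 := proj_law (be b1 b2) E 1 (fun t => f1 (z 1 + t))
      (c1.comp (continuous_const.add continuous_id))
    exact congrArg₂ (fun a b : ℝ => a + b) e0 e1
  · rw [Tm_ne hm, Tm_ne hm, Tm_ne hm, ← mul_add,
      ← Real.log_mul (Z_pos h0 m _ _).ne' (Z_pos h1 m _ _).ne']
    congr 2
    have k0 : Continuous (fun t : ℝ => Real.exp (m * f0 t)) :=
      Real.continuous_exp.comp (continuous_const.mul c0)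
    have k1 : Continuous (fun t : ℝ => Real.exp (m * f1 t)) :=
      Real.continuous_exp.comp (continuous_const.mul c1)
    refine Eq.trans ?_ (Diag_prod b1 b2 m E hE _ _ k0 k1 z)
    refine integral_congr_ae (Filter.Eventually.of_forall fun x => ?_)
    beta_reduce
    rw [mul_add, Real.exp_add]

/-- decoupling of the levels: induction with `Tm_diag`, `psi1_cons`; `F0` for `Fin 2` is a sum (`F0_eq`) -/
theorem PsiL_diag (b1 b2 : ℝ) (l : List (Step (Fin 2)))
    (hd : ∀ a ∈ l, (a.2 * a.2ᵀ) 0 1 = 0) (z : Fin 2 → ℝ) :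
    PsiL (be b1 b2) l F0 z = psi1 b1 (l.map (pr 0)) (z 0) + psi1 b2 (l.map (pr 1)) (z 1) := by
  induction l generalizing z with
  | nil =>
    show F0 z = F0 (fun _ : Unit => z 0) + F0 (fun _ : Unit => z 1)
    rw [F0_eq, F0_eq, F0_eq]
    simp
  | cons s l ih =>
    have ih' : PsiL (be b1 b2) l F0 =
        fun y => psi1 b1 (l.map (pr 0)) (y 0) + psi1 b2 (l.map (pr 1)) (y 1) :=
      funext fun y => ih (fun a ha => hd a (List.mem_cons_of_mem s ha)) y
    show Tm s.1 (Bm (be b1 b2) s.2) (PsiL (be b1 b2) l F0) z = _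
    rw [ih', List.map_cons, List.map_cons, psi1_cons, psi1_cons]
    exact Tm_diag b1 b2 s.1 s.2 (hd s List.mem_cons_self) _ _ (Diag_LG_psi1 b1 _)
      (Diag_LG_psi1 b2 _) z

/-- one step of the chain for a test function of one coordinate: the factor of the other coordinate
cancels (`diag_law`, `proj_law`); do `c = 0` and `c = 1` separately -/
theorem Es_diag (b1 b2 m : ℝ) (E : Matrix (Fin 2) (Fin 2) ℝ) (hE : (E * Eᵀ) 0 1 = 0)
    (f : Fin 2 → ℝ → ℝ) (hf : ∀ c, LG (fun y : Unit → ℝ => f c (y ())))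
    (c : Fin 2) (h : ℝ → ℝ) (hh : Continuous h) (z : Fin 2 → ℝ) :
    Es m (Bm (be b1 b2) E) (fun y => f 0 (y 0) + f 1 (y 1)) (fun y => h (y c)) z =
      Es m (Bm (fun _ : Unit => be b1 b2 c) (pr c (m, E)).2) (fun y => f c (y ())) (fun y => h (y ()))
        (fun _ => z c) := by
  have k : ∀ d, Continuous (fun t : ℝ => Real.exp (m * f d t)) := fun d =>
    Real.continuous_exp.comp (continuous_const.mul (Diag_cont (hf d)))
  have kh : ∀ d, Continuous (fun t : ℝ => h t * Real.exp (m * f d t)) := fun d => hh.mul (k d)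
  have hD : ∫ x, Real.exp (m * (f 0 ((z + (Bm (be b1 b2) E).mulVec x) 0) +
      f 1 ((z + (Bm (be b1 b2) E).mulVec x) 1))) ∂(gam (Fin 2)) =
      (∫ x, Real.exp (m * f 0 (((fun _ : Unit => z 0) +
        (Bm (fun _ : Unit => b1) (pr 0 (m, E)).2).mulVec x) ())) ∂(gam Unit)) *
      ∫ x, Real.exp (m * f 1 (((fun _ : Unit => z 1) +
        (Bm (fun _ : Unit => b2) (pr 1 (m, E)).2).mulVec x) ())) ∂(gam Unit) := by
    refine Eq.trans ?_ (Diag_prod b1 b2 m E hE _ _ (k 0) (k 1) z)
    refine integral_congr_ae (Filter.Eventually.of_forall fun x => ?_)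
    beta_reduce
    rw [mul_add, Real.exp_add]
  have p0 := Z_pos (hf 0) m (Bm (fun _ : Unit => b1) (pr 0 (m, E)).2) (fun _ => z 0)
  have p1 := Z_pos (hf 1) m (Bm (fun _ : Unit => b2) (pr 1 (m, E)).2) (fun _ => z 1)
  unfold Es
  rw [hD]
  fin_cases c
  · have hN : ∫ x, h ((z + (Bm (be b1 b2) E).mulVec x) 0) *
        Real.exp (m * (f 0 ((z + (Bm (be b1 b2) E).mulVec x) 0) +
        f 1 ((z + (Bm (be b1 b2) E).mulVec x) 1))) ∂(gam (Fin 2)) =
        (∫ x, h (((fun _ : Unit => z 0) + (Bm (fun _ : Unit => b1) (pr 0 (m, E)).2).mulVec x) ()) *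
          Real.exp (m * f 0 (((fun _ : Unit => z 0) +
          (Bm (fun _ : Unit => b1) (pr 0 (m, E)).2).mulVec x) ())) ∂(gam Unit)) *
        ∫ x, Real.exp (m * f 1 (((fun _ : Unit => z 1) +
          (Bm (fun _ : Unit => b2) (pr 1 (m, E)).2).mulVec x) ())) ∂(gam Unit) := by
      refine Eq.trans ?_ (Diag_prod b1 b2 m E hE _ _ (kh 0) (k 1) z)
      refine integral_congr_ae (Filter.Eventually.of_forall fun x => ?_)
      beta_reduce
      rw [mul_add, Real.exp_add, mul_assoc]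
    exact (congrArg (fun a : ℝ => a / _) hN).trans (mul_div_mul_right _ _ p1.ne')
  · have hN : ∫ x, h ((z + (Bm (be b1 b2) E).mulVec x) 1) *
        Real.exp (m * (f 0 ((z + (Bm (be b1 b2) E).mulVec x) 0) +
        f 1 ((z + (Bm (be b1 b2) E).mulVec x) 1))) ∂(gam (Fin 2)) =
        (∫ x, Real.exp (m * f 0 (((fun _ : Unit => z 0) +
          (Bm (fun _ : Unit => b1) (pr 0 (m, E)).2).mulVec x) ())) ∂(gam Unit)) *
        ∫ x, h (((fun _ : Unit => z 1) + (Bm (fun _ : Unit => b2) (pr 1 (m, E)).2).mulVec x) ()) *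
          Real.exp (m * f 1 (((fun _ : Unit => z 1) +
          (Bm (fun _ : Unit => b2) (pr 1 (m, E)).2).mulVec x) ())) ∂(gam Unit) := by
      refine Eq.trans ?_ (Diag_prod b1 b2 m E hE _ _ (k 0) (kh 1) z)
      refine integral_congr_ae (Filter.Eventually.of_forall fun x => ?_)
      beta_reduce
      rw [mul_add, Real.exp_add]
      ring
    exact (congrArg (fun a : ℝ => a / _) hN).trans (mul_div_mul_left _ _ p0.ne')

/-- decoupling of chains: induction over `l` with `Es_diag`, `PsiL_diag`, `PsiL_append`; the inner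
function is continuous (`EG_ChE`) -/
theorem ChE_diag (b1 b2 : ℝ) (l l' : List (Step (Fin 2)))
    (hd : ∀ a ∈ l ++ l', (a.2 * a.2ᵀ) 0 1 = 0) (c : Fin 2) (h : ℝ → ℝ) (hh : Continuous h)
    (hb : ∃ C, ∀ v, |h v| ≤ C) (z : Fin 2 → ℝ) :
    ChE (be b1 b2) l (PsiL (be b1 b2) l' F0) (fun y => h (y c)) z =
      ChE (fun _ : Unit => be b1 b2 c) (l.map (pr c))
        (PsiL (fun _ : Unit => be b1 b2 c) (l'.map (pr c)) F0) (fun y => h (y ())) (fun _ => z c) := by
  induction l generalizing z with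
  | nil => rfl
  | cons s l ih =>
    have hd' : ∀ a ∈ l ++ l', (a.2 * a.2ᵀ) 0 1 = 0 := fun a ha => hd a (List.mem_cons_of_mem s ha)
    have hP : PsiL (be b1 b2) l (PsiL (be b1 b2) l' F0) = fun y =>
        (fun d : Fin 2 => psi1 (be b1 b2 d) ((l ++ l').map (pr d))) 0 (y 0) +
        (fun d : Fin 2 => psi1 (be b1 b2 d) ((l ++ l').map (pr d))) 1 (y 1) := by
      rw [← PsiL_append]
      exact funext fun y => PsiL_diag b1 b2 (l ++ l') hd' y
    have hC : ChE (be b1 b2) l (PsiL (be b1 b2) l' F0) (fun y => h (y c)) =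
        fun y => (fun v : ℝ => ChE (fun _ : Unit => be b1 b2 c) (l.map (pr c))
          (PsiL (fun _ : Unit => be b1 b2 c) (l'.map (pr c)) F0) (fun y => h (y ()))
          (fun _ => v)) (y c) := funext fun y => ih hd' y
    have hcont : Continuous (fun v : ℝ => ChE (fun _ : Unit => be b1 b2 c) (l.map (pr c))
          (PsiL (fun _ : Unit => be b1 b2 c) (l'.map (pr c)) F0) (fun y => h (y ()))
          (fun _ => v)) := by
      obtain ⟨C, hCb⟩ := hb
      have hE : EG (fun y : Unit → ℝ => h (y ())) :=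
        EG.of_bdd (hh.comp (continuous_apply ())) (fun y => hCb (y ()))
      have h1 : Continuous (fun v : ℝ => (fun _ : Unit => v)) := continuous_pi fun _ => continuous_id
      exact (EG_ChE (fun _ : Unit => be b1 b2 c) (l.map (pr c)) (LG_PsiL _ _ LG_F0) hE).1.comp h1
    show Es s.1 (Bm (be b1 b2) s.2) (PsiL (be b1 b2) l (PsiL (be b1 b2) l' F0))
      (ChE (be b1 b2) l (PsiL (be b1 b2) l' F0) (fun y => h (y c))) z = _
    rw [hP, hC, Es_diag b1 b2 s.1 s.2 (hd s List.mem_cons_self)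
      (fun d : Fin 2 => psi1 (be b1 b2 d) ((l ++ l').map (pr d)))
      (fun d => Diag_LG_psi1 _ _) c _ hcont z]
    show _ = Es s.1 (Bm (fun _ : Unit => be b1 b2 c) (pr c s).2)
      (PsiL (fun _ : Unit => be b1 b2 c) (l.map (pr c))
        (PsiL (fun _ : Unit => be b1 b2 c) (l'.map (pr c)) F0))
      (ChE (fun _ : Unit => be b1 b2 c) (l.map (pr c))
        (PsiL (fun _ : Unit => be b1 b2 c) (l'.map (pr c)) F0) (fun y => h (y ()))) (fun _ => z c)
    rw [← PsiL_append, ← List.map_append, ← Diag_psi1]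
    rfl

end Pair

end SKC.J
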