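import Pool.Agent.H.MP_08eaf3_pr.J.Law1
import Pool.Agent.H.MP_08eaf3_pr.J.Bd

/-!
# Part J: the half plane (J6)
-/

set_option autoImplicit false
set_option linter.unusedSectionVars false

open MeasureTheory ProbabilityTheory Filter Topology Matrix

namespace SKC.J

open SKC.A

section Pair

theorem Half_cont {χ : ℝ → ℝ} (hχ : ∀ v v', |χ v - χ v'| ≤ |v - v'|) : Continuous χ := by
  have h1 : LipschitzWith 1 χ := LipschitzWith.of_dist_le_mul fun v v' => by
    rw [Real.dist_eq, Real.dist_eq, NNReal.coe_one, one_mul]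
    exact hχ v v'
  exact h1.continuous

theorem Half_LGχ {K : Type} [Fintype K] {χ : ℝ → ℝ} (hχ : ∀ v v', |χ v - χ v'| ≤ |v - v'|) (d : K)
    (G : ℝ) : LG (fun y : K → ℝ => χ (y d + G)) := by
  refine ⟨(Half_cont hχ).comp ((continuous_apply d).add continuous_const), |χ 0| + |G| + 1,
    fun z => ?_⟩
  have h1 := hχ (z d + G) 0
  rw [sub_zero] at h1
  have h2 := abs_add_le (χ (z d + G) - χ 0) (χ 0)
  rw [sub_add_cancel] at h2
  have h3 := abs_add_le (z d) G
  have h4 := abs_le_n1 z d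
  have h5 := n1_nonneg z
  have h6 := abs_nonneg (χ 0)
  have h7 := abs_nonneg G
  nlinarith [mul_nonneg h6 h5, mul_nonneg h7 h5]

theorem Half_LGc {K : Type} [Fintype K] (c : K) : LG (fun y : K → ℝ => y c) :=
  ⟨continuous_apply c, 1, fun z => by
    have h4 := abs_le_n1 z c
    linarith⟩

/-- the step of a linear coordinate plus a Lipschitz function of another coordinate -/
theorem Half_lin (b1 b2 : ℝ) (m : ℝ) (E : Matrix (Fin 2) (Fin 2) ℝ)
    (c d : Fin 2) (χ : ℝ → ℝ) (hχ : ∀ v v', |χ v - χ v'| ≤ |v - v'|) (a G : ℝ) (z : Fin 2 → ℝ) :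
    Tm m (Bm (be b1 b2) E) (fun y => y c + a + χ (y d + G)) z =
      z c + (a + m / 2 * (Bm (be b1 b2) E * (Bm (be b1 b2) E)ᵀ) c c) +
        Tm m (Bm (fun _ : Unit => be b1 b2 d) (pr d (m, E)).2) (fun y => χ (y ()))
          (fun _ => z d + (G + m * (Bm (be b1 b2) E * (Bm (be b1 b2) E)ᵀ) c d)) := by
  set B := Bm (be b1 b2) E with hB
  set B' := Bm (fun _ : Unit => be b1 b2 d) (pr d (m, E)).2 with hB'
  have hc := Half_cont hχ
  have hF1 : LG (fun y : Fin 2 → ℝ => y c + a + χ (y d + G)) :=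
    ((Half_LGc c).add (LG.const a)).add (Half_LGχ hχ d G)
  have hU : LG (fun y : Unit → ℝ => χ (y ())) := by
    have := Half_LGχ hχ () 0
    simpa using this
  have hsym : (B * Bᵀ) d c = (B * Bᵀ) c d := by
    have h1 : (B * Bᵀ)ᵀ = B * Bᵀ := by rw [Matrix.transpose_mul, Matrix.transpose_transpose]
    calc (B * Bᵀ) d c = (B * Bᵀ)ᵀ c d := rfl
      _ = (B * Bᵀ) c d := by rw [h1]
  by_cases hm : m = 0
  · subst hm
    rw [Tm_zero, Tm_zero]
    have h1 : ∀ x : Fin 2 → ℝ, (z + B.mulVec x) c + a + χ ((z + B.mulVec x) d + G) =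
        (z c + a) + (dot x (B c) + χ (z d + G + B.mulVec x d)) := by
      intro x
      have e1 : B.mulVec x c = dot x (B c) := by
        rw [dot_comm]
        rfl
      have e2 : (z + B.mulVec x) d + G = z d + G + B.mulVec x d := by
        rw [Pi.add_apply]
        ring
      rw [e2, Pi.add_apply, e1]
      ring
    have i1 : Integrable (fun x : Fin 2 → ℝ => dot x (B c)) (gam (Fin 2)) :=
      (EG.dot_right (B c)).integrable
    have i2 : Integrable (fun x : Fin 2 → ℝ => χ (z d + G + B.mulVec x d)) (gam (Fin 2)) := by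
      have := int_LG (Half_LGχ hχ d G) B z
      refine this.congr (Eventually.of_forall fun x => ?_)
      show χ ((z + B.mulVec x) d + G) = χ (z d + G + B.mulVec x d)
      congr 1
      rw [Pi.add_apply]
      ring
    have i12 : Integrable (fun x : Fin 2 → ℝ => dot x (B c) + χ (z d + G + B.mulVec x d))
      (gam (Fin 2)) := i1.add i2
    simp only [h1]
    rw [integral_add (integrable_const _) i12, integral_add i1 i2, integral_dot,
      integral_const, probReal_univ, one_smul, zero_add]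
    have h2 := proj_law (be b1 b2) E d (fun t => χ (z d + G + t)) (hc.comp (continuous_const.add continuous_id))
    beta_reduce at h2
    rw [← hB] at h2
    rw [h2]
    have h3 : ∀ y : Unit → ℝ, χ ((Bm (fun _ : Unit => be b1 b2 d)
        (fun _ _ => Real.sqrt ((E * Eᵀ) d d))).mulVec y () + (z d + G)) =
        χ (((fun _ : Unit => z d + (G + 0 * (B * Bᵀ) c d)) + B'.mulVec y) ()) := by
      intro y
      congr 1
      rw [Pi.add_apply, zero_mul, add_zero]
      exact add_comm _ _
    have h4 : ∫ y, χ (z d + G + (Bm (fun _ : Unit => be b1 b2 d)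
        (fun _ _ => Real.sqrt ((E * Eᵀ) d d))).mulVec y ()) ∂(gam Unit) =
        ∫ y, χ (((fun _ : Unit => z d + (G + 0 * (B * Bᵀ) c d)) + B'.mulVec y) ()) ∂(gam Unit) := by
      refine integral_congr_ae (Eventually.of_forall fun y => ?_)
      exact (congrArg χ (add_comm _ _)).trans (h3 y)
    rw [h4]
    ring
  · have key : Real.exp (m * Tm m B (fun y => y c + a + χ (y d + G)) z) = Real.exp (m *
        (z c + (a + m / 2 * (B * Bᵀ) c c) + Tm m B' (fun y => χ (y ()))
          (fun _ => z d + (G + m * (B * Bᵀ) c d)))) := by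
      rw [exp_mul_Tm hF1]
      have hA : ∀ i, (B * Bᵀ).mulVec (Pi.single c m) i = (B * Bᵀ) i c * m := by
        intro i
        simp [Matrix.mulVec_single]
      have hdot : ∀ y : Fin 2 → ℝ, dot (Pi.single c m) y = m * y c := by
        intro y
        rw [dot_comm, dot_single]
        ring
      have h1 : ∀ x : Fin 2 → ℝ, Real.exp (m * ((z + B.mulVec x) c + a +
          χ ((z + B.mulVec x) d + G))) = Real.exp (m * (z c + a)) *
          (Real.exp (m * χ (z d + G + B.mulVec x d)) *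
            Real.exp (dot (Pi.single c m) (B.mulVec x))) := by
        intro x
        rw [hdot, ← Real.exp_add, ← Real.exp_add]
        congr 1
        have e2 : (z + B.mulVec x) d + G = z d + G + B.mulVec x d := by
          rw [Pi.add_apply]
          ring
        rw [e2, Pi.add_apply]
        ring
      simp only [h1]
      rw [integral_const_mul, cm_step' B (Pi.single c m)
        (fun w => Real.exp (m * χ (z d + G + w d))), hdot, hA]
      have h2 : ∀ x : Fin 2 → ℝ, Real.exp (m * χ (z d + G +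
          (B.mulVec x + (B * Bᵀ).mulVec (Pi.single c m)) d)) =
          Real.exp (m * χ (z d + (G + m * (B * Bᵀ) c d) + B.mulVec x d)) := by
        intro x
        congr 3
        rw [Pi.add_apply, hA, hsym]
        ring
      simp only [h2]
      have h3 := proj_law (be b1 b2) E d
        (fun t => Real.exp (m * χ (z d + (G + m * (B * Bᵀ) c d) + t)))
        (Real.continuous_exp.comp (continuous_const.mul
          (hc.comp (continuous_const.add continuous_id))))
      beta_reduce at h3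
      rw [← hB] at h3
      rw [h3]
      have h4 : Real.exp (m * (z c + (a + m / 2 * (B * Bᵀ) c c) + Tm m B' (fun y => χ (y ()))
          (fun _ => z d + (G + m * (B * Bᵀ) c d)))) = Real.exp (m * (z c + a)) *
          (Real.exp (m * ((B * Bᵀ) c c * m) / 2) *
          Real.exp (m * Tm m B' (fun y => χ (y ())) (fun _ => z d + (G + m * (B * Bᵀ) c d)))) := by
        rw [← Real.exp_add, ← Real.exp_add]
        congr 1
        ring
      rw [h4, exp_mul_Tm hU]
      rfl
    have h5 := Real.exp_injective key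
    exact mul_left_cancel₀ hm h5

/-- One step of J6. Let `A = B Bᵀ`, `B = Bm (be b1 b2) E`, `χ` continuous and 1-Lipschitz,
`f z = z_c + a + χ(z_d + G) + R z`, `R ≥ 0`, `exp R ≤ 1 + D exp(-2 z_c)`.
(1) `cm_step'` with `θ = m e_c`: `T_m f (z) = z_c + a + (m/2) A_cc + U(z)`,
`U z = (1/m) log ∫ exp(m χ(z_d + G + m A_cd + (Bx)_d) + m R(z + m A e_c + Bx))` (for `m = 0` the integral of the
exponent). (2) lower bound: drop `R`: `U z ≥ (T_m χ)(z_d + G + m A_cd)` = the one-dimensional step (`proj_law`), call it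
`χ'`. (3) upper bound: with `g y = χ(y_d + G + m A_cd)` (a function of `LG`), `U z = T_m (g + R(· + m A e_c)) z` and
`T_m (g + r) z ≤ T_m g z + log Es_m,g [exp r] z` for `r ≥ 0` (`Tm_add_le` below), and
`Es_{m,g}[exp r] ≤ 1 + D Es_{m,g}[exp(-2(y_c + m A_cc))] ≤ 1 + D exp(-2 z_c) exp(2 A_cc + 2 m |A_cd|)`
by `Es_exp_dot` with `θ = -2 e_c`: `T_m g (z - 2 A e_c) - T_m g z ≤ 2 |A_cd|` (`χ` is 1-Lipschitz). -/
theorem Tm_add_le {K : Type} [Fintype K] {g r : (K → ℝ) → ℝ} (hg : LG g) (hr : LG r)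
    {m : ℝ} (hm : 0 ≤ m) (hm1 : m ≤ 1) (B : Matrix K K ℝ) (z : K → ℝ) :
    Real.exp (Tm m B (fun y => g y + r y) z - Tm m B g z) ≤ Es m B g (fun y => Real.exp (r y)) z := by
  have hgr : LG (fun y => g y + r y) := hg.add hr
  have hE : EG (fun y => Real.exp (r y)) := by
    have := hr.exp 1
    simpa using this
  rcases hm.eq_or_lt with h0 | h0
  · rw [← h0, Tm_zero, Tm_zero, integral_add (int_LG hg B z) (int_LG hr B z)]
    have h1 := exp_Tm_le hr (le_refl (0 : ℝ)) zero_le_one B z
    rw [Tm_zero] at h1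
    unfold Es
    simp only [zero_mul, Real.exp_zero, mul_one]
    rw [integral_const, probReal_univ, one_smul, div_one, add_sub_cancel_left]
    exact h1
  · set S : ℝ := Es m B g (fun y => Real.exp (r y)) z with hS
    have hSpos : 0 < S := Es_pos hg hE (fun y => Real.exp_pos _) m B z
    set L : ℝ := Real.log S with hL
    have hSL : Real.exp L = S := Real.exp_log hSpos
    rw [← hSL]
    refine Real.exp_le_exp.mpr ?_
    have h1 : Real.exp (m * Tm m B (fun y => g y + r y) z) =
        Real.exp (m * Tm m B g z) * Es m B g (fun y => Real.exp (m * r y)) z := by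
      rw [exp_mul_Tm hgr, exp_mul_Es hg]
      refine integral_congr_ae (Eventually.of_forall fun x => ?_)
      beta_reduce
      rw [← Real.exp_add]
      congr 1
      ring
    have h2 : Es m B g (fun y => Real.exp (m * r y)) z ≤ Real.exp (m * L) := by
      have h3 : Es m B g (fun y => Real.exp (m * L) * ((1 - m) +
          (m * Real.exp (-L)) * Real.exp (r y))) z = Real.exp (m * L) := by
        rw [Es_smul, Es_add hg (EG.const (1 - m)) (hE.const_mul (m * Real.exp (-L))), Es_const hg,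
          Es_smul, ← hS, ← hSL]
        have h4 : Real.exp (-L) * Real.exp L = 1 := by
          rw [← Real.exp_add, neg_add_cancel, Real.exp_zero]
        have h5 : 1 - m + m * Real.exp (-L) * Real.exp L = 1 := by
          rw [mul_assoc, h4]
          ring
        rw [h5, mul_one]
      rw [← h3]
      refine Es_mono hg (hr.exp m) (((EG.const (1 - m)).add
        (hE.const_mul (m * Real.exp (-L)))).const_mul (Real.exp (m * L))) (fun y => ?_) m B z
      have h5 := convexOn_exp.2 (Set.mem_univ (0 : ℝ)) (Set.mem_univ (r y - L))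
        (sub_nonneg.mpr hm1) h0.le (by ring)
      have h6 : Real.exp (m * (r y - L)) ≤ (1 - m) + m * Real.exp (r y - L) := by
        simpa [smul_eq_mul] using h5
      calc Real.exp (m * r y) = Real.exp (m * L) * Real.exp (m * (r y - L)) := by
            rw [← Real.exp_add]
            congr 1
            ring
        _ ≤ Real.exp (m * L) * ((1 - m) + m * Real.exp (r y - L)) :=
            mul_le_mul_of_nonneg_left h6 (Real.exp_pos _).le
        _ = _ := by
            rw [mul_assoc m, ← Real.exp_add]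
            congr 4
            ring
    have h7 : Real.exp (m * Tm m B (fun y => g y + r y) z) ≤
        Real.exp (m * Tm m B g z + m * L) := by
      rw [h1, Real.exp_add]
      exact mul_le_mul_of_nonneg_left h2 (Real.exp_pos _).le
    have h8 := Real.exp_le_exp.mp h7
    have h9 : m * (Tm m B (fun y => g y + r y) z - Tm m B g z) ≤ m * L := by linarith
    exact le_of_mul_le_mul_left h9 h0

theorem half_step (b1 b2 : ℝ) (m : ℝ) (hm : 0 ≤ m) (hm1 : m ≤ 1) (E : Matrix (Fin 2) (Fin 2) ℝ)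
    (c d : Fin 2) (hcd : c ≠ d) (f : (Fin 2 → ℝ) → ℝ) (hf : LG f) (χ : ℝ → ℝ)
    (hχ : ∀ v v', |χ v - χ v'| ≤ |v - v'|) (a G D : ℝ) (hD : 0 ≤ D)
    (h : ∀ z, 0 ≤ f z - (z c + a + χ (z d + G)) ∧
      Real.exp (f z - (z c + a + χ (z d + G))) ≤ 1 + D * Real.exp (-(2 * z c))) (z : Fin 2 → ℝ) :
    0 ≤ Tm m (Bm (be b1 b2) E) f z - (z c +
        (a + m / 2 * (Bm (be b1 b2) E * (Bm (be b1 b2) E)ᵀ) c c) +
        Tm m (Bm (fun _ : Unit => be b1 b2 d) (pr d (m, E)).2) (fun y => χ (y ()))
          (fun _ => z d + (G + m * (Bm (be b1 b2) E * (Bm (be b1 b2) E)ᵀ) c d))) ∧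
    Real.exp (Tm m (Bm (be b1 b2) E) f z - (z c +
        (a + m / 2 * (Bm (be b1 b2) E * (Bm (be b1 b2) E)ᵀ) c c) +
        Tm m (Bm (fun _ : Unit => be b1 b2 d) (pr d (m, E)).2) (fun y => χ (y ()))
          (fun _ => z d + (G + m * (Bm (be b1 b2) E * (Bm (be b1 b2) E)ᵀ) c d)))) ≤
      1 + D * Real.exp (4 * tv (be b1 b2) E) * Real.exp (-(2 * z c)) := by
  have hcd0 := hcd
  set B := Bm (be b1 b2) E with hB
  have hlin := Half_lin b1 b2 m E c d χ hχ a G
  rw [← hB] at hlin
  have hF1 : LG (fun y : Fin 2 → ℝ => y c + a + χ (y d + G)) :=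
    ((Half_LGc c).add (LG.const a)).add (Half_LGχ hχ d G)
  have hR : LG (fun y : Fin 2 → ℝ => f y + (-1) * (y c + a + χ (y d + G))) :=
    hf.add (hF1.const_mul (-1))
  rw [← hlin z]
  constructor
  · have h1 := Tm_mono' hF1 hf (fun y => by linarith [(h y).1]) m B z
    linarith
  · have h1 := Tm_add_le hF1 hR hm hm1 B z
    have h2 : (fun y : Fin 2 → ℝ => y c + a + χ (y d + G) +
        (f y + (-1) * (y c + a + χ (y d + G)))) = f := by
      funext y
      ring
    rw [h2] at h1
    refine h1.trans ?_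
    have hdot : ∀ y : Fin 2 → ℝ, dot (Pi.single c (-2)) y = -(2 * y c) := by
      intro y
      rw [dot_comm, dot_single]
      ring
    have hA : ∀ i, (B * Bᵀ).mulVec (Pi.single c (-2)) i = (B * Bᵀ) i c * (-2) := by
      intro i
      simp [Matrix.mulVec_single]
    have hE : EG (fun y : Fin 2 → ℝ => Real.exp (dot (Pi.single c (-2)) y)) := by
      have := EG.exp_dot (K := Fin 2) (Pi.single c (-2))
      simpa only [dot_comm] using this
    have h3 : Es m B (fun y => y c + a + χ (y d + G))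
        (fun y => Real.exp (f y + (-1) * (y c + a + χ (y d + G)))) z ≤
        Es m B (fun y => y c + a + χ (y d + G))
          (fun y => 1 + D * Real.exp (dot (Pi.single c (-2)) y)) z := by
      have hRe : EG (fun y : Fin 2 → ℝ => Real.exp (f y + (-1) * (y c + a + χ (y d + G)))) := by
        have := hR.exp 1
        simpa only [one_mul] using this
      refine Es_mono hF1 hRe ((EG.const 1).add (hE.const_mul D)) (fun y => ?_) m B z
      have h4 := (h y).2
      rw [hdot]
      have h5 : f y + (-1) * (y c + a + χ (y d + G)) = f y - (y c + a + χ (y d + G)) := by ring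
      rw [h5]
      exact h4
    refine h3.trans ?_
    rw [Es_add hF1 (EG.const 1) (hE.const_mul D), Es_const hF1, Es_smul, Es_exp_dot hF1, hdot,
      hdot, hA, hlin, hlin z]
    set T : ℝ → ℝ := fun v => Tm m (Bm (fun _ : Unit => be b1 b2 d) (pr d (m, E)).2)
      (fun y => χ (y ())) (fun _ => v) with hT
    have hU : LG (fun y : Unit → ℝ => χ (y ())) := by
      have := Half_LGχ hχ () 0
      simpa using this
    have hTlip : ∀ v v' : ℝ, |T v - T v'| ≤ |v - v'| := by
      intro v v'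
      have h6 := Tm_lip hU (L := 1) (fun y y' => by
        rw [one_mul]
        refine (hχ _ _).trans ?_
        exact abs_le_n1 (y - y') ()) m (Bm (fun _ : Unit => be b1 b2 d) (pr d (m, E)).2)
        (fun _ => v) (fun _ => v')
      rw [one_mul] at h6
      refine h6.trans (le_of_eq ?_)
      unfold n1
      simp
    have hsym : (B * Bᵀ) d c = (B * Bᵀ) c d := by
      have h1 : (B * Bᵀ)ᵀ = B * Bᵀ := by rw [Matrix.transpose_mul, Matrix.transpose_transpose]
      calc (B * Bᵀ) d c = (B * Bᵀ)ᵀ c d := rfl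
        _ = (B * Bᵀ) c d := by rw [h1]
    have e1 : (z + (B * Bᵀ).mulVec (Pi.single c (-2))) c = z c + (B * Bᵀ) c c * (-2) := by
      rw [Pi.add_apply, hA]
    have e2 : (z + (B * Bᵀ).mulVec (Pi.single c (-2))) d = z d + (B * Bᵀ) c d * (-2) := by
      rw [Pi.add_apply, hA, hsym]
    rw [e1, e2]
    have h7 := hTlip (z d + (B * Bᵀ) c d * (-2) + (G + m * (B * Bᵀ) c d))
      (z d + (G + m * (B * Bᵀ) c d))
    have h8 : |z d + (B * Bᵀ) c d * (-2) + (G + m * (B * Bᵀ) c d) -
        (z d + (G + m * (B * Bᵀ) c d))| = 2 * |(B * Bᵀ) c d| := by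
      have : z d + (B * Bᵀ) c d * (-2) + (G + m * (B * Bᵀ) c d) -
        (z d + (G + m * (B * Bᵀ) c d)) = (B * Bᵀ) c d * (-2) := by ring
      rw [this, abs_mul]
      norm_num
      ring
    rw [h8] at h7
    have h9 := (le_abs_self _).trans h7
    have hcc : 0 ≤ (B * Bᵀ) c c := mul_transpose_diag_nonneg B c
    have hcd := abs_nonneg ((B * Bᵀ) c d)
    have htv : (B * Bᵀ) c c + |(B * Bᵀ) c d| ≤ tv (be b1 b2) E := by
      unfold tv
      rw [← hB]
      have g1 : |(B * Bᵀ) c c| + |(B * Bᵀ) c d| ≤ ∑ k, |(B * Bᵀ) c k| := by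
        have := Finset.add_le_sum (s := Finset.univ) (f := fun k => |(B * Bᵀ) c k|)
          (fun k _ => abs_nonneg _) (Finset.mem_univ c) (Finset.mem_univ d) hcd0
        exact this
      have g2 : ∑ k, |(B * Bᵀ) c k| ≤ ∑ i, ∑ k, |(B * Bᵀ) i k| :=
        Finset.single_le_sum (f := fun i => ∑ k, |(B * Bᵀ) i k|)
          (fun i _ => Finset.sum_nonneg fun _ _ => abs_nonneg _) (Finset.mem_univ c)
      rw [abs_of_nonneg hcc] at g1
      linarith
    have htv0 := tv_nonneg (be b1 b2) E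
    have h10 : Real.exp (-(2 * z c) + -(2 * ((B * Bᵀ) c c * (-2))) / 2 + m *
        (z c + (B * Bᵀ) c c * (-2) + (a + m / 2 * (B * Bᵀ) c c) +
          T (z d + (B * Bᵀ) c d * (-2) + (G + m * (B * Bᵀ) c d)) -
          (z c + (a + m / 2 * (B * Bᵀ) c c) + T (z d + (G + m * (B * Bᵀ) c d))))) ≤
        Real.exp (4 * tv (be b1 b2) E) * Real.exp (-(2 * z c)) := by
      rw [← Real.exp_add]
      refine Real.exp_le_exp.mpr ?_
      have k1 : m * (z c + (B * Bᵀ) c c * (-2) + (a + m / 2 * (B * Bᵀ) c c) +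
          T (z d + (B * Bᵀ) c d * (-2) + (G + m * (B * Bᵀ) c d)) -
          (z c + (a + m / 2 * (B * Bᵀ) c c) + T (z d + (G + m * (B * Bᵀ) c d)))) ≤
          m * (2 * |(B * Bᵀ) c d|) := by
        refine mul_le_mul_of_nonneg_left ?_ hm
        linarith
      have k2 : m * (2 * |(B * Bᵀ) c d|) ≤ 1 * (2 * |(B * Bᵀ) c d|) :=
        mul_le_mul_of_nonneg_right hm1 (by linarith)
      linarith
    have h11 := mul_le_mul_of_nonneg_left h10 hD
    rw [mul_assoc D]
    linarith

theorem Half_ind (b1 b2 : ℝ) (c d : Fin 2) (hcd : c ≠ d) (l : List (Step (Fin 2)))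
    (hl : ∀ s ∈ l, 0 ≤ s.1 ∧ s.1 ≤ 1) : ∃ a : ℝ, ∀ z : Fin 2 → ℝ,
      0 ≤ PsiL (be b1 b2) l F0 z -
        (z c + a + psi1 (be b1 b2 d) (l.map (pr d)) (z d + 2 * b1 * b2 * Gl l)) ∧
      Real.exp (PsiL (be b1 b2) l F0 z -
        (z c + a + psi1 (be b1 b2 d) (l.map (pr d)) (z d + 2 * b1 * b2 * Gl l))) ≤
        1 + Real.exp (4 * tvs (be b1 b2) l) * Real.exp (-(2 * z c)) := by
  have hcd' : (c = 0 ∧ d = 1) ∨ (c = 1 ∧ d = 0) := by
    fin_cases c <;> fin_cases d <;> simp_all
  induction l with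
  | nil =>
    refine ⟨0, fun z => ?_⟩
    have e1 : PsiL (be b1 b2) [] F0 z = F0 z := rfl
    have e2 : psi1 (be b1 b2 d) (([] : List (Step (Fin 2))).map (pr d)) (z d + 2 * b1 * b2 * Gl []) =
        F0 (fun _ : Unit => z d) := by
      have : (Gl [] : ℝ) = 0 := by simp [Gl]
      rw [this, mul_zero, add_zero]
      rfl
    have e3 : F0 z = Real.log (2 * Real.cosh (z c)) + Real.log (2 * Real.cosh (z d)) := by
      rw [F0_eq, Fin.sum_univ_two]
      rcases hcd' with ⟨h1, h2⟩ | ⟨h1, h2⟩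
      · rw [h1, h2]
      · rw [h1, h2, add_comm]
    have e4 : F0 (fun _ : Unit => z d) = Real.log (2 * Real.cosh (z d)) := by
      rw [F0_eq]
      simp
    have e5 : F0 z - (z c + 0 + F0 (fun _ : Unit => z d)) =
        Real.log (2 * Real.cosh (z c)) - z c := by
      rw [e3, e4]
      ring
    rw [e1, e2, e5]
    have e6 : Real.exp (Real.log (2 * Real.cosh (z c)) - z c) = 1 + Real.exp (-(2 * z c)) := by
      rw [Real.exp_sub, Real.exp_log (by have := Real.cosh_pos (z c); linarith), Real.cosh_eq,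
        div_eq_iff (Real.exp_pos _).ne', add_mul, one_mul, ← Real.exp_add]
      have : -(2 * z c) + z c = -z c := by ring
      rw [this]
      ring
    constructor
    · have h1 : Real.exp 0 ≤ Real.exp (Real.log (2 * Real.cosh (z c)) - z c) := by
        rw [e6, Real.exp_zero]
        linarith [Real.exp_pos (-(2 * z c))]
      exact Real.exp_le_exp.mp h1
    · rw [e6]
      have : tvs (be b1 b2) [] = 0 := rfl
      rw [this, mul_zero, Real.exp_zero, one_mul]
  | cons s l ih =>
    obtain ⟨a, ha⟩ := ih (fun s' hs' => hl s' (List.mem_cons_of_mem s hs'))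
    have hs := hl s List.mem_cons_self
    have hlip : ∀ v v' : ℝ, |psi1 (be b1 b2 d) (l.map (pr d)) v -
        psi1 (be b1 b2 d) (l.map (pr d)) v'| ≤ |v - v'| := by
      intro v v'
      have h1 := PsiL_lip (fun _ : Unit => be b1 b2 d) (l.map (pr d)) (fun _ => v) (fun _ => v')
      refine h1.trans (le_of_eq ?_)
      unfold n1
      simp
    refine ⟨a + s.1 / 2 * (Bm (be b1 b2) s.2 * (Bm (be b1 b2) s.2)ᵀ) c c, fun z => ?_⟩
    have h2 := half_step b1 b2 s.1 hs.1 hs.2 s.2 c d hcd (PsiL (be b1 b2) l F0)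
      (LG_PsiL (be b1 b2) l LG_F0) (psi1 (be b1 b2 d) (l.map (pr d))) hlip a (2 * b1 * b2 * Gl l)
      (Real.exp (4 * tvs (be b1 b2) l)) (Real.exp_pos _).le ha z
    have e1 : PsiL (be b1 b2) (s :: l) F0 z = Tm s.1 (Bm (be b1 b2) s.2) (PsiL (be b1 b2) l F0) z := rfl
    have e2 : psi1 (be b1 b2 d) ((s :: l).map (pr d)) (z d + 2 * b1 * b2 * Gl (s :: l)) =
        Tm s.1 (Bm (fun _ : Unit => be b1 b2 d) (pr d (s.1, s.2)).2)
          (fun y => psi1 (be b1 b2 d) (l.map (pr d)) (y ()))
          (fun _ => z d + (2 * b1 * b2 * Gl l +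
            s.1 * (Bm (be b1 b2) s.2 * (Bm (be b1 b2) s.2)ᵀ) c d)) := by
      rw [List.map_cons, psi1_cons]
      have g1 : z d + 2 * b1 * b2 * Gl (s :: l) = z d + (2 * b1 * b2 * Gl l +
            s.1 * (Bm (be b1 b2) s.2 * (Bm (be b1 b2) s.2)ᵀ) c d) := by
        have g2 : Gl (s :: l) = s.1 * (s.2 * s.2ᵀ) 0 1 + Gl l := by
          unfold Gl
          rw [List.map_cons, List.sum_cons]
        rw [g2, cov_Bm]
        rcases hcd' with ⟨h1, h2⟩ | ⟨h1, h2⟩
        · rw [h1, h2]
          show z 1 + 2 * b1 * b2 * (s.1 * (s.2 * s.2ᵀ) 0 1 + Gl l) = z 1 + (2 * b1 * b2 * Gl l +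
            s.1 * (2 * b1 * b2 * (s.2 * s.2ᵀ) 0 1))
          ring
        · rw [h1, h2]
          have g3 : (s.2 * s.2ᵀ) 1 0 = (s.2 * s.2ᵀ) 0 1 := by
            have h3 : (s.2 * s.2ᵀ)ᵀ = s.2 * s.2ᵀ := by
              rw [Matrix.transpose_mul, Matrix.transpose_transpose]
            calc (s.2 * s.2ᵀ) 1 0 = (s.2 * s.2ᵀ)ᵀ 0 1 := rfl
              _ = (s.2 * s.2ᵀ) 0 1 := by rw [h3]
          rw [g3]
          show z 0 + 2 * b1 * b2 * (s.1 * (s.2 * s.2ᵀ) 0 1 + Gl l) = z 0 + (2 * b1 * b2 * Gl l +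
            s.1 * (2 * b2 * b1 * (s.2 * s.2ᵀ) 0 1))
          ring
      rw [g1]
      rfl
    have e3 : tvs (be b1 b2) (s :: l) = tv (be b1 b2) s.2 + tvs (be b1 b2) l := rfl
    rw [e1, e2, e3]
    refine ⟨h2.1, h2.2.trans (le_of_eq ?_)⟩
    rw [← Real.exp_add]
    congr 3
    ring

/-- J6: the half plane `z_c → +∞`, `d` the other coordinate. Induction over `l` with `half_step`; for `[]`:
`F0 z = log(2 cosh z_c) + log(2 cosh z_d)`, `exp(log(2 cosh z_c) - z_c) = 1 + exp(-2 z_c)`. -/
theorem halfplane (b1 b2 : ℝ) : ∃ C : ℝ, 0 ≤ C ∧ ∀ l : List (Step (Fin 2)), Ok l →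
    ∀ c d : Fin 2, c ≠ d → ∃ a : ℝ, ∀ z : Fin 2 → ℝ,
      0 ≤ PsiL (be b1 b2) l F0 z -
        (z c + a + psi1 (be b1 b2 d) (l.map (pr d)) (z d + 2 * b1 * b2 * Gl l)) ∧
      PsiL (be b1 b2) l F0 z -
        (z c + a + psi1 (be b1 b2 d) (l.map (pr d)) (z d + 2 * b1 * b2 * Gl l)) ≤
        Real.log (1 + C * Real.exp (-(2 * z c))) := by
  refine ⟨Real.exp (4 * C0 (be b1 b2)), (Real.exp_pos _).le, fun l hl c d hcd => ?_⟩
  obtain ⟨a, ha⟩ := Half_ind b1 b2 c d hcd l hl.2.1
  refine ⟨a, fun z => ⟨(ha z).1, ?_⟩⟩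
  have h1 := (ha z).2
  have h2 : Real.exp (4 * tvs (be b1 b2) l) ≤ Real.exp (4 * C0 (be b1 b2)) :=
    Real.exp_le_exp.mpr (by linarith [tvs_le (β := be b1 b2) hl])
  have h3 := mul_le_mul_of_nonneg_right h2 (Real.exp_pos (-(2 * z c))).le
  rw [Real.le_log_iff_exp_le (by positivity)]
  linarith

end Pair

end SKC.J
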