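import Pool.Agent.H.MP_08eaf3_pr.J.Sg0b

/-! # Part J, section Single: monotonicity (helper4) -/

set_option autoImplicit false

open MeasureTheory ProbabilityTheory Filter Topology Matrix

namespace SKC.Sg

/-! ### hyperbolic functions -/

theorem Sg1_tanh_sub (y d : ℝ) : Real.tanh (y + d) - Real.tanh y =
    Real.sinh d * (1 / (Real.cosh (y + d) * Real.cosh y)) := by
  have h1 : Real.sinh d = Real.sinh (y + d) * Real.cosh y - Real.cosh (y + d) * Real.sinh y := by
    rw [← Real.sinh_sub]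
    congr 1
    ring
  have h2 := (Real.cosh_pos (y + d)).ne'
  have h3 := (Real.cosh_pos y).ne'
  rw [Real.tanh_eq_sinh_div_cosh, Real.tanh_eq_sinh_div_cosh, h1]
  field_simp

theorem Sg1_tanh_mono {x y : ℝ} (h : x ≤ y) : Real.tanh x ≤ Real.tanh y := by
  have h1 := Sg1_tanh_sub x (y - x)
  rw [add_sub_cancel] at h1
  have h2 : 0 ≤ Real.sinh (y - x) * (1 / (Real.cosh y * Real.cosh x)) :=
    mul_nonneg (Real.sinh_nonneg_iff.mpr (sub_nonneg.mpr h))
      (one_div_pos.mpr (mul_pos (Real.cosh_pos _) (Real.cosh_pos _))).le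
  linarith

theorem Sg1_tanh_cont : Continuous Real.tanh := by
  have h : Real.tanh = fun x => Real.sinh x / Real.cosh x := funext Real.tanh_eq_sinh_div_cosh
  rw [h]
  exact Real.continuous_sinh.div Real.continuous_cosh fun x => (Real.cosh_pos x).ne'

theorem Sg1_tanh_abs (x : ℝ) : |Real.tanh x| ≤ 1 := by
  rw [Real.tanh_eq_sinh_div_cosh, abs_div, abs_of_pos (Real.cosh_pos x), div_le_one (Real.cosh_pos x)]
  refine abs_le_of_sq_le_sq ?_ (Real.cosh_pos x).le
  have := Real.cosh_sq x
  linarith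

theorem Sg1_cosh_mul (y d : ℝ) : Real.exp d / 4 * Real.exp (2 * y) +
    (Real.exp (-d) / 4 * Real.exp (-(2 * y)) + Real.cosh d / 2) =
      Real.cosh (y + d) * Real.cosh y := by
  rw [Real.cosh_eq, Real.cosh_eq, Real.cosh_eq]
  have e1 : Real.exp (2 * y) = Real.exp y * Real.exp y := by
    rw [← Real.exp_add]
    congr 1
    ring
  have e2 : Real.exp (-(2 * y)) = Real.exp (-y) * Real.exp (-y) := by
    rw [← Real.exp_add]
    congr 1
    ring
  have e3 : Real.exp y * Real.exp (-y) = 1 := by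
    rw [← Real.exp_add, add_neg_cancel, Real.exp_zero]
  rw [e1, e2, neg_add, Real.exp_add, Real.exp_add]
  linear_combination (-(Real.exp d + Real.exp (-d)) / 4) * e3

/-- Chebyshev: nondecreasing functions are positively correlated.
Proof: `c = ∫ r`; by the intermediate value theorem there is `x0` with `r x0 = c` (`r x > c` for all `x` is impossible, and the same for `<`);
`(f x - f x0)(r x - r x0) ≥ 0`; integrate: `∫ f r - c ∫ f - f x0 (∫ r - c) ≥ 0`. -/
theorem cheb (μ : Measure ℝ) [IsProbabilityMeasure μ] (f r : ℝ → ℝ) (hf : Monotone f)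
    (hr : Monotone r) (hrc : Continuous r) (hfi : Integrable f μ) (hri : Integrable r μ)
    (hfr : Integrable (fun x => f x * r x) μ) :
    (∫ x, f x ∂μ) * (∫ x, r x ∂μ) ≤ ∫ x, f x * r x ∂μ := by
  obtain ⟨x0, hx0⟩ := mem_range_of_exists_le_of_exists_ge hrc (exists_le_integral hri)
    (exists_integral_le hri)
  have h1 : 0 ≤ ∫ x, (f x - f x0) * (r x - r x0) ∂μ := by
    refine integral_nonneg fun x => ?_
    rcases le_total x x0 with h | h
    · exact mul_nonneg_of_nonpos_of_nonpos (sub_nonpos.mpr (hf h)) (sub_nonpos.mpr (hr h))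
    · exact mul_nonneg (sub_nonneg.mpr (hf h)) (sub_nonneg.mpr (hr h))
  have e : (fun x => (f x - f x0) * (r x - r x0)) =
      fun x => (f x * r x - r x0 * f x) - (f x0 * r x - f x0 * r x0) := by
    funext x
    ring
  have i1 : Integrable (fun x => f x * r x - r x0 * f x) μ := hfr.sub (hfi.const_mul _)
  have i2 : Integrable (fun x => f x0 * r x - f x0 * r x0) μ :=
    (hri.const_mul _).sub (integrable_const _)
  rw [e, integral_sub i1 i2, integral_sub hfr (hfi.const_mul _),
    integral_sub (hri.const_mul _) (integrable_const _), integral_const_mul, integral_const_mul,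
    integral_const, probReal_univ, one_smul, hx0] at h1
  linarith

theorem Sg1_pos {g : ℝ → ℝ} (hg : ∀ y, 0 < g y) (hi : Integrable g N1) : 0 < ∫ y, g y ∂N1 := by
  rw [integral_pos_iff_support_of_nonneg (fun y => (hg y).le) hi]
  have h : Function.support g = Set.univ := by
    ext y
    simp [(hg y).ne']
  rw [h, measure_univ]
  exact one_pos

/-- The same with a weight `w > 0` instead of a probability measure, and a parametrisation `y ↦ v + s y`, `s` of any sign.
Proof: `cheb` with the density (normalised), or repeat the proof: `(f(X) - f(x0))(r(X) - r(x0)) w ≥ 0`, `X = v + s y`. -/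
theorem cheb_w (s v : ℝ) (w f r : ℝ → ℝ) (hw : ∀ y, 0 < w y) (hf : Monotone f) (hr : Monotone r)
    (hrc : Continuous r) (h0 : Integrable w N1)
    (h1 : Integrable (fun y => f (v + s * y) * w y) N1)
    (h2 : Integrable (fun y => r (v + s * y) * w y) N1)
    (h3 : Integrable (fun y => f (v + s * y) * r (v + s * y) * w y) N1) :
    (∫ y, f (v + s * y) * w y ∂N1) * (∫ y, r (v + s * y) * w y ∂N1) ≤
      (∫ y, f (v + s * y) * r (v + s * y) * w y ∂N1) * (∫ y, w y ∂N1) := by
  have hW : 0 < ∫ y, w y ∂N1 := Sg1_pos hw h0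
  set W := ∫ y, w y ∂N1 with hWd
  set R := ∫ y, r (v + s * y) * w y ∂N1 with hR
  have hz : ∫ y, (r (v + s * y) - R / W) * w y ∂N1 = 0 := by
    have e : (fun y => (r (v + s * y) - R / W) * w y) =
        fun y => r (v + s * y) * w y - (R / W) * w y := by
      funext y
      ring
    rw [e, integral_sub h2 (h0.const_mul _), integral_const_mul, ← hWd, ← hR,
      div_mul_cancel₀ _ hW.ne', sub_self]
  have hzi : Integrable (fun y => (r (v + s * y) - R / W) * w y) N1 := by
    have e : (fun y => (r (v + s * y) - R / W) * w y) =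
        fun y => r (v + s * y) * w y - (R / W) * w y := by
      funext y
      ring
    rw [e]
    exact h2.sub (h0.const_mul _)
  have hle : ∃ x, r x ≤ R / W := by
    by_contra hc
    push Not at hc
    have h := Sg1_pos (fun y => mul_pos (sub_pos.mpr (hc (v + s * y))) (hw y)) hzi
    rw [hz] at h
    exact lt_irrefl _ h
  have hge : ∃ x, R / W ≤ r x := by
    by_contra hc
    push Not at hc
    have h := Sg1_pos (g := fun y => -((r (v + s * y) - R / W) * w y))
      (fun y => neg_pos.mpr (mul_neg_of_neg_of_pos (sub_neg.mpr (hc (v + s * y))) (hw y))) hzi.neg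
    rw [integral_neg, hz, neg_zero] at h
    exact lt_irrefl _ h
  obtain ⟨x0, hx0⟩ := mem_range_of_exists_le_of_exists_ge hrc hle hge
  have k1 : 0 ≤ ∫ y, (f (v + s * y) - f x0) * (r (v + s * y) - r x0) * w y ∂N1 := by
    refine integral_nonneg fun y => mul_nonneg ?_ (hw y).le
    rcases le_total (v + s * y) x0 with h | h
    · exact mul_nonneg_of_nonpos_of_nonpos (sub_nonpos.mpr (hf h)) (sub_nonpos.mpr (hr h))
    · exact mul_nonneg (sub_nonneg.mpr (hf h)) (sub_nonneg.mpr (hr h))
  have e : (fun y => (f (v + s * y) - f x0) * (r (v + s * y) - r x0) * w y) =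
      fun y => (f (v + s * y) * r (v + s * y) * w y - r x0 * (f (v + s * y) * w y)) -
        (f x0 * (r (v + s * y) * w y) - (f x0 * r x0) * w y) := by
    funext y
    ring
  have i1 : Integrable (fun y => f (v + s * y) * r (v + s * y) * w y -
      r x0 * (f (v + s * y) * w y)) N1 := h3.sub (h1.const_mul _)
  have i2 : Integrable (fun y => f x0 * (r (v + s * y) * w y) - (f x0 * r x0) * w y) N1 :=
    (h2.const_mul _).sub (h0.const_mul _)
  rw [e, integral_sub i1 i2, integral_sub h3 (h1.const_mul _),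
    integral_sub (h2.const_mul _) (h0.const_mul _), integral_const_mul, integral_const_mul,
    integral_const_mul, ← hR, ← hWd, hx0] at k1
  have k2 : f x0 * R - f x0 * (R / W) * W = 0 := by
    rw [mul_assoc, div_mul_cancel₀ _ hW.ne', sub_self]
  rw [k2, sub_zero, sub_nonneg] at k1
  have k3 := mul_le_mul_of_nonneg_right k1 hW.le
  have k4 : R / W * (∫ y, f (v + s * y) * w y ∂N1) * W = (∫ y, f (v + s * y) * w y ∂N1) * R := by
    field_simp
  rw [k4] at k3
  exact k3

/-- increments of a convex function are nondecreasing -/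
theorem Sg1_incr {f : ℝ → ℝ} (hf : ConvexOn ℝ Set.univ f) {d x x' : ℝ} (hd : 0 ≤ d) (hx : x ≤ x') :
    f (x + d) - f x ≤ f (x' + d) - f x' := by
  rcases hd.eq_or_lt with rfl | hd
  · simp
  have hL : 0 < x' + d - x := by linarith
  set θ := d / (x' + d - x) with hθ
  have hθ0 : 0 ≤ θ := (div_pos hd hL).le
  have hθ1 : θ ≤ 1 := by
    rw [hθ, div_le_one hL]
    linarith
  have hθL : θ * (x' + d - x) = d := div_mul_cancel₀ _ hL.ne'
  have h1 := hf.2 (Set.mem_univ x) (Set.mem_univ (x' + d)) (sub_nonneg.mpr hθ1) hθ0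
    (by ring : (1 - θ) + θ = 1)
  have h2 := hf.2 (Set.mem_univ x) (Set.mem_univ (x' + d)) hθ0 (sub_nonneg.mpr hθ1)
    (by ring : θ + (1 - θ) = 1)
  simp only [smul_eq_mul] at h1 h2
  have e1 : (1 - θ) * x + θ * (x' + d) = x + d := by linarith
  have e2 : θ * x + (1 - θ) * (x' + d) = x' := by linarith
  rw [e1] at h1
  rw [e2] at h2
  linarith

theorem Sg1_G1_of {h : ℝ → ℝ} (hc : Continuous h) {A B : ℝ}
    (hb : ∀ v, |h v| ≤ A * Real.exp (B * |v|)) : G1 h := by
  refine ⟨hc, max (max A B) 0, fun v => (hb v).trans ?_⟩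
  have hA : A ≤ max (max A B) 0 := (le_max_left _ _).trans (le_max_left _ _)
  have hB : B ≤ max (max A B) 0 := (le_max_right _ _).trans (le_max_left _ _)
  refine (mul_le_mul_of_nonneg_right hA (Real.exp_pos _).le).trans ?_
  exact mul_le_mul_of_nonneg_left
    (Real.exp_le_exp.mpr (mul_le_mul_of_nonneg_right hB (abs_nonneg v))) (le_max_right _ _)

theorem Sg1_G1_shift {h : ℝ → ℝ} (hh : G1 h) (d : ℝ) : G1 (fun y => h (y + d)) := by
  obtain ⟨hc, C, hC⟩ := hh
  refine Sg1_G1_of (hc.comp (continuous_id.add continuous_const)) (A := |C| * Real.exp (|C| * |d|))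
    (B := |C|) fun v => (hC (v + d)).trans ?_
  rw [mul_assoc, ← Real.exp_add]
  refine mul_le_mul (le_abs_self C) (Real.exp_le_exp.mpr ?_) (Real.exp_pos _).le (abs_nonneg _)
  have h1 : C * |v + d| ≤ |C| * (|v| + |d|) :=
    mul_le_mul (le_abs_self C) (abs_add_le _ _) (abs_nonneg _) (abs_nonneg _)
  linarith

theorem Sg1_G1_bdd {h : ℝ → ℝ} (hc : Continuous h) {A : ℝ} (hb : ∀ v, |h v| ≤ A) : G1 h :=
  Sg1_G1_of hc (A := A) (B := 0) fun v => by simpa using hb v

theorem Sg1_G1_add {h h' : ℝ → ℝ} (hh : G1 h) (hh' : G1 h') : G1 (fun y => h y + h' y) := by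
  obtain ⟨hc, C, hC⟩ := hh
  obtain ⟨hc', C', hC'⟩ := hh'
  refine Sg1_G1_of (hc.add hc') (A := |C| + |C'|) (B := |C| + |C'|) fun v => ?_
  refine (abs_add_le _ _).trans ?_
  have h1 : |h v| ≤ |C| * Real.exp ((|C| + |C'|) * |v|) := by
    refine (hC v).trans (mul_le_mul (le_abs_self C) (Real.exp_le_exp.mpr ?_) (Real.exp_pos _).le
      (abs_nonneg _))
    exact mul_le_mul_of_nonneg_right ((le_abs_self C).trans (le_add_of_nonneg_right (abs_nonneg _)))
      (abs_nonneg _)
  have h2 : |h' v| ≤ |C'| * Real.exp ((|C| + |C'|) * |v|) := by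
    refine (hC' v).trans (mul_le_mul (le_abs_self C') (Real.exp_le_exp.mpr ?_) (Real.exp_pos _).le
      (abs_nonneg _))
    exact mul_le_mul_of_nonneg_right ((le_abs_self C').trans (le_add_of_nonneg_left (abs_nonneg _)))
      (abs_nonneg _)
  linarith

theorem Sg1_G1_smul {h : ℝ → ℝ} (hh : G1 h) (c : ℝ) : G1 (fun y => c * h y) := by
  obtain ⟨hc, C, hC⟩ := hh
  refine Sg1_G1_of (continuous_const.mul hc) (A := |c| * C) (B := C) fun v => ?_
  rw [abs_mul, mul_assoc]
  exact mul_le_mul_of_nonneg_left (hC v) (abs_nonneg _)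

theorem Sg1_G1_const (c : ℝ) : G1 (fun _ => c) := Sg1_G1_bdd continuous_const (A := |c|) fun _ => le_rfl

theorem Sg1_G1_exp : G1 (fun y => Real.exp (2 * y)) :=
  Sg1_G1_of (by fun_prop) (A := 1) (B := 2) fun v => by
    rw [abs_of_pos (Real.exp_pos _), one_mul]
    exact Real.exp_le_exp.mpr (mul_le_mul_of_nonneg_left (le_abs_self v) zero_le_two)

theorem Sg1_G1_exp' : G1 (fun y => Real.exp (-(2 * y))) :=
  Sg1_G1_of (by fun_prop) (A := 1) (B := 2) fun v => by
    rw [abs_of_pos (Real.exp_pos _), one_mul]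
    refine Real.exp_le_exp.mpr ?_
    have := neg_abs_le v
    linarith

/-- Domination: the chain from `v + d` is above the translated chain from `v`.
Proof: induction on `l` (for all `h`, `v`).  `l = []`: equality.  `l = a :: l2`, `f = psi1 b (l2 ++ l')` (convex: `psi1_convex`), `H = C1 b l2 l' h`: by induction
`H(x + d) ≥ C1 b l2 l' (h(· + d)) x ≥ C1 b l2 l' h x` (`h` nondecreasing, `C1_mono`), so `H` is nondecreasing.  With `w y = exp(m f(v + s y))` and
`r x = exp(m (f(x + d) - f x))` (nondecreasing, since `f` is convex and `m ≥ 0`): `E1 m s f H (v + d) = ∫ H(X + d) r(X) w / ∫ r(X) w ≥ ∫ H(X + d) w/∫ w` (`cheb_w`)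
`≥ E1 m s f (C1 b l2 l' (h(· + d))) v`. -/
theorem dom (b : ℝ) (l l' : List (Step Unit)) (hl : Ok (l ++ l')) (h : ℝ → ℝ) (hh : G1 h)
    (hm : Monotone h) (d : ℝ) (hd : 0 ≤ d) (v : ℝ) :
    C1 b l l' (fun y => h (y + d)) v ≤ C1 b l l' h (v + d) := by
  induction l generalizing d v with
  | nil => rw [C1_nil, C1_nil]
  | cons a l2 ih =>
    have hl2 : Ok (l2 ++ l') := Ok_tail hl
    have ihd := fun d' (hd' : 0 ≤ d') v' => ih hl2 d' hd' v'
    have hm0 : 0 ≤ a.1 := (hl.2.1 a (by simp)).1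
    have hmono : Monotone (C1 b l2 l' h) := by
      intro x x' hx
      have h1 := ihd (x' - x) (sub_nonneg.mpr hx) x
      rw [add_sub_cancel] at h1
      refine le_trans ?_ h1
      exact C1_mono b l2 l' hh (Sg1_G1_shift hh _) (fun y => hm (by linarith)) x
    have hG : G1 (C1 b l2 l' h) := G1_C1 b l2 l' hh
    have hGd : G1 (fun y => C1 b l2 l' h (y + d)) := Sg1_G1_shift hG d
    have hGs : G1 (C1 b l2 l' (fun y => h (y + d))) := G1_C1 b l2 l' (Sg1_G1_shift hh d)
    have hconv := psi1_convex b (l2 ++ l') hl2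
    have hcont := psi1_cont b (l2 ++ l')
    rw [C1_cons, C1_cons]
    unfold E1
    set f := psi1 b (l2 ++ l') with hf
    set s := si b a with hs
    -- the weight and the density
    have hrm : Monotone (fun x => Real.exp (a.1 * (f (x + d) - f x))) := by
      intro x x' hx
      exact Real.exp_le_exp.mpr (mul_le_mul_of_nonneg_left (Sg1_incr hconv hd hx) hm0)
    have hrc : Continuous (fun x => Real.exp (a.1 * (f (x + d) - f x))) := by
      fun_prop
    have er : ∀ y, Real.exp (a.1 * (f (v + s * y + d) - f (v + s * y))) *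
        Real.exp (a.1 * f (v + s * y)) = Real.exp (a.1 * f (v + d + s * y)) := by
      intro y
      rw [← Real.exp_add]
      congr 1
      have : v + s * y + d = v + d + s * y := by ring
      rw [this]
      ring
    have i0 := int_exp a.1 s v b (l2 ++ l')
    have i0' := int_exp a.1 s (v + d) b (l2 ++ l')
    have i1 := int_G1 hGd a.1 s v b (l2 ++ l')
    have i3 := int_G1 hG a.1 s (v + d) b (l2 ++ l')
    have i4 := int_G1 hGs a.1 s v b (l2 ++ l')
    have p0 := int_exp_pos a.1 s v b (l2 ++ l')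
    have p1 := int_exp_pos a.1 s (v + d) b (l2 ++ l')
    rw [← hf] at i0 i0' i1 i3 i4 p0 p1
    have er2 : (fun y => Real.exp (a.1 * (f (v + s * y + d) - f (v + s * y))) *
        Real.exp (a.1 * f (v + s * y))) = fun y => Real.exp (a.1 * f (v + d + s * y)) := funext er
    have er3 : (fun y => C1 b l2 l' h (v + s * y + d) *
        Real.exp (a.1 * (f (v + s * y + d) - f (v + s * y))) * Real.exp (a.1 * f (v + s * y))) =
        fun y => C1 b l2 l' h (v + d + s * y) * Real.exp (a.1 * f (v + d + s * y)) := by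
      funext y
      rw [mul_assoc, er y]
      congr 2
      ring
    have key := cheb_w s v (fun y => Real.exp (a.1 * f (v + s * y)))
      (fun x => C1 b l2 l' h (x + d)) (fun x => Real.exp (a.1 * (f (x + d) - f x)))
      (fun y => Real.exp_pos _) (fun x x' hx => hmono (by linarith)) hrm hrc i0 i1
      (by simp only [er2]; exact i0') (by simp only [er3]; exact i3)
    simp only [er2, er3] at key
    have h5 : ∫ y, C1 b l2 l' (fun y => h (y + d)) (v + s * y) * Real.exp (a.1 * f (v + s * y)) ∂N1 ≤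
        ∫ y, C1 b l2 l' h (v + s * y + d) * Real.exp (a.1 * f (v + s * y)) ∂N1 := by
      refine integral_mono i4 i1 fun y => ?_
      exact mul_le_mul_of_nonneg_right (ihd d hd (v + s * y)) (Real.exp_pos _).le
    rw [div_le_div_iff₀ p0 p1]
    refine le_trans (mul_le_mul_of_nonneg_right h5 p1.le) key

/-- J5. Proof: `mg1_eq`; for `v' = v + d`: `mg1 (v+d) - mg1 v ≥ C1 (tanh(y + d) - tanh y) v` (`dom`) `= sinh d * C1 (1/X) v`, `X = cosh(y + d) cosh y`. `1/X ≥ 2/a - X/a²` with
`a = C1 X v > 0`, so `C1 (1/X) v ≥ 1/a`.  `X = (cosh(2y + d) + cosh d)/2` and `C1_exp_le`: `a ≤ (C cosh(2v + d) + cosh d)/2 ≤ C cosh(v + d) cosh v`.  So the difference is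
`≥ C⁻¹ sinh d/(cosh(v+d) cosh v) = C⁻¹ (tanh(v + d) - tanh v)`. -/
theorem mg1_mono (b : ℝ) : ∃ c : ℝ, 0 < c ∧ ∀ l : List (Step Unit), Ok l → ∀ v v' : ℝ, v ≤ v' →
    c * (Real.tanh v' - Real.tanh v) ≤ mg1 b l v' - mg1 b l v := by
  obtain ⟨C, hC1, hC⟩ := C1_exp_le b
  have hC0 : 0 < C := lt_of_lt_of_le one_pos hC1
  refine ⟨C⁻¹, inv_pos.mpr hC0, fun l hl v v' hv => ?_⟩
  obtain ⟨d, hd, rfl⟩ : ∃ d, 0 ≤ d ∧ v' = v + d := ⟨v' - v, sub_nonneg.mpr hv, by ring⟩
  have hl' : Ok (l ++ []) := by rwa [List.append_nil]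
  have htm : Monotone Real.tanh := fun x y hxy => Sg1_tanh_mono hxy
  have htG : G1 Real.tanh := Sg1_G1_bdd Sg1_tanh_cont (A := 1) Sg1_tanh_abs
  have h1 := dom b l [] hl' Real.tanh htG htm d hd v
  have h2 : C1 b l [] (fun y => Real.tanh (y + d) + (-1) * Real.tanh y) v =
      C1 b l [] (fun y => Real.tanh (y + d)) v + (-1) * C1 b l [] Real.tanh v := by
    rw [C1_add b l [] (Sg1_G1_shift htG d) (Sg1_G1_smul htG (-1)) v, C1_smul]
  have e1 : (fun y => Real.tanh (y + d) + (-1) * Real.tanh y) =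
      fun y => Real.sinh d * (1 / (Real.cosh (y + d) * Real.cosh y)) := by
    funext y
    have := Sg1_tanh_sub y d
    linarith
  rw [e1, C1_smul] at h2
  -- lower bound of the mean of `1/X`
  have hcp : ∀ y : ℝ, 0 < Real.cosh (y + d) * Real.cosh y := fun y =>
    mul_pos (Real.cosh_pos _) (Real.cosh_pos _)
  set A : ℝ := C * (Real.cosh (v + d) * Real.cosh v) with hA
  have hA0 : 0 < A := mul_pos hC0 (hcp v)
  have hX : ∀ y, Real.exp d / 4 * Real.exp (2 * y) + (Real.exp (-d) / 4 * Real.exp (-(2 * y)) +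
      Real.cosh d / 2) = Real.cosh (y + d) * Real.cosh y := fun y => Sg1_cosh_mul y d
  have hG2 : G1 (fun y => Real.exp d / 4 * Real.exp (2 * y) +
      (Real.exp (-d) / 4 * Real.exp (-(2 * y)) + Real.cosh d / 2)) :=
    Sg1_G1_add (Sg1_G1_smul Sg1_G1_exp _) (Sg1_G1_add (Sg1_G1_smul Sg1_G1_exp' _) (Sg1_G1_const _))
  have hCX : C1 b l [] (fun y => Real.exp d / 4 * Real.exp (2 * y) +
      (Real.exp (-d) / 4 * Real.exp (-(2 * y)) + Real.cosh d / 2)) v ≤ A := by
    rw [C1_add b l [] (Sg1_G1_smul Sg1_G1_exp _)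
      (Sg1_G1_add (Sg1_G1_smul Sg1_G1_exp' _) (Sg1_G1_const _)) v,
      C1_add b l [] (Sg1_G1_smul Sg1_G1_exp' _) (Sg1_G1_const _) v, C1_smul, C1_smul, C1_const, hA,
      ← hX v]
    obtain ⟨k1, k2⟩ := hC l [] hl' v
    have k3 := mul_le_mul_of_nonneg_left k2 (by positivity : 0 ≤ Real.exp d / 4)
    have k4 := mul_le_mul_of_nonneg_left k1 (by positivity : 0 ≤ Real.exp (-d) / 4)
    have k5 : Real.cosh d / 2 ≤ C * (Real.cosh d / 2) :=
      le_mul_of_one_le_left (by have := Real.cosh_pos d; positivity) hC1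
    linarith
  have hGi : G1 (fun y => 1 / (Real.cosh (y + d) * Real.cosh y)) := by
    refine Sg1_G1_bdd (A := 1) ?_ fun y => ?_
    · refine continuous_const.div ?_ fun y => (hcp y).ne'
      exact (Real.continuous_cosh.comp (by fun_prop)).mul Real.continuous_cosh
    · rw [abs_of_pos (one_div_pos.mpr (hcp y)), div_le_one (hcp y)]
      exact one_le_mul_of_one_le_of_one_le (Real.one_le_cosh _) (Real.one_le_cosh _)
  have hlow : ∀ y, 2 / A + (-(1 / A ^ 2)) * (Real.exp d / 4 * Real.exp (2 * y) +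
      (Real.exp (-d) / 4 * Real.exp (-(2 * y)) + Real.cosh d / 2)) ≤
      1 / (Real.cosh (y + d) * Real.cosh y) := by
    intro y
    rw [hX y]
    have hp := hcp y
    set X := Real.cosh (y + d) * Real.cosh y with hXd
    have k : 1 / X - (2 / A + (-(1 / A ^ 2)) * X) = (X - A) ^ 2 / (X * A ^ 2) := by
      field_simp
      ring
    have k2 : 0 ≤ (X - A) ^ 2 / (X * A ^ 2) := by positivity
    linarith
  have h3 := C1_mono b l [] (Sg1_G1_add (Sg1_G1_const (2 / A)) (Sg1_G1_smul hG2 (-(1 / A ^ 2)))) hGi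
    hlow v
  rw [C1_add b l [] (Sg1_G1_const (2 / A)) (Sg1_G1_smul hG2 (-(1 / A ^ 2))) v, C1_const,
    C1_smul] at h3
  have h4 : 1 / A ≤ C1 b l [] (fun y => 1 / (Real.cosh (y + d) * Real.cosh y)) v := by
    refine le_trans ?_ h3
    have k := mul_le_mul_of_nonneg_left hCX (by positivity : 0 ≤ 1 / A ^ 2)
    have k2 : 1 / A ^ 2 * A = 1 / A := by
      field_simp
    have k3 : 2 / A = 1 / A + 1 / A := by ring
    rw [k2] at k
    linarith
  have hs : 0 ≤ Real.sinh d := Real.sinh_nonneg_iff.mpr hd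
  have h5 := mul_le_mul_of_nonneg_left h4 hs
  have h6 : C⁻¹ * (Real.tanh (v + d) - Real.tanh v) = Real.sinh d * (1 / A) := by
    rw [Sg1_tanh_sub, hA]
    have := (hcp v).ne'
    field_simp
  rw [h6, mg1_eq, mg1_eq]
  linarith

end SKC.Sg
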