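import Pool.Agent.H.MP_08eaf3_pr.J.Sg0b

/-! # Part J, section Single: the corner expansion J3 (helper4) -/

set_option autoImplicit false

open MeasureTheory ProbabilityTheory Filter Topology Matrix

namespace SKC.Sg

theorem Sg2_int_exp (θ : ℝ) : Integrable (fun y => Real.exp (θ * y)) N1 := by
  unfold N1
  exact integrable_exp_mul_gaussianReal θ

theorem Sg2_mgf (θ : ℝ) : ∫ y, Real.exp (θ * y) ∂N1 = Real.exp (θ ^ 2 / 2) := by
  have h := mgf_fun_id_gaussianReal (μ := 0) (v := 1)
  have h1 := congrFun h θ
  unfold mgf at h1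
  unfold N1
  rw [h1]
  congr 1
  simp

theorem Sg2_int_id : Integrable (fun y : ℝ => y) N1 := by
  have h0 : MemLp (fun x : ℝ => x) 1 (gaussianReal 0 1) := by
    have h2 := memLp_id_gaussianReal (μ := 0) (v := 1) 1
    have h3 : ((1 : NNReal) : ENNReal) = 1 := by simp
    rw [h3] at h2
    exact h2
  unfold N1
  exact memLp_one_iff_integrable.1 h0

theorem Sg2_mean : ∫ y : ℝ, y ∂N1 = 0 := by
  unfold N1
  exact integral_id_gaussianReal

theorem Sg2_int_psi (s b : ℝ) (l : List (Step Unit)) (v : ℝ) :
    Integrable (fun y => psi1 b l (v + s * y)) N1 := by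
  have h1 : Integrable (fun y : ℝ => |psi1 b l 0| + |v + s * y|) N1 :=
    (integrable_const _).add (((integrable_const v).add (Sg2_int_id.const_mul s)).abs)
  refine h1.mono' ?_ (Eventually.of_forall fun y => ?_)
  · exact ((psi1_cont b l).comp (continuous_const.add (continuous_const.mul continuous_id))).aestronglyMeasurable
  · rw [Real.norm_eq_abs]
    have h2 := psi1_lip b l (v + s * y) 0
    rw [sub_zero] at h2
    have h3 := abs_sub_abs_le_abs_sub (psi1 b l (v + s * y)) (psi1 b l 0)
    linarith

/-- One step.  Proof (`m ≤ 1`, `m ≥ 0`): `exp(m f(w)) ≤ exp(m (w + a)) (1 + K e^{-2w})^m`; for `m > 0`, with the probability density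
`exp(m s y - m² s²/2)` with respect to `N1` and Jensen `(E (1 + X)^m)^{1/m} ≤ 1 + E X`: `T1 f v ≤ v + a + m s²/2 + log(1 + K e^{-2v} E_tilt e^{-2 s y})`, `E_tilt e^{-2sy} = exp(2s² - 2ms²) ≤ exp(2s²)`.
For `m = 0`: Jensen for `log`.  Lower bound: `T1` is monotone and `T1 (w ↦ w + a) v = v + a + m s²/2`. -/
theorem corner_step (m s b a K : ℝ) (hm : 0 ≤ m) (hm1 : m ≤ 1) (hK : 0 ≤ K) (l : List (Step Unit))
    (h : ∀ w, 0 ≤ psi1 b l w - (w + a) ∧ psi1 b l w - (w + a) ≤ Real.log (1 + K * Real.exp (-(2 * w))))
    (v : ℝ) :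
    0 ≤ T1 m s (psi1 b l) v - (v + (a + m * s ^ 2 / 2)) ∧
      T1 m s (psi1 b l) v - (v + (a + m * s ^ 2 / 2)) ≤
        Real.log (1 + K * Real.exp (2 * s ^ 2) * Real.exp (-(2 * v))) := by
  have hX : ∀ w, 0 < 1 + K * Real.exp (-(2 * w)) := fun w => by
    have := mul_nonneg hK (Real.exp_pos (-(2 * w))).le; linarith
  have hexp2 : ∀ y, Real.exp (-(2 * (v + s * y))) = Real.exp (-(2 * v)) * Real.exp ((-(2 * s)) * y) := by
    intro y
    rw [← Real.exp_add]; congr 1; ring
  have htpos : 0 < 1 + K * Real.exp (2 * s ^ 2) * Real.exp (-(2 * v)) := by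
    have := mul_nonneg (mul_nonneg hK (Real.exp_pos (2 * s ^ 2)).le) (Real.exp_pos (-(2 * v))).le
    linarith
  rcases hm.eq_or_lt with h0 | hmpos
  · subst h0
    unfold T1
    rw [if_pos rfl]
    have hi0 : Integrable (fun y : ℝ => v + s * y) N1 :=
      (integrable_const v).add (Sg2_int_id.const_mul s)
    have hlin : ∫ y, ((v + s * y) + a) ∂N1 = v + a := by
      rw [integral_add hi0 (integrable_const a),
        integral_add (integrable_const v) (Sg2_int_id.const_mul s), integral_const_mul, Sg2_mean]
      simp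
    have hlinint : Integrable (fun y => (v + s * y) + a) N1 :=
      hi0.add (integrable_const a)
    constructor
    · have h1 : v + a ≤ ∫ y, psi1 b l (v + s * y) ∂N1 := by
        rw [← hlin]
        apply integral_mono hlinint (Sg2_int_psi s b l v)
        intro y
        have := (h (v + s * y)).1
        simp only
        linarith
      linarith
    · set t : ℝ := 1 + K * Real.exp (2 * s ^ 2) * Real.exp (-(2 * v)) with ht
      -- tangent line of the logarithm
      have h1 : ∀ y, psi1 b l (v + s * y) ≤ ((v + s * y) + a) + (Real.log t - 1 +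
          (1 / t) * (1 + K * Real.exp (-(2 * v)) * Real.exp ((-(2 * s)) * y))) := by
        intro y
        have h2 := (h (v + s * y)).2
        have h3 : Real.log (1 + K * Real.exp (-(2 * (v + s * y)))) ≤
            Real.log t - 1 + (1 / t) * (1 + K * Real.exp (-(2 * v)) * Real.exp ((-(2 * s)) * y)) := by
          have h4 := Real.log_le_sub_one_of_pos (div_pos (hX (v + s * y)) htpos)
          rw [Real.log_div (hX _).ne' htpos.ne'] at h4
          rw [hexp2] at h4 ⊢
          have h5 : (1 + K * (Real.exp (-(2 * v)) * Real.exp ((-(2 * s)) * y))) / t =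
              (1 / t) * (1 + K * Real.exp (-(2 * v)) * Real.exp ((-(2 * s)) * y)) := by ring
          rw [h5] at h4
          linarith
        linarith
      have hint0 : Integrable (fun y => 1 + K * Real.exp (-(2 * v)) * Real.exp ((-(2 * s)) * y)) N1 :=
        (integrable_const _).add ((Sg2_int_exp _).const_mul _)
      have hint1 : Integrable (fun y => Real.log t - 1 +
          (1 / t) * (1 + K * Real.exp (-(2 * v)) * Real.exp ((-(2 * s)) * y))) N1 :=
        (integrable_const _).add (hint0.const_mul _)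
      have h6 := integral_mono (Sg2_int_psi s b l v) (hlinint.add hint1) h1
      simp only [Pi.add_apply] at h6
      rw [integral_add hlinint hint1, hlin] at h6
      have h7 : ∫ y, (Real.log t - 1 +
          (1 / t) * (1 + K * Real.exp (-(2 * v)) * Real.exp ((-(2 * s)) * y))) ∂N1 = Real.log t := by
        rw [integral_add (integrable_const _) (hint0.const_mul _),
          integral_const_mul, integral_add (integrable_const _) ((Sg2_int_exp _).const_mul _),
          integral_const_mul, Sg2_mgf]
        simp only [integral_const, probReal_univ, smul_eq_mul, one_mul]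
        have h8 : (-(2 * s)) ^ 2 / 2 = 2 * s ^ 2 := by ring
        rw [h8]
        have h9 : 1 + K * Real.exp (-(2 * v)) * Real.exp (2 * s ^ 2) = t := by rw [ht]; ring
        rw [h9, one_div, inv_mul_cancel₀ htpos.ne']
        ring
      rw [h7] at h6
      linarith
  · -- positive weight
    unfold T1
    rw [if_neg hmpos.ne']
    set G : ℝ := Real.exp (m * (v + a) + m ^ 2 * s ^ 2 / 2) with hG
    have hGpos : 0 < G := Real.exp_pos _
    have hlin : ∀ y, Real.exp (m * ((v + s * y) + a)) = Real.exp (m * (v + a)) * Real.exp ((m * s) * y) := by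
      intro y
      rw [← Real.exp_add]; congr 1; ring
    have hlinint : Integrable (fun y => Real.exp (m * ((v + s * y) + a))) N1 := by
      simp only [hlin]
      exact (Sg2_int_exp _).const_mul _
    have hlinG : ∫ y, Real.exp (m * ((v + s * y) + a)) ∂N1 = G := by
      simp only [hlin]
      rw [integral_const_mul, Sg2_mgf, ← Real.exp_add, hG]
      congr 1; ring
    have hI := int_exp m s v b l
    have hIpos := int_exp_pos m s v b l
    constructor
    · have h1 : G ≤ ∫ y, Real.exp (m * psi1 b l (v + s * y)) ∂N1 := by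
        rw [← hlinG]
        apply integral_mono hlinint hI
        intro y
        apply Real.exp_le_exp.2
        apply mul_le_mul_of_nonneg_left _ hm
        have := (h (v + s * y)).1
        linarith
      have h2 := Real.log_le_log hGpos h1
      rw [hG, Real.log_exp] at h2
      have h3 : v + (a + m * s ^ 2 / 2) = (1 / m) * (m * (v + a) + m ^ 2 * s ^ 2 / 2) := by
        field_simp
        ring
      rw [h3, ← mul_sub]
      exact mul_nonneg (by positivity) (by linarith)
    · set t : ℝ := 1 + K * Real.exp (-(2 * v)) * Real.exp (2 * s ^ 2 - 2 * m * s ^ 2) with ht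
      have ht1 : 0 < t := by
        have := mul_nonneg (mul_nonneg hK (Real.exp_pos (-(2 * v))).le)
          (Real.exp_pos (2 * s ^ 2 - 2 * m * s ^ 2)).le
        linarith
      have htle : t ≤ 1 + K * Real.exp (2 * s ^ 2) * Real.exp (-(2 * v)) := by
        have h1 : Real.exp (2 * s ^ 2 - 2 * m * s ^ 2) ≤ Real.exp (2 * s ^ 2) := by
          apply Real.exp_le_exp.2
          have : 0 ≤ 2 * m * s ^ 2 := by positivity
          linarith
        have h2 := mul_le_mul_of_nonneg_left h1 (mul_nonneg hK (Real.exp_pos (-(2 * v))).le)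
        rw [ht]
        linarith
      -- Bernoulli
      have hbern : ∀ y, Real.exp (m * psi1 b l (v + s * y)) ≤
          t ^ m * ((1 - m) * Real.exp (m * ((v + s * y) + a)) +
            (m / t) * (Real.exp (m * ((v + s * y) + a)) +
              K * Real.exp (-(2 * v)) * (Real.exp (m * (v + a)) * Real.exp ((m * s - 2 * s) * y)))) := by
        intro y
        set X : ℝ := 1 + K * Real.exp (-(2 * (v + s * y))) with hXdef
        have hXp : 0 < X := hX _
        have h2 : psi1 b l (v + s * y) ≤ (v + s * y) + a + Real.log X := by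
          have := (h (v + s * y)).2
          linarith
        have h3 : Real.exp (m * psi1 b l (v + s * y)) ≤
            Real.exp (m * ((v + s * y) + a)) * X ^ m := by
          rw [Real.rpow_def_of_pos hXp, ← Real.exp_add]
          apply Real.exp_le_exp.2
          have := mul_le_mul_of_nonneg_left h2 hm
          linarith
        have h4 : X ^ m ≤ t ^ m * (1 + m * (X / t - 1)) := by
          have h5 := rpow_one_add_le_one_add_mul_self (s := X / t - 1)
            (by have := div_pos hXp ht1; linarith) hm hm1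
          have h6 : 1 + (X / t - 1) = X / t := by ring
          rw [h6, Real.div_rpow hXp.le ht1.le, div_le_iff₀ (Real.rpow_pos_of_pos ht1 m)] at h5
          linarith
        have h7 : Real.exp (m * ((v + s * y) + a)) * X ^ m ≤
            Real.exp (m * ((v + s * y) + a)) * (t ^ m * (1 + m * (X / t - 1))) :=
          mul_le_mul_of_nonneg_left h4 (Real.exp_pos _).le
        refine (h3.trans h7).trans (le_of_eq ?_)
        have h8 : Real.exp (m * ((v + s * y) + a)) * X = Real.exp (m * ((v + s * y) + a)) +
              K * Real.exp (-(2 * v)) * (Real.exp (m * (v + a)) * Real.exp ((m * s - 2 * s) * y)) := by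
          rw [hXdef, hexp2, hlin]
          have h9 : Real.exp ((m * s - 2 * s) * y) = Real.exp ((m * s) * y) * Real.exp ((-(2 * s)) * y) := by
            rw [← Real.exp_add]; congr 1; ring
          rw [h9]
          ring
        rw [← h8]
        field_simp
        ring
      have hint2 : Integrable (fun y => Real.exp (m * ((v + s * y) + a)) +
              K * Real.exp (-(2 * v)) * (Real.exp (m * (v + a)) * Real.exp ((m * s - 2 * s) * y))) N1 :=
        hlinint.add (((Sg2_int_exp _).const_mul _).const_mul _)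
      have hval2 : ∫ y, (Real.exp (m * ((v + s * y) + a)) +
              K * Real.exp (-(2 * v)) * (Real.exp (m * (v + a)) * Real.exp ((m * s - 2 * s) * y))) ∂N1 =
          G * t := by
        rw [integral_add hlinint (((Sg2_int_exp _).const_mul _).const_mul _), hlinG,
          integral_const_mul, integral_const_mul, Sg2_mgf, ht, hG]
        have h9 : Real.exp (m * (v + a)) * Real.exp ((m * s - 2 * s) ^ 2 / 2) =
            Real.exp (m * (v + a) + m ^ 2 * s ^ 2 / 2) * Real.exp (2 * s ^ 2 - 2 * m * s ^ 2) := by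
          rw [← Real.exp_add, ← Real.exp_add]; congr 1; ring
        rw [h9]
        ring
      have h10 := integral_mono hI (((hlinint.const_mul (1 - m)).add (hint2.const_mul (m / t))).const_mul (t ^ m)) hbern
      simp only [Pi.add_apply] at h10
      rw [integral_const_mul, integral_add (hlinint.const_mul (1 - m)) (hint2.const_mul (m / t)),
        integral_const_mul, integral_const_mul, hlinG, hval2] at h10
      have h11 : t ^ m * ((1 - m) * G + m / t * (G * t)) = t ^ m * G := by
        field_simp
        ring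
      rw [h11] at h10
      have h12 := Real.log_le_log hIpos h10
      rw [Real.log_mul (Real.rpow_pos_of_pos ht1 m).ne' hGpos.ne', Real.log_rpow ht1, hG, Real.log_exp] at h12
      have h13 : (1 / m) * Real.log (∫ y, Real.exp (m * psi1 b l (v + s * y)) ∂N1) ≤
          (1 / m) * (m * Real.log t + (m * (v + a) + m ^ 2 * s ^ 2 / 2)) :=
        mul_le_mul_of_nonneg_left h12 (by positivity)
      have h14 : (1 / m) * (m * Real.log t + (m * (v + a) + m ^ 2 * s ^ 2 / 2)) =
          Real.log t + (v + (a + m * s ^ 2 / 2)) := by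
        field_simp
        ring
      rw [h14] at h13
      have h15 := Real.log_le_log ht1 htle
      linarith

theorem Sg2_upper (b : ℝ) : ∀ l : List (Step Unit), Ok l →
    ∃ a : ℝ, 0 ≤ a ∧ a ≤ b ^ 2 * Qtot l () () ∧ ∀ v : ℝ, 0 ≤ psi1 b l v - (v + a) ∧
      psi1 b l v - (v + a) ≤
        Real.log (1 + Real.exp (4 * b ^ 2 * Qtot l () ()) * Real.exp (-(2 * v))) := by
  intro l
  induction l with
  | nil =>
    intro _
    have hQ : Qtot ([] : List (Step Unit)) () () = 0 := rfl
    refine ⟨0, le_rfl, by rw [hQ, mul_zero], fun v => ?_⟩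
    rw [psi1_nil, hQ, mul_zero, Real.exp_zero, one_mul, add_zero]
    have h1 : Real.exp v + Real.exp (-v) = Real.exp v * (1 + Real.exp (-(2 * v))) := by
      rw [mul_add, mul_one, ← Real.exp_add]
      congr 2; ring
    have h2 : 0 < 1 + Real.exp (-(2 * v)) := by positivity
    rw [h1, Real.log_mul (Real.exp_pos v).ne' h2.ne', Real.log_exp]
    have h3 : 0 ≤ Real.log (1 + Real.exp (-(2 * v))) :=
      Real.log_nonneg (by have := Real.exp_pos (-(2 * v)); linarith)
    constructor
    · linarith
    · linarith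
  | cons s l ih =>
    intro hok
    obtain ⟨a, ha0, ha1, ha2⟩ := ih (Ok_tail hok)
    have hm := hok.2.1 s List.mem_cons_self
    have hstep := corner_step s.1 (si b s) b a (Real.exp (4 * b ^ 2 * Qtot l () ())) hm.1 hm.2
      (Real.exp_pos _).le l ha2
    have hsq := si_sq b s
    have hQ := Qtot_cons_unit s l
    refine ⟨a + s.1 * si b s ^ 2 / 2, ?_, ?_, fun v => ?_⟩
    · have : 0 ≤ s.1 * si b s ^ 2 / 2 := by
        have := mul_nonneg hm.1 (sq_nonneg (si b s)); linarith
      linarith
    · rw [hQ, hsq, mul_add]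
      have h1 : s.1 * (2 * b ^ 2 * s.2 () () ^ 2) / 2 = s.1 * (b ^ 2 * s.2 () () ^ 2) := by ring
      rw [h1]
      have h2 : s.1 * (b ^ 2 * s.2 () () ^ 2) ≤ 1 * (b ^ 2 * s.2 () () ^ 2) :=
        mul_le_mul_of_nonneg_right hm.2 (by positivity)
      linarith
    · rw [psi1_cons]
      obtain ⟨h1, h2⟩ := hstep v
      refine ⟨h1, ?_⟩
      have h3 : Real.exp (4 * b ^ 2 * Qtot (s :: l) () ()) =
          Real.exp (4 * b ^ 2 * Qtot l () ()) * Real.exp (2 * si b s ^ 2) := by
        rw [← Real.exp_add, hQ, hsq]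
        congr 1; ring
      rw [h3]
      exact h2

/-- J3. Proof: induction on `l` with `corner_step`: `a = ∑ m_i s_i²/2 ∈ [0, b²]`, `K = exp(2 ∑ s_i²) ≤ exp(4 b²)` (`si_sq`, `Qtot_cons_unit`); `l = []`: `log(e^v + e^{-v}) = v + log(1 + e^{-2v})`.
Lower bound for `v ≥ 0`: `rem v = psi1 b l v - (v + a)` has derivative `mg1 b l v - 1 ≤ -C⁻¹/(1 + e^{2v})` (`psi1_deriv`, `mg1_tails`), `rem (v + 1) ≥ 0`, so `rem v ≥ C⁻¹/(1 + e^{2v+2})` (mean value theorem)
`≥ c e^{-2v}`. Take the maximum of the constants. -/
theorem psi1_corner (b : ℝ) : ∃ C : ℝ, 0 < C ∧ ∀ l : List (Step Unit), Ok l →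
    ∃ a : ℝ, |a| ≤ C ∧ ∀ v : ℝ, 0 ≤ psi1 b l v - (v + a) ∧
      psi1 b l v - (v + a) ≤ Real.log (1 + C * Real.exp (-(2 * v))) ∧
      (0 ≤ v → C⁻¹ * Real.exp (-(2 * v)) ≤ psi1 b l v - (v + a)) := by
  obtain ⟨C0, hC0, htails⟩ := mg1_tails b
  have hC0pos : 0 < C0 := by linarith
  set C : ℝ := b ^ 2 + Real.exp (4 * b ^ 2) + C0 * (1 + Real.exp 2) with hC
  have e2 := Real.exp_pos 2
  have e4 := Real.exp_pos (4 * b ^ 2)
  have hCpos : 0 < C := by positivity
  refine ⟨C, hCpos, fun l hl => ?_⟩
  obtain ⟨a, ha0, ha1, ha2⟩ := Sg2_upper b l hl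
  have hQ1 : Qtot l () () ≤ 1 := hl.2.2 ()
  have hb2 : 0 ≤ b ^ 2 := sq_nonneg b
  refine ⟨a, ?_, fun v => ⟨(ha2 v).1, ?_, ?_⟩⟩
  · rw [abs_of_nonneg ha0]
    have h1 : b ^ 2 * Qtot l () () ≤ b ^ 2 * 1 := mul_le_mul_of_nonneg_left hQ1 hb2
    have h2 : 0 < C0 * (1 + Real.exp 2) := by positivity
    linarith
  · refine (ha2 v).2.trans ?_
    apply Real.log_le_log
    · have := mul_pos (Real.exp_pos (4 * b ^ 2 * Qtot l () ())) (Real.exp_pos (-(2 * v)))
      linarith
    · have h1 : Real.exp (4 * b ^ 2 * Qtot l () ()) ≤ C := by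
        have h3 : Real.exp (4 * b ^ 2 * Qtot l () ()) ≤ Real.exp (4 * b ^ 2) := by
          apply Real.exp_le_exp.2
          have := mul_le_mul_of_nonneg_left hQ1 (mul_nonneg (by norm_num : (0 : ℝ) ≤ 4) hb2)
          linarith
        have h2 : 0 < C0 * (1 + Real.exp 2) := by positivity
        linarith
      have := mul_le_mul_of_nonneg_right h1 (Real.exp_pos (-(2 * v))).le
      linarith
  · intro hv
    obtain ⟨ξ, hξ, hξe⟩ := exists_hasDerivAt_eq_slope (psi1 b l) (mg1 b l)
      (show v < v + 1 by linarith) (psi1_cont b l).continuousOn (fun x _ => psi1_deriv b l x)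
    have h1 : psi1 b l (v + 1) - psi1 b l v = mg1 b l ξ := by
      rw [hξe]
      have : v + 1 - v = 1 := by ring
      rw [this, div_one]
    have h2 := (ha2 (v + 1)).1
    have h3 := (htails l hl ξ).2.1
    have h4 : C0⁻¹ / (1 + Real.exp (2 * (v + 1))) ≤ C0⁻¹ / (1 + Real.exp (2 * ξ)) := by
      apply div_le_div_of_nonneg_left (by positivity) (by positivity)
      have : Real.exp (2 * ξ) ≤ Real.exp (2 * (v + 1)) := Real.exp_le_exp.2 (by linarith [hξ.2])
      linarith
    have h5 : C⁻¹ * Real.exp (-(2 * v)) ≤ C0⁻¹ / (1 + Real.exp (2 * (v + 1))) := by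
      have h6 : 1 + Real.exp (2 * (v + 1)) ≤ Real.exp (2 * v) * (1 + Real.exp 2) := by
        have h7 : Real.exp (2 * (v + 1)) = Real.exp (2 * v) * Real.exp 2 := by
          rw [← Real.exp_add]; congr 1; ring
        have h8 : 1 ≤ Real.exp (2 * v) := Real.one_le_exp (by linarith)
        rw [h7]
        linarith
      have h9 : C0⁻¹ / (Real.exp (2 * v) * (1 + Real.exp 2)) ≤ C0⁻¹ / (1 + Real.exp (2 * (v + 1))) :=
        div_le_div_of_nonneg_left (by positivity) (by positivity) h6
      refine le_trans ?_ h9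
      have h10 : C0⁻¹ / (Real.exp (2 * v) * (1 + Real.exp 2)) =
          (C0 * (1 + Real.exp 2))⁻¹ * Real.exp (-(2 * v)) := by
        rw [Real.exp_neg]
        field_simp
      rw [h10]
      apply mul_le_mul_of_nonneg_right _ (Real.exp_pos _).le
      apply inv_anti₀ (by positivity)
      have : 0 ≤ b ^ 2 + Real.exp (4 * b ^ 2) := by positivity
      linarith
    linarith

end SKC.Sg
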