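import Pool.Agent.H.MP_08eaf3_pr.J.Sg0b

/-! # Part J, section Single: expansion of the magnetisation (helper4) -/

set_option autoImplicit false

open MeasureTheory ProbabilityTheory Filter Topology Matrix

namespace SKC.Sg

theorem Sg3_T1 (b : ℝ) (a : Step Unit) (l : List (Step Unit)) (v : ℝ) :
    T1 a.1 (si b a) (psi1 b l) v = psi1 b (a :: l) v :=
  (psi1_cons b a l v).symm

theorem Sg3_si_le (b : ℝ) (a : Step Unit) (l : List (Step Unit)) (h : Ok (a :: l)) :
    si b a ^ 2 ≤ 2 * b ^ 2 := by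
  have h1 := h.2.2 ()
  rw [Qtot_cons_unit] at h1
  have h2 := Qtot_nonneg l
  rw [si_sq]
  nlinarith [sq_nonneg b]

theorem Sg3_exp_sub_one (x : ℝ) : Real.exp x - 1 ≤ x * Real.exp x := by
  have h1 := Real.add_one_le_exp (-x)
  have h2 : Real.exp (-x) * Real.exp x = 1 := by rw [← Real.exp_add]; simp
  nlinarith [Real.exp_pos x]

/-- the decrement of the level function over a step of length `2 s²` -/
theorem Sg3_eps (b : ℝ) (l : List (Step Unit)) (hl : Ok l) (C : ℝ) (hC : ∀ v,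
    1 - mg1 b l v ≤ C * Real.exp (-(2 * v)) ∧ |mg1 b l v| < 1) (t v : ℝ) (ht : 0 ≤ t) :
    0 ≤ psi1 b l (v - 2 * t) - psi1 b l v + 2 * t ∧
    psi1 b l (v - 2 * t) - psi1 b l v + 2 * t ≤ 4 * t ∧
    psi1 b l (v - 2 * t) - psi1 b l v + 2 * t ≤ 2 * t * (|C| * Real.exp (4 * t) * Real.exp (-(2 * v))) := by
  rcases eq_or_lt_of_le ht with h0 | h0
  · subst h0
    simp
  · obtain ⟨ξ, hξ, h1⟩ := exists_hasDerivAt_eq_slope (psi1 b l) (mg1 b l)
      (show v - 2 * t < v by linarith) (psi1_cont b l).continuousOn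
      (fun x _ => psi1_deriv b l x)
    have h2 : psi1 b l v - psi1 b l (v - 2 * t) = mg1 b l ξ * (2 * t) := by
      have h3 : v - (v - 2 * t) = 2 * t := by ring
      rw [h3] at h1
      rw [h1]
      field_simp
    have h4 := (hC ξ).2
    rw [abs_lt] at h4
    have h5 := (hC ξ).1
    have h6 : psi1 b l (v - 2 * t) - psi1 b l v + 2 * t = 2 * t * (1 - mg1 b l ξ) := by
      linarith
    rw [h6]
    refine ⟨by nlinarith, by nlinarith, ?_⟩
    refine mul_le_mul_of_nonneg_left ?_ (by linarith)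
    refine h5.trans ?_
    rw [mul_assoc, ← Real.exp_add]
    refine (mul_le_mul_of_nonneg_right (le_abs_self C) (Real.exp_pos _).le).trans ?_
    refine mul_le_mul_of_nonneg_left (Real.exp_le_exp.2 ?_) (abs_nonneg C)
    have := hξ.1
    linarith

/-- one step of the chain in one variable as a chain -/
theorem Sg3_E1 (b : ℝ) (a : Step Unit) (l : List (Step Unit)) (h : ℝ → ℝ) (v : ℝ) :
    E1 a.1 (si b a) (psi1 b l) h v = C1 b [a] l h v := by
  rw [C1_cons, C1_nil, List.nil_append]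

theorem Sg3_G1_exp (k : ℝ) : G1 (fun y => Real.exp (-(k * y))) := by
  refine ⟨by fun_prop, |k| + 1, fun v => ?_⟩
  rw [abs_of_pos (Real.exp_pos _)]
  have h1 : Real.exp (-(k * v)) ≤ Real.exp ((|k| + 1) * |v|) := by
    refine Real.exp_le_exp.2 ?_
    have h2 : -(k * v) ≤ |k| * |v| := by
      rw [← abs_mul]
      exact neg_le_abs _
    have := abs_nonneg v
    linarith
  have h3 : 1 * Real.exp ((|k| + 1) * |v|) ≤ (|k| + 1) * Real.exp ((|k| + 1) * |v|) :=
    mul_le_mul_of_nonneg_right (by linarith [abs_nonneg k]) (Real.exp_pos _).le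
  linarith

theorem Sg3_G1_smul {h : ℝ → ℝ} (hh : G1 h) (c : ℝ) : G1 (fun y => c * h y) := by
  obtain ⟨hc, C, hC⟩ := hh
  refine ⟨continuous_const.mul hc, |c| * |C| + |C|, fun v => ?_⟩
  rw [abs_mul]
  have h1 : |h v| ≤ |C| * Real.exp ((|c| * |C| + |C|) * |v|) := by
    refine (hC v).trans ?_
    refine (mul_le_mul_of_nonneg_right (le_abs_self C) (Real.exp_pos _).le).trans ?_
    refine mul_le_mul_of_nonneg_left (Real.exp_le_exp.2 ?_) (abs_nonneg C)
    refine mul_le_mul_of_nonneg_right ?_ (abs_nonneg v)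
    have h2 := le_abs_self C
    have h3 : 0 ≤ |c| * |C| := by positivity
    linarith
  have h4 : |c| * |h v| ≤ |c| * (|C| * Real.exp ((|c| * |C| + |C|) * |v|)) :=
    mul_le_mul_of_nonneg_left h1 (abs_nonneg c)
  have h5 : 0 ≤ |C| * Real.exp ((|c| * |C| + |C|) * |v|) := by positivity
  calc |c| * |h v| ≤ |c| * (|C| * Real.exp ((|c| * |C| + |C|) * |v|)) := h4
    _ ≤ |c| * (|C| * Real.exp ((|c| * |C| + |C|) * |v|)) +
          |C| * Real.exp ((|c| * |C| + |C|) * |v|) := le_add_of_nonneg_right h5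
    _ = _ := by ring

theorem Sg3_G1_add {h h' : ℝ → ℝ} (hh : G1 h) (hh' : G1 h') : G1 (fun y => h y + h' y) := by
  obtain ⟨hc, C, hC⟩ := hh
  obtain ⟨hc', C', hC'⟩ := hh'
  refine ⟨hc.add hc', |C| + |C'|, fun v => ?_⟩
  have h1 : |h v| ≤ |C| * Real.exp ((|C| + |C'|) * |v|) := by
    refine (hC v).trans ?_
    refine (mul_le_mul_of_nonneg_right (le_abs_self C) (Real.exp_pos _).le).trans ?_
    refine mul_le_mul_of_nonneg_left (Real.exp_le_exp.2 ?_) (abs_nonneg C)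
    refine mul_le_mul_of_nonneg_right ?_ (abs_nonneg v)
    linarith [le_abs_self C, abs_nonneg C']
  have h2 : |h' v| ≤ |C'| * Real.exp ((|C| + |C'|) * |v|) := by
    refine (hC' v).trans ?_
    refine (mul_le_mul_of_nonneg_right (le_abs_self C') (Real.exp_pos _).le).trans ?_
    refine mul_le_mul_of_nonneg_left (Real.exp_le_exp.2 ?_) (abs_nonneg C')
    refine mul_le_mul_of_nonneg_right ?_ (abs_nonneg v)
    linarith [le_abs_self C', abs_nonneg C]
  refine (abs_add_le _ _).trans ?_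
  rw [add_mul]
  exact add_le_add h1 h2

theorem Sg3_G1_bdd {h : ℝ → ℝ} (hc : Continuous h) (R : ℝ) (hb : ∀ v, |h v| ≤ R) : G1 h := by
  refine ⟨hc, |R|, fun v => (hb v).trans ((le_abs_self R).trans ?_)⟩
  have h1 : 1 ≤ Real.exp (|R| * |v|) := Real.one_le_exp (by positivity)
  nlinarith [abs_nonneg R]

/-- One step for `e^{-2y}`: `α1 = exp(2 (1 - m) s²)`.
Proof: `E1_exp` with `θ = 2`: `E1 = e^{-2v} exp(2s² + m (ψ(v - 2s²) - ψ v))`, `ψ = psi1 b (a :: l) = T1 …` (`psi1_cons`).  `ψ(v - 2s²) - ψ v = -2s² + ∫_{v-2s²}^v (1 - mg1) =: -2s² + ε`, by the mean value theorem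
(`psi1_deriv`) `0 ≤ ε ≤ 2s² · sup (1 - mg1) ≤ 2s² · min(2, C e^{-2v + 4s²})` (`mg1_tails`, `|mg1| < 1`).  So `E1 = α1 e^{-2v} e^{mε}`, and `0 ≤ e^{mε} - 1 ≤ mε e^{mε} ≤ K s² e^{-2v}` as `ε ≤ 4 s²`, `s² ≤ 2b²`. -/
theorem exp2_step (b : ℝ) : ∃ K : ℝ, 0 ≤ K ∧ ∀ (a : Step Unit) (l : List (Step Unit)), Ok (a :: l) → ∀ v : ℝ,
    Real.exp (2 * (1 - a.1) * si b a ^ 2) * Real.exp (-(2 * v)) ≤
      E1 a.1 (si b a) (psi1 b l) (fun y => Real.exp (-(2 * y))) v ∧
    E1 a.1 (si b a) (psi1 b l) (fun y => Real.exp (-(2 * y))) v ≤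
      Real.exp (2 * (1 - a.1) * si b a ^ 2) * Real.exp (-(2 * v)) *
        (1 + K * si b a ^ 2 * Real.exp (-(2 * v))) := by
  obtain ⟨C, hC1, hC⟩ := mg1_tails b
  refine ⟨2 * (|C| * Real.exp (16 * b ^ 2)), by positivity, fun a l hl v => ?_⟩
  have ha := hl.2.1 a (List.mem_cons_self)
  set t : ℝ := si b a ^ 2 with ht
  have ht0 : 0 ≤ t := sq_nonneg _
  have htb : t ≤ 2 * b ^ 2 := Sg3_si_le b a l hl
  obtain ⟨e0, e1, e2⟩ := Sg3_eps b (a :: l) hl C (fun v => ⟨(hC (a :: l) hl v).1,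
    (hC (a :: l) hl v).2.2⟩) t v ht0
  set ε : ℝ := psi1 b (a :: l) (v - 2 * t) - psi1 b (a :: l) v + 2 * t with hε
  have hE : E1 a.1 (si b a) (psi1 b l) (fun y => Real.exp (-(2 * y))) v =
      Real.exp (2 * (1 - a.1) * t) * Real.exp (-(2 * v)) * Real.exp (a.1 * ε) := by
    rw [E1_exp, Sg3_T1, Sg3_T1, ← ht, ← Real.exp_add, ← Real.exp_add, ← Real.exp_add]
    congr 1
    rw [hε]
    ring
  rw [hE]
  have hp : 0 < Real.exp (2 * (1 - a.1) * t) * Real.exp (-(2 * v)) := by positivity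
  have hmε : 0 ≤ a.1 * ε := mul_nonneg ha.1 e0
  constructor
  · have h1 : 1 ≤ Real.exp (a.1 * ε) := Real.one_le_exp hmε
    nlinarith
  · refine mul_le_mul_of_nonneg_left ?_ hp.le
    have h1 := Sg3_exp_sub_one (a.1 * ε)
    have h2 : a.1 * ε ≤ ε := by nlinarith [ha.2]
    have h3 : Real.exp (a.1 * ε) ≤ Real.exp (8 * b ^ 2) := Real.exp_le_exp.2 (by linarith)
    have h4 : a.1 * ε * Real.exp (a.1 * ε) ≤ ε * Real.exp (8 * b ^ 2) :=
      mul_le_mul h2 h3 (Real.exp_pos _).le e0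
    have h5 : ε ≤ 2 * t * (|C| * Real.exp (8 * b ^ 2) * Real.exp (-(2 * v))) := by
      refine e2.trans ?_
      refine mul_le_mul_of_nonneg_left ?_ (by linarith)
      refine mul_le_mul_of_nonneg_right ?_ (Real.exp_pos _).le
      exact mul_le_mul_of_nonneg_left (Real.exp_le_exp.2 (by linarith)) (abs_nonneg C)
    have h6 : ε * Real.exp (8 * b ^ 2) ≤
        2 * t * (|C| * Real.exp (8 * b ^ 2) * Real.exp (-(2 * v))) * Real.exp (8 * b ^ 2) :=
      mul_le_mul_of_nonneg_right h5 (Real.exp_pos _).le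
    have h7 : Real.exp (16 * b ^ 2) = Real.exp (8 * b ^ 2) * Real.exp (8 * b ^ 2) := by
      rw [← Real.exp_add]
      congr 1
      ring
    rw [h7]
    nlinarith

/-- One step for `e^{-4y}`: Proof: `E1_exp` with `θ = 4` and `psi1_lip` (`0 ≤ m ≤ 1`). -/
theorem exp4_step (b : ℝ) (a : Step Unit) (l : List (Step Unit)) (ha : 0 ≤ a.1) (ha1 : a.1 ≤ 1) (v : ℝ) :
    E1 a.1 (si b a) (psi1 b l) (fun y => Real.exp (-(4 * y))) v ≤
      Real.exp (12 * si b a ^ 2) * Real.exp (-(4 * v)) := by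
  rw [E1_exp, Sg3_T1, Sg3_T1, ← Real.exp_add, ← Real.exp_add]
  refine Real.exp_le_exp.2 ?_
  have h1 := psi1_lip b (a :: l) (v - 4 * si b a ^ 2) v
  have h2 : |v - 4 * si b a ^ 2 - v| = 4 * si b a ^ 2 := by
    rw [show v - 4 * si b a ^ 2 - v = -(4 * si b a ^ 2) by ring, abs_neg,
      abs_of_nonneg (by positivity)]
  rw [h2] at h1
  have h3 := (le_abs_self _).trans h1
  have h4 : 0 ≤ si b a ^ 2 := sq_nonneg _
  have h5 : a.1 * (psi1 b (a :: l) (v - 4 * si b a ^ 2) - psi1 b (a :: l) v) ≤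
      a.1 * (4 * si b a ^ 2) := mul_le_mul_of_nonneg_left h3 ha
  have h6 : a.1 * (4 * si b a ^ 2) ≤ 4 * si b a ^ 2 := by nlinarith
  linarith

theorem Sg3_chain (b K : ℝ) (hK : 0 ≤ K)
    (hs : ∀ (a : Step Unit) (l : List (Step Unit)), Ok (a :: l) → ∀ v : ℝ,
    Real.exp (2 * (1 - a.1) * si b a ^ 2) * Real.exp (-(2 * v)) ≤
      E1 a.1 (si b a) (psi1 b l) (fun y => Real.exp (-(2 * y))) v ∧
    E1 a.1 (si b a) (psi1 b l) (fun y => Real.exp (-(2 * y))) v ≤
      Real.exp (2 * (1 - a.1) * si b a ^ 2) * Real.exp (-(2 * v)) *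
        (1 + K * si b a ^ 2 * Real.exp (-(2 * v)))) :
    ∀ l : List (Step Unit), Ok l → ∃ α Kl : ℝ, 1 ≤ α ∧
      α ≤ Real.exp (2 * (2 * b ^ 2 * Qtot l () ())) ∧ 0 ≤ Kl ∧
      Kl ≤ K * (2 * b ^ 2 * Qtot l () ()) * Real.exp (12 * (2 * b ^ 2 * Qtot l () ())) ∧
      ∀ v : ℝ, α * Real.exp (-(2 * v)) ≤ C1 b l [] (fun y => Real.exp (-(2 * y))) v ∧
      C1 b l [] (fun y => Real.exp (-(2 * y))) v ≤
        α * Real.exp (-(2 * v)) + α * Kl * Real.exp (-(4 * v)) ∧
      C1 b l [] (fun y => Real.exp (-(4 * y))) v ≤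
        Real.exp (12 * (2 * b ^ 2 * Qtot l () ())) * Real.exp (-(4 * v)) := by
  intro l
  induction l with
  | nil =>
    intro _
    refine ⟨1, 0, le_refl _, ?_, le_refl _, ?_, fun v => ?_⟩
    · simp [Qtot]
    · simp [Qtot]
    · rw [C1_nil, C1_nil]
      simp [Qtot]
  | cons a l ih =>
    intro hl
    obtain ⟨α, Kl, h1, h2, h3, h4, h5⟩ := ih (Ok_tail hl)
    have ha := hl.2.1 a (List.mem_cons_self)
    have hQ : 2 * b ^ 2 * Qtot (a :: l) () () = si b a ^ 2 + 2 * b ^ 2 * Qtot l () () := by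
      rw [Qtot_cons_unit, si_sq]
      ring
    rw [hQ]
    set t : ℝ := si b a ^ 2 with ht
    set S : ℝ := 2 * b ^ 2 * Qtot l () () with hS
    have ht0 : 0 ≤ t := sq_nonneg _
    have hS0 : 0 ≤ S := mul_nonneg (by positivity) (Qtot_nonneg l)
    have g2 := Sg3_G1_exp 2
    have g4 := Sg3_G1_exp 4
    have gC2 := G1_C1 b l [] g2
    have gC4 := G1_C1 b l [] g4
    set α1 : ℝ := Real.exp (2 * (1 - a.1) * t) with hα1
    have hα1' : 1 ≤ α1 := Real.one_le_exp (by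
      have : 0 ≤ 1 - a.1 := by linarith [ha.2]
      positivity)
    have hα1u : α1 ≤ Real.exp (2 * t) := Real.exp_le_exp.2 (by
      have := mul_nonneg ha.1 ht0
      nlinarith)
    have e12 : 1 ≤ Real.exp (12 * t) := Real.one_le_exp (by positivity)
    refine ⟨α * α1, K * t + Kl * Real.exp (12 * t), ?_, ?_, ?_, ?_, fun v => ?_⟩
    · nlinarith
    · have : Real.exp (2 * (t + S)) = Real.exp (2 * S) * Real.exp (2 * t) := by
        rw [← Real.exp_add]
        congr 1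
        ring
      rw [this]
      exact mul_le_mul h2 hα1u (by linarith) (Real.exp_pos _).le
    · positivity
    · have e1 : Real.exp (12 * (t + S)) = Real.exp (12 * S) * Real.exp (12 * t) := by
        rw [← Real.exp_add]
        congr 1
        ring
      have e2 : 1 ≤ Real.exp (12 * (t + S)) := Real.one_le_exp (by positivity)
      have e3 : K * t * 1 ≤ K * t * Real.exp (12 * (t + S)) :=
        mul_le_mul_of_nonneg_left e2 (by positivity)
      have e4 : Kl * Real.exp (12 * t) ≤ K * S * Real.exp (12 * S) * Real.exp (12 * t) :=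
        mul_le_mul_of_nonneg_right h4 (Real.exp_pos _).le
      have e5 : K * (t + S) * Real.exp (12 * (t + S)) =
          K * t * Real.exp (12 * (t + S)) + K * S * Real.exp (12 * (t + S)) := by ring
      rw [e5]
      rw [e1] at e3 ⊢
      linarith
    · have hstep := hs a l hl v
      have hstep4 := exp4_step b a l ha.1 ha.2 v
      rw [Sg3_E1] at hstep hstep4
      have cons : ∀ h : ℝ → ℝ, C1 b (a :: l) [] h v = C1 b [a] l (C1 b l [] h) v := by
        intro h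
        rw [C1_cons, List.append_nil, Sg3_E1]
      rw [cons, cons]
      have hα0 : 0 < α := by linarith
      have hx : 0 < Real.exp (-(2 * v)) := Real.exp_pos _
      have hy : 0 < Real.exp (-(4 * v)) := Real.exp_pos _
      have hxy : Real.exp (-(4 * v)) = Real.exp (-(2 * v)) * Real.exp (-(2 * v)) := by
        rw [← Real.exp_add]
        congr 1
        ring
      refine ⟨?_, ?_, ?_⟩
      · have m1 := C1_mono b [a] l (Sg3_G1_smul g2 α) gC2 (fun w => (h5 w).1) v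
        rw [C1_smul] at m1
        have m2 : α * (α1 * Real.exp (-(2 * v))) ≤
            α * C1 b [a] l (fun y => Real.exp (-(2 * y))) v :=
          mul_le_mul_of_nonneg_left hstep.1 hα0.le
        linarith
      · have m1 := C1_mono b [a] l gC2
          (Sg3_G1_add (Sg3_G1_smul g2 α) (Sg3_G1_smul g4 (α * Kl))) (fun w => (h5 w).2.1) v
        rw [C1_add b [a] l (Sg3_G1_smul g2 α) (Sg3_G1_smul g4 (α * Kl)), C1_smul, C1_smul] at m1
        have m2 : α * C1 b [a] l (fun y => Real.exp (-(2 * y))) v ≤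
            α * (α1 * Real.exp (-(2 * v)) * (1 + K * t * Real.exp (-(2 * v)))) :=
          mul_le_mul_of_nonneg_left hstep.2 hα0.le
        have m3 : α * Kl * C1 b [a] l (fun y => Real.exp (-(4 * y))) v ≤
            α * Kl * (Real.exp (12 * t) * Real.exp (-(4 * v))) :=
          mul_le_mul_of_nonneg_left hstep4 (by positivity)
        have m4 : α * Kl * (Real.exp (12 * t) * Real.exp (-(4 * v))) ≤
            α * α1 * Kl * (Real.exp (12 * t) * Real.exp (-(4 * v))) := by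
          have : 0 ≤ α * Kl * (Real.exp (12 * t) * Real.exp (-(4 * v))) := by positivity
          nlinarith
        refine (m1.trans (add_le_add m2 (m3.trans m4))).trans (le_of_eq ?_)
        rw [hxy]
        ring
      · have m1 := C1_mono b [a] l gC4 (Sg3_G1_smul g4 (Real.exp (12 * S)))
          (fun w => (h5 w).2.2) v
        rw [C1_smul] at m1
        have m2 : Real.exp (12 * S) * C1 b [a] l (fun y => Real.exp (-(4 * y))) v ≤
            Real.exp (12 * S) * (Real.exp (12 * t) * Real.exp (-(4 * v))) :=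
          mul_le_mul_of_nonneg_left hstep4 (Real.exp_pos _).le
        refine (m1.trans m2).trans (le_of_eq ?_)
        rw [← mul_assoc, ← Real.exp_add]
        congr 2
        ring

/-- Proof: induction on `l` with the statement `α e^{-2v} ≤ C1 b l [] (e^{-2y}) v ≤ α e^{-2v}(1 + K_l e^{-2v})`, `α = exp(2 ∑ (1 - m_i) s_i²) ∈ [1, exp(4b²)]`,
`K_{a :: l} = K s² + K_l exp(12 s²)` (`C1_cons`, monotonicity and linearity of `E1` - or of `C1 b [a] l` -, `exp2_step`, `exp4_step`: `E1(e^{-2w}(1 + K_l e^{-2w}))`), so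
`K_l ≤ K (∑ s_i²) exp(12 ∑ s_i²) ≤ 2 b² K exp(24 b²)`; and `C1 b l [] (e^{-4y}) v ≤ exp(12 ∑ s_i²) e^{-4v}`. -/
theorem exp_chain (b : ℝ) : ∃ C : ℝ, 1 ≤ C ∧ ∀ l : List (Step Unit), Ok l → ∃ α : ℝ, 1 ≤ α ∧ α ≤ C ∧
    ∀ v : ℝ, α * Real.exp (-(2 * v)) ≤ C1 b l [] (fun y => Real.exp (-(2 * y))) v ∧
      C1 b l [] (fun y => Real.exp (-(2 * y))) v ≤ α * Real.exp (-(2 * v)) + C * Real.exp (-(4 * v)) ∧
      C1 b l [] (fun y => Real.exp (-(4 * y))) v ≤ C * Real.exp (-(4 * v)) := by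
  obtain ⟨K, hK, hs⟩ := exp2_step b
  have e24 : 1 ≤ Real.exp (24 * b ^ 2) := Real.one_le_exp (by positivity)
  have e4 : 1 ≤ Real.exp (4 * b ^ 2) := Real.one_le_exp (by positivity)
  have hKb : 0 ≤ K * (2 * b ^ 2) := by positivity
  have hC24 : Real.exp (24 * b ^ 2) ≤
      Real.exp (4 * b ^ 2) * Real.exp (24 * b ^ 2) * (1 + K * (2 * b ^ 2)) := by
    have h1 : Real.exp (24 * b ^ 2) ≤ Real.exp (4 * b ^ 2) * Real.exp (24 * b ^ 2) := by
      nlinarith
    have h2 : 0 ≤ Real.exp (4 * b ^ 2) * Real.exp (24 * b ^ 2) := by positivity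
    nlinarith
  have hC4 : Real.exp (4 * b ^ 2) ≤
      Real.exp (4 * b ^ 2) * Real.exp (24 * b ^ 2) * (1 + K * (2 * b ^ 2)) := by
    have h1 : Real.exp (4 * b ^ 2) ≤ Real.exp (4 * b ^ 2) * Real.exp (24 * b ^ 2) := by
      nlinarith
    have h2 : 0 ≤ Real.exp (4 * b ^ 2) * Real.exp (24 * b ^ 2) := by positivity
    nlinarith
  refine ⟨Real.exp (4 * b ^ 2) * Real.exp (24 * b ^ 2) * (1 + K * (2 * b ^ 2)),
    by linarith, fun l hl => ?_⟩
  obtain ⟨α, Kl, h1, h2, h3, h4, h5⟩ := Sg3_chain b K hK hs l hl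
  have hQ := hl.2.2 ()
  have hQ0 := Qtot_nonneg l
  have hS : 2 * b ^ 2 * Qtot l () () ≤ 2 * b ^ 2 := by nlinarith [sq_nonneg b]
  have hS0 : 0 ≤ 2 * b ^ 2 * Qtot l () () := by positivity
  have hα : α ≤ Real.exp (4 * b ^ 2) := h2.trans (Real.exp_le_exp.2 (by linarith))
  have hE : Real.exp (12 * (2 * b ^ 2 * Qtot l () ())) ≤ Real.exp (24 * b ^ 2) :=
    Real.exp_le_exp.2 (by linarith)
  have hKl : Kl ≤ K * (2 * b ^ 2) * Real.exp (24 * b ^ 2) := by
    refine h4.trans ?_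
    refine mul_le_mul ?_ hE (Real.exp_pos _).le hKb
    exact mul_le_mul_of_nonneg_left hS hK
  refine ⟨α, h1, hα.trans hC4, fun v => ?_⟩
  obtain ⟨g1, g2, g3⟩ := h5 v
  refine ⟨g1, g2.trans ?_, g3.trans ?_⟩
  · refine add_le_add le_rfl (mul_le_mul_of_nonneg_right ?_ (Real.exp_pos _).le)
    have h6 : α * Kl ≤ Real.exp (4 * b ^ 2) * (K * (2 * b ^ 2) * Real.exp (24 * b ^ 2)) :=
      mul_le_mul hα hKl h3 (Real.exp_pos _).le
    have h7 : 0 ≤ Real.exp (4 * b ^ 2) * Real.exp (24 * b ^ 2) := by positivity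
    nlinarith
  · exact mul_le_mul_of_nonneg_right (hE.trans hC24) (Real.exp_pos _).le

theorem Sg3_tanh (w : ℝ) :
    2 * Real.exp (-(2 * w)) + (-2) * Real.exp (-(4 * w)) ≤ 1 - Real.tanh w ∧
    1 - Real.tanh w ≤ 2 * Real.exp (-(2 * w)) ∧ |1 - Real.tanh w| ≤ 2 := by
  set x : ℝ := Real.exp (-(2 * w)) with hx
  have hx0 : 0 < x := Real.exp_pos _
  have hxx : Real.exp (-(4 * w)) = x * x := by
    rw [hx, ← Real.exp_add]
    congr 1
    ring
  have ht : 1 - Real.tanh w = 2 * x / (1 + x) := by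
    rw [Real.tanh_eq_sinh_div_cosh, Real.sinh_eq, Real.cosh_eq]
    have h1 : Real.exp (-w) = x * Real.exp w := by
      rw [hx, ← Real.exp_add]
      congr 1
      ring
    rw [h1]
    have h2 : Real.exp w ≠ 0 := (Real.exp_pos w).ne'
    have h3 : 1 + x ≠ 0 := by positivity
    have h4 : Real.exp w + x * Real.exp w ≠ 0 := by
      have : Real.exp w + x * Real.exp w = Real.exp w * (1 + x) := by ring
      rw [this]
      exact mul_ne_zero h2 h3
    field_simp
    ring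
  rw [ht, hxx]
  have h3 : 0 < 1 + x := by positivity
  refine ⟨?_, ?_, ?_⟩
  · rw [le_div_iff₀ h3]
    nlinarith [mul_pos hx0 hx0, mul_pos (mul_pos hx0 hx0) hx0]
  · rw [div_le_iff₀ h3]
    nlinarith [mul_pos hx0 hx0]
  · rw [abs_of_pos (by positivity), div_le_iff₀ h3]
    linarith

/-- J5. Proof: `0 ≤ 2e^{-2w} - (1 - tanh w) ≤ 2e^{-4w}` for all `w`; `1 - mg1 v = C1 b l [] (1 - tanh) v` and `exp_chain`. -/
theorem mg1_expand (b : ℝ) : ∃ C : ℝ, 1 ≤ C ∧ ∀ l : List (Step Unit), Ok l →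
    ∃ α : ℝ, 1 ≤ α ∧ α ≤ C ∧ ∀ v : ℝ,
      |1 - mg1 b l v - 2 * α * Real.exp (-(2 * v))| ≤ C * Real.exp (-(4 * v)) := by
  obtain ⟨C, hC, h⟩ := exp_chain b
  refine ⟨2 * C, by linarith, fun l hl => ?_⟩
  obtain ⟨α, h1, h2, h3⟩ := h l hl
  refine ⟨α, h1, by linarith, fun v => ?_⟩
  have g2 := Sg3_G1_exp 2
  have g4 := Sg3_G1_exp 4
  have hct : Continuous Real.tanh := by
    have : Real.tanh = fun x => Real.sinh x / Real.cosh x := by
      funext x
      exact Real.tanh_eq_sinh_div_cosh x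
    rw [this]
    exact Real.continuous_sinh.div Real.continuous_cosh fun x => (Real.cosh_pos x).ne'
  have gt : G1 (fun w => 1 - Real.tanh w) :=
    Sg3_G1_bdd (continuous_const.sub hct) 2 fun w => (Sg3_tanh w).2.2
  have gt' : G1 Real.tanh := by
    refine Sg3_G1_bdd hct 3 fun w => ?_
    have := (Sg3_tanh w).2.2
    rw [abs_le] at this ⊢
    constructor <;> linarith [this.1, this.2]
  have e1 : 1 - mg1 b l v = C1 b l [] (fun w => 1 - Real.tanh w) v := by
    have h4 := C1_add b l [] gt gt' v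
    have h5 : (fun y => (fun w => 1 - Real.tanh w) y + Real.tanh y) = fun _ => (1 : ℝ) := by
      funext y
      simp
    rw [h5, C1_const] at h4
    rw [mg1_eq]
    linarith
  rw [e1]
  obtain ⟨k1, k2, k3⟩ := h3 v
  have m1 := C1_mono b l [] gt (Sg3_G1_smul g2 2) (fun w => (Sg3_tanh w).2.1) v
  rw [C1_smul] at m1
  have m2 := C1_mono b l [] (Sg3_G1_add (Sg3_G1_smul g2 2) (Sg3_G1_smul g4 (-2))) gt
    (fun w => (Sg3_tanh w).1) v
  rw [C1_add b l [] (Sg3_G1_smul g2 2) (Sg3_G1_smul g4 (-2)), C1_smul, C1_smul] at m2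
  rw [abs_le]
  constructor <;> linarith

end SKC.Sg
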