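import Pool.Agent.H.MP_08eaf3_pr.J.GE

/-!
# Part J: shifts of chains (J7)
-/

set_option autoImplicit false
set_option linter.unusedSectionVars false

open MeasureTheory ProbabilityTheory Filter Topology Matrix

namespace SKC.J

open SKC.A

section

variable {K : Type} [Fintype K] [DecidableEq K]

theorem shift_lip (β : K → ℝ) (l l3 : List (Step K)) (z d : K → ℝ) :
    |PsiL β l (PsiL β l3 F0) (z + d) - PsiL β l (PsiL β l3 F0) z| ≤ n1 d := by
  have h := PsiL_lip β (l ++ l3) (z + d) z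
  rw [PsiL_append, add_sub_cancel_left] at h
  exact h

theorem shift_LG (β : K → ℝ) (l l3 : List (Step K)) : LG (PsiL β l (PsiL β l3 (F0 : (K → ℝ) → ℝ))) :=
  LG_PsiL β l (LG_PsiL β l3 LG_F0)

/-- the test function of the shift -/
theorem shift_EG {h : (K → ℝ) → ℝ} (hh : EG h) (θ e : K → ℝ) :
    EG (fun y => h (y + e) * Real.exp (-(dot θ y))) := by
  have h1 : EG (fun y => h (y + e)) := by
    have := hh.comp_add e
    have e1 : (fun y => h (y + e)) = fun x => h (e + x) := by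
      funext y
      rw [add_comm]
    rw [e1]
    exact this
  have h2 : EG (fun y : K → ℝ => Real.exp (-(dot θ y))) := by
    have := EG.exp_dot (-θ)
    have e1 : (fun y : K → ℝ => Real.exp (-(dot θ y))) = fun z => Real.exp (dot z (-θ)) := by
      funext y
      rw [dot_comm y, dot_neg_left]
    rw [e1]
    exact this
  exact h1.mul h2

theorem shift_EG' {h : (K → ℝ) → ℝ} (hh : EG h) (e : K → ℝ) : EG (fun y => h (y + e)) := by
  have := hh.comp_add e
  have e1 : (fun y => h (y + e)) = fun x => h (e + x) := by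
    funext y
    rw [add_comm]
  rw [e1]
  exact this

theorem Atot_cons_mulVec (β : K → ℝ) (s : Step K) (l : List (Step K)) (θ : K → ℝ) :
    (Atot β (s :: l)).mulVec θ = (Bm β s.2 * (Bm β s.2)ᵀ).mulVec θ + (Atot β l).mulVec θ := by
  rw [Atot_cons, Matrix.add_mulVec]

/-- General shift, uncentred form of the exponential -/
theorem shift_gen0 (β : K → ℝ) (l3 : List (Step K)) (h : (K → ℝ) → ℝ) (hh : EG h)
    (h0 : ∀ z, 0 ≤ h z) (θ : K → ℝ) (l : List (Step K)) :
    ∀ m0 : ℝ, 0 ≤ m0 → m0 ≤ 1 → Inc m0 l → ∀ z d : K → ℝ,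
      Real.exp (m0 * PsiL β l (PsiL β l3 F0) (z + d)) * ChE β l (PsiL β l3 F0) h (z + d) ≤
        Real.exp ((2 - m0) * (n1 d + tvs β l * n1 θ)) *
          (Real.exp (m0 * PsiL β l (PsiL β l3 F0) z) *
            (Real.exp (dot θ z - dot θ ((Atot β l).mulVec θ) / 2) *
            ChE β l (PsiL β l3 F0) (fun y => h (y + (d + (Atot β l).mulVec θ)) *
              Real.exp (-(dot θ y))) z)) := by
  induction l with
  | nil =>
    intro m0 hm0 hm1 _ z d
    have hA : (Atot β ([] : List (Step K))).mulVec θ = 0 := by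
      have : Atot β ([] : List (Step K)) = 0 := by
        ext c d
        show 2 * β c * β d * (0 : ℝ) = 0
        rw [mul_zero]
      rw [this, Matrix.zero_mulVec]
    rw [hA, add_zero, dot_zero_right, zero_div, sub_zero]
    show Real.exp (m0 * PsiL β l3 F0 (z + d)) * h (z + d) ≤
      Real.exp ((2 - m0) * (n1 d + 0 * n1 θ)) * (Real.exp (m0 * PsiL β l3 F0 z) *
        (Real.exp (dot θ z) * (h (z + d) * Real.exp (-(dot θ z)))))
    have e1 : Real.exp ((2 - m0) * (n1 d + 0 * n1 θ)) * (Real.exp (m0 * PsiL β l3 F0 z) *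
        (Real.exp (dot θ z) * (h (z + d) * Real.exp (-(dot θ z))))) =
        Real.exp ((2 - m0) * n1 d + m0 * PsiL β l3 F0 z) * h (z + d) := by
      rw [zero_mul, add_zero, Real.exp_add]
      have e2 : Real.exp (dot θ z) * Real.exp (-(dot θ z)) = 1 := by
        rw [← Real.exp_add, add_neg_cancel, Real.exp_zero]
      calc _ = Real.exp ((2 - m0) * n1 d) * Real.exp (m0 * PsiL β l3 F0 z) * h (z + d) *
            (Real.exp (dot θ z) * Real.exp (-(dot θ z))) := by ring
        _ = _ := by rw [e2, mul_one]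
    rw [e1]
    refine mul_le_mul_of_nonneg_right (Real.exp_le_exp.mpr ?_) (h0 _)
    have h1 := (abs_le.mp (shift_lip β [] l3 z d)).2
    have h2 : PsiL β l3 F0 (z + d) ≤ PsiL β l3 F0 z + n1 d := by
      have h3 : PsiL β [] (PsiL β l3 F0) (z + d) - PsiL β [] (PsiL β l3 F0) z =
        PsiL β l3 F0 (z + d) - PsiL β l3 F0 z := rfl
      linarith
    have h4 := n1_nonneg d
    nlinarith [mul_le_mul_of_nonneg_left h2 hm0, mul_nonneg (sub_nonneg.mpr hm1) h4]
  | cons s l ih =>
    intro m0 hm0 hm1 hI z d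
    obtain ⟨hs0, hs1⟩ := hI.head
    set P : (K → ℝ) → ℝ := PsiL β l (PsiL β l3 F0) with hP
    set B : Matrix K K ℝ := Bm β s.2 with hB
    set A : Matrix K K ℝ := B * Bᵀ with hA
    have hPL : LG P := shift_LG β l l3
    have hPsi : PsiL β (s :: l) (PsiL β l3 F0) = Tm s.1 B P := rfl
    have hCh : ∀ g, ChE β (s :: l) (PsiL β l3 F0) g = Es s.1 B P (ChE β l (PsiL β l3 F0) g) := fun g => rfl
    rw [hPsi, hCh, hCh, Atot_cons_mulVec]
    show _ ≤ Real.exp ((2 - m0) * (n1 d + (tv β s.2 + tvs β l) * n1 θ)) * _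
    rw [← hA, dot_add_right]
    set e : K → ℝ := d + (A.mulVec θ + (Atot β l).mulVec θ) with he
    set H : (K → ℝ) → ℝ := ChE β l (PsiL β l3 F0) (fun y => h (y + e) * Real.exp (-(dot θ y))) with hH
    have hHEG : EG H := EG_ChE β l (LG_PsiL β l3 LG_F0) (shift_EG hh θ e)
    have hHnn : ∀ w, 0 ≤ H w := fun w => ChE_nonneg β l _ (fun y => mul_nonneg (h0 _) (Real.exp_pos _).le) w
    set qs : ℝ := dot θ (A.mulVec θ) with hqs
    set ql : ℝ := dot θ ((Atot β l).mulVec θ) with hql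
    set g : (K → ℝ) → ℝ := ChE β l (PsiL β l3 F0) h with hg
    have hgEG : EG g := EG_ChE β l (LG_PsiL β l3 LG_F0) hh
    -- the left side
    have hL : Real.exp (m0 * Tm s.1 B P (z + d)) * Es s.1 B P g (z + d) =
        Real.exp (-((s.1 - m0) * Tm s.1 B P (z + d))) *
          ∫ x, g ((z + B.mulVec x) + (d + A.mulVec θ)) * Real.exp (s.1 * P ((z + B.mulVec x) + (d + A.mulVec θ))) *
            Real.exp (-(dot θ (B.mulVec x)) - qs / 2) ∂(gam K) := by
      have h1 := cm_step B θ (fun w => g (z + d + w) * Real.exp (s.1 * P (z + d + w)))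
      have h2 : ∀ x : K → ℝ, z + d + (B.mulVec x + (B * Bᵀ).mulVec θ) =
          (z + B.mulVec x) + (d + A.mulVec θ) := by
        intro x
        rw [hA]
        abel
      simp only [h2] at h1
      rw [← h1, ← exp_mul_Es hPL, ← mul_assoc, ← Real.exp_add]
      congr 2
      ring
    rw [hL]
    -- integrability
    have hPe : LG (fun w => P (w + (d + A.mulVec θ))) := by
      have := hPL.comp_affine (d + A.mulVec θ) (1 : Matrix K K ℝ)
      have e1 : (fun w => P (w + (d + A.mulVec θ))) =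
          fun x : K → ℝ => P ((d + A.mulVec θ) + (1 : Matrix K K ℝ).mulVec x) := by
        funext w
        rw [Matrix.one_mulVec, add_comm]
      rw [e1]
      exact this
    have hexpd : EG (fun w : K → ℝ => Real.exp (-(dot θ w) - qs / 2)) := by
      have h1 := (EG.exp_dot (-θ)).const_mul (Real.exp (-(qs / 2)))
      have e1 : (fun w : K → ℝ => Real.exp (-(dot θ w) - qs / 2)) =
          fun z => Real.exp (-(qs / 2)) * Real.exp (dot z (-θ)) := by
        funext w
        rw [dot_comm w, dot_neg_left, ← Real.exp_add]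
        congr 1
        ring
      rw [e1]
      exact h1
    have hexpB : EG (fun x : K → ℝ => Real.exp (-(dot θ (B.mulVec x)) - qs / 2)) := by
      have h1 := hexpd.comp_affine 0 B
      simpa using h1
    have hint1 : Integrable (fun x => g ((z + B.mulVec x) + (d + A.mulVec θ)) *
        Real.exp (s.1 * P ((z + B.mulVec x) + (d + A.mulVec θ))) *
            Real.exp (-(dot θ (B.mulVec x)) - qs / 2)) (gam K) := by
      have h1 : EG (fun w => g (w + (d + A.mulVec θ)) * Real.exp (s.1 * P (w + (d + A.mulVec θ)))) :=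
        (shift_EG' hgEG _).mul (hPe.exp s.1)
      exact ((h1.comp_affine z B).mul hexpB).integrable
    set c1 : ℝ := Real.exp ((2 - s.1) * (n1 (d + A.mulVec θ) + tvs β l * n1 θ)) *
      Real.exp (dot θ z - qs / 2 - ql / 2) with hc1
    have hint2 : Integrable (fun x => c1 * (H (z + B.mulVec x) * Real.exp (s.1 * P (z + B.mulVec x)))) (gam K) :=
      (int_step hPL hHEG s.1 B z).const_mul c1
    have hkey : ∫ x, g ((z + B.mulVec x) + (d + A.mulVec θ)) *
        Real.exp (s.1 * P ((z + B.mulVec x) + (d + A.mulVec θ))) *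
            Real.exp (-(dot θ (B.mulVec x)) - qs / 2) ∂(gam K) ≤
        c1 * (Real.exp (s.1 * Tm s.1 B P z) * Es s.1 B P H z) := by
      rw [exp_mul_Es hPL, ← integral_const_mul]
      refine integral_mono hint1 hint2 fun x => ?_
      beta_reduce
      have h1 := ih s.1 (hm0.trans hs0) hs1 hI.tail (z + B.mulVec x) (d + A.mulVec θ)
      have he2 : (d + A.mulVec θ) + (Atot β l).mulVec θ = e := by
        rw [he, add_assoc]
      rw [he2, ← hH] at h1
      have h2 := mul_le_mul_of_nonneg_right h1 (Real.exp_pos (-(dot θ (B.mulVec x)) - qs / 2)).le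
      refine le_trans (le_of_eq ?_) (h2.trans (le_of_eq ?_))
      · ring
      · rw [hc1, dot_add_right]
        have e3 : Real.exp (dot θ z - qs / 2 - ql / 2) =
            Real.exp (dot θ z + dot θ (B.mulVec x) - ql / 2) * Real.exp (-(dot θ (B.mulVec x)) - qs / 2) := by
          rw [← Real.exp_add]
          congr 1
          ring
        rw [e3]
        ring
    have hX : 0 ≤ Es s.1 B P H z := Es_nonneg hHnn _ _ _ _
    have hcomb : Real.exp (-((s.1 - m0) * Tm s.1 B P (z + d))) * (c1 * (Real.exp (s.1 * Tm s.1 B P z) * Es s.1 B P H z)) ≤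
        Real.exp ((2 - m0) * (n1 d + (tv β s.2 + tvs β l) * n1 θ)) *
          (Real.exp (m0 * Tm s.1 B P z) * (Real.exp (dot θ z - (qs + ql) / 2) * Es s.1 B P H z)) := by
      have e4 : Real.exp (-((s.1 - m0) * Tm s.1 B P (z + d))) *
          (c1 * (Real.exp (s.1 * Tm s.1 B P z) * Es s.1 B P H z)) =
          Real.exp (-((s.1 - m0) * Tm s.1 B P (z + d)) +
            ((2 - s.1) * (n1 (d + A.mulVec θ) + tvs β l * n1 θ) + (dot θ z - qs / 2 - ql / 2) +
              s.1 * Tm s.1 B P z)) * Es s.1 B P H z := by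
        rw [hc1, Real.exp_add, Real.exp_add, Real.exp_add]
        ring
      have e5 : Real.exp ((2 - m0) * (n1 d + (tv β s.2 + tvs β l) * n1 θ)) *
          (Real.exp (m0 * Tm s.1 B P z) * (Real.exp (dot θ z - (qs + ql) / 2) * Es s.1 B P H z)) =
          Real.exp ((2 - m0) * (n1 d + (tv β s.2 + tvs β l) * n1 θ) +
            (m0 * Tm s.1 B P z + (dot θ z - (qs + ql) / 2))) * Es s.1 B P H z := by
        rw [Real.exp_add, Real.exp_add]
        ring
      rw [e4, e5]
      refine mul_le_mul_of_nonneg_right (Real.exp_le_exp.mpr ?_) hX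
      have h1 : |Tm s.1 B P (z + d) - Tm s.1 B P z| ≤ n1 d := shift_lip β (s :: l) l3 z d
      have h2 := (abs_le.mp h1).1
      have h3 : n1 (d + A.mulVec θ) ≤ n1 d + tv β s.2 * n1 θ := by
        refine (n1_add_le _ _).trans (add_le_add le_rfl ?_)
        exact n1_cov_le β s.2 θ
      have h4 : 0 ≤ s.1 - m0 := sub_nonneg.mpr hs0
      have h5 : 0 ≤ 2 - s.1 := by linarith
      have h6 := mul_le_mul_of_nonneg_left h2 h4
      have h7 := mul_le_mul_of_nonneg_left h3 h5
      have h8 : 0 ≤ (s.1 - m0) * ((tv β s.2 + tvs β l) * n1 θ) :=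
        mul_nonneg h4 (mul_nonneg (add_nonneg (tv_nonneg _ _) (tvs_nonneg _ _)) (n1_nonneg _))
      nlinarith [h6, h7, h8]
    exact (mul_le_mul_of_nonneg_left hkey (Real.exp_pos _).le).trans hcomb

/-- centring of the exponential -/
theorem shift_centre (β : K → ℝ) (l : List (Step K)) (F h : (K → ℝ) → ℝ) (θ e z : K → ℝ) (q : ℝ) :
    ChE β l F (fun y => h (y + e) * Real.exp (-(dot θ (y - z)) - q)) z =
      Real.exp (dot θ z - q) * ChE β l F (fun y => h (y + e) * Real.exp (-(dot θ y))) z := by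
  rw [← ChE_smul]
  congr 1
  funext y
  have e1 : dot θ (y - z) = dot θ y - dot θ z := by
    have h1 := dot_add_right θ (y - z) z
    rw [sub_add_cancel] at h1
    linarith
  rw [e1, mul_left_comm, ← Real.exp_add]
  congr 2
  ring

/-- General shift, see `shift_gen0` -/
theorem shift_gen (β : K → ℝ) (l3 : List (Step K)) (h : (K → ℝ) → ℝ) (hh : EG h)
    (h0 : ∀ z, 0 ≤ h z) (θ : K → ℝ) (l : List (Step K)) :
    ∀ m0 : ℝ, 0 ≤ m0 → m0 ≤ 1 → Inc m0 l → ∀ z d : K → ℝ,
      Real.exp (m0 * PsiL β l (PsiL β l3 F0) (z + d)) * ChE β l (PsiL β l3 F0) h (z + d) ≤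
        Real.exp ((2 - m0) * (n1 d + tvs β l * n1 θ)) *
          (Real.exp (m0 * PsiL β l (PsiL β l3 F0) z) *
            ChE β l (PsiL β l3 F0) (fun y => h (y + (d + (Atot β l).mulVec θ)) *
              Real.exp (-(dot θ (y - z)) - dot θ ((Atot β l).mulVec θ) / 2)) z) := by
  intro m0 hm0 hm1 hI z d
  rw [shift_centre]
  exact shift_gen0 β l3 h hh h0 θ l m0 hm0 hm1 hI z d

theorem shift_zero (β : K → ℝ) (l2 l3 : List (Step K)) (hl : Ok (l2 ++ l3)) (h : (K → ℝ) → ℝ)
    (hh : EG h) (h0 : ∀ z, 0 ≤ h z) (θ z d : K → ℝ) :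
    ChE β l2 (PsiL β l3 F0) h (z + d) ≤ Real.exp (2 * (n1 d + tvs β l2 * n1 θ)) *
      ChE β l2 (PsiL β l3 F0) (fun y => h (y + (d + (Atot β l2).mulVec θ)) *
        Real.exp (-(dot θ (y - z)) - dot θ ((Atot β l2).mulVec θ) / 2)) z := by
  have h1 := shift_gen β l3 h hh h0 θ l2 0 le_rfl zero_le_one (Ok.inc hl).left z d
  simpa only [zero_mul, Real.exp_zero, one_mul, sub_zero] using h1

/-- J7: translation of the starting point (`shift_gen` with `θ = 0`, `m0 = 0`), `C = 2` -/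
theorem translate' (β : K → ℝ) (l2 l3 : List (Step K)) (hl : Ok (l2 ++ l3)) (h : (K → ℝ) → ℝ)
    (hh : EG h) (h0 : ∀ z, 0 ≤ h z) (z d : K → ℝ) :
    ChE β l2 (PsiL β l3 F0) h (z + d) ≤
      Real.exp (2 * n1 d) * ChE β l2 (PsiL β l3 F0) (fun y => h (y + d)) z := by
  have h1 := shift_zero β l2 l3 hl h hh h0 0 z d
  have e1 : (fun y => h (y + (d + (Atot β l2).mulVec 0)) *
        Real.exp (-(dot 0 (y - z)) - dot 0 ((Atot β l2).mulVec 0) / 2)) = fun y => h (y + d) := by
    funext y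
    rw [Matrix.mulVec_zero, add_zero, dot_zero_left, dot_zero_left, neg_zero, zero_div, sub_zero,
      Real.exp_zero, mul_one]
  rw [e1, n1_zero, mul_zero, add_zero] at h1
  exact h1

/-- J7: translation of the starting point -/
theorem ChE_translate (β : K → ℝ) : ∃ C : ℝ, 0 ≤ C ∧ ∀ l2 l3 : List (Step K), Ok (l2 ++ l3) →
    ∀ h : (K → ℝ) → ℝ, EG h → (∀ z, 0 ≤ h z) → ∀ z d : K → ℝ,
      ChE β l2 (PsiL β l3 F0) h (z + d) ≤
        Real.exp (C * n1 d) * ChE β l2 (PsiL β l3 F0) (fun y => h (y + d)) z :=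
  ⟨2, zero_le_two, fun l2 l3 hl h hh h0 z d => translate' β l2 l3 hl h hh h0 z d⟩

theorem exp_two_sub_one_le {t : ℝ} (h0 : 0 ≤ t) (h1 : t ≤ 1) :
    Real.exp (2 * t) - 1 ≤ 2 * Real.exp 2 * t := by
  have h2 := Real.add_one_le_exp (-(2 * t))
  have h3 : Real.exp (2 * t) * Real.exp (-(2 * t)) = 1 := by
    rw [← Real.exp_add, add_neg_cancel, Real.exp_zero]
  have h4 : Real.exp (2 * t) ≤ Real.exp 2 := Real.exp_le_exp.mpr (by linarith)
  have h5 := Real.exp_pos (2 * t)
  have h6 : Real.exp (2 * t) * (-(2 * t) + 1) ≤ 1 :=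
    (mul_le_mul_of_nonneg_left h2 h5.le).trans h3.le
  have h7 : Real.exp (2 * t) * (2 * t) ≤ Real.exp 2 * (2 * t) :=
    mul_le_mul_of_nonneg_right h4 (by linarith)
  nlinarith

/-- J7: Lipschitz dependence on the starting point. With `g = 1 + h ∈ [0,2]`, `d = z' - z`:
`ChE g z' ≤ exp(C n1 d) Y`, `Y = ChE (g(· + d)) z ≤ min(2, ChE g z + L n1 d)`, so
`ChE g z' - ChE g z ≤ 2 (exp(C n1 d) - 1) + L n1 d`, `exp(C t) - 1 ≤ C t exp C` for `0 ≤ t ≤ 1`. -/
theorem lip_one (β : K → ℝ) (l2 l3 : List (Step K)) (hl : Ok (l2 ++ l3)) (h : (K → ℝ) → ℝ)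
    (L : ℝ) (hL : ∀ z z', |h z - h z'| ≤ L * n1 (z - z')) (hc : Continuous h)
    (hb : ∀ z, |h z| ≤ 1) (z z' : K → ℝ) (hz : n1 (z' - z) ≤ 1) :
    ChE β l2 (PsiL β l3 F0) h z' - ChE β l2 (PsiL β l3 F0) h z ≤
      (4 * Real.exp 2 + L) * n1 (z' - z) := by
  have hF : LG (PsiL β l3 (F0 : (K → ℝ) → ℝ)) := LG_PsiL β l3 LG_F0
  have hh : EG h := EG.of_bdd hc hb
  set d : K → ℝ := z' - z with hd
  have hzd : z + d = z' := by rw [hd, add_sub_cancel]
  have hn := n1_nonneg d
  set g : (K → ℝ) → ℝ := fun y => 1 + h y with hg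
  have hgE : EG g := (EG.const 1).add hh
  have hg0 : ∀ y, 0 ≤ g y := fun y => by
    have := (abs_le.mp (hb y)).1
    show 0 ≤ 1 + h y
    linarith
  have h1 := translate' β l2 l3 hl g hgE hg0 z d
  rw [hzd] at h1
  have hadd : ∀ w, ChE β l2 (PsiL β l3 F0) g w = 1 + ChE β l2 (PsiL β l3 F0) h w := by
    intro w
    have := ChE_add β l2 hF (EG.const 1) hh w
    rw [ChE_const β l2 hF 1] at this
    exact this
  set Y : ℝ := ChE β l2 (PsiL β l3 F0) (fun y => g (y + d)) z with hY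
  have hgd : EG (fun y => g (y + d)) := shift_EG' hgE d
  have hY2 : Y ≤ 2 := by
    have h3 := ChE_mono β l2 hF hgd (EG.const 2) (fun y => ?_) z
    · rw [ChE_const β l2 hF 2] at h3
      exact h3
    · have := (abs_le.mp (hb (y + d))).2
      show 1 + h (y + d) ≤ 2
      linarith
  have hY0 : 0 ≤ Y := ChE_nonneg β l2 _ (fun y => hg0 _) z
  have hYL : Y ≤ ChE β l2 (PsiL β l3 F0) g z + L * n1 d := by
    have h3 := ChE_mono β l2 hF hgd (hgE.add (EG.const (L * n1 d))) (fun y => ?_) z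
    · rw [ChE_add β l2 hF hgE (EG.const (L * n1 d)), ChE_const β l2 hF (L * n1 d)] at h3
      exact h3
    · have h4 := hL (y + d) y
      rw [add_sub_cancel_left] at h4
      have := (abs_le.mp h4).2
      show 1 + h (y + d) ≤ (1 + h y) + L * n1 d
      linarith
  rw [hadd] at h1 hYL
  have h5 := exp_two_sub_one_le hn hz
  have h6 : (Real.exp (2 * n1 d) - 1) * Y ≤ (2 * Real.exp 2 * n1 d) * 2 :=
    mul_le_mul h5 hY2 hY0 (mul_nonneg (by positivity) hn)
  nlinarith

/-- J7: Lipschitz dependence on the starting point -/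
theorem ChE_lip (β : K → ℝ) : ∃ C : ℝ, 0 ≤ C ∧ ∀ l2 l3 : List (Step K), Ok (l2 ++ l3) →
    ∀ h : (K → ℝ) → ℝ, ∀ L : ℝ, 0 ≤ L → (∀ z z', |h z - h z'| ≤ L * n1 (z - z')) →
      (∀ z, |h z| ≤ 1) → ∀ z z' : K → ℝ, n1 (z - z') ≤ 1 →
      |ChE β l2 (PsiL β l3 F0) h z - ChE β l2 (PsiL β l3 F0) h z'| ≤ (C + L) * n1 (z - z') := by
  refine ⟨4 * Real.exp 2, by positivity, fun l2 l3 hl h L hL0 hL hb z z' hz => ?_⟩
  have hc : Continuous h := by
    rw [continuous_iff_continuousAt]
    intro z0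
    rw [ContinuousAt, tendsto_iff_dist_tendsto_zero]
    have h1 : Tendsto (fun z => L * n1 (z - z0)) (𝓝 z0) (𝓝 0) := by
      have h2 : Continuous (fun z : K → ℝ => L * n1 (z - z0)) :=
        continuous_const.mul (continuous_n1.comp (continuous_id.sub continuous_const))
      have h3 := h2.tendsto z0
      rw [sub_self, n1_zero, mul_zero] at h3
      exact h3
    exact squeeze_zero (fun _ => dist_nonneg) (fun z => by rw [Real.dist_eq]; exact hL z z0) h1
  have hsym : n1 (z' - z) = n1 (z - z') := by rw [← n1_neg, neg_sub]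
  have h1 := lip_one β l2 l3 hl h L hL hc hb z z' (by rw [hsym]; exact hz)
  have h2 := lip_one β l2 l3 hl h L hL hc hb z' z hz
  rw [hsym] at h1
  rw [abs_le]
  constructor <;> linarith

/-- J7: Cameron-Martin shift of the whole chain (`shift_gen` with `d = 0`, `m0 = 0`), `C = 2 C0 β` -/
theorem ChE_shift (β : K → ℝ) : ∃ C : ℝ, 0 ≤ C ∧ ∀ l2 l3 : List (Step K), Ok (l2 ++ l3) →
    ∀ h : (K → ℝ) → ℝ, EG h → (∀ z, 0 ≤ h z) → ∀ z θ : K → ℝ,
      ChE β l2 (PsiL β l3 F0) h z ≤
        Real.exp (C * n1 θ) * ChE β l2 (PsiL β l3 F0)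
          (fun y => h (y + (fun c => ∑ d, 2 * β c * β d * Qtot l2 c d * θ d)) *
            Real.exp (-(dot θ (y - z)) -
              (1 / 2) * (∑ c, ∑ d, θ c * (2 * β c * β d * Qtot l2 c d) * θ d))) z := by
  refine ⟨2 * C0 β, mul_nonneg zero_le_two (C0_nonneg β), fun l2 l3 hl h hh h0 z θ => ?_⟩
  have h1 := shift_zero β l2 l3 hl h hh h0 θ z 0
  rw [add_zero, n1_zero, zero_add] at h1
  have e1 : (fun c => ∑ d, 2 * β c * β d * Qtot l2 c d * θ d) = 0 + (Atot β l2).mulVec θ := by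
    rw [zero_add]
    rfl
  have e2 : (1 / 2) * (∑ c, ∑ d, θ c * (2 * β c * β d * Qtot l2 c d) * θ d) =
      dot θ ((Atot β l2).mulVec θ) / 2 := by
    have e3 : dot θ ((Atot β l2).mulVec θ) = ∑ c, θ c * ∑ d, 2 * β c * β d * Qtot l2 c d * θ d := rfl
    rw [e3]
    have e4 : ∀ c, θ c * ∑ d, 2 * β c * β d * Qtot l2 c d * θ d =
        ∑ d, θ c * (2 * β c * β d * Qtot l2 c d) * θ d := by
      intro c
      rw [Finset.mul_sum]
      exact Finset.sum_congr rfl fun d _ => by ring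
    simp only [e4]
    ring
  rw [e1, e2]
  refine h1.trans (mul_le_mul_of_nonneg_right (Real.exp_le_exp.mpr ?_) ?_)
  · have h2 := tvs_le (β := β) (Ok.left hl)
    have h3 := mul_le_mul_of_nonneg_right h2 (n1_nonneg θ)
    nlinarith
  · exact ChE_nonneg β l2 _ (fun y => mul_nonneg (h0 _) (Real.exp_pos _).le) z

end

end SKC.J
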