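import Pool.Agent.H.MP_08eaf3_pr.J.Bd

/-!
# Part J: one step of small weight (tools for S4)
-/

set_option autoImplicit false
set_option linter.unusedSectionVars false

open MeasureTheory ProbabilityTheory Filter Topology Matrix

namespace SKC.J

open SKC.A

section

variable {K : Type} [Fintype K] [DecidableEq K]

/-- `|E_cd| ≤ 1` if `(E Eᵀ)_cc ≤ 1`, so `n1 (B x) ≤ (∑ √2 |β_c|) n1 x` -/
theorem n1_Bm_le (β : K → ℝ) (E : Matrix K K ℝ) (hE : ∀ c, (E * Eᵀ) c c ≤ 1) (x : K → ℝ) :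
    n1 ((Bm β E).mulVec x) ≤ (∑ c, Real.sqrt 2 * |β c|) * n1 x := by
  have hE1 : ∀ c d, |E c d| ≤ 1 := by
    intro c d
    have h1 : E c d * E c d ≤ (E * Eᵀ) c c := by
      rw [Matrix.mul_apply]
      simp only [Matrix.transpose_apply]
      exact Finset.single_le_sum (f := fun d => E c d * E c d)
        (fun i _ => mul_self_nonneg (E c i)) (Finset.mem_univ d)
    have h2 : E c d * E c d ≤ 1 := h1.trans (hE c)
    rw [abs_le]
    constructor <;> nlinarith
  have h0 : n1 ((Bm β E).mulVec x) = ∑ c, |(Bm β E).mulVec x c| := rfl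
  rw [h0, Finset.sum_mul]
  refine Finset.sum_le_sum fun c _ => ?_
  have h1 : (Bm β E).mulVec x c = ∑ d, Real.sqrt 2 * β c * E c d * x d := rfl
  rw [h1]
  have h2 : n1 x = ∑ d, |x d| := rfl
  rw [h2, Finset.mul_sum]
  refine (Finset.abs_sum_le_sum_abs _ _).trans (Finset.sum_le_sum fun d _ => ?_)
  rw [abs_mul, abs_mul, abs_mul, abs_of_nonneg (Real.sqrt_nonneg 2)]
  have h3 : 0 ≤ Real.sqrt 2 * |β c| := mul_nonneg (Real.sqrt_nonneg 2) (abs_nonneg _)
  refine mul_le_mul_of_nonneg_right ?_ (abs_nonneg _)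
  calc Real.sqrt 2 * |β c| * |E c d| ≤ Real.sqrt 2 * |β c| * 1 :=
        mul_le_mul_of_nonneg_left (hE1 c d) h3
    _ = Real.sqrt 2 * |β c| := mul_one _

theorem Small_cont (β : K → ℝ) (E : Matrix K K ℝ) :
    Continuous (fun x : K → ℝ => n1 ((Bm β E).mulVec x)) :=
  continuous_n1.comp (Continuous.matrix_mulVec continuous_const continuous_id)

/-- uniform exponential moments: `D = ∫ exp(b n1 x)`, `b` any number, is finite; for every `k`:
`∫ (n1 (B x) + a)^k exp(n1 (B x) + a) ≤ C` -/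
theorem moment_le (β : K → ℝ) (a : ℝ) (k : ℕ) : ∃ C : ℝ, 0 ≤ C ∧ ∀ E : Matrix K K ℝ,
    (∀ c, (E * Eᵀ) c c ≤ 1) →
    Integrable (fun x => (n1 ((Bm β E).mulVec x) + a) ^ k *
      Real.exp (n1 ((Bm β E).mulVec x) + a)) (gam K) ∧
    ∫ x, (n1 ((Bm β E).mulVec x) + a) ^ k * Real.exp (n1 ((Bm β E).mulVec x) + a) ∂(gam K) ≤ C := by
  set b : ℝ := ∑ c, Real.sqrt 2 * |β c| with hb
  have hb0 : 0 ≤ b := Finset.sum_nonneg fun c _ => mul_nonneg (Real.sqrt_nonneg 2) (abs_nonneg _)
  set A : ℝ := k.factorial * Real.exp (2 * |a|) with hA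
  have hA0 : 0 ≤ A := mul_nonneg (Nat.cast_nonneg _) (Real.exp_pos _).le
  have hI : Integrable (fun x : K → ℝ => A * Real.exp (2 * b * n1 x)) (gam K) :=
    (integrable_exp_n1 (2 * b)).const_mul A
  refine ⟨∫ x, A * Real.exp (2 * b * n1 x) ∂(gam K),
    integral_nonneg fun x => mul_nonneg hA0 (Real.exp_pos _).le, fun E hE => ?_⟩
  have hbd : ∀ x : K → ℝ, |(n1 ((Bm β E).mulVec x) + a) ^ k *
      Real.exp (n1 ((Bm β E).mulVec x) + a)| ≤ A * Real.exp (2 * b * n1 x) := by
    intro x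
    have h1 := n1_Bm_le β E hE x
    rw [← hb] at h1
    have h2 := n1_nonneg ((Bm β E).mulVec x)
    set t : ℝ := b * n1 x + |a| with ht
    have ht0 : 0 ≤ t := add_nonneg (mul_nonneg hb0 (n1_nonneg x)) (abs_nonneg a)
    have h3 : |n1 ((Bm β E).mulVec x) + a| ≤ t := by
      refine (abs_add_le _ _).trans ?_
      rw [abs_of_nonneg h2]
      linarith
    have h4 : |n1 ((Bm β E).mulVec x) + a| ^ k ≤ t ^ k := pow_le_pow_left₀ (abs_nonneg _) h3 k
    have h5 : Real.exp (n1 ((Bm β E).mulVec x) + a) ≤ Real.exp t :=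
      Real.exp_le_exp.mpr ((le_abs_self _).trans h3)
    have h6 : t ^ k ≤ k.factorial * Real.exp t := by
      have h7 := Real.pow_div_factorial_le_exp t ht0 k
      rw [div_le_iff₀ (by exact_mod_cast Nat.factorial_pos k)] at h7
      linarith
    rw [abs_mul, abs_pow, abs_of_pos (Real.exp_pos _)]
    calc |n1 ((Bm β E).mulVec x) + a| ^ k * Real.exp (n1 ((Bm β E).mulVec x) + a)
        ≤ t ^ k * Real.exp t := mul_le_mul h4 h5 (Real.exp_pos _).le (pow_nonneg ht0 k)
      _ ≤ (k.factorial * Real.exp t) * Real.exp t :=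
          mul_le_mul_of_nonneg_right h6 (Real.exp_pos _).le
      _ = A * Real.exp (2 * b * n1 x) := by
          rw [hA, mul_assoc, mul_assoc, ← Real.exp_add, ← Real.exp_add]
          congr 2
          rw [ht]
          ring
  have hc : Continuous (fun x : K → ℝ => (n1 ((Bm β E).mulVec x) + a) ^ k *
      Real.exp (n1 ((Bm β E).mulVec x) + a)) :=
    (((Small_cont β E).add continuous_const).pow k).mul
      (Real.continuous_exp.comp ((Small_cont β E).add continuous_const))
  have hI2 : Integrable (fun x => (n1 ((Bm β E).mulVec x) + a) ^ k *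
      Real.exp (n1 ((Bm β E).mulVec x) + a)) (gam K) :=
    hI.mono' hc.aestronglyMeasurable (Filter.Eventually.of_forall fun x => by
      rw [Real.norm_eq_abs]
      exact hbd x)
  exact ⟨hI2, integral_mono hI2 hI fun x => (le_abs_self _).trans (hbd x)⟩

theorem Small_exp (y : ℝ) (n : ℕ) :
    |Real.exp y - ∑ m ∈ Finset.range n, y ^ m / m.factorial| ≤ |y| ^ n * Real.exp |y| := by
  have h := Complex.norm_exp_sub_sum_le_norm_mul_exp (y : ℂ) n
  have h1 : Complex.exp (y : ℂ) - ∑ m ∈ Finset.range n, (y : ℂ) ^ m / m.factorial =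
      ((Real.exp y - ∑ m ∈ Finset.range n, y ^ m / m.factorial : ℝ) : ℂ) := by
    push_cast
    rfl
  rw [h1, Complex.norm_real, Complex.norm_real, Real.norm_eq_abs, Real.norm_eq_abs] at h
  exact h

/-- `exp y ≤ 1 + y + y²/2 + |y|³ exp |y|` -/
theorem exp_le_three (y : ℝ) : Real.exp y ≤ 1 + y + y ^ 2 / 2 + |y| ^ 3 * Real.exp |y| := by
  have h := Small_exp y 3
  have h1 : ∑ m ∈ Finset.range 3, y ^ m / (m.factorial : ℝ) = 1 + y + y ^ 2 / 2 := by
    rw [Finset.sum_range_succ, Finset.sum_range_succ, Finset.sum_range_succ, Finset.sum_range_zero]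
    simp [Nat.factorial]
  rw [h1] at h
  linarith [(abs_le.mp h).2]

/-- `|exp y - 1| ≤ |y| exp |y|` -/
theorem exp_sub_one_abs (y : ℝ) : |Real.exp y - 1| ≤ |y| * Real.exp |y| := by
  have h := Small_exp y 1
  have h1 : ∑ m ∈ Finset.range 1, y ^ m / (m.factorial : ℝ) = 1 := by
    rw [Finset.sum_range_one]
    simp
  rw [h1, pow_one] at h
  exact h

/-- S4 tool. With `Y = f(Bx) - a`, `E Y = 0`, `|Y| ≤ n1 (B x) + C1` (`PsiL_lip`, `C1 = ∫ n1 (B x)` bounded by
`moment_le`): `T_ε f(0) = a + (1/ε) log E e^{εY} ≤ a + (1/ε)(E e^{εY} - 1) ≤ a + (ε/2) E Y² + ε² E |Y|³ e^{|Y|}`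
(`exp_le_three` at `y = ε Y`, `ε ≤ 1`). -/
theorem Tm_le_var (β : K → ℝ) : ∃ C : ℝ, 0 ≤ C ∧ ∀ l : List (Step K), Ok l → ∀ E : Matrix K K ℝ,
    (∀ c, (E * Eᵀ) c c ≤ 1) → ∀ ε : ℝ, 0 < ε → ε ≤ 1 → ∀ a : ℝ,
    a = ∫ x, PsiL β l F0 ((Bm β E).mulVec x) ∂(gam K) →
    Tm ε (Bm β E) (PsiL β l F0) 0 ≤ a + (ε / 2) *
      (∫ x, (PsiL β l F0 ((Bm β E).mulVec x) - a) ^ 2 ∂(gam K)) + C * ε ^ 2 := by
  obtain ⟨C1, hC10, hC1⟩ := moment_le β 0 1
  obtain ⟨C, hC0, hC⟩ := moment_le β C1 3
  refine ⟨C, hC0, fun l _ E hE ε hε hε1 a ha => ?_⟩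
  set f : (K → ℝ) → ℝ := PsiL β l F0 with hf
  have hLG : LG f := LG_PsiL β l LG_F0
  set B : Matrix K K ℝ := Bm β E with hB
  have hlip : ∀ z z', |f z - f z'| ≤ n1 (z - z') := PsiL_lip β l
  -- the mean of `n1 (B x)`
  have hn : Integrable (fun x => n1 (B.mulVec x)) (gam K) := by
    refine (hC1 E hE).1.mono' (Small_cont β E).aestronglyMeasurable
      (Filter.Eventually.of_forall fun x => ?_)
    rw [Real.norm_eq_abs, abs_of_nonneg (n1_nonneg _), pow_one, add_zero, ← hB]
    have h1 := n1_nonneg (B.mulVec x)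
    have h2 := Real.one_le_exp h1
    nlinarith
  have hnle : ∫ x, n1 (B.mulVec x) ∂(gam K) ≤ C1 := by
    refine le_trans (integral_mono hn (hC1 E hE).1 fun x => ?_) (hC1 E hE).2
    beta_reduce
    rw [pow_one, add_zero, ← hB]
    have h1 := n1_nonneg (B.mulVec x)
    have h2 := Real.one_le_exp h1
    nlinarith
  have hfi : Integrable (fun x => f (B.mulVec x)) (gam K) := by
    have h := int_LG hLG B 0
    simp only [zero_add] at h
    exact h
  have hf0 : |f 0 - a| ≤ C1 := by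
    have h1 : f 0 - a = ∫ x, (f 0 - f (B.mulVec x)) ∂(gam K) := by
      rw [integral_sub (integrable_const _) hfi, integral_const, probReal_univ, one_smul, ha]
    rw [h1]
    refine le_trans (abs_integral_le_integral_abs) (le_trans (integral_mono ?_ hn fun x => ?_) hnle)
    · exact ((integrable_const (f 0)).sub hfi).abs
    · have h2 := hlip 0 (B.mulVec x)
      rw [zero_sub, n1_neg] at h2
      exact h2
  have hY : ∀ x, |f (B.mulVec x) - a| ≤ n1 (B.mulVec x) + C1 := by
    intro x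
    have h2 := hlip (B.mulVec x) 0
    rw [sub_zero] at h2
    have h3 : f (B.mulVec x) - a = (f (B.mulVec x) - f 0) + (f 0 - a) := by ring
    rw [h3]
    exact (abs_add_le _ _).trans (add_le_add h2 hf0)
  -- integrals
  have hYi : Integrable (fun x => f (B.mulVec x) - a) (gam K) := hfi.sub (integrable_const a)
  have hY0 : ∫ x, (f (B.mulVec x) - a) ∂(gam K) = 0 := by
    rw [integral_sub hfi (integrable_const _), integral_const, probReal_univ, one_smul, ← ha, sub_self]
  have hY2 : Integrable (fun x => (f (B.mulVec x) - a) ^ 2) (gam K) := by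
    have h := (((hLG.comp_affine 0 B).eg.sub (EG.const a)).pow 2).integrable
    simp only [zero_add] at h
    exact h
  have hEi : Integrable (fun x => Real.exp (ε * (f (B.mulVec x) - a))) (gam K) := by
    have h := (int_exp hLG ε B 0).const_mul (Real.exp (-(ε * a)))
    simp only [zero_add] at h
    refine h.congr (Filter.Eventually.of_forall fun x => ?_)
    beta_reduce
    rw [← Real.exp_add]
    congr 1
    ring
  have hEeq : ∫ x, Real.exp (ε * f (0 + B.mulVec x)) ∂(gam K) =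
      Real.exp (ε * a) * ∫ x, Real.exp (ε * (f (B.mulVec x) - a)) ∂(gam K) := by
    rw [← integral_const_mul]
    refine integral_congr_ae (Filter.Eventually.of_forall fun x => ?_)
    beta_reduce
    rw [← Real.exp_add, zero_add]
    congr 1
    ring
  set S : ℝ := ∫ x, Real.exp (ε * (f (B.mulVec x) - a)) ∂(gam K) with hS
  have hZ := Z_pos hLG ε B 0
  rw [hEeq] at hZ
  have hSpos : 0 < S := by
    by_contra hcon
    have := mul_nonpos_of_nonneg_of_nonpos (Real.exp_pos (ε * a)).le (not_lt.mp hcon)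
    linarith
  have hSle : S ≤ 1 + ε ^ 2 / 2 * (∫ x, (f (B.mulVec x) - a) ^ 2 ∂(gam K)) + ε ^ 3 * C := by
    have hpt : ∀ x, Real.exp (ε * (f (B.mulVec x) - a)) ≤
        (1 + ε * (f (B.mulVec x) - a)) + (ε ^ 2 / 2 * (f (B.mulVec x) - a) ^ 2 +
          ε ^ 3 * ((n1 (B.mulVec x) + C1) ^ 3 * Real.exp (n1 (B.mulVec x) + C1))) := by
      intro x
      have h1 := exp_le_three (ε * (f (B.mulVec x) - a))
      have h2 : |ε * (f (B.mulVec x) - a)| = ε * |f (B.mulVec x) - a| := by
        rw [abs_mul, abs_of_pos hε]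
      have h3 : |ε * (f (B.mulVec x) - a)| ^ 3 * Real.exp |ε * (f (B.mulVec x) - a)| ≤
          ε ^ 3 * ((n1 (B.mulVec x) + C1) ^ 3 * Real.exp (n1 (B.mulVec x) + C1)) := by
        rw [h2, mul_pow, mul_assoc]
        refine mul_le_mul_of_nonneg_left ?_ (pow_nonneg hε.le 3)
        have h4 := hY x
        have h5 := abs_nonneg (f (B.mulVec x) - a)
        refine mul_le_mul (pow_le_pow_left₀ h5 h4 3) (Real.exp_le_exp.mpr ?_) (Real.exp_pos _).le
          (pow_nonneg (h5.trans h4) 3)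
        calc ε * |f (B.mulVec x) - a| ≤ 1 * |f (B.mulVec x) - a| :=
              mul_le_mul_of_nonneg_right hε1 h5
          _ ≤ n1 (B.mulVec x) + C1 := by rw [one_mul]; exact h4
      have h6 : (ε * (f (B.mulVec x) - a)) ^ 2 / 2 = ε ^ 2 / 2 * (f (B.mulVec x) - a) ^ 2 := by ring
      rw [h6] at h1
      linarith
    have hI3 := (hC E hE).1
    rw [← hB] at hI3
    have hle3 := (hC E hE).2
    rw [← hB] at hle3
    have i1 : Integrable (fun x => 1 + ε * (f (B.mulVec x) - a)) (gam K) :=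
      (integrable_const (1 : ℝ)).add (hYi.const_mul ε)
    have i2 : Integrable (fun x => ε ^ 2 / 2 * (f (B.mulVec x) - a) ^ 2 +
        ε ^ 3 * ((n1 (B.mulVec x) + C1) ^ 3 * Real.exp (n1 (B.mulVec x) + C1))) (gam K) :=
      (hY2.const_mul _).add (hI3.const_mul _)
    have h7 := integral_mono hEi (i1.add i2) hpt
    have h8 : ∫ x, ((1 + ε * (f (B.mulVec x) - a)) + (ε ^ 2 / 2 * (f (B.mulVec x) - a) ^ 2 +
          ε ^ 3 * ((n1 (B.mulVec x) + C1) ^ 3 * Real.exp (n1 (B.mulVec x) + C1)))) ∂(gam K) =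
        (1 + ε * 0) + (ε ^ 2 / 2 * (∫ x, (f (B.mulVec x) - a) ^ 2 ∂(gam K)) +
          ε ^ 3 * ∫ x, (n1 (B.mulVec x) + C1) ^ 3 * Real.exp (n1 (B.mulVec x) + C1) ∂(gam K)) := by
      rw [integral_add i1 i2, integral_add (integrable_const _) (hYi.const_mul ε),
        integral_add (hY2.const_mul _) (hI3.const_mul _), integral_const_mul, integral_const_mul,
        integral_const_mul, integral_const, probReal_univ, one_smul, hY0]
    have h9 : S ≤ (1 + ε * 0) + (ε ^ 2 / 2 * (∫ x, (f (B.mulVec x) - a) ^ 2 ∂(gam K)) +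
          ε ^ 3 * ∫ x, (n1 (B.mulVec x) + C1) ^ 3 * Real.exp (n1 (B.mulVec x) + C1) ∂(gam K)) := by
      rw [← h8]
      exact h7
    have h10 := mul_le_mul_of_nonneg_left hle3 (pow_nonneg hε.le 3)
    linarith
  rw [Tm_ne hε.ne', hEeq, Real.log_mul (Real.exp_pos _).ne' hSpos.ne', Real.log_exp]
  have hlog := Real.log_le_sub_one_of_pos hSpos
  have h11 : 1 / ε * (ε * a + Real.log S) ≤ 1 / ε * (ε * a + (ε ^ 2 / 2 *
      (∫ x, (f (B.mulVec x) - a) ^ 2 ∂(gam K)) + ε ^ 3 * C)) := by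
    refine mul_le_mul_of_nonneg_left ?_ (one_div_nonneg.mpr hε.le)
    linarith
  refine h11.trans (le_of_eq ?_)
  field_simp
  ring

/-- S4 tool. With `Y = f(Bx) - f(0)`, `|Y| ≤ n1 (B x)` (`PsiL_lip`): `Es = N / D`, `N = E[h e^{εY}]`, `D = E[e^{εY}]`,
`|N - E h| ≤ ε E |Y| e^{|Y|}`, `|D - 1| ≤ ε E |Y| e^{|Y|}`, `D ≥ E e^{-|Y|} ≥ exp(-E|Y|)` (or
`D ≥ (E e^{|Y|})⁻¹` by Cauchy-Schwarz / Jensen for `1/x`); `|N/D - E h| ≤ (|N - E h| + |E h| |1 - D|)/D`. -/
theorem Es_near_gauss (β : K → ℝ) : ∃ C : ℝ, 0 ≤ C ∧ ∀ l : List (Step K), Ok l →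
    ∀ E : Matrix K K ℝ, (∀ c, (E * Eᵀ) c c ≤ 1) → ∀ ε : ℝ, 0 ≤ ε → ε ≤ 1 →
    ∀ h : (K → ℝ) → ℝ, Continuous h → (∀ z, |h z| ≤ 1) →
      |Es ε (Bm β E) (PsiL β l F0) h 0 - ∫ x, h ((Bm β E).mulVec x) ∂(gam K)| ≤ C * ε := by
  obtain ⟨C1, hC10, hC1⟩ := moment_le β 0 1
  refine ⟨2 * C1 * Real.exp C1, mul_nonneg (mul_nonneg zero_le_two hC10) (Real.exp_pos _).le,
    fun l _ E hE ε hε hε1 h hh hh1 => ?_⟩
  set f : (K → ℝ) → ℝ := PsiL β l F0 with hf
  have hLG : LG f := LG_PsiL β l LG_F0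
  set B : Matrix K K ℝ := Bm β E with hB
  have hlip : ∀ z z', |f z - f z'| ≤ n1 (z - z') := PsiL_lip β l
  have hEG : EG h := EG.of_bdd hh hh1
  have hI1 := (hC1 E hE).1
  have hle1 := (hC1 E hE).2
  rw [← hB] at hI1 hle1
  simp only [pow_one, add_zero] at hI1 hle1
  have hY : ∀ x, |f (B.mulVec x) - f 0| ≤ n1 (B.mulVec x) := by
    intro x
    have h2 := hlip (B.mulVec x) 0
    rw [sub_zero] at h2
    exact h2
  have hYe : ∀ x, |Real.exp (ε * (f (B.mulVec x) - f 0)) - 1| ≤
      ε * (n1 (B.mulVec x) * Real.exp (n1 (B.mulVec x))) := by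
    intro x
    refine (exp_sub_one_abs _).trans ?_
    rw [abs_mul, abs_of_nonneg hε, mul_assoc]
    refine mul_le_mul_of_nonneg_left ?_ hε
    have h4 := hY x
    have h5 := abs_nonneg (f (B.mulVec x) - f 0)
    refine mul_le_mul h4 (Real.exp_le_exp.mpr ?_) (Real.exp_pos _).le (h5.trans h4)
    calc ε * |f (B.mulVec x) - f 0| ≤ 1 * |f (B.mulVec x) - f 0| :=
          mul_le_mul_of_nonneg_right hε1 h5
      _ ≤ n1 (B.mulVec x) := by rw [one_mul]; exact h4
  have hn : Integrable (fun x => n1 (B.mulVec x)) (gam K) := by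
    refine hI1.mono' (Small_cont β E).aestronglyMeasurable
      (Filter.Eventually.of_forall fun x => ?_)
    rw [Real.norm_eq_abs, abs_of_nonneg (n1_nonneg _)]
    have h1 := n1_nonneg (B.mulVec x)
    have h2 := Real.one_le_exp h1
    nlinarith
  have hnle : ∫ x, n1 (B.mulVec x) ∂(gam K) ≤ C1 := by
    refine le_trans (integral_mono hn hI1 fun x => ?_) hle1
    beta_reduce
    have h1 := n1_nonneg (B.mulVec x)
    have h2 := Real.one_le_exp h1
    nlinarith
  have hEi : Integrable (fun x => Real.exp (ε * (f (B.mulVec x) - f 0))) (gam K) := by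
    have h := (int_exp hLG ε B 0).const_mul (Real.exp (-(ε * f 0)))
    simp only [zero_add] at h
    refine h.congr (Filter.Eventually.of_forall fun x => ?_)
    beta_reduce
    rw [← Real.exp_add]
    congr 1
    ring
  have hNi : Integrable (fun x => h (B.mulVec x) * Real.exp (ε * (f (B.mulVec x) - f 0))) (gam K) := by
    have h := (int_step hLG hEG ε B 0).const_mul (Real.exp (-(ε * f 0)))
    simp only [zero_add] at h
    refine h.congr (Filter.Eventually.of_forall fun x => ?_)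
    beta_reduce
    have h1 : ε * (f (B.mulVec x) - f 0) = -(ε * f 0) + ε * f (B.mulVec x) := by ring
    rw [h1, Real.exp_add]
    ring
  have hhi : Integrable (fun x => h (B.mulVec x)) (gam K) := by
    have h := int_EG hEG B 0
    simp only [zero_add] at h
    exact h
  set N : ℝ := ∫ x, h (B.mulVec x) * Real.exp (ε * (f (B.mulVec x) - f 0)) ∂(gam K) with hN
  set D : ℝ := ∫ x, Real.exp (ε * (f (B.mulVec x) - f 0)) ∂(gam K) with hD
  set H : ℝ := ∫ x, h (B.mulVec x) ∂(gam K) with hH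
  have hEs : Es ε B f h 0 = N / D := by
    unfold Es
    have e1 : ∫ x, h (0 + B.mulVec x) * Real.exp (ε * f (0 + B.mulVec x)) ∂(gam K) =
        Real.exp (ε * f 0) * N := by
      rw [hN, ← integral_const_mul]
      refine integral_congr_ae (Filter.Eventually.of_forall fun x => ?_)
      beta_reduce
      have h1 : ε * f (0 + B.mulVec x) = ε * f 0 + ε * (f (B.mulVec x) - f 0) := by
        rw [zero_add]
        ring
      rw [h1, Real.exp_add, zero_add]
      ring
    have e2 : ∫ x, Real.exp (ε * f (0 + B.mulVec x)) ∂(gam K) = Real.exp (ε * f 0) * D := by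
      rw [hD, ← integral_const_mul]
      refine integral_congr_ae (Filter.Eventually.of_forall fun x => ?_)
      beta_reduce
      rw [← Real.exp_add, zero_add]
      congr 1
      ring
    rw [e1, e2, mul_div_mul_left _ _ (Real.exp_pos _).ne']
  have hNH : |N - H| ≤ ε * C1 := by
    have e1 : N - H = ∫ x, h (B.mulVec x) * (Real.exp (ε * (f (B.mulVec x) - f 0)) - 1) ∂(gam K) := by
      rw [hN, hH, ← integral_sub hNi hhi]
      refine integral_congr_ae (Filter.Eventually.of_forall fun x => ?_)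
      beta_reduce
      ring
    rw [e1]
    refine le_trans abs_integral_le_integral_abs (le_trans (integral_mono ?_ (hI1.const_mul ε)
      fun x => ?_) ?_)
    · refine Integrable.abs ((hNi.sub hhi).congr (Filter.Eventually.of_forall fun x => ?_))
      simp only [Pi.sub_apply]
      ring
    · beta_reduce
      rw [abs_mul]
      calc |h (B.mulVec x)| * |Real.exp (ε * (f (B.mulVec x) - f 0)) - 1|
          ≤ 1 * |Real.exp (ε * (f (B.mulVec x) - f 0)) - 1| :=
            mul_le_mul_of_nonneg_right (hh1 _) (abs_nonneg _)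
        _ ≤ _ := by rw [one_mul]; exact hYe x
    · rw [integral_const_mul]
      exact mul_le_mul_of_nonneg_left hle1 hε
  have hD1 : |D - 1| ≤ ε * C1 := by
    have e1 : D - 1 = ∫ x, (Real.exp (ε * (f (B.mulVec x) - f 0)) - 1) ∂(gam K) := by
      rw [hD, integral_sub hEi (integrable_const _), integral_const, probReal_univ, one_smul]
    rw [e1]
    refine le_trans abs_integral_le_integral_abs (le_trans (integral_mono ?_ (hI1.const_mul ε)
      fun x => ?_) ?_)
    · exact (hEi.sub (integrable_const 1)).abs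
    · exact hYe x
    · rw [integral_const_mul]
      exact mul_le_mul_of_nonneg_left hle1 hε
  have hDge : Real.exp (-C1) ≤ D := by
    have e1 : ∫ x, Real.exp (-C1) * ((1 + C1) - n1 (B.mulVec x)) ∂(gam K) =
        Real.exp (-C1) * ((1 + C1) - ∫ x, n1 (B.mulVec x) ∂(gam K)) := by
      rw [integral_const_mul, integral_sub (integrable_const _) hn, integral_const, probReal_univ,
        one_smul]
    have e2 : Real.exp (-C1) * 1 ≤ Real.exp (-C1) * ((1 + C1) - ∫ x, n1 (B.mulVec x) ∂(gam K)) :=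
      mul_le_mul_of_nonneg_left (by linarith) (Real.exp_pos _).le
    rw [mul_one, ← e1] at e2
    refine e2.trans (integral_mono (((integrable_const _).sub hn).const_mul _) hEi fun x => ?_)
    beta_reduce
    have h1 := Real.add_one_le_exp (C1 - n1 (B.mulVec x))
    have h2 : Real.exp (-C1) * ((1 + C1) - n1 (B.mulVec x)) ≤
        Real.exp (-C1) * Real.exp (C1 - n1 (B.mulVec x)) :=
      mul_le_mul_of_nonneg_left (by linarith) (Real.exp_pos _).le
    refine h2.trans ?_
    rw [← Real.exp_add]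
    refine Real.exp_le_exp.mpr ?_
    have h4 := hY x
    have h5 := abs_nonneg (f (B.mulVec x) - f 0)
    have h6 := neg_abs_le (f (B.mulVec x) - f 0)
    have h7 : ε * |f (B.mulVec x) - f 0| ≤ 1 * |f (B.mulVec x) - f 0| :=
      mul_le_mul_of_nonneg_right hε1 h5
    have h8 : ε * (-|f (B.mulVec x) - f 0|) ≤ ε * (f (B.mulVec x) - f 0) :=
      mul_le_mul_of_nonneg_left h6 hε
    linarith
  have hDpos : 0 < D := lt_of_lt_of_le (Real.exp_pos _) hDge
  have hHle : |H| ≤ 1 := by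
    rw [hH]
    refine le_trans abs_integral_le_integral_abs (le_trans (integral_mono hhi.abs
      (integrable_const 1) fun x => hh1 _) ?_)
    rw [integral_const, probReal_univ, one_smul]
  rw [hEs]
  have e3 : N / D - H = ((N - H) - H * (D - 1)) / D := by
    field_simp
    ring
  rw [e3, abs_div, abs_of_pos hDpos, div_le_iff₀ hDpos]
  have e4 : |(N - H) - H * (D - 1)| ≤ 2 * C1 * ε := by
    refine (abs_sub _ _).trans ?_
    rw [abs_mul]
    have h1 : |H| * |D - 1| ≤ 1 * |D - 1| := mul_le_mul_of_nonneg_right hHle (abs_nonneg _)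
    linarith
  have e5 : 2 * C1 * ε * 1 ≤ 2 * C1 * ε * (Real.exp C1 * D) := by
    refine mul_le_mul_of_nonneg_left ?_ (mul_nonneg (mul_nonneg zero_le_two hC10) hε)
    have h1 : Real.exp C1 * Real.exp (-C1) ≤ Real.exp C1 * D :=
      mul_le_mul_of_nonneg_left hDge (Real.exp_pos _).le
    rw [← Real.exp_add, add_neg_cancel, Real.exp_zero] at h1
    exact h1
  calc |(N - H) - H * (D - 1)| ≤ 2 * C1 * ε := e4
    _ = 2 * C1 * ε * 1 := (mul_one _).symm
    _ ≤ 2 * C1 * ε * (Real.exp C1 * D) := e5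
    _ = 2 * C1 * Real.exp C1 * ε * D := by ring

end

end SKC.J
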