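import Pool.Agent.H.MP_08eaf3_pr.J.Bd

/-!
# Part J: tails of the magnetisation (J4)
-/

set_option autoImplicit false
set_option linter.unusedSectionVars false

open MeasureTheory ProbabilityTheory Filter Topology Matrix

namespace SKC.J

open SKC.A

section

variable {K : Type} [Fintype K] [DecidableEq K]

theorem Tail_dot_left (c : K) (a : ℝ) (y : K → ℝ) : dot (Pi.single c a) y = a * y c := by
  rw [dot_comm, dot_single, mul_comm]

theorem Tail_exp_eq (c : K) (a : ℝ) :
    (fun y : K → ℝ => Real.exp (a * y c)) = fun y => Real.exp (dot (Pi.single c a) y) := by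
  funext y
  rw [Tail_dot_left]

theorem Tail_EG_exp (c : K) (a : ℝ) : EG (fun y : K → ℝ => Real.exp (a * y c)) := by
  have h := SKC.EG.exp_dot (Pi.single c a : K → ℝ)
  have e : (fun z : K → ℝ => Real.exp (dot z (Pi.single c a))) =
      fun y : K → ℝ => Real.exp (a * y c) := by
    funext y
    rw [dot_single, mul_comm]
  rw [e] at h
  exact h

/-- one step: `Es_exp_dot`, `PsiL_lip`, `abs_quad_le` and `n1_cov_le`: for `θ = a • single c 1`, `|a| ≤ 2`, the exponent is
at most `<θ,z> + 2 tv + 2 tv`. -/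
theorem Es_exp_le (β : K → ℝ) (m : ℝ) (hm : 0 ≤ m) (hm1 : m ≤ 1) (E : Matrix K K ℝ)
    (l : List (Step K)) (c : K) (a : ℝ) (ha : |a| ≤ 2) (z : K → ℝ) :
    Es m (Bm β E) (PsiL β l F0) (fun y => Real.exp (a * y c)) z ≤
      Real.exp (4 * tv β E) * Real.exp (a * z c) := by
  set θ : K → ℝ := Pi.single c a with hθ
  set A : Matrix K K ℝ := Bm β E * (Bm β E)ᵀ with hA
  rw [Tail_exp_eq, Es_exp_dot (LG_PsiL β l LG_F0) m (Bm β E) θ z, ← Real.exp_add]
  refine Real.exp_le_exp.2 ?_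
  rw [Tail_dot_left, ← hA]
  have htv := tv_nonneg β E
  have q1 : dot θ (A.mulVec θ) ≤ 4 * tv β E := by
    set θ1 : K → ℝ := Pi.single c (a / 2) with hθ1
    have e1 : θ = (2 : ℝ) • θ1 := by
      rw [hθ, hθ1]
      funext d
      rw [Pi.smul_apply, smul_eq_mul]
      by_cases hd : d = c
      · subst hd
        rw [Pi.single_eq_same, Pi.single_eq_same]
        ring
      · rw [Pi.single_eq_of_ne hd, Pi.single_eq_of_ne hd, mul_zero]
    have e2 : ∀ d, |θ1 d| ≤ 1 := by
      intro d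
      rw [hθ1]
      by_cases hd : d = c
      · subst hd
        rw [Pi.single_eq_same, abs_div, abs_two]
        linarith
      · rw [Pi.single_eq_of_ne hd, abs_zero]
        exact zero_le_one
    have e3 := abs_quad_le β E e2 e2
    rw [← hA] at e3
    have e4 : dot θ (A.mulVec θ) = 4 * dot θ1 (A.mulVec θ1) := by
      rw [e1, Matrix.mulVec_smul, dot_smul_left, dot_smul_right]
      ring
    rw [e4]
    have := le_abs_self (dot θ1 (A.mulVec θ1))
    linarith
  have q2 : m * (Tm m (Bm β E) (PsiL β l F0) (z + A.mulVec θ) - Tm m (Bm β E) (PsiL β l F0) z) ≤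
      2 * tv β E := by
    have f1 := PsiL_lip β ((m, E) :: l) (z + A.mulVec θ) z
    have f2 : PsiL β ((m, E) :: l) F0 = Tm m (Bm β E) (PsiL β l F0) := rfl
    rw [f2, add_sub_cancel_left] at f1
    have f3 := n1_cov_le β E θ
    rw [← hA, hθ, n1_single, ← hθ] at f3
    have f4 : tv β E * |a| ≤ tv β E * 2 := mul_le_mul_of_nonneg_left ha htv
    set D := Tm m (Bm β E) (PsiL β l F0) (z + A.mulVec θ) - Tm m (Bm β E) (PsiL β l F0) z with hD
    calc m * D ≤ m * |D| := mul_le_mul_of_nonneg_left (le_abs_self D) hm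
      _ ≤ 1 * |D| := mul_le_mul_of_nonneg_right hm1 (abs_nonneg D)
      _ ≤ 2 * tv β E := by rw [one_mul]; linarith
  linarith

/-- the chain: induction over `l` with `Es_exp_le`, `Es_mono`, `Es_smul` -/
theorem ChE_exp_le' (β : K → ℝ) (l l' : List (Step K)) (hl : ∀ s ∈ l, 0 ≤ s.1 ∧ s.1 ≤ 1)
    (c : K) (a : ℝ) (ha : |a| ≤ 2) (z : K → ℝ) :
    ChE β l (PsiL β l' F0) (fun y => Real.exp (a * y c)) z ≤
      Real.exp (4 * tvs β l) * Real.exp (a * z c) := by
  induction l generalizing z with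
  | nil =>
    show Real.exp (a * z c) ≤ Real.exp (4 * 0) * Real.exp (a * z c)
    rw [mul_zero, Real.exp_zero, one_mul]
  | cons s l ih =>
    have hs := hl s List.mem_cons_self
    have ih' := ih (fun s hs => hl s (List.mem_cons_of_mem _ hs))
    have hF : LG (PsiL β l' F0) := LG_PsiL β l' LG_F0
    show Es s.1 (Bm β s.2) (PsiL β l (PsiL β l' F0))
      (ChE β l (PsiL β l' F0) (fun y => Real.exp (a * y c))) z ≤ _
    have h1 : Es s.1 (Bm β s.2) (PsiL β l (PsiL β l' F0))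
        (ChE β l (PsiL β l' F0) (fun y => Real.exp (a * y c))) z ≤
        Es s.1 (Bm β s.2) (PsiL β l (PsiL β l' F0))
          (fun y => Real.exp (4 * tvs β l) * Real.exp (a * y c)) z :=
      Es_mono (LG_PsiL β l hF) (EG_ChE β l hF (Tail_EG_exp c a))
        ((Tail_EG_exp c a).const_mul _) ih' _ _ z
    refine h1.trans ?_
    rw [Es_smul, ← PsiL_append]
    have h2 := Es_exp_le β s.1 hs.1 hs.2 s.2 (l ++ l') c a ha z
    calc Real.exp (4 * tvs β l) *
          Es s.1 (Bm β s.2) (PsiL β (l ++ l') F0) (fun y => Real.exp (a * y c)) z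
        ≤ Real.exp (4 * tvs β l) * (Real.exp (4 * tv β s.2) * Real.exp (a * z c)) :=
          mul_le_mul_of_nonneg_left h2 (Real.exp_pos _).le
      _ = Real.exp (4 * tvs β (s :: l)) * Real.exp (a * z c) := by
          rw [← mul_assoc, ← Real.exp_add]
          congr 2
          show 4 * tvs β l + 4 * tv β s.2 = 4 * (tv β s.2 + tvs β l)
          ring

/-- J4 tool -/
theorem ChE_exp_le (β : K → ℝ) : ∃ C : ℝ, 1 ≤ C ∧ ∀ l l' : List (Step K), Ok (l ++ l') → ∀ c z,
    ChE β l (PsiL β l' F0) (fun y => Real.exp (-(2 * y c))) z ≤ C * Real.exp (-(2 * z c)) ∧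
    ChE β l (PsiL β l' F0) (fun y => Real.exp (2 * y c)) z ≤ C * Real.exp (2 * z c) := by
  refine ⟨Real.exp (4 * C0 β), Real.one_le_exp (by have := C0_nonneg β; linarith),
    fun l l' hl c z => ?_⟩
  have h0 : ∀ s ∈ l, 0 ≤ s.1 ∧ s.1 ≤ 1 := (Ok.left hl).2.1
  have h1 : Real.exp (4 * tvs β l) ≤ Real.exp (4 * C0 β) :=
    Real.exp_le_exp.2 (by have := tvs_le (β := β) (Ok.left hl); linarith)
  refine ⟨?_, ?_⟩
  · have h2 := ChE_exp_le' β l l' h0 c (-2) (by norm_num) z
    simp only [neg_mul] at h2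
    exact h2.trans (mul_le_mul_of_nonneg_right h1 (Real.exp_pos _).le)
  · have h2 := ChE_exp_le' β l l' h0 c 2 (by norm_num) z
    exact h2.trans (mul_le_mul_of_nonneg_right h1 (Real.exp_pos _).le)

theorem Mg_lt_one (β : K → ℝ) (l : List (Step K)) (c : K) (z : K → ℝ) : |Mg β l c z| < 1 :=
  ChE_abs_lt_one β l LG_F0 (EG_tanh c) (fun y => abs_tanh_lt (y c)) z

theorem EG_Mg (β : K → ℝ) (l : List (Step K)) (c : K) : EG (Mg β l c) :=
  EG_ChE β l LG_F0 (EG_tanh c)

/-- J4: upper bound from `one_sub_tanh_le` and `ChE_exp_le`; lower bound from `one_sub_tanh` and Jensen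
(`ChE_inv_ge` for `h y = 1 + exp(2 y c)`), `ChE h ≤ 1 + C exp(2 z c) ≤ C (1 + exp (2 z c))`. -/
theorem Mg_tails (β : K → ℝ) : ∃ C : ℝ, 1 ≤ C ∧ ∀ l : List (Step K), Ok l → ∀ c z,
    1 - Mg β l c z ≤ C * Real.exp (-(2 * z c)) ∧
    C⁻¹ / (1 + Real.exp (2 * z c)) ≤ 1 - Mg β l c z := by
  obtain ⟨C, hC, hE⟩ := ChE_exp_le β
  refine ⟨2 * C, by linarith, fun l hl c z => ?_⟩
  have hE' := hE l [] (by rw [List.append_nil]; exact hl) c z
  have hnil : PsiL β [] (F0 : (K → ℝ) → ℝ) = F0 := rfl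
  rw [hnil] at hE'
  obtain ⟨e1, e2⟩ := hE'
  have hM : 1 - Mg β l c z = ChE β l F0 (fun y => 1 - Real.tanh (y c)) z := by
    rw [ChE_sub β l LG_F0 (EG.const 1) (EG_tanh c), ChE_const β l LG_F0 1]
    rfl
  have g1 : EG (fun y : K → ℝ => 1 - Real.tanh (y c)) := (EG.const 1).sub (EG_tanh c)
  have g2 : EG (fun y : K → ℝ => Real.exp (-(2 * y c))) := by
    have := Tail_EG_exp c (-2)
    simp only [neg_mul] at this
    exact this
  have g3 : EG (fun y : K → ℝ => 1 + Real.exp (2 * y c)) := (EG.const 1).add (Tail_EG_exp c 2)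
  have g4 : EG (fun y : K → ℝ => (1 + Real.exp (2 * y c))⁻¹) := by
    refine SKC.EG.of_bdd (A := 1) (g3.1.inv₀ fun y => ?_) fun y => ?_
    · have := Real.exp_pos (2 * y c)
      linarith
    · have h0 := Real.exp_pos (2 * y c)
      rw [abs_of_pos (inv_pos.2 (by linarith))]
      exact inv_le_one_of_one_le₀ (by linarith)
  refine ⟨?_, ?_⟩
  · rw [hM]
    have h1 := ChE_mono β l LG_F0 g1 (g2.const_mul 2) (fun y => one_sub_tanh_le (y c)) z
    rw [ChE_smul] at h1
    linarith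
  · have h2 : (fun y : K → ℝ => 1 - Real.tanh (y c)) =
        fun y => 2 * (1 + Real.exp (2 * y c))⁻¹ := by
      funext y
      rw [one_sub_tanh]
    rw [hM, h2, ChE_smul]
    have h3 := ChE_inv_ge β l LG_F0 g3 g4
      (fun y => by have := Real.exp_pos (2 * y c); linarith) z
    have h4 : ChE β l F0 (fun y : K → ℝ => 1 + Real.exp (2 * y c)) z ≤
        C * (1 + Real.exp (2 * z c)) := by
      rw [ChE_add β l LG_F0 (EG.const 1) (Tail_EG_exp c 2), ChE_const β l LG_F0 1]
      show (1 : ℝ) + _ ≤ _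
      rw [mul_add, mul_one]
      linarith
    have h5 : 0 < ChE β l F0 (fun y : K → ℝ => 1 + Real.exp (2 * y c)) z :=
      ChE_pos β l LG_F0 g3 (fun y => by have := Real.exp_pos (2 * y c); linarith) z
    have h6 : (C * (1 + Real.exp (2 * z c)))⁻¹ ≤
        (ChE β l F0 (fun y : K → ℝ => 1 + Real.exp (2 * y c)) z)⁻¹ := inv_anti₀ h5 h4
    have h7 : (2 * C)⁻¹ / (1 + Real.exp (2 * z c)) ≤ 2 * (C * (1 + Real.exp (2 * z c)))⁻¹ := by
      have h8 : 0 ≤ (C * (1 + Real.exp (2 * z c)))⁻¹ := by positivity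
      have h9 : (2 * C)⁻¹ / (1 + Real.exp (2 * z c)) = 1 / 2 * (C * (1 + Real.exp (2 * z c)))⁻¹ := by
        rw [mul_inv, mul_inv, div_eq_mul_inv]
        ring
      rw [h9]
      linarith
    linarith

end

end SKC.J
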