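import Pool.Agent.H.MP_08eaf3_pr.B.Cls
import Pool.Agent.H.MP_08eaf3_pr.A.CM

/-!
# Part J, basics: lists of steps, covariances, linear images of the Gaussian vector
-/

set_option autoImplicit false

set_option linter.unusedSectionVars false

open MeasureTheory ProbabilityTheory Filter Topology Matrix

namespace SKC.J

open SKC.A

section

variable {K : Type} [Fintype K]

/-! ### lists -/

/-- weights of `l` are nondecreasing, at least `m` and at most `1` -/
def Inc (m : ℝ) (l : List (Step K)) : Prop :=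
  l.Pairwise (fun a b => a.1 ≤ b.1) ∧ ∀ a ∈ l, m ≤ a.1 ∧ a.1 ≤ 1

theorem Ok.inc {l : List (Step K)} (h : Ok l) : Inc 0 l := ⟨h.1, h.2.1⟩

theorem Inc.tail {m : ℝ} {s : Step K} {l : List (Step K)} (h : Inc m (s :: l)) : Inc s.1 l := by
  obtain ⟨h1, h2⟩ := h
  rw [List.pairwise_cons] at h1
  exact ⟨h1.2, fun a ha => ⟨h1.1 a ha, (h2 a (List.mem_cons_of_mem s ha)).2⟩⟩

theorem Inc.head {m : ℝ} {s : Step K} {l : List (Step K)} (h : Inc m (s :: l)) : m ≤ s.1 ∧ s.1 ≤ 1 :=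
  h.2 s List.mem_cons_self

theorem Inc.mono {m m' : ℝ} (hm : m' ≤ m) {l : List (Step K)} (h : Inc m l) : Inc m' l :=
  ⟨h.1, fun a ha => ⟨hm.trans (h.2 a ha).1, (h.2 a ha).2⟩⟩

theorem Inc.left {m : ℝ} {l l' : List (Step K)} (h : Inc m (l ++ l')) : Inc m l := by
  obtain ⟨h1, h2⟩ := h
  rw [List.pairwise_append] at h1
  exact ⟨h1.1, fun a ha => h2 a (List.mem_append_left _ ha)⟩

theorem Inc.right {m : ℝ} {l l' : List (Step K)} (h : Inc m (l ++ l')) : Inc m l' := by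
  obtain ⟨h1, h2⟩ := h
  rw [List.pairwise_append] at h1
  exact ⟨h1.2.1, fun a ha => h2 a (List.mem_append_right _ ha)⟩

theorem Qtot_append (l l' : List (Step K)) : Qtot (l ++ l') = Qtot l + Qtot l' := by
  induction l with
  | nil => simp [Qtot]
  | cons s l ih =>
    show s.2 * s.2ᵀ + Qtot (l ++ l') = s.2 * s.2ᵀ + Qtot l + Qtot l'
    rw [ih, add_assoc]

theorem mul_transpose_diag_nonneg {L : Type} [Fintype L] (E : Matrix K L ℝ) (c : K) : 0 ≤ (E * Eᵀ) c c := by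
  rw [Matrix.mul_apply]
  refine Finset.sum_nonneg fun k _ => ?_
  rw [Matrix.transpose_apply]
  exact mul_self_nonneg _

theorem Qtot_diag_nonneg (l : List (Step K)) (c : K) : 0 ≤ Qtot l c c := by
  induction l with
  | nil => exact le_refl _
  | cons s l ih =>
    show 0 ≤ (s.2 * s.2ᵀ + Qtot l) c c
    exact add_nonneg (mul_transpose_diag_nonneg _ _) ih

theorem Ok.left {l l' : List (Step K)} (h : Ok (l ++ l')) : Ok l := by
  refine ⟨(Ok.inc h).left.1, (Ok.inc h).left.2, fun c => ?_⟩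
  have h1 := h.2.2 c
  rw [Qtot_append] at h1
  have h2 := Qtot_diag_nonneg l' c
  have h3 : (Qtot l + Qtot l') c c = Qtot l c c + Qtot l' c c := rfl
  linarith

theorem Ok.right {l l' : List (Step K)} (h : Ok (l ++ l')) : Ok l' := by
  refine ⟨(Ok.inc h).right.1, (Ok.inc h).right.2, fun c => ?_⟩
  have h1 := h.2.2 c
  rw [Qtot_append] at h1
  have h2 := Qtot_diag_nonneg l c
  have h3 : (Qtot l + Qtot l') c c = Qtot l c c + Qtot l' c c := rfl
  linarith

theorem Ok.tail {s : Step K} {l : List (Step K)} (h : Ok (s :: l)) : Ok l :=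
  Ok.right (l := [s]) (l' := l) h

theorem Ok.head {s : Step K} {l : List (Step K)} (h : Ok (s :: l)) : 0 ≤ s.1 ∧ s.1 ≤ 1 :=
  h.2.1 s List.mem_cons_self

/-! ### covariances -/

/-- covariance of the field increment -/
theorem cov_Bm (β : K → ℝ) (E : Matrix K K ℝ) (c d : K) :
    (Bm β E * (Bm β E)ᵀ) c d = 2 * β c * β d * (E * Eᵀ) c d := by
  rw [Matrix.mul_apply, Matrix.mul_apply, Finset.mul_sum]
  refine Finset.sum_congr rfl fun k _ => ?_
  rw [Matrix.transpose_apply, Matrix.transpose_apply]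
  unfold Bm
  have h2 : Real.sqrt 2 * Real.sqrt 2 = 2 := Real.mul_self_sqrt (by norm_num)
  calc Real.sqrt 2 * β c * E c k * (Real.sqrt 2 * β d * E d k)
      = (Real.sqrt 2 * Real.sqrt 2) * β c * β d * (E c k * E d k) := by ring
    _ = 2 * β c * β d * (E c k * E d k) := by rw [h2]

/-- total absolute covariance of a field increment -/
noncomputable def tv (β : K → ℝ) (E : Matrix K K ℝ) : ℝ :=
  ∑ c, ∑ d, |(Bm β E * (Bm β E)ᵀ) c d|

theorem tv_nonneg (β : K → ℝ) (E : Matrix K K ℝ) : 0 ≤ tv β E :=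
  Finset.sum_nonneg fun _ _ => Finset.sum_nonneg fun _ _ => abs_nonneg _

/-- sum of the total absolute covariances of a list of steps -/
noncomputable def tvs (β : K → ℝ) : List (Step K) → ℝ
  | [] => 0
  | (s :: l) => tv β s.2 + tvs β l

theorem tvs_nonneg (β : K → ℝ) (l : List (Step K)) : 0 ≤ tvs β l := by
  induction l with
  | nil => exact le_refl _
  | cons s l ih => exact add_nonneg (tv_nonneg β s.2) ih

/-- the uniform constant -/
noncomputable def C0 (β : K → ℝ) : ℝ := 2 * (∑ c, |β c|) ^ 2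

theorem C0_nonneg (β : K → ℝ) : 0 ≤ C0 β := by unfold C0; positivity

theorem abs_offdiag_le {L : Type} [Fintype L] (E : Matrix K L ℝ) (c d : K) :
    |(E * Eᵀ) c d| ≤ ((E * Eᵀ) c c + (E * Eᵀ) d d) / 2 := by
  have h : ∀ a b : K, (E * Eᵀ) a b = ∑ k, E a k * E b k := by
    intro a b
    rw [Matrix.mul_apply]
    rfl
  rw [h, h, h]
  calc |∑ k, E c k * E d k| ≤ ∑ k, |E c k * E d k| := Finset.abs_sum_le_sum_abs _ _
    _ ≤ ∑ k, (E c k * E c k + E d k * E d k) / 2 := by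
        refine Finset.sum_le_sum fun k _ => ?_
        rw [abs_mul]
        have h1 := sq_nonneg (|E c k| - |E d k|)
        have h2 := abs_mul_abs_self (E c k)
        have h3 := abs_mul_abs_self (E d k)
        nlinarith
    _ = (∑ k, E c k * E c k + ∑ k, E d k * E d k) / 2 := by
        rw [← Finset.sum_div, Finset.sum_add_distrib]

theorem tv_le (β : K → ℝ) (E : Matrix K K ℝ) :
    tv β E ≤ ∑ c, ∑ d, |β c| * |β d| * ((E * Eᵀ) c c + (E * Eᵀ) d d) := by
  unfold tv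
  refine Finset.sum_le_sum fun c _ => Finset.sum_le_sum fun d _ => ?_
  rw [cov_Bm, abs_mul, abs_mul, abs_mul, abs_two]
  have h := abs_offdiag_le E c d
  have h1 : 0 ≤ |β c| * |β d| := mul_nonneg (abs_nonneg _) (abs_nonneg _)
  calc 2 * |β c| * |β d| * |(E * Eᵀ) c d| = (|β c| * |β d|) * (2 * |(E * Eᵀ) c d|) := by ring
    _ ≤ (|β c| * |β d|) * ((E * Eᵀ) c c + (E * Eᵀ) d d) := by
        refine mul_le_mul_of_nonneg_left ?_ h1
        linarith

theorem tvs_le_Q (β : K → ℝ) (l : List (Step K)) :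
    tvs β l ≤ ∑ c, ∑ d, |β c| * |β d| * (Qtot l c c + Qtot l d d) := by
  induction l with
  | nil =>
    show (0 : ℝ) ≤ _
    refine Finset.sum_nonneg fun c _ => Finset.sum_nonneg fun d _ => ?_
    exact mul_nonneg (mul_nonneg (abs_nonneg _) (abs_nonneg _))
      (add_nonneg (Qtot_diag_nonneg _ _) (Qtot_diag_nonneg _ _))
  | cons s l ih =>
    show tv β s.2 + tvs β l ≤ ∑ c, ∑ d, |β c| * |β d| * ((s.2 * s.2ᵀ + Qtot l) c c + (s.2 * s.2ᵀ + Qtot l) d d)
    have h1 : ∀ c d : K, |β c| * |β d| * ((s.2 * s.2ᵀ + Qtot l) c c + (s.2 * s.2ᵀ + Qtot l) d d) =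
        |β c| * |β d| * ((s.2 * s.2ᵀ) c c + (s.2 * s.2ᵀ) d d) +
          |β c| * |β d| * (Qtot l c c + Qtot l d d) := by
      intro c d
      rw [Matrix.add_apply, Matrix.add_apply]
      ring
    simp only [h1, Finset.sum_add_distrib]
    exact add_le_add (tv_le β s.2) ih

theorem tvs_le {β : K → ℝ} {l : List (Step K)} (h : Ok l) : tvs β l ≤ C0 β := by
  refine (tvs_le_Q β l).trans ?_
  have h1 : C0 β = ∑ c, ∑ d, |β c| * |β d| * 2 := by
    unfold C0
    rw [sq, Finset.sum_mul_sum, Finset.mul_sum]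
    refine Finset.sum_congr rfl fun c _ => ?_
    rw [Finset.mul_sum]
    exact Finset.sum_congr rfl fun d _ => by ring
  rw [h1]
  refine Finset.sum_le_sum fun c _ => Finset.sum_le_sum fun d _ => ?_
  refine mul_le_mul_of_nonneg_left ?_ (mul_nonneg (abs_nonneg _) (abs_nonneg _))
  have h2 := h.2.2 c
  have h3 := h.2.2 d
  linarith

/-- `|<θ, A θ'>| ≤ tv` for `θ, θ'` with entries at most `1` in absolute value -/
theorem abs_quad_le (β : K → ℝ) (E : Matrix K K ℝ) {θ θ' : K → ℝ} (h : ∀ c, |θ c| ≤ 1)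
    (h' : ∀ c, |θ' c| ≤ 1) : |dot θ ((Bm β E * (Bm β E)ᵀ).mulVec θ')| ≤ tv β E := by
  have e : dot θ ((Bm β E * (Bm β E)ᵀ).mulVec θ') =
      ∑ c, ∑ d, θ c * ((Bm β E * (Bm β E)ᵀ) c d * θ' d) := by
    unfold dot
    refine Finset.sum_congr rfl fun c _ => ?_
    show θ c * ∑ d, (Bm β E * (Bm β E)ᵀ) c d * θ' d = _
    rw [Finset.mul_sum]
  rw [e]
  unfold tv
  refine (Finset.abs_sum_le_sum_abs _ _).trans (Finset.sum_le_sum fun c _ => ?_)
  refine (Finset.abs_sum_le_sum_abs _ _).trans (Finset.sum_le_sum fun d _ => ?_)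
  rw [abs_mul, abs_mul]
  calc |θ c| * (|(Bm β E * (Bm β E)ᵀ) c d| * |θ' d|)
      ≤ 1 * (|(Bm β E * (Bm β E)ᵀ) c d| * 1) :=
        mul_le_mul (h c) (mul_le_mul_of_nonneg_left (h' d) (abs_nonneg _))
          (mul_nonneg (abs_nonneg _) (abs_nonneg _)) zero_le_one
    _ = |(Bm β E * (Bm β E)ᵀ) c d| := by ring

/-- `n1 (A θ) ≤ tv * n1 θ` -/
theorem n1_cov_le (β : K → ℝ) (E : Matrix K K ℝ) (θ : K → ℝ) :
    n1 ((Bm β E * (Bm β E)ᵀ).mulVec θ) ≤ tv β E * n1 θ := by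
  exact n1_mulVec_le _ _

/-! ### linear images and the Cameron-Martin formula -/

theorem dot_transpose {L : Type} [Fintype L] (B : Matrix K L ℝ) (θ : K → ℝ) (x : L → ℝ) :
    dot (Bᵀ.mulVec θ) x = dot θ (B.mulVec x) := by
  have h1 : dot (Bᵀ.mulVec θ) x = Bᵀ.mulVec θ ⬝ᵥ x := rfl
  have h2 : dot θ (B.mulVec x) = θ ⬝ᵥ B.mulVec x := rfl
  rw [h1, h2, Matrix.dotProduct_mulVec, Matrix.mulVec_transpose]

theorem dot_transpose_self {L : Type} [Fintype L] (B : Matrix K L ℝ) (θ : K → ℝ) :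
    dot (Bᵀ.mulVec θ) (Bᵀ.mulVec θ) = dot θ ((B * Bᵀ).mulVec θ) := by
  rw [dot_transpose, Matrix.mulVec_mulVec]

/-- Cameron-Martin for the field increment, exponential on the left side: with `A = B Bᵀ`,
`E[G(B x) exp <θ, B x>] = exp(<θ, A θ>/2) E[G(B x + A θ)]`. No hypothesis on `G`. -/
theorem cm_step' {L : Type} [Fintype L] (B : Matrix K L ℝ) (θ : K → ℝ) (G : (K → ℝ) → ℝ) :
    ∫ x, G (B.mulVec x) * Real.exp (dot θ (B.mulVec x)) ∂(gam L) =
      Real.exp (dot θ ((B * Bᵀ).mulVec θ) / 2) *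
        ∫ x, G (B.mulVec x + (B * Bᵀ).mulVec θ) ∂(gam L) := by
  have h := cm (fun x => G (B.mulVec x)) (Bᵀ.mulVec θ)
  have h1 : ∀ x : L → ℝ, B.mulVec (x + Bᵀ.mulVec θ) = B.mulVec x + (B * Bᵀ).mulVec θ := by
    intro x
    rw [Matrix.mulVec_add, Matrix.mulVec_mulVec]
  simp only [h1] at h
  rw [h, ← integral_const_mul]
  refine integral_congr_ae (Filter.Eventually.of_forall fun x => ?_)
  show G (B.mulVec x) * Real.exp (dot θ (B.mulVec x)) = Real.exp (dot θ ((B * Bᵀ).mulVec θ) / 2) *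
    (G (B.mulVec x) * Real.exp (dot (Bᵀ.mulVec θ) x - dot (Bᵀ.mulVec θ) (Bᵀ.mulVec θ) / 2))
  rw [dot_transpose, dot_transpose_self, Real.exp_sub]
  have h2 := (Real.exp_pos (dot θ ((B * Bᵀ).mulVec θ) / 2)).ne'
  field_simp

/-- Cameron-Martin for the field increment: with `A = B Bᵀ`,
`E[G(B x)] = E[G(B x + A θ) exp(-<θ, B x> - <θ, A θ>/2)]`. No hypothesis on `G`. -/
theorem cm_step {L : Type} [Fintype L] (B : Matrix K L ℝ) (θ : K → ℝ) (G : (K → ℝ) → ℝ) :
    ∫ x, G (B.mulVec x) ∂(gam L) =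
      ∫ x, G (B.mulVec x + (B * Bᵀ).mulVec θ) *
        Real.exp (-(dot θ (B.mulVec x)) - dot θ ((B * Bᵀ).mulVec θ) / 2) ∂(gam L) := by
  have h := cm_step' B θ (fun y => G y * Real.exp (-(dot θ y)))
  have h1 : ∀ x : L → ℝ, G (B.mulVec x) * Real.exp (-(dot θ (B.mulVec x))) *
      Real.exp (dot θ (B.mulVec x)) = G (B.mulVec x) := by
    intro x
    rw [mul_assoc, ← Real.exp_add, neg_add_cancel, Real.exp_zero, mul_one]
  simp only [h1] at h
  rw [h, ← integral_const_mul]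
  refine integral_congr_ae (Filter.Eventually.of_forall fun x => ?_)
  show Real.exp (dot θ ((B * Bᵀ).mulVec θ) / 2) * (G (B.mulVec x + (B * Bᵀ).mulVec θ) *
    Real.exp (-(dot θ (B.mulVec x + (B * Bᵀ).mulVec θ)))) = G (B.mulVec x + (B * Bᵀ).mulVec θ) *
    Real.exp (-(dot θ (B.mulVec x)) - dot θ ((B * Bᵀ).mulVec θ) / 2)
  rw [dot_add_right, mul_left_comm, ← Real.exp_add]
  congr 2
  ring

end

end SKC.J
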