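import Pool.Agent.H.MP_08eaf3_pr.J.Lin
import Pool.Agent.H.MP_08eaf3_pr.B.Lse

/-!
# Part J: the terminal function `F0 z = ∑ log (2 cosh z_c)`
-/

set_option autoImplicit false
set_option linter.unusedSectionVars false

open MeasureTheory ProbabilityTheory Filter Topology Matrix

namespace SKC.J

open SKC.A

section

variable {K : Type} [Fintype K] [DecidableEq K]

/-- `F0` is a log-sum-exp of linear functionals -/
theorem F0_lse (z : K → ℝ) :
    (F0 z : ℝ) = lse (Finset.univ : Finset (K → Bool)) (fun s => ∑ c, sg (s c) * z c) := by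
  unfold F0 psiEnd lse
  simp

/-- `∑_s exp(∑_c s_c z_c) = ∏_c (exp(z_c) + exp(-z_c))` : `Finset.prod_univ_sum` or
`Finset.prod_sum` / `Fintype.piFinset_univ` -/
theorem exp_F0 (z : K → ℝ) : Real.exp (F0 z) = ∏ c, (2 * Real.cosh (z c)) := by
  have hpos : 0 < ∑ s : K → Bool, Real.exp (∑ c, sg (s c) * z c) :=
    Finset.sum_pos (fun _ _ => Real.exp_pos _) ⟨fun _ => true, Finset.mem_univ _⟩
  rw [F0_lse]
  unfold lse
  rw [Real.exp_log hpos]
  have h1 : ∀ c : K, 2 * Real.cosh (z c) = ∑ b : Bool, Real.exp (sg b * z c) := by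
    intro c
    rw [Fintype.sum_bool, Real.cosh_eq]
    unfold sg
    rw [if_pos rfl, if_neg Bool.false_ne_true, one_mul, neg_one_mul]
    ring
  rw [Finset.prod_congr rfl fun c _ => h1 c, Finset.prod_univ_sum, Fintype.piFinset_univ]
  refine Finset.sum_congr rfl fun s _ => ?_
  rw [Real.exp_sum]

theorem F0_cosh_ne (t : ℝ) : 2 * Real.cosh t ≠ 0 := (mul_pos two_pos (Real.cosh_pos t)).ne'

/-- logarithm of `exp_F0` (`Real.log_prod`) -/
theorem F0_eq (z : K → ℝ) : F0 z = ∑ c, Real.log (2 * Real.cosh (z c)) := by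
  rw [← Real.log_prod (fun c _ => F0_cosh_ne (z c)), ← exp_F0, Real.log_exp]

theorem F0_even (z : K → ℝ) : F0 (-z) = (F0 z : ℝ) := by
  rw [F0_eq, F0_eq]
  refine Finset.sum_congr rfl fun c _ => ?_
  rw [Pi.neg_apply, Real.cosh_neg]

theorem F0_cosh_lower (t : ℝ) : Real.exp |t| ≤ 2 * Real.cosh t := by
  rw [Real.cosh_eq]
  rcases abs_cases t with ⟨h, _⟩ | ⟨h, _⟩ <;> rw [h]
  · linarith [Real.exp_pos (-t)]
  · linarith [Real.exp_pos t]

theorem F0_cosh_upper (t : ℝ) : Real.cosh t ≤ Real.exp |t| := by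
  rw [Real.cosh_eq]
  have h1 : Real.exp t ≤ Real.exp |t| := Real.exp_le_exp.2 (le_abs_self t)
  have h2 : Real.exp (-t) ≤ Real.exp |t| := Real.exp_le_exp.2 (neg_le_abs t)
  linarith

theorem F0_cosh_cmp (a b : ℝ) : Real.cosh a ≤ Real.exp |a - b| * Real.cosh b := by
  rw [Real.cosh_eq, Real.cosh_eq]
  have h1 : Real.exp a ≤ Real.exp |a - b| * Real.exp b := by
    rw [← Real.exp_add]
    exact Real.exp_le_exp.2 (by linarith [le_abs_self (a - b)])
  have h2 : Real.exp (-a) ≤ Real.exp |a - b| * Real.exp (-b) := by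
    rw [← Real.exp_add]
    exact Real.exp_le_exp.2 (by linarith [neg_le_abs (a - b)])
  linarith

theorem F0_log_cmp (a b : ℝ) :
    Real.log (2 * Real.cosh a) - Real.log (2 * Real.cosh b) ≤ |a - b| := by
  have hb : 0 < 2 * Real.cosh b := mul_pos two_pos (Real.cosh_pos b)
  have h1 : Real.log (2 * Real.cosh a) ≤ Real.log (Real.exp |a - b| * (2 * Real.cosh b)) := by
    refine Real.log_le_log (mul_pos two_pos (Real.cosh_pos a)) ?_
    linarith [F0_cosh_cmp a b]
  rw [Real.log_mul (Real.exp_pos _).ne' hb.ne', Real.log_exp] at h1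
  linarith

/-- `2 cosh t ≥ exp |t|` -/
theorem n1_le_F0 (z : K → ℝ) : n1 z ≤ F0 z := by
  rw [F0_eq]
  unfold n1
  refine Finset.sum_le_sum fun c _ => ?_
  rw [Real.le_log_iff_exp_le (mul_pos two_pos (Real.cosh_pos _))]
  exact F0_cosh_lower _

/-- `2 cosh t ≤ 2 exp |t|` -/
theorem F0_le (z : K → ℝ) : F0 z ≤ n1 z + Fintype.card K * Real.log 2 := by
  rw [F0_eq]
  unfold n1
  have h1 : ∑ _c : K, Real.log 2 = Fintype.card K * Real.log 2 := by
    rw [Finset.sum_const, Finset.card_univ, nsmul_eq_mul]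
  rw [← h1, ← Finset.sum_add_distrib]
  refine Finset.sum_le_sum fun c _ => ?_
  rw [Real.log_mul two_ne_zero (Real.cosh_pos _).ne', add_comm]
  refine add_le_add ?_ le_rfl
  rw [Real.log_le_iff_le_exp (Real.cosh_pos _)]
  exact F0_cosh_upper _

/-- `cosh t ≤ exp |t - t'| cosh t'` -/
theorem F0_lip (z z' : K → ℝ) : |(F0 z : ℝ) - F0 z'| ≤ n1 (z - z') := by
  rw [F0_eq, F0_eq, ← Finset.sum_sub_distrib]
  refine (Finset.abs_sum_le_sum_abs _ _).trans ?_
  unfold n1
  refine Finset.sum_le_sum fun c _ => ?_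
  rw [abs_le]
  constructor
  · have h1 := F0_log_cmp (z' c) (z c)
    rw [abs_sub_comm] at h1
    rw [Pi.sub_apply]
    linarith
  · exact F0_log_cmp (z c) (z' c)

theorem LG_F0 : LG (F0 : (K → ℝ) → ℝ) := SKC.B.LG_F0

/-- `C^2` with bounded first and second derivatives: `SKC.B.adm_lse` -/
theorem adm_F0 : SKC.B.Adm (F0 : (K → ℝ) → ℝ) := by
  have h1 := SKC.B.adm_lse (Ω := K → Bool) (B := Finset.univ) (E := K → ℝ)
    ⟨fun _ => true, Finset.mem_univ _⟩
    (fun s => ∑ c, sg (s c) • (ContinuousLinearMap.proj c : (K → ℝ) →L[ℝ] ℝ)) (fun _ => 0)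
  have h2 : (F0 : (K → ℝ) → ℝ) = fun e => lse (Finset.univ : Finset (K → Bool)) (fun s =>
      (∑ c, sg (s c) • (ContinuousLinearMap.proj c : (K → ℝ) →L[ℝ] ℝ)) e + 0) := by
    funext z
    rw [F0_lse]
    congr 1
    funext s
    simp
  rw [h2]
  exact h1

theorem F0_hasTanh (t : ℝ) : HasDerivAt (fun t => Real.log (2 * Real.cosh t)) (Real.tanh t) t := by
  have h1 := ((Real.hasDerivAt_cosh t).const_mul 2).log (F0_cosh_ne t)
  have h2 : 2 * Real.sinh t / (2 * Real.cosh t) = Real.tanh t := by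
    rw [mul_div_mul_left _ _ two_ne_zero, Real.tanh_eq_sinh_div_cosh]
  rw [← h2]
  exact h1

theorem F0_hasTanh2 (t : ℝ) : HasDerivAt Real.tanh (1 - Real.tanh t ^ 2) t := by
  have h1 := (Real.hasDerivAt_sinh t).div (Real.hasDerivAt_cosh t) (Real.cosh_pos t).ne'
  have h2 : (Real.cosh t * Real.cosh t - Real.sinh t * Real.sinh t) / Real.cosh t ^ 2 =
      1 - Real.tanh t ^ 2 := by
    rw [Real.tanh_eq_sinh_div_cosh]
    have := (Real.cosh_pos t).ne'
    field_simp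
  rw [← h2]
  have h3 : Real.tanh = fun t => Real.sinh t / Real.cosh t := by
    funext t
    exact Real.tanh_eq_sinh_div_cosh t
  rw [h3]
  exact h1

theorem F0_has (z : K → ℝ) : HasFDerivAt (F0 : (K → ℝ) → ℝ)
    (∑ c, Real.tanh (z c) • (ContinuousLinearMap.proj c : (K → ℝ) →L[ℝ] ℝ)) z := by
  have h2 : (F0 : (K → ℝ) → ℝ) = fun z => ∑ c, Real.log (2 * Real.cosh (z c)) := by
    funext z
    exact F0_eq z
  rw [h2]
  refine HasFDerivAt.fun_sum fun c _ => ?_
  exact (F0_hasTanh (z c)).comp_hasFDerivAt z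
    (ContinuousLinearMap.proj c : (K → ℝ) →L[ℝ] ℝ).hasFDerivAt

theorem F0_fderiv_eq : fderiv ℝ (F0 : (K → ℝ) → ℝ) =
    fun z => ∑ c, Real.tanh (z c) • (ContinuousLinearMap.proj c : (K → ℝ) →L[ℝ] ℝ) := by
  funext z
  exact (F0_has z).fderiv

theorem F0_has2 (z : K → ℝ) : HasFDerivAt
    (fun z : K → ℝ => ∑ c, Real.tanh (z c) • (ContinuousLinearMap.proj c : (K → ℝ) →L[ℝ] ℝ))
    (∑ c, ((1 - Real.tanh (z c) ^ 2) • (ContinuousLinearMap.proj c : (K → ℝ) →L[ℝ] ℝ)).smulRight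
      (ContinuousLinearMap.proj c : (K → ℝ) →L[ℝ] ℝ)) z := by
  refine HasFDerivAt.fun_sum fun c _ => ?_
  have h1 : HasFDerivAt (fun z : K → ℝ => Real.tanh (z c))
      ((1 - Real.tanh (z c) ^ 2) • (ContinuousLinearMap.proj c : (K → ℝ) →L[ℝ] ℝ)) z := by
    have h0 : HasFDerivAt (fun z : K → ℝ => z c) (ContinuousLinearMap.proj c : (K → ℝ) →L[ℝ] ℝ) z :=
      (ContinuousLinearMap.proj c : (K → ℝ) →L[ℝ] ℝ).hasFDerivAt
    exact HasDerivAt.comp_hasFDerivAt (h₂ := Real.tanh) (f := fun z : K → ℝ => z c) z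
      (F0_hasTanh2 (z c)) h0
  exact h1.smul_const (ContinuousLinearMap.proj c : (K → ℝ) →L[ℝ] ℝ)

/-- first derivative: from `F0_eq`, `Real.cosh` has derivative `sinh`, `tanh = sinh/cosh` -/
theorem fderiv_F0 (z v : K → ℝ) : fderiv ℝ (F0 : (K → ℝ) → ℝ) z v = ∑ c, Real.tanh (z c) * v c := by
  rw [(F0_has z).fderiv]
  simp

/-- second derivative -/
theorem fderiv2_F0 (z v w : K → ℝ) :
    fderiv ℝ (fderiv ℝ (F0 : (K → ℝ) → ℝ)) z v w = ∑ c, (1 - Real.tanh (z c) ^ 2) * (v c * w c) := by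
  rw [F0_fderiv_eq, (F0_has2 z).fderiv]
  simp only [_root_.sum_apply, ContinuousLinearMap.smulRight_apply,
    _root_.smul_apply, ContinuousLinearMap.proj_apply, smul_eq_mul]
  refine Finset.sum_congr rfl fun c _ => ?_
  ring

/-! ### hyperbolic tangent -/

theorem one_sub_tanh (t : ℝ) : 1 - Real.tanh t = 2 * (1 + Real.exp (2 * t))⁻¹ := by
  rw [Real.tanh_eq_sinh_div_cosh, Real.sinh_eq, Real.cosh_eq, Real.exp_neg]
  have h1 : Real.exp (2 * t) = Real.exp t ^ 2 := by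
    rw [← Real.exp_nat_mul]
    norm_num
  rw [h1]
  have ha : 0 < Real.exp t := Real.exp_pos t
  set a := Real.exp t
  have h2 : a ^ 2 + 1 ≠ 0 := by positivity
  have h3 : 1 + a ^ 2 ≠ 0 := by positivity
  field_simp
  ring

theorem one_sub_tanh_le (t : ℝ) : 1 - Real.tanh t ≤ 2 * Real.exp (-(2 * t)) := by
  rw [one_sub_tanh, Real.exp_neg]
  have h1 := Real.exp_pos (2 * t)
  refine mul_le_mul_of_nonneg_left ?_ two_pos.le
  exact inv_anti₀ h1 (by linarith)

theorem abs_tanh_lt (t : ℝ) : |Real.tanh t| < 1 := by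
  have key : ∀ t : ℝ, Real.tanh t < 1 := by
    intro t
    have h1 := one_sub_tanh t
    have h2 : 0 < 2 * (1 + Real.exp (2 * t))⁻¹ := by positivity
    linarith
  rw [abs_lt]
  constructor
  · have h1 := key (-t)
    rw [Real.tanh_neg] at h1
    linarith
  · exact key t

theorem EG_tanh (c : K) : EG (fun z : K → ℝ => Real.tanh (z c)) := by
  have h1 : Continuous Real.tanh := by
    rw [continuous_iff_continuousAt]
    exact fun t => (F0_hasTanh2 t).continuousAt
  exact EG.of_bdd (A := 1) (h1.comp (continuous_apply c)) fun z => (abs_tanh_lt _).le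

end

end SKC.J
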