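import Pool.Agent.H.MP_08eaf3_pr.J.Bd

/-!
# Part J: Gaussian chains
-/

set_option autoImplicit false
set_option linter.unusedSectionVars false

open MeasureTheory ProbabilityTheory Filter Topology Matrix

namespace SKC.J

open SKC.A

section

variable {K : Type} [Fintype K]

/-- expectation of `h(Z)` for the Gaussian chain started at `z` with the increments of `l` -/
noncomputable def GE (β : K → ℝ) : List (Step K) → ((K → ℝ) → ℝ) → ((K → ℝ) → ℝ)
  | [], h => h
  | (s :: l), h => fun z => ∫ x, GE β l h (z + (Bm β s.2).mulVec x) ∂(gam K)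

/-- covariance of the increment of the field along `l` -/
noncomputable def Atot (β : K → ℝ) (l : List (Step K)) : Matrix K K ℝ :=
  fun c d => 2 * β c * β d * Qtot l c d

theorem Atot_cons (β : K → ℝ) (s : Step K) (l : List (Step K)) :
    Atot β (s :: l) = Bm β s.2 * (Bm β s.2)ᵀ + Atot β l := by
  ext c d
  rw [Matrix.add_apply, cov_Bm]
  show 2 * β c * β d * (s.2 * s.2ᵀ + Qtot l) c d = _
  rw [Matrix.add_apply]
  unfold Atot
  ring

/-- (`EG.integral_affine`, induction) -/
theorem EG_GE (β : K → ℝ) (l : List (Step K)) {h : (K → ℝ) → ℝ} (hh : EG h) : EG (GE β l h) := by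
  induction l with
  | nil => exact hh
  | cons s l ih => exact ih.integral_affine (Bm β s.2)

theorem GE_mono (β : K → ℝ) (l : List (Step K)) {h h' : (K → ℝ) → ℝ} (hh : EG h) (hh' : EG h')
    (hle : ∀ z, h z ≤ h' z) (z : K → ℝ) : GE β l h z ≤ GE β l h' z := by
  induction l generalizing z with
  | nil => exact hle z
  | cons s l ih =>
    exact integral_mono (int_EG (EG_GE β l hh) _ _) (int_EG (EG_GE β l hh') _ _) fun x => ih _

theorem GE_const (β : K → ℝ) (l : List (Step K)) (c : ℝ) : GE β l (fun _ => c) = fun _ => c := by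
  induction l with
  | nil => rfl
  | cons s l ih =>
    funext z
    show ∫ x, GE β l (fun _ => c) (z + (Bm β s.2).mulVec x) ∂(gam K) = c
    rw [ih, integral_const, probReal_univ, one_smul]

theorem GE_shift {h : (K → ℝ) → ℝ} (hh : EG h) (z : K → ℝ) : EG (fun w => h (z + w)) := by
  classical
  have h1 := hh.comp_affine z (1 : Matrix K K ℝ)
  have h2 : (fun x : K → ℝ => h (z + (1 : Matrix K K ℝ).mulVec x)) = fun w => h (z + w) := by
    funext x
    rw [Matrix.one_mulVec]
  rwa [h2] at h1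

/-- law of a Gaussian chain: it is a linear image of a Gaussian vector. Induction over `l`:
`[]`: `κ = Empty`, `M = 0`-sized matrix (all integrands constant, `gam` is a probability measure);
`s :: l`: `κ' = K ⊕ κ`, `M' = Matrix.fromCols (Bm β s.2) M`, `integral_linear_add`, `Matrix.fromCols_mul_fromRows` /
`Atot_cons`. -/
theorem GE_law (β : K → ℝ) (l : List (Step K)) :
    ∃ (κ : Type) (_ : Fintype κ) (M : Matrix K κ ℝ), M * Mᵀ = Atot β l ∧
      ∀ h : (K → ℝ) → ℝ, EG h → ∀ z, GE β l h z = ∫ x, h (z + M.mulVec x) ∂(gam κ) := by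
  induction l with
  | nil =>
    refine ⟨Empty, inferInstance, fun _ e => e.elim, ?_, ?_⟩
    · ext c d
      rw [Matrix.mul_apply]
      show ∑ e : Empty, _ = 2 * β c * β d * (0 : Matrix K K ℝ) c d
      rw [Matrix.zero_apply, mul_zero]
      exact Finset.sum_of_isEmpty _
    · intro h _ z
      have h1 : ∀ x : Empty → ℝ, z + (Matrix.mulVec (fun _ e => e.elim : Matrix K Empty ℝ) x) = z := by
        intro x
        funext c
        have h2 : (Matrix.mulVec (fun _ e => e.elim : Matrix K Empty ℝ) x) c = 0 := by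
          simp [Matrix.mulVec, dotProduct]
        rw [Pi.add_apply, h2, add_zero]
      simp only [h1]
      rw [integral_const, probReal_univ, one_smul]
      rfl
  | cons s l ih =>
    obtain ⟨κ, _, M, hM, hint⟩ := ih
    refine ⟨K ⊕ κ, inferInstance, Matrix.fromCols (Bm β s.2) M, ?_, ?_⟩
    · rw [Matrix.transpose_fromCols, Matrix.fromCols_mul_fromRows, hM, Atot_cons]
    · intro h hh z
      have h1 := integral_linear_add (Matrix.fromCols (Bm β s.2) M) (Bm β s.2) M
        (by rw [Matrix.transpose_fromCols, Matrix.fromCols_mul_fromRows]) (fun w => h (z + w))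
        (GE_shift hh z)
      rw [h1]
      show ∫ x, GE β l h (z + (Bm β s.2).mulVec x) ∂(gam K) = _
      refine integral_congr_ae (Filter.Eventually.of_forall fun x => ?_)
      beta_reduce
      rw [hint h hh]
      refine integral_congr_ae (Filter.Eventually.of_forall fun y => ?_)
      beta_reduce
      rw [add_assoc]

/-- (`GE_law` and `integral_linear_congr`; `Bm β E * (Bm β E)ᵀ = Atot β l` by `cov_Bm`) -/
theorem GE_eq (β : K → ℝ) (l : List (Step K)) (E : Matrix K K ℝ) (hE : E * Eᵀ = Qtot l)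
    {h : (K → ℝ) → ℝ} (hh : EG h) (z : K → ℝ) :
    GE β l h z = ∫ x, h (z + (Bm β E).mulVec x) ∂(gam K) := by
  obtain ⟨κ, _, M, hM, hint⟩ := GE_law β l
  rw [hint h hh z]
  refine integral_linear_congr M (Bm β E) ?_ (fun w => h (z + w)) (GE_shift hh z).cont
  rw [hM]
  ext c d
  rw [cov_Bm, hE]
  rfl

/-- levels are at least the Gaussian averages: induction with `Tm_ge_avg` and monotonicity -/
theorem GE_le_PsiL (β : K → ℝ) (l : List (Step K)) (hl : ∀ a ∈ l, 0 ≤ a.1) {F : (K → ℝ) → ℝ}
    (hF : LG F) (z : K → ℝ) : GE β l F z ≤ PsiL β l F z := by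
  induction l generalizing z with
  | nil => exact le_refl _
  | cons s l ih =>
    have hl' : ∀ a ∈ l, 0 ≤ a.1 := fun a ha => hl a (List.mem_cons_of_mem s ha)
    have hP : LG (PsiL β l F) := SKC.B.LG_PsiL hF β l
    have h1 : GE β (s :: l) F z ≤ ∫ x, PsiL β l F (z + (Bm β s.2).mulVec x) ∂(gam K) :=
      integral_mono (int_EG (EG_GE β l hF.eg) _ _) (int_LG hP _ _) fun x => ih hl' _
    exact h1.trans (Tm_ge_avg hP (hl s List.mem_cons_self) (Bm β s.2) z)

/-- second moment of a Gaussian increment: `integral_dot`, `integral_dot_mul_dot` -/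
theorem sq_avg (β : K → ℝ) (E : Matrix K K ℝ) (z : K → ℝ) :
    ∫ x, ∑ c, (z + (Bm β E).mulVec x) c ^ 2 ∂(gam K) ≤ (∑ c, z c ^ 2) + tv β E := by
  have h1 : ∀ (x : K → ℝ) (c : K), (z + (Bm β E).mulVec x) c ^ 2 =
      z c ^ 2 + (2 * z c * dot x (Bm β E c) + dot x (Bm β E c) * dot x (Bm β E c)) := by
    intro x c
    have h2 : (z + (Bm β E).mulVec x) c = z c + dot x (Bm β E c) := by
      show z c + ∑ j, Bm β E c j * x j = z c + ∑ j, x j * Bm β E c j
      congr 1
      exact Finset.sum_congr rfl fun j _ => mul_comm _ _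
    rw [h2]
    ring
  have hi1 : ∀ c, Integrable (fun x : K → ℝ => 2 * z c * dot x (Bm β E c)) (gam K) := fun c =>
    (EG.dot_right (Bm β E c)).integrable.const_mul _
  have hi2 : ∀ c, Integrable (fun x : K → ℝ => dot x (Bm β E c) * dot x (Bm β E c)) (gam K) :=
    fun c => ((EG.dot_right (Bm β E c)).mul (EG.dot_right (Bm β E c))).integrable
  have h3 : ∀ c, ∫ x : K → ℝ, (z + (Bm β E).mulVec x) c ^ 2 ∂(gam K) =
      z c ^ 2 + (Bm β E * (Bm β E)ᵀ) c c := by
    intro c
    simp only [h1]
    have hi3 : Integrable (fun x : K → ℝ => 2 * z c * dot x (Bm β E c) +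
        dot x (Bm β E c) * dot x (Bm β E c)) (gam K) := (hi1 c).add (hi2 c)
    rw [integral_add (integrable_const _) hi3, integral_const, probReal_univ, one_smul,
      integral_add (hi1 c) (hi2 c), integral_const_mul, integral_dot, mul_zero, zero_add,
      integral_dot_mul_dot]
    rfl
  have h4 : ∀ c, Integrable (fun x : K → ℝ => (z + (Bm β E).mulVec x) c ^ 2) (gam K) := by
    intro c
    simp only [h1]
    exact (integrable_const _).add ((hi1 c).add (hi2 c))
  rw [integral_finsetSum _ fun c _ => h4 c]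
  simp only [h3]
  rw [Finset.sum_add_distrib]
  refine add_le_add le_rfl ?_
  unfold tv
  refine Finset.sum_le_sum fun c _ => ?_
  exact (le_abs_self _).trans (Finset.single_le_sum
    (f := fun d => |(Bm β E * (Bm β E)ᵀ) c d|) (fun d _ => abs_nonneg _) (Finset.mem_univ c))

theorem EG_sq : EG (fun z : K → ℝ => ∑ c, z c ^ 2) := EG.sum _ fun c _ => (EG.coord c).pow 2

/-- `|t| ≤ 1 + t²` -/
theorem n1_le_sq (z : K → ℝ) : n1 z ≤ Fintype.card K + ∑ c, z c ^ 2 := by
  have h1 : (Fintype.card K : ℝ) + ∑ c, z c ^ 2 = ∑ c, (1 + z c ^ 2) := by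
    rw [Finset.sum_add_distrib, Finset.sum_const, Finset.card_univ, nsmul_eq_mul, mul_one]
  rw [h1]
  unfold n1
  refine Finset.sum_le_sum fun c _ => ?_
  rw [← sq_abs (z c)]
  nlinarith [sq_nonneg (|z c| - 1), abs_nonneg (z c)]

end

section

variable {K : Type} [Fintype K] [DecidableEq K]

theorem GE_append (β : K → ℝ) (l1 l2 : List (Step K)) (F : (K → ℝ) → ℝ) :
    PsiL β (l1 ++ l2) F = PsiL β l1 (PsiL β l2 F) := by
  induction l1 with
  | nil => rfl
  | cons s l1 ih =>
    show Tm s.1 (Bm β s.2) (PsiL β (l1 ++ l2) F) = Tm s.1 (Bm β s.2) (PsiL β l1 (PsiL β l2 F))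
    rw [ih]

/-- S4 tool: Jensen, levels are bounded below by Gaussian averages -/
theorem PsiL_ge_gauss (β : K → ℝ) (l1 l2 : List (Step K)) (hl : Ok (l1 ++ l2))
    (E : Matrix K K ℝ) (hE : E * Eᵀ = Qtot l1) :
    ∫ x, PsiL β l2 F0 ((Bm β E).mulVec x) ∂(gam K) ≤ PsiL β (l1 ++ l2) F0 0 := by
  have hP : LG (PsiL β l2 F0) := SKC.B.LG_PsiL LG_F0 β l2
  have h1 := GE_eq β l1 E hE hP.eg 0
  simp only [zero_add] at h1
  rw [← h1, GE_append]
  exact GE_le_PsiL β l1 (fun a ha => (hl.2.1 a (List.mem_append_left _ ha)).1) hP 0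

end

end SKC.J
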