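import Pool.Agent.H.MP_08eaf3_pr.J.Lin

/-!
# Part J: one-dimensional projections of pair steps
-/

set_option autoImplicit false
set_option linter.unusedSectionVars false

open MeasureTheory ProbabilityTheory Filter Topology Matrix

namespace SKC.J

open SKC.A

section

variable {K : Type} [Fintype K]

/-- law of one coordinate of the increment (`integral_linear_congr` for the `1 × K` matrix
`fun _ k => Bm β E d k` and the `1 × 1` matrix; both covariances are `2 β_d² (E Eᵀ)_dd`) -/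
theorem proj_law (β : K → ℝ) (E : Matrix K K ℝ) (d : K) (φ : ℝ → ℝ) (hφ : Continuous φ) :
    ∫ x, φ ((Bm β E).mulVec x d) ∂(gam K) =
      ∫ y, φ ((Bm (fun _ : Unit => β d) (fun _ _ => Real.sqrt ((E * Eᵀ) d d))).mulVec y ())
        ∂(gam Unit) := by
  let M : Matrix Unit K ℝ := fun _ k => Bm β E d k
  let S : Matrix Unit Unit ℝ := fun _ _ => Real.sqrt ((E * Eᵀ) d d)
  have e1 : ∀ i j, (M * Mᵀ) i j = (Bm β E * (Bm β E)ᵀ) d d := by
    intro i j
    rw [Matrix.mul_apply, Matrix.mul_apply]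
    rfl
  have e2 : ∀ i j, (S * Sᵀ) i j = (E * Eᵀ) d d := by
    intro i j
    rw [Matrix.mul_apply, Fintype.sum_unique]
    exact Real.mul_self_sqrt (mul_transpose_diag_nonneg E d)
  have e3 : M * Mᵀ = Bm (fun _ : Unit => β d) S * (Bm (fun _ : Unit => β d) S)ᵀ := by
    ext i j
    rw [e1, cov_Bm, cov_Bm, e2]
  exact integral_linear_congr M (Bm (fun _ : Unit => β d) S) e3
    (fun y => φ (y ())) (hφ.comp (continuous_apply ()))

theorem Law1_prod (a b : ℝ → ℝ) :
    ∫ x : Fin 2 → ℝ, a (x 0) * b (x 1) ∂(gam (Fin 2)) =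
      (∫ t, a t ∂(gaussianReal 0 1)) * ∫ t, b t ∂(gaussianReal 0 1) := by
  have h := integral_fintype_prod_eq_prod (μ := fun _ : Fin 2 => gaussianReal 0 1)
    (f := ![a, b])
  simp only [Fin.prod_univ_two] at h
  exact h

theorem Law1_fst (a : ℝ → ℝ) :
    ∫ x : Fin 2 → ℝ, a (x 0) ∂(gam (Fin 2)) = ∫ t, a t ∂(gaussianReal 0 1) := by
  have h := Law1_prod a (fun _ => 1)
  simpa using h

theorem Law1_snd (a : ℝ → ℝ) :
    ∫ x : Fin 2 → ℝ, a (x 1) ∂(gam (Fin 2)) = ∫ t, a t ∂(gaussianReal 0 1) := by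
  have h := Law1_prod (fun _ => 1) a
  simpa using h

/-- independence of the coordinates when the covariance is diagonal: compare the law of `B x` with the
law of `D x`, `D = diag(√A_00, √A_11)` (`integral_linear_congr`), product structure
(`integral_fintype_prod_eq_prod` with `Fin 2`), and again `integral_linear_congr` for the factors. -/
theorem diag_law (B : Matrix (Fin 2) (Fin 2) ℝ) (h : (B * Bᵀ) 0 1 = 0) (φ ψ : ℝ → ℝ)
    (hφ : Continuous φ) (hψ : Continuous ψ) :
    ∫ x, φ (B.mulVec x 0) * ψ (B.mulVec x 1) ∂(gam (Fin 2)) =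
      (∫ x, φ (B.mulVec x 0) ∂(gam (Fin 2))) * ∫ x, ψ (B.mulVec x 1) ∂(gam (Fin 2)) := by
  set p : ℝ := Real.sqrt ((B * Bᵀ) 0 0) with hp
  set q : ℝ := Real.sqrt ((B * Bᵀ) 1 1) with hq
  set D : Matrix (Fin 2) (Fin 2) ℝ := !![p, 0; 0, q] with hD
  have hpp : p * p = (B * Bᵀ) 0 0 := Real.mul_self_sqrt (mul_transpose_diag_nonneg B 0)
  have hqq : q * q = (B * Bᵀ) 1 1 := Real.mul_self_sqrt (mul_transpose_diag_nonneg B 1)
  have h10 : (B * Bᵀ) 1 0 = 0 := by
    rw [← h, Matrix.mul_apply, Matrix.mul_apply]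
    refine Finset.sum_congr rfl fun k _ => ?_
    rw [Matrix.transpose_apply, Matrix.transpose_apply, mul_comm]
  have hBD : B * Bᵀ = D * Dᵀ := by
    ext i j
    fin_cases i <;> fin_cases j
    · show (B * Bᵀ) 0 0 = (D * Dᵀ) 0 0
      rw [← hpp]
      simp [hD, Matrix.mul_apply, Fin.sum_univ_two]
    · show (B * Bᵀ) 0 1 = (D * Dᵀ) 0 1
      rw [h]
      simp [hD, Matrix.mul_apply, Fin.sum_univ_two, Matrix.transpose_apply]
    · show (B * Bᵀ) 1 0 = (D * Dᵀ) 1 0
      rw [h10]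
      simp [hD, Matrix.mul_apply, Fin.sum_univ_two, Matrix.transpose_apply]
    · show (B * Bᵀ) 1 1 = (D * Dᵀ) 1 1
      rw [← hqq]
      simp [hD, Matrix.mul_apply, Fin.sum_univ_two]
  have hD0 : ∀ x : Fin 2 → ℝ, D.mulVec x 0 = p * x 0 := by
    intro x
    simp [hD, Matrix.mulVec, dotProduct, Fin.sum_univ_two]
  have hD1 : ∀ x : Fin 2 → ℝ, D.mulVec x 1 = q * x 1 := by
    intro x
    simp [hD, Matrix.mulVec, dotProduct, Fin.sum_univ_two]
  have e1 := integral_linear_congr B D hBD (fun y => φ (y 0) * ψ (y 1))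
    ((hφ.comp (continuous_apply 0)).mul (hψ.comp (continuous_apply 1)))
  have e2 := integral_linear_congr B D hBD (fun y => φ (y 0)) (hφ.comp (continuous_apply 0))
  have e3 := integral_linear_congr B D hBD (fun y => ψ (y 1)) (hψ.comp (continuous_apply 1))
  rw [e1, e2, e3]
  simp only [hD0, hD1]
  rw [Law1_prod (fun t => φ (p * t)) (fun t => ψ (q * t)), Law1_fst (fun t => φ (p * t)),
    Law1_snd (fun t => ψ (q * t))]

end

section

/-- `psi1` satisfies the one-dimensional recursion (`funext`, `y = fun _ => y ()`) -/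
theorem psi1_cons (b : ℝ) (s : Step Unit) (l : List (Step Unit)) (v : ℝ) :
    psi1 b (s :: l) v = Tm s.1 (Bm (fun _ : Unit => b) s.2) (fun y => psi1 b l (y ())) (fun _ => v) := by
  have h : (fun y : Unit → ℝ => psi1 b l (y ())) = PsiL (fun _ : Unit => b) l F0 := by
    funext y
    show PsiL (fun _ : Unit => b) l F0 (fun _ => y ()) = PsiL (fun _ : Unit => b) l F0 y
    rfl
  rw [h]
  rfl

theorem psi1_nil (b : ℝ) (v : ℝ) : psi1 b [] v = F0 (fun _ : Unit => v) := rfl

theorem psi1_continuous (b : ℝ) (l : List (Step Unit)) : Continuous (psi1 b l) := by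
  have h := (LG_PsiL (fun _ : Unit => b) l (SKC.B.LG_F0 (K := Unit))).1
  exact h.comp (continuous_pi fun _ => continuous_id)

end

end SKC.J
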