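import Pool.Agent.H.MP_08eaf3_pr.J.Step

/-!
# Part J: rules for chains
-/

set_option autoImplicit false
set_option linter.unusedSectionVars false

open MeasureTheory ProbabilityTheory Filter Topology Matrix

namespace SKC.J

open SKC.A

section

variable {K : Type} [Fintype K] {F h h' : (K → ℝ) → ℝ}

theorem LG_PsiL (β : K → ℝ) (l : List (Step K)) (hF : LG F) : LG (PsiL β l F) :=
  SKC.B.LG_PsiL hF β l

theorem EG_ChE (β : K → ℝ) (l : List (Step K)) (hF : LG F) (hh : EG h) : EG (ChE β l F h) :=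
  SKC.B.EG_ChE hF hh β l

theorem ChE_const (β : K → ℝ) (l : List (Step K)) (hF : LG F) (c : ℝ) :
    ChE β l F (fun _ => c) = fun _ => c := by
  induction l with
  | nil => rfl
  | cons s l ih =>
    funext z
    show Es s.1 (Bm β s.2) (PsiL β l F) (ChE β l F (fun _ => c)) z = c
    rw [ih]
    exact Es_const (LG_PsiL β l hF) _ _ _ _

theorem ChE_mono (β : K → ℝ) (l : List (Step K)) (hF : LG F) (hh : EG h)
    (hh' : EG h') (hle : ∀ z, h z ≤ h' z) (z : K → ℝ) : ChE β l F h z ≤ ChE β l F h' z := by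
  induction l generalizing z with
  | nil => exact hle z
  | cons s l ih => exact Es_mono (LG_PsiL β l hF) (EG_ChE β l hF hh) (EG_ChE β l hF hh') ih _ _ z

theorem ChE_add (β : K → ℝ) (l : List (Step K)) (hF : LG F) (hh : EG h) (hh' : EG h') (z : K → ℝ) :
    ChE β l F (fun y => h y + h' y) z = ChE β l F h z + ChE β l F h' z := by
  induction l generalizing z with
  | nil => rfl
  | cons s l ih =>
    show Es s.1 (Bm β s.2) (PsiL β l F) (ChE β l F (fun y => h y + h' y)) z = _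
    rw [funext ih]
    exact Es_add (LG_PsiL β l hF) (EG_ChE β l hF hh) (EG_ChE β l hF hh') _ _ z

theorem ChE_smul (β : K → ℝ) (l : List (Step K)) (F h : (K → ℝ) → ℝ) (c : ℝ) (z : K → ℝ) :
    ChE β l F (fun y => c * h y) z = c * ChE β l F h z := by
  induction l generalizing z with
  | nil => rfl
  | cons s l ih =>
    show Es s.1 (Bm β s.2) (PsiL β l F) (ChE β l F (fun y => c * h y)) z = _
    rw [funext ih]
    exact Es_smul _ _ _ _ _ _

theorem ChE_sub (β : K → ℝ) (l : List (Step K)) (hF : LG F) (hh : EG h) (hh' : EG h') (z : K → ℝ) :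
    ChE β l F (fun y => h y - h' y) z = ChE β l F h z - ChE β l F h' z := by
  induction l generalizing z with
  | nil => rfl
  | cons s l ih =>
    show Es s.1 (Bm β s.2) (PsiL β l F) (ChE β l F (fun y => h y - h' y)) z = _
    rw [funext ih]
    exact Es_sub (LG_PsiL β l hF) (EG_ChE β l hF hh) (EG_ChE β l hF hh') _ _ z

theorem ChE_nonneg (β : K → ℝ) (l : List (Step K)) (F : (K → ℝ) → ℝ) (h0 : ∀ z, 0 ≤ h z)
    (z : K → ℝ) : 0 ≤ ChE β l F h z := by
  induction l generalizing z with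
  | nil => exact h0 z
  | cons s l ih => exact Es_nonneg ih _ _ _ z

theorem ChE_pos (β : K → ℝ) (l : List (Step K)) (hF : LG F) (hh : EG h) (h0 : ∀ z, 0 < h z)
    (z : K → ℝ) : 0 < ChE β l F h z := by
  induction l generalizing z with
  | nil => exact h0 z
  | cons s l ih => exact Es_pos (LG_PsiL β l hF) (EG_ChE β l hF hh) ih _ _ z

theorem ChE_abs_le (β : K → ℝ) (l : List (Step K)) (hF : LG F) (hh : EG h) {C : ℝ}
    (hC : ∀ z, |h z| ≤ C) (z : K → ℝ) : |ChE β l F h z| ≤ C := by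
  induction l generalizing z with
  | nil => exact hC z
  | cons s l ih => exact Es_abs_le (LG_PsiL β l hF) (EG_ChE β l hF hh) ih _ _ z

theorem ChE_abs_lt_one (β : K → ℝ) (l : List (Step K)) (hF : LG F) (hh : EG h)
    (hC : ∀ z, |h z| < 1) (z : K → ℝ) : |ChE β l F h z| < 1 := by
  induction l generalizing z with
  | nil => exact hC z
  | cons s l ih => exact Es_abs_lt_one (LG_PsiL β l hF) (EG_ChE β l hF hh) ih _ _ z

/-- Cauchy-Schwarz for chain expectations -/
theorem ChE_sq_le (β : K → ℝ) (l : List (Step K)) (hF : LG F) (hh : EG h) (z : K → ℝ) :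
    ChE β l F h z ^ 2 ≤ ChE β l F (fun y => h y ^ 2) z := by
  induction l generalizing z with
  | nil => exact le_refl _
  | cons s l ih =>
    refine (Es_sq_le (LG_PsiL β l hF) (EG_ChE β l hF hh) s.1 (Bm β s.2) z).trans ?_
    exact Es_mono (LG_PsiL β l hF) ((EG_ChE β l hF hh).pow 2) (EG_ChE β l hF (hh.pow 2)) ih _ _ z

/-- Jensen for `x ↦ 1/x` -/
theorem ChE_inv_ge (β : K → ℝ) (l : List (Step K)) (hF : LG F) (hh : EG h)
    (hi : EG (fun y => (h y)⁻¹)) (h0 : ∀ z, 0 < h z) (z : K → ℝ) :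
    (ChE β l F h z)⁻¹ ≤ ChE β l F (fun y => (h y)⁻¹) z := by
  set y0 : ℝ := ChE β l F h z with hy0
  have hpos : 0 < y0 := ChE_pos β l hF hh h0 z
  have h1 : ChE β l F (fun y => 2 * y0⁻¹ - (y0⁻¹ * y0⁻¹) * h y) z ≤ ChE β l F (fun y => (h y)⁻¹) z := by
    refine ChE_mono β l hF ((EG.const _).sub (hh.const_mul _)) hi (fun y => ?_) z
    have hy := h0 y
    have e : (h y)⁻¹ - (2 * y0⁻¹ - (y0⁻¹ * y0⁻¹) * h y) = (h y)⁻¹ * (1 - y0⁻¹ * h y) ^ 2 := by
      field_simp
      ring
    have e2 : 0 ≤ (h y)⁻¹ * (1 - y0⁻¹ * h y) ^ 2 := mul_nonneg (inv_pos.mpr hy).le (sq_nonneg _)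
    linarith
  rw [ChE_sub β l hF (EG.const _) (hh.const_mul _), ChE_smul β l F h,
    ChE_const β l hF (2 * y0⁻¹), ← hy0] at h1
  have h2 : 2 * y0⁻¹ - y0⁻¹ * y0⁻¹ * y0 = y0⁻¹ := by
    field_simp
    ring
  linarith

theorem PsiL_append (β : K → ℝ) (l l' : List (Step K)) (F : (K → ℝ) → ℝ) :
    PsiL β (l ++ l') F = PsiL β l (PsiL β l' F) := by
  induction l with
  | nil => rfl
  | cons s l ih =>
    show Tm s.1 (Bm β s.2) (PsiL β (l ++ l') F) = Tm s.1 (Bm β s.2) (PsiL β l (PsiL β l' F))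
    rw [ih]

/-- tower property -/
theorem ChE_append (β : K → ℝ) (l l' : List (Step K)) (F h : (K → ℝ) → ℝ) :
    ChE β (l ++ l') F h = ChE β l (PsiL β l' F) (ChE β l' F h) := by
  induction l with
  | nil => rfl
  | cons s l ih =>
    show Es s.1 (Bm β s.2) (PsiL β (l ++ l') F) (ChE β (l ++ l') F h) =
      Es s.1 (Bm β s.2) (PsiL β l (PsiL β l' F)) (ChE β l (PsiL β l' F) (ChE β l' F h))
    rw [ih, PsiL_append]

/-! ### parity -/

theorem mulVec_neg' {L : Type} [Fintype L] (B : Matrix K L ℝ) (z : K → ℝ) (x : L → ℝ) :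
    -z + B.mulVec x = -(z + B.mulVec (-x)) := by
  rw [Matrix.mulVec_neg, neg_add, neg_neg]

theorem Tm_even {f : (K → ℝ) → ℝ} (hf : ∀ z, f (-z) = f z) (m : ℝ) (B : Matrix K K ℝ) (z : K → ℝ) :
    Tm m B f (-z) = Tm m B f z := by
  have h1 : ∀ x : K → ℝ, f (-z + B.mulVec x) = f (z + B.mulVec (-x)) := by
    intro x
    rw [mulVec_neg', hf]
  unfold Tm
  simp only [h1]
  rw [integral_gam_neg (fun x => f (z + B.mulVec x)),
    integral_gam_neg (fun x => Real.exp (m * f (z + B.mulVec x)))]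

theorem Es_even {f h : (K → ℝ) → ℝ} (hf : ∀ z, f (-z) = f z) (hh : ∀ z, h (-z) = h z) (m : ℝ)
    (B : Matrix K K ℝ) (z : K → ℝ) : Es m B f h (-z) = Es m B f h z := by
  have h1 : ∀ x : K → ℝ, f (-z + B.mulVec x) = f (z + B.mulVec (-x)) := by
    intro x
    rw [mulVec_neg', hf]
  have h2 : ∀ x : K → ℝ, h (-z + B.mulVec x) = h (z + B.mulVec (-x)) := by
    intro x
    rw [mulVec_neg', hh]
  unfold Es
  simp only [h1, h2]
  rw [integral_gam_neg (fun x => h (z + B.mulVec x) * Real.exp (m * f (z + B.mulVec x))),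
    integral_gam_neg (fun x => Real.exp (m * f (z + B.mulVec x)))]

theorem Es_odd {f h : (K → ℝ) → ℝ} (hf : ∀ z, f (-z) = f z) (hh : ∀ z, h (-z) = - h z) (m : ℝ)
    (B : Matrix K K ℝ) (z : K → ℝ) : Es m B f h (-z) = - Es m B f h z := by
  have h1 : ∀ x : K → ℝ, f (-z + B.mulVec x) = f (z + B.mulVec (-x)) := by
    intro x
    rw [mulVec_neg', hf]
  have h2 : ∀ x : K → ℝ, h (-z + B.mulVec x) * Real.exp (m * f (z + B.mulVec (-x))) =
      -(h (z + B.mulVec (-x)) * Real.exp (m * f (z + B.mulVec (-x)))) := by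
    intro x
    rw [mulVec_neg', hh]
    ring
  unfold Es
  simp only [h1, h2]
  rw [integral_neg, integral_gam_neg (fun x => h (z + B.mulVec x) * Real.exp (m * f (z + B.mulVec x))),
    integral_gam_neg (fun x => Real.exp (m * f (z + B.mulVec x))), neg_div]

theorem PsiL_even' (β : K → ℝ) (l : List (Step K)) {F : (K → ℝ) → ℝ} (hF : ∀ z, F (-z) = F z)
    (z : K → ℝ) : PsiL β l F (-z) = PsiL β l F z := by
  induction l generalizing z with
  | nil => exact hF z
  | cons s l ih => exact Tm_even ih _ _ z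

theorem ChE_even (β : K → ℝ) (l : List (Step K)) {F h : (K → ℝ) → ℝ} (hF : ∀ z, F (-z) = F z)
    (hh : ∀ z, h (-z) = h z) (z : K → ℝ) : ChE β l F h (-z) = ChE β l F h z := by
  induction l generalizing z with
  | nil => exact hh z
  | cons s l ih => exact Es_even (PsiL_even' β l hF) ih _ _ z

theorem ChE_odd (β : K → ℝ) (l : List (Step K)) {F h : (K → ℝ) → ℝ} (hF : ∀ z, F (-z) = F z)
    (hh : ∀ z, h (-z) = - h z) (z : K → ℝ) : ChE β l F h (-z) = - ChE β l F h z := by
  induction l generalizing z with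
  | nil => exact hh z
  | cons s l ih => exact Es_odd (PsiL_even' β l hF) ih _ _ z

end

section

variable {K : Type} [Fintype K] [DecidableEq K]

theorem Mg_append (β : K → ℝ) (l l' : List (Step K)) (c : K) :
    Mg β (l ++ l') c = ChE β l (PsiL β l' F0) (Mg β l' c) :=
  ChE_append β l l' _ _

end

end SKC.J
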