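import Pool.Agent.H.MP_08eaf3_pr.J.GE

/-!
# Part J: lower bound of the law of a chain by the Gaussian law (J7)
-/

set_option autoImplicit false
set_option linter.unusedSectionVars false

open MeasureTheory ProbabilityTheory Filter Topology Matrix

namespace SKC.J

open SKC.A

section

variable {K : Type} [Fintype K] [DecidableEq K]

/-- Induction over `l` (all levels `PsiL β l F`, `F = PsiL β l2 F0`, satisfy `n1 ≤ Ψ ≤ n1 + C2 β`).
`[]`: `exp(m0 F y) h y ≥ h y ≥ exp(-λ)(1+λ) h y`. `s :: l`: with `κ = (s.1 - m0) (n1 y + C2 β) ≥ 0`,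
`exp(m0 Ψ0(y)) ChE(y) = exp(-(s.1-m0) Ψ0(y)) * I` with `I = ∫ exp(s.1 Ψ_l(y+Bx)) ChE_l h (y+Bx) ≥ 0`,
and the induction hypothesis for `λ' = λ - κ`. -/
theorem low_ind (β : K → ℝ) (l2 : List (Step K)) (h : (K → ℝ) → ℝ) (hh : EG h)
    (h0 : ∀ z, 0 ≤ h z) (h1 : ∀ z, h z ≤ 1) (l : List (Step K)) :
    Ok (l ++ l2) → ∀ m0 : ℝ, 0 ≤ m0 → m0 ≤ 1 → Inc m0 l → ∀ (y : K → ℝ) (lam : ℝ),
      Real.exp (-lam) * ((1 + lam) * GE β l h y -
        (1 - m0) * (Fintype.card K + C2 β + (∑ c, y c ^ 2) + tvs β l)) ≤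
      Real.exp (m0 * PsiL β l (PsiL β l2 F0) y) * ChE β l (PsiL β l2 F0) h y := by
  induction l with
  | nil =>
    intro hok m0 hm0 hm1 _ y lam
    show Real.exp (-lam) * ((1 + lam) * h y - (1 - m0) * (Fintype.card K + C2 β + (∑ c, y c ^ 2) + 0)) ≤
      Real.exp (m0 * PsiL β l2 F0 y) * h y
    have hb := (PsiL_bounds' β l2 hok y).1
    have hn := n1_nonneg y
    have e1 : 1 ≤ Real.exp (m0 * PsiL β l2 F0 y) :=
      Real.one_le_exp (mul_nonneg hm0 (hn.trans hb))
    have e2 : 0 ≤ (1 - m0) * (Fintype.card K + C2 β + (∑ c, y c ^ 2) + 0) := by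
      have h3 : 0 ≤ ∑ c, y c ^ 2 := Finset.sum_nonneg fun c _ => sq_nonneg _
      have h4 : (0 : ℝ) ≤ Fintype.card K := Nat.cast_nonneg _
      exact mul_nonneg (sub_nonneg.mpr hm1) (by linarith [C2_nonneg β])
    have e3 : Real.exp (-lam) * (1 + lam) ≤ 1 := by
      have h5 := Real.add_one_le_exp lam
      calc Real.exp (-lam) * (1 + lam) ≤ Real.exp (-lam) * Real.exp lam :=
            mul_le_mul_of_nonneg_left (by linarith) (Real.exp_pos _).le
        _ = 1 := by rw [← Real.exp_add, neg_add_cancel, Real.exp_zero]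
    have e4 := mul_le_mul_of_nonneg_right e3 (h0 y)
    have e5 := mul_le_mul_of_nonneg_right e1 (h0 y)
    have e6 := mul_nonneg (Real.exp_pos (-lam)).le e2
    nlinarith
  | cons s l ih =>
    intro hok m0 hm0 hm1 hI y lam
    obtain ⟨hs0, hs1⟩ := hI.head
    have hokl : Ok (l ++ l2) := Ok.tail (s := s) hok
    set P : (K → ℝ) → ℝ := PsiL β l (PsiL β l2 F0) with hP
    set B : Matrix K K ℝ := Bm β s.2 with hB
    have hPL : LG P := LG_PsiL β l (LG_PsiL β l2 LG_F0)
    set g : (K → ℝ) → ℝ := ChE β l (PsiL β l2 F0) h with hg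
    have hgE : EG g := EG_ChE β l (LG_PsiL β l2 LG_F0) hh
    have hg0 : ∀ w, 0 ≤ g w := ChE_nonneg β l _ h0
    set q : (K → ℝ) → ℝ := GE β l h with hq
    have hqE : EG q := EG_GE β l hh
    show Real.exp (-lam) * ((1 + lam) * (∫ x, q (y + B.mulVec x) ∂(gam K)) -
        (1 - m0) * (Fintype.card K + C2 β + (∑ c, y c ^ 2) + (tv β s.2 + tvs β l))) ≤
      Real.exp (m0 * Tm s.1 B P y) * Es s.1 B P g y
    set Q : ℝ := ∫ x, q (y + B.mulVec x) ∂(gam K) with hQ
    have hQ1 : Q ≤ 1 := by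
      have h3 : Q ≤ ∫ x : K → ℝ, (1 : ℝ) ∂(gam K) := by
        refine integral_mono (int_EG hqE B y) (integrable_const 1) fun x => ?_
        have h4 := GE_mono β l hh (EG.const 1) h1 (y + B.mulVec x)
        rw [GE_const] at h4
        exact h4
      rwa [integral_const, probReal_univ, one_smul] at h3
    set κ : ℝ := (s.1 - m0) * (n1 y + C2 β) with hκ
    have hb := PsiL_bounds' β (s :: (l ++ l2)) hok y
    have hTm : PsiL β (s :: (l ++ l2)) F0 y = Tm s.1 B P y := by
      show Tm s.1 B (PsiL β (l ++ l2) F0) y = _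
      rw [PsiL_append]
    rw [hTm] at hb
    have hsm : 0 ≤ s.1 - m0 := sub_nonneg.mpr hs0
    -- the left side as an integral
    have hL : Real.exp (m0 * Tm s.1 B P y) * Es s.1 B P g y =
        Real.exp (-((s.1 - m0) * Tm s.1 B P y)) *
          ∫ x, g (y + B.mulVec x) * Real.exp (s.1 * P (y + B.mulVec x)) ∂(gam K) := by
      rw [← exp_mul_Es hPL, ← mul_assoc, ← Real.exp_add]
      congr 2
      ring
    have hI0 : 0 ≤ ∫ x, g (y + B.mulVec x) * Real.exp (s.1 * P (y + B.mulVec x)) ∂(gam K) :=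
      integral_nonneg fun x => mul_nonneg (hg0 _) (Real.exp_pos _).le
    have hfac : Real.exp (-κ) ≤ Real.exp (-((s.1 - m0) * Tm s.1 B P y)) := by
      refine Real.exp_le_exp.mpr ?_
      have := mul_le_mul_of_nonneg_left hb.2 hsm
      rw [hκ]
      linarith
    -- integral of the induction hypothesis
    have hint : Integrable (fun x => Real.exp (-(lam - κ)) * ((1 + (lam - κ)) * q (y + B.mulVec x) -
        (1 - s.1) * (Fintype.card K + C2 β + (∑ c, (y + B.mulVec x) c ^ 2) + tvs β l))) (gam K) := by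
      have h5 : EG (fun w : K → ℝ => Real.exp (-(lam - κ)) * ((1 + (lam - κ)) * q w -
        (1 - s.1) * (Fintype.card K + C2 β + (∑ c, w c ^ 2) + tvs β l))) :=
        ((hqE.const_mul _).sub ((((EG.const _).add EG_sq).add (EG.const _)).const_mul _)).const_mul _
      exact int_EG h5 B y
    have hsq : Integrable (fun x => ∑ c, (y + B.mulVec x) c ^ 2) (gam K) := int_EG EG_sq B y
    have hval : ∫ x, Real.exp (-(lam - κ)) * ((1 + (lam - κ)) * q (y + B.mulVec x) -
        (1 - s.1) * (Fintype.card K + C2 β + (∑ c, (y + B.mulVec x) c ^ 2) + tvs β l)) ∂(gam K) =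
        Real.exp (-(lam - κ)) * ((1 + (lam - κ)) * Q - (1 - s.1) * (Fintype.card K + C2 β +
          (∫ x, ∑ c, (y + B.mulVec x) c ^ 2 ∂(gam K)) + tvs β l)) := by
      have i1 : Integrable (fun x => (1 + (lam - κ)) * q (y + B.mulVec x)) (gam K) :=
        (int_EG hqE B y).const_mul _
      have i2 : Integrable (fun x => (Fintype.card K : ℝ) + C2 β + (∑ c, (y + B.mulVec x) c ^ 2)) (gam K) :=
        (integrable_const _).add hsq
      have i3 : Integrable (fun x => (Fintype.card K : ℝ) + C2 β + (∑ c, (y + B.mulVec x) c ^ 2) +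
        tvs β l) (gam K) := i2.add (integrable_const _)
      rw [integral_const_mul, integral_sub i1 (i3.const_mul _), integral_const_mul, integral_const_mul,
        integral_add i2 (integrable_const _), integral_add (integrable_const _) hsq, integral_const,
        integral_const, probReal_univ, one_smul, one_smul]
    have hIge : Real.exp (-(lam - κ)) * ((1 + (lam - κ)) * Q - (1 - s.1) * (Fintype.card K + C2 β +
          ((∑ c, y c ^ 2) + tv β s.2) + tvs β l)) ≤
        ∫ x, g (y + B.mulVec x) * Real.exp (s.1 * P (y + B.mulVec x)) ∂(gam K) := by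
      have h6 := sq_avg β s.2 y
      have h7 : Real.exp (-(lam - κ)) * ((1 + (lam - κ)) * Q - (1 - s.1) * (Fintype.card K + C2 β +
          ((∑ c, y c ^ 2) + tv β s.2) + tvs β l)) ≤
          ∫ x, Real.exp (-(lam - κ)) * ((1 + (lam - κ)) * q (y + B.mulVec x) -
        (1 - s.1) * (Fintype.card K + C2 β + (∑ c, (y + B.mulVec x) c ^ 2) + tvs β l)) ∂(gam K) := by
        rw [hval]
        refine mul_le_mul_of_nonneg_left ?_ (Real.exp_pos _).le
        have h8 := mul_le_mul_of_nonneg_left h6 (sub_nonneg.mpr hs1)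
        linarith
      refine h7.trans (integral_mono hint (int_step hPL hgE s.1 B y) fun x => ?_)
      beta_reduce
      have h9 := ih hokl s.1 (hm0.trans hs0) hs1 hI.tail (y + B.mulVec x) (lam - κ)
      rw [mul_comm (g _)]
      exact h9
    rw [hL]
    have hstep : Real.exp (-κ) * ∫ x, g (y + B.mulVec x) * Real.exp (s.1 * P (y + B.mulVec x)) ∂(gam K) ≤
        Real.exp (-((s.1 - m0) * Tm s.1 B P y)) *
          ∫ x, g (y + B.mulVec x) * Real.exp (s.1 * P (y + B.mulVec x)) ∂(gam K) :=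
      mul_le_mul_of_nonneg_right hfac hI0
    refine le_trans ?_ hstep
    refine le_trans ?_ (mul_le_mul_of_nonneg_left hIge (Real.exp_pos _).le)
    rw [← mul_assoc, ← Real.exp_add]
    have e7 : -κ + -(lam - κ) = -lam := by ring
    rw [e7]
    refine mul_le_mul_of_nonneg_left ?_ (Real.exp_pos _).le
    -- the remaining inequality
    have hκ0 : 0 ≤ κ := mul_nonneg hsm (add_nonneg (n1_nonneg _) (C2_nonneg β))
    have hκQ : κ * Q ≤ κ := by
      have := mul_le_mul_of_nonneg_left hQ1 hκ0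
      linarith
    have hκR : κ ≤ (s.1 - m0) * (Fintype.card K + C2 β + (∑ c, y c ^ 2) + (tv β s.2 + tvs β l)) := by
      refine mul_le_mul_of_nonneg_left ?_ hsm
      have := n1_le_sq y
      linarith [tv_nonneg β s.2, tvs_nonneg β l]
    nlinarith [hκQ, hκR]

/-- J7: `low_ind` at `y = 0`, `m0 = 0`, `lam = C / a`, `C = card K + C2 β + C0 β` and `GE_eq` -/
theorem ChE_ge_gauss (β : K → ℝ) : ∃ C : ℝ, 0 ≤ C ∧ ∀ l1 l2 : List (Step K), Ok (l1 ++ l2) →
    ∀ E : Matrix K K ℝ, E * Eᵀ = Qtot l1 → ∀ h : (K → ℝ) → ℝ, Continuous h → (∀ z, 0 ≤ h z) →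
      (∀ z, h z ≤ 1) → ∀ a : ℝ, 0 < a → a ≤ ∫ x, h ((Bm β E).mulVec x) ∂(gam K) →
      a * Real.exp (-(C / a)) ≤ ChE β l1 (PsiL β l2 F0) h 0 := by
  have hC : 0 ≤ (Fintype.card K : ℝ) + C2 β + C0 β :=
    add_nonneg (add_nonneg (Nat.cast_nonneg _) (C2_nonneg β)) (C0_nonneg β)
  refine ⟨Fintype.card K + C2 β + C0 β, hC, fun l1 l2 hl E hE h hc h0 h1 a ha hle => ?_⟩
  have hh : EG h := EG.of_bdd hc (A := 1) fun z => by
    rw [abs_of_nonneg (h0 z)]
    exact h1 z
  set C : ℝ := Fintype.card K + C2 β + C0 β with hCdef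
  have h2 := low_ind β l2 h hh h0 h1 l1 hl 0 le_rfl zero_le_one (Ok.inc (Ok.left hl)) 0 (C / a)
  rw [zero_mul, Real.exp_zero, one_mul, GE_eq β l1 E hE hh 0] at h2
  simp only [zero_add, Pi.zero_apply, ne_eq, OfNat.ofNat_ne_zero, not_false_eq_true, zero_pow,
    Finset.sum_const_zero, add_zero, sub_zero, one_mul] at h2
  refine le_trans ?_ h2
  rw [mul_comm a]
  refine mul_le_mul_of_nonneg_left ?_ (Real.exp_pos _).le
  have h3 : 0 ≤ C / a := div_nonneg hC ha.le
  have h4 := mul_le_mul_of_nonneg_left hle (by linarith : 0 ≤ 1 + C / a)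
  have h5 : (1 + C / a) * a = a + C := by field_simp
  have h6 := tvs_le (β := β) (Ok.left hl)
  linarith

end

end SKC.J
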