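import Pool.Agent.H.MP_08eaf3_pr.J.Tail
import Pool.Agent.H.MP_08eaf3_pr.J.Der

/-! # Part J, section Single: facts of the general section and of Part A that are used -/

set_option autoImplicit false

open MeasureTheory ProbabilityTheory Filter Topology Matrix

namespace SKC.SN

variable {K : Type} [Fintype K] [DecidableEq K]

/-- growth class of the level functions -/
theorem LG_PsiL (β : K → ℝ) (l : List (Step K)) (F : (K → ℝ) → ℝ) (hF : LG F) :
    LG (PsiL β l F) :=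
  J.LG_PsiL β l hF

theorem LG_F0 : LG (F0 : (K → ℝ) → ℝ) :=
  J.LG_F0

/-- chain expectations preserve the growth class -/
theorem EG_ChE (β : K → ℝ) (l : List (Step K)) (F h : (K → ℝ) → ℝ) (hF : LG F) (hh : EG h) :
    EG (ChE β l F h) :=
  J.EG_ChE β l hF hh

/-- chain expectations are positive, normalised, linear -/
theorem ChE_const (β : K → ℝ) (l : List (Step K)) (F : (K → ℝ) → ℝ) (hF : LG F) (c : ℝ) :
    ChE β l F (fun _ => c) = fun _ => c :=
  J.ChE_const β l hF c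

theorem ChE_mono (β : K → ℝ) (l : List (Step K)) (F h h' : (K → ℝ) → ℝ) (hF : LG F) (hh : EG h)
    (hh' : EG h') (hle : ∀ z, h z ≤ h' z) (z : K → ℝ) : ChE β l F h z ≤ ChE β l F h' z :=
  J.ChE_mono β l hF hh hh' hle z

theorem ChE_add (β : K → ℝ) (l : List (Step K)) (F h h' : (K → ℝ) → ℝ) (hF : LG F) (hh : EG h)
    (hh' : EG h') (z : K → ℝ) :
    ChE β l F (fun y => h y + h' y) z = ChE β l F h z + ChE β l F h' z :=
  J.ChE_add β l hF hh hh' z

theorem ChE_smul (β : K → ℝ) (l : List (Step K)) (F h : (K → ℝ) → ℝ) (c : ℝ) (z : K → ℝ) :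
    ChE β l F (fun y => c * h y) z = c * ChE β l F h z :=
  J.ChE_smul β l F h c z

/-- tower property -/
theorem ChE_append (β : K → ℝ) (l l' : List (Step K)) (F h : (K → ℝ) → ℝ) :
    ChE β (l ++ l') F h = ChE β l (PsiL β l' F) (ChE β l' F h) :=
  J.ChE_append β l l' F h

theorem PsiL_append (β : K → ℝ) (l l' : List (Step K)) (F : (K → ℝ) → ℝ) :
    PsiL β (l ++ l') F = PsiL β l (PsiL β l' F) :=
  J.PsiL_append β l l' F

/-- J1: parity -/
theorem PsiL_even (β : K → ℝ) (l : List (Step K)) (z : K → ℝ) :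
    PsiL β l F0 (-z) = PsiL β l F0 z :=
  J.PsiL_even' β l J.F0_even z

/-- J1: convexity -/
theorem PsiL_convex (β : K → ℝ) (l : List (Step K)) (hl : Ok l) :
    ConvexOn ℝ Set.univ (PsiL β l F0) :=
  J.PsiL_convex' β l (fun a ha => (hl.2.1 a ha).1)

/-- J1: the magnetisation is the derivative -/
theorem PsiL_deriv (β : K → ℝ) (l : List (Step K)) (c : K) (z : K → ℝ) :
    HasDerivAt (fun h : ℝ => PsiL β l F0 (z + h • Pi.single c 1)) (Mg β l c z) 0 :=
  J.PsiL_deriv β l c z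

theorem Mg_lt_one (β : K → ℝ) (l : List (Step K)) (c : K) (z : K → ℝ) : |Mg β l c z| < 1 :=
  J.Mg_lt_one β l c z

/-- J2 -/
theorem PsiL_bounds (β : K → ℝ) : ∃ C : ℝ, 0 ≤ C ∧ ∀ l : List (Step K), Ok l → ∀ z,
    n1 z ≤ PsiL β l F0 z ∧ PsiL β l F0 z ≤ n1 z + C :=
  ⟨J.C2 β, J.C2_nonneg β, fun l hl z => J.PsiL_bounds' β l hl z⟩

/-- `PsiL` is 1-Lipschitz for `ℓ¹` -/
theorem PsiL_lip (β : K → ℝ) (l : List (Step K)) (z z' : K → ℝ) :
    |PsiL β l F0 z - PsiL β l F0 z'| ≤ n1 (z - z') :=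
  J.PsiL_lip β l z z'

/-- J4 (any `K`): tails of the magnetisation -/
theorem Mg_tails (β : K → ℝ) : ∃ C : ℝ, 1 ≤ C ∧ ∀ l : List (Step K), Ok l → ∀ c z,
    1 - Mg β l c z ≤ C * Real.exp (-(2 * z c)) ∧
    C⁻¹ / (1 + Real.exp (2 * z c)) ≤ 1 - Mg β l c z :=
  J.Mg_tails β

/-- J4 tool: exponential moments of the chain started at `z` -/
theorem ChE_exp_le (β : K → ℝ) : ∃ C : ℝ, 1 ≤ C ∧ ∀ l l' : List (Step K), Ok (l ++ l') → ∀ c z,
    ChE β l (PsiL β l' F0) (fun y => Real.exp (-(2 * y c))) z ≤ C * Real.exp (-(2 * z c)) ∧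
    ChE β l (PsiL β l' F0) (fun y => Real.exp (2 * y c)) z ≤ C * Real.exp (2 * z c) :=
  J.ChE_exp_le β

/-- FIXED A0: the law of a linear image of a standard Gaussian vector depends only on the covariance -/
theorem gam_map_linear_eq {ι κ κ' : Type} [Fintype ι] [Fintype κ] [Fintype κ']
    (M : Matrix ι κ ℝ) (M' : Matrix ι κ' ℝ) (h : M * Mᵀ = M' * M'ᵀ) :
    (gam κ).map (fun x => M.mulVec x) = (gam κ').map (fun x => M'.mulVec x) :=
  SKC.A.law_map_linear_eq M M' h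

end SKC.SN
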