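import Pool.Agent.H.MP_08eaf3_pr.J.SNeed

/-! # Part J, section Single: one-dimensional form of the recursion and of the chain (helper4) -/

set_option autoImplicit false

open MeasureTheory ProbabilityTheory Filter Topology Matrix

namespace SKC.Sg

/-- the standard Gaussian law on `ℝ` -/
noncomputable def N1 : Measure ℝ := gaussianReal 0 1

noncomputable instance : IsProbabilityMeasure N1 := by
  unfold N1; infer_instance

/-- size of the field increment of a step -/
noncomputable def si (b : ℝ) (a : Step Unit) : ℝ := Real.sqrt 2 * b * a.2 () ()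

/-- one step of the recursion in one variable -/
noncomputable def T1 (m s : ℝ) (f : ℝ → ℝ) (v : ℝ) : ℝ :=
  if m = 0 then ∫ y, f (v + s * y) ∂N1
  else (1 / m) * Real.log (∫ y, Real.exp (m * f (v + s * y)) ∂N1)

/-- one step of the chain in one variable -/
noncomputable def E1 (m s : ℝ) (f h : ℝ → ℝ) (v : ℝ) : ℝ :=
  (∫ y, h (v + s * y) * Real.exp (m * f (v + s * y)) ∂N1) /
    (∫ y, Real.exp (m * f (v + s * y)) ∂N1)

/-- chain of the steps `l` in one variable, `l'` = the steps after it -/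
noncomputable def C1 (b : ℝ) (l l' : List (Step Unit)) (h : ℝ → ℝ) (v : ℝ) : ℝ :=
  ChE (fun _ : Unit => b) l (PsiL (fun _ : Unit => b) l' F0) (fun y => h (y ())) (fun _ => v)

/-- continuous, at most exponential growth -/
def G1 (h : ℝ → ℝ) : Prop := Continuous h ∧ ∃ C : ℝ, ∀ v, |h v| ≤ C * Real.exp (C * |v|)

/-- Proof: `measurePreserving_funUnique` for the product measure over `Unit`. -/
theorem gam_unit (g : (Unit → ℝ) → ℝ) :
    ∫ x, g x ∂(gam Unit) = ∫ y, g (fun _ => y) ∂N1 := by
  have h := (measurePreserving_funUnique N1 Unit).symm.integral_comp' g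
  unfold gam
  exact h.symm

theorem psi1_nil (b v : ℝ) : psi1 b [] v = Real.log (Real.exp v + Real.exp (-v)) := by
  have h : ∑ s : Unit → Bool, Real.exp ((∑ c, sg (s c) * v) + 0 * 0) =
      Real.exp v + Real.exp (-v) := by
    rw [← (Equiv.funUnique Unit Bool).symm.sum_comp]
    simp [sg]
  show Real.log (∑ s : Unit → Bool, Real.exp ((∑ c, sg (s c) * v) + 0 * 0)) = _
  rw [h]

theorem Sg0_arg (b : ℝ) (a : Step Unit) (v y : ℝ) :
    (fun _ : Unit => v) + (Bm (fun _ : Unit => b) a.2).mulVec (fun _ => y) =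
      fun _ => v + si b a * y := by
  funext c
  simp [Matrix.mulVec, dotProduct, Bm, si]

theorem psi1_cons (b : ℝ) (a : Step Unit) (l : List (Step Unit)) (v : ℝ) :
    psi1 b (a :: l) v = T1 a.1 (si b a) (psi1 b l) v := by
  show Tm a.1 (Bm (fun _ : Unit => b) a.2) (PsiL (fun _ : Unit => b) l F0) (fun _ => v) = _
  unfold Tm T1
  simp only [gam_unit, Sg0_arg]
  rfl

theorem C1_nil (b : ℝ) (l' : List (Step Unit)) (h : ℝ → ℝ) : C1 b [] l' h = h := by
  rfl

theorem C1_cons (b : ℝ) (a : Step Unit) (l l' : List (Step Unit)) (h : ℝ → ℝ) (v : ℝ) :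
    C1 b (a :: l) l' h v = E1 a.1 (si b a) (psi1 b (l ++ l')) (C1 b l l' h) v := by
  show Es a.1 (Bm (fun _ : Unit => b) a.2) (PsiL (fun _ : Unit => b) l
    (PsiL (fun _ : Unit => b) l' F0)) (ChE (fun _ : Unit => b) l (PsiL (fun _ : Unit => b) l' F0)
    (fun y => h (y ()))) (fun _ => v) = _
  rw [← SN.PsiL_append]
  unfold Es E1
  simp only [gam_unit, Sg0_arg]
  rfl

theorem mg1_eq (b : ℝ) (l : List (Step Unit)) (v : ℝ) : mg1 b l v = C1 b l [] Real.tanh v := by
  rfl

theorem Qtot_cons_unit (a : Step Unit) (l : List (Step Unit)) :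
    Qtot (a :: l) () () = a.2 () () ^ 2 + Qtot l () () := by
  simp [Qtot, Matrix.mul_apply, sq]

theorem Qtot_nonneg (l : List (Step Unit)) : 0 ≤ Qtot l () () := by
  induction l with
  | nil => simp [Qtot]
  | cons a l ih =>
    rw [Qtot_cons_unit]
    positivity

theorem si_sq (b : ℝ) (a : Step Unit) : si b a ^ 2 = 2 * b ^ 2 * a.2 () () ^ 2 := by
  unfold si
  rw [mul_pow, mul_pow, Real.sq_sqrt (by norm_num)]

theorem Ok_tail {a : Step Unit} {l : List (Step Unit)} (h : Ok (a :: l)) : Ok l := by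
  refine ⟨(List.pairwise_cons.1 h.1).2, fun x hx => h.2.1 x (List.mem_cons_of_mem _ hx), fun c => ?_⟩
  have h1 := h.2.2 ()
  rw [Qtot_cons_unit] at h1
  have h2 : Qtot l () () ≤ 1 := by nlinarith [sq_nonneg (a.2 () ())]
  exact h2

theorem Ok_right {l l' : List (Step Unit)} (h : Ok (l ++ l')) : Ok l' := by
  induction l with
  | nil => exact h
  | cons a l ih => exact ih (Ok_tail h)

theorem psi1_cont (b : ℝ) (l : List (Step Unit)) : Continuous (psi1 b l) := by
  exact (SN.LG_PsiL (fun _ : Unit => b) l F0 SN.LG_F0).1.comp (continuous_pi fun _ => continuous_id)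

theorem psi1_lip (b : ℝ) (l : List (Step Unit)) (v v' : ℝ) :
    |psi1 b l v - psi1 b l v'| ≤ |v - v'| := by
  have h := SN.PsiL_lip (fun _ : Unit => b) l (fun _ => v) (fun _ => v')
  simpa [n1, psi1] using h

theorem psi1_ge (b : ℝ) (l : List (Step Unit)) (hl : Ok l) (v : ℝ) : |v| ≤ psi1 b l v := by
  obtain ⟨C, _, hC⟩ := SN.PsiL_bounds (fun _ : Unit => b)
  have h := (hC l hl (fun _ => v)).1
  simpa [n1, psi1] using h

theorem psi1_even (b : ℝ) (l : List (Step Unit)) (v : ℝ) : psi1 b l (-v) = psi1 b l v := by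
  exact SN.PsiL_even (fun _ : Unit => b) l (fun _ => v)

/-- Proof: `SN.PsiL_deriv` with `c = ()`. -/
theorem psi1_deriv (b : ℝ) (l : List (Step Unit)) (v : ℝ) :
    HasDerivAt (psi1 b l) (mg1 b l v) v := by
  have h := SN.PsiL_deriv (fun _ : Unit => b) l () (fun _ => v)
  have h1 : (fun t : ℝ => PsiL (fun _ : Unit => b) l F0
      ((fun _ => v) + t • Pi.single () (1 : ℝ))) = fun t => psi1 b l (v + t) := by
    funext t
    show _ = PsiL (fun _ : Unit => b) l F0 (fun _ => v + t)
    congr 1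
    funext c
    simp
  rw [h1] at h
  have h2 := HasDerivAt.comp_sub_const v v (by simpa using h)
  have h3 : (fun x : ℝ => psi1 b l (v + (x - v))) = psi1 b l := by
    funext x
    congr 1
    ring
  rw [h3] at h2
  exact h2

theorem psi1_convex (b : ℝ) (l : List (Step Unit)) (hl : Ok l) :
    ConvexOn ℝ Set.univ (psi1 b l) := by
  have h := SN.PsiL_convex (fun _ : Unit => b) l hl
  refine ⟨convex_univ, fun x _ y _ p q hp hq hpq => ?_⟩
  exact h.2 (Set.mem_univ (fun _ : Unit => x)) (Set.mem_univ (fun _ : Unit => y)) hp hq hpq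

end SKC.Sg
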