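import Pool.Agent.H.MP_08eaf3_pr.J.Sg0

/-! # Part J, section Single: integrability and linearity in one variable (helper4) -/

set_option autoImplicit false

open MeasureTheory ProbabilityTheory Filter Topology Matrix

namespace SKC.Sg

theorem Sg0b_int_abs (k : ℝ) : Integrable (fun y : ℝ => Real.exp (k * |y|)) N1 := by
  have h1 : Integrable (fun y : ℝ => Real.exp (k * y)) N1 := integrable_exp_mul_gaussianReal k
  have h2 : Integrable (fun y : ℝ => Real.exp (-k * y)) N1 := integrable_exp_mul_gaussianReal (-k)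
  refine Integrable.mono' (h1.add h2) ?_ ?_
  · exact (by fun_prop : Continuous (fun y : ℝ => Real.exp (k * |y|))).aestronglyMeasurable
  · refine Eventually.of_forall fun y => ?_
    rw [Real.norm_eq_abs, abs_of_pos (Real.exp_pos _)]
    simp only [Pi.add_apply]
    rcases le_total 0 y with h | h
    · rw [abs_of_nonneg h]
      linarith [Real.exp_pos (-k * y)]
    · rw [abs_of_nonpos h]
      have h3 : k * -y = -k * y := by ring
      rw [h3]
      linarith [Real.exp_pos (k * y)]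

theorem Sg0b_psi_le (b : ℝ) (l : List (Step Unit)) (v : ℝ) : |psi1 b l v| ≤ |psi1 b l 0| + |v| := by
  have h := psi1_lip b l v 0
  rw [sub_zero] at h
  have h2 : |psi1 b l v| ≤ |psi1 b l v - psi1 b l 0| + |psi1 b l 0| := by
    have h3 := abs_add_le (psi1 b l v - psi1 b l 0) (psi1 b l 0)
    rwa [sub_add_cancel] at h3
  linarith

theorem Sg0b_LG (b : ℝ) (l : List (Step Unit)) : LG (PsiL (fun _ : Unit => b) l F0) :=
  SN.LG_PsiL _ l F0 SN.LG_F0

theorem Sg0b_n1 (z : Unit → ℝ) : n1 z = |z ()| := by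
  unfold n1
  simp

theorem Sg0b_EG {h : ℝ → ℝ} (hh : G1 h) : EG (fun y : Unit → ℝ => h (y ())) := by
  obtain ⟨hc, C, hC⟩ := hh
  refine ⟨hc.comp (continuous_apply ()), C, fun z => ?_⟩
  rw [Sg0b_n1]
  exact hC (z ())

theorem Sg0b_cm (g : ℝ → ℝ) (a : ℝ) :
    ∫ y, g y * Real.exp (a * y) ∂N1 = Real.exp (a ^ 2 / 2) * ∫ y, g (y + a) ∂N1 := by
  unfold N1
  have hv : (1 : NNReal) ≠ 0 := one_ne_zero
  rw [integral_gaussianReal_eq_integral_smul hv, integral_gaussianReal_eq_integral_smul hv,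
    ← integral_const_mul]
  rw [← integral_sub_right_eq_self
    (fun y => Real.exp (a ^ 2 / 2) * (gaussianPDFReal 0 1 y • g (y + a))) a]
  refine integral_congr_ae (Eventually.of_forall fun y => ?_)
  simp only [smul_eq_mul, sub_add_cancel]
  unfold gaussianPDFReal
  have h1 : Real.exp (a ^ 2 / 2) * Real.exp (-(y - a - 0) ^ 2 / (2 * ((1 : NNReal) : ℝ))) =
      Real.exp (-(y - 0) ^ 2 / (2 * ((1 : NNReal) : ℝ))) * Real.exp (a * y) := by
    rw [← Real.exp_add, ← Real.exp_add]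
    congr 1
    simp only [NNReal.coe_one]
    ring
  linear_combination (-(Real.sqrt (2 * Real.pi * ((1 : NNReal) : ℝ)))⁻¹ * g y) * h1

/-- Proof: exponential moments of Gaussians; `|psi1 b l v| ≤ |psi1 b l 0| + |v|` by `psi1_lip`. -/
theorem int_G1 {h : ℝ → ℝ} (hh : G1 h) (m s v b : ℝ) (l : List (Step Unit)) :
    Integrable (fun y => h (v + s * y) * Real.exp (m * psi1 b l (v + s * y))) N1 := by
  obtain ⟨hc, C, hC⟩ := hh
  have h1 := (Sg0b_int_abs ((|C| + |m|) * |s|)).const_mul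
    (|C| * Real.exp (|C| * |v|) * Real.exp (|m| * (|psi1 b l 0| + |v|)))
  refine Integrable.mono' h1 ?_ ?_
  · have h2 : Continuous (fun y : ℝ => v + s * y) := by fun_prop
    exact ((hc.comp h2).mul (Real.continuous_exp.comp
      (((psi1_cont b l).comp h2).const_smul m))).aestronglyMeasurable
  · refine Eventually.of_forall fun y => ?_
    rw [Real.norm_eq_abs, abs_mul, abs_of_pos (Real.exp_pos _)]
    have h3 : |v + s * y| ≤ |v| + |s| * |y| := by
      refine (abs_add_le _ _).trans ?_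
      rw [abs_mul]
    have h4 : |h (v + s * y)| ≤ |C| * Real.exp (|C| * (|v| + |s| * |y|)) := by
      refine (hC _).trans ?_
      have e1 : C * |v + s * y| ≤ |C| * (|v| + |s| * |y|) :=
        (mul_le_mul_of_nonneg_right (le_abs_self C) (abs_nonneg _)).trans
          (mul_le_mul_of_nonneg_left h3 (abs_nonneg C))
      exact (mul_le_mul_of_nonneg_right (le_abs_self C) (Real.exp_pos _).le).trans
        (mul_le_mul_of_nonneg_left (Real.exp_le_exp.2 e1) (abs_nonneg C))
    have h5 : Real.exp (m * psi1 b l (v + s * y)) ≤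
        Real.exp (|m| * (|psi1 b l 0| + (|v| + |s| * |y|))) := by
      refine Real.exp_le_exp.2 ?_
      refine (le_abs_self _).trans ?_
      rw [abs_mul]
      refine mul_le_mul_of_nonneg_left ?_ (abs_nonneg m)
      have := Sg0b_psi_le b l (v + s * y)
      linarith
    refine (mul_le_mul h4 h5 (Real.exp_pos _).le
      (mul_nonneg (abs_nonneg C) (Real.exp_pos _).le)).trans (le_of_eq ?_)
    rw [mul_assoc, mul_assoc, mul_assoc, ← Real.exp_add, ← Real.exp_add, ← Real.exp_add]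
    congr 2
    ring

theorem int_exp (m s v b : ℝ) (l : List (Step Unit)) :
    Integrable (fun y => Real.exp (m * psi1 b l (v + s * y))) N1 := by
  have h := int_G1 (h := fun _ => 1) ⟨continuous_const, 1, fun v => by
    rw [abs_one, one_mul, one_mul]
    exact Real.one_le_exp (abs_nonneg v)⟩ m s v b l
  simpa using h

theorem int_exp_pos (m s v b : ℝ) (l : List (Step Unit)) :
    0 < ∫ y, Real.exp (m * psi1 b l (v + s * y)) ∂N1 := by
  exact integral_exp_pos (int_exp m s v b l)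

/-- `exp(m T1 f v) = ∫ exp(m f(v + s y))` (also for `m = 0`) -/
theorem exp_T1 (m s v b : ℝ) (l : List (Step Unit)) :
    Real.exp (m * T1 m s (psi1 b l) v) = ∫ y, Real.exp (m * psi1 b l (v + s * y)) ∂N1 := by
  unfold T1
  by_cases hm : m = 0
  · subst hm
    simp
  · rw [if_neg hm, ← mul_assoc, mul_one_div_cancel hm, one_mul,
      Real.exp_log (int_exp_pos m s v b l)]

theorem G1_C1 (b : ℝ) (l l' : List (Step Unit)) {h : ℝ → ℝ} (hh : G1 h) : G1 (C1 b l l' h) := by
  obtain ⟨hc, C, hC⟩ := SN.EG_ChE (fun _ : Unit => b) l (PsiL (fun _ : Unit => b) l' F0)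
    (fun y => h (y ())) (Sg0b_LG b l') (Sg0b_EG hh)
  refine ⟨?_, C, fun v => ?_⟩
  · exact hc.comp (continuous_pi fun _ => continuous_id)
  · have h1 := hC (fun _ => v)
    rwa [Sg0b_n1] at h1

theorem C1_const (b : ℝ) (l l' : List (Step Unit)) (c v : ℝ) : C1 b l l' (fun _ => c) v = c := by
  unfold C1
  rw [SN.ChE_const _ l _ (Sg0b_LG b l') c]

theorem C1_mono (b : ℝ) (l l' : List (Step Unit)) {h h' : ℝ → ℝ} (hh : G1 h) (hh' : G1 h')
    (hle : ∀ v, h v ≤ h' v) (v : ℝ) : C1 b l l' h v ≤ C1 b l l' h' v := by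
  exact SN.ChE_mono _ l _ _ _ (Sg0b_LG b l') (Sg0b_EG hh) (Sg0b_EG hh') (fun z => hle (z ())) _

theorem C1_add (b : ℝ) (l l' : List (Step Unit)) {h h' : ℝ → ℝ} (hh : G1 h) (hh' : G1 h') (v : ℝ) :
    C1 b l l' (fun y => h y + h' y) v = C1 b l l' h v + C1 b l l' h' v := by
  exact SN.ChE_add _ l _ _ _ (Sg0b_LG b l') (Sg0b_EG hh) (Sg0b_EG hh') _

theorem C1_smul (b : ℝ) (l l' : List (Step Unit)) (h : ℝ → ℝ) (c v : ℝ) :
    C1 b l l' (fun y => c * h y) v = c * C1 b l l' h v := by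
  exact SN.ChE_smul _ l _ _ c _

/-- Proof: `SN.ChE_exp_le` -/
theorem C1_exp_le (b : ℝ) : ∃ C : ℝ, 1 ≤ C ∧ ∀ l l' : List (Step Unit), Ok (l ++ l') → ∀ v,
    C1 b l l' (fun y => Real.exp (-(2 * y))) v ≤ C * Real.exp (-(2 * v)) ∧
    C1 b l l' (fun y => Real.exp (2 * y)) v ≤ C * Real.exp (2 * v) := by
  obtain ⟨C, h1, h2⟩ := SN.ChE_exp_le (fun _ : Unit => b)
  exact ⟨C, h1, fun l l' hl v => h2 l l' hl () (fun _ => v)⟩

/-- Proof: `SN.Mg_tails` -/
theorem mg1_tails (b : ℝ) : ∃ C : ℝ, 1 ≤ C ∧ ∀ l : List (Step Unit), Ok l → ∀ v,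
    1 - mg1 b l v ≤ C * Real.exp (-(2 * v)) ∧ C⁻¹ / (1 + Real.exp (2 * v)) ≤ 1 - mg1 b l v ∧
    |mg1 b l v| < 1 := by
  obtain ⟨C, h1, h2⟩ := SN.Mg_tails (fun _ : Unit => b)
  refine ⟨C, h1, fun l hl v => ?_⟩
  have h3 := h2 l hl () (fun _ => v)
  exact ⟨h3.1, h3.2, SN.Mg_lt_one _ l () _⟩

/-- shift formula: `E1 m s f (e^{-θ y}) v = e^{-θ v} exp(θ² s²/2 + m (T1 f (v - θ s²) - T1 f v))`.
Proof: Cameron-Martin in one variable (`y ↦ y - θ s`) and `exp_T1`. -/
theorem E1_exp (m s v b θ : ℝ) (l : List (Step Unit)) :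
    E1 m s (psi1 b l) (fun y => Real.exp (-(θ * y))) v = Real.exp (-(θ * v)) *
      Real.exp (θ ^ 2 * s ^ 2 / 2 + m * (T1 m s (psi1 b l) (v - θ * s ^ 2) - T1 m s (psi1 b l) v)) := by
  unfold E1
  rw [← exp_T1 m s v b l]
  have h1 : (fun y => Real.exp (-(θ * (v + s * y))) * Real.exp (m * psi1 b l (v + s * y))) =
      fun y => Real.exp (-(θ * v)) *
        (Real.exp (m * psi1 b l (v + s * y)) * Real.exp ((-(θ * s)) * y)) := by
    funext y
    rw [← Real.exp_add, ← Real.exp_add, ← Real.exp_add]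
    congr 1
    ring
  rw [h1, integral_const_mul, Sg0b_cm (fun y => Real.exp (m * psi1 b l (v + s * y)))]
  have h2 : (fun y => Real.exp (m * psi1 b l (v + s * (y + -(θ * s))))) =
      fun y => Real.exp (m * psi1 b l ((v - θ * s ^ 2) + s * y)) := by
    funext y
    congr 3
    ring
  rw [h2, ← exp_T1 m s (v - θ * s ^ 2) b l, mul_div_assoc, mul_div_assoc, ← Real.exp_sub,
    ← Real.exp_add]
  congr 2
  ring

end SKC.Sg
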