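import Pool.Agent.H.MP_08eaf3_pr.J.Sg0b

/-! # Part J, section Single: density of the single chain, J8 (helper4) -/

set_option autoImplicit false

open MeasureTheory ProbabilityTheory Filter Topology Matrix

namespace SKC.Sg

theorem Sg4_prod_int (g : ℝ → ℝ → ℝ) (hg : Continuous (fun p : ℝ × ℝ => g p.1 p.2))
    (hb : ∃ C : ℝ, ∀ v w, |g v w| ≤ C * Real.exp (C * (|v| + |w|))) :
    Integrable (fun p : ℝ × ℝ => g p.1 p.2) (N1.prod N1) := by
  obtain ⟨C, hC⟩ := hb
  have h1 := ((Sg0b_int_abs C).mul_prod (Sg0b_int_abs C)).const_mul C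
  refine Integrable.mono' h1 hg.aestronglyMeasurable (Eventually.of_forall fun p => ?_)
  rw [Real.norm_eq_abs]
  refine (hC p.1 p.2).trans (le_of_eq ?_)
  rw [mul_add, Real.exp_add]

theorem Sg4_gam2 (g : ℝ → ℝ → ℝ) (hg : Continuous (fun p : ℝ × ℝ => g p.1 p.2))
    (hb : ∃ C : ℝ, ∀ v w, |g v w| ≤ C * Real.exp (C * (|v| + |w|))) :
    ∫ x, g (x 0) (x 1) ∂(gam (Fin 2)) = ∫ x, ∫ y, g x y ∂N1 ∂N1 := by
  have h1 := measurePreserving_piFinTwo (fun _ : Fin 2 => gaussianReal 0 1)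
  have h2 := h1.integral_comp (MeasurableEquiv.piFinTwo fun _ : Fin 2 => ℝ).measurableEmbedding
    (fun p : ℝ × ℝ => g p.1 p.2)
  have h3 := integral_prod _ (Sg4_prod_int g hg hb)
  change ∫ x, g (x 0) (x 1) ∂(Measure.pi fun _ : Fin 2 => gaussianReal 0 1) = _
  exact h2.trans h3

/-- Rotation of two independent Gaussian variables. -/
theorem rot (A s : ℝ) (hA : 0 ≤ A) (F : ℝ → ℝ → ℝ) (hF : Continuous (fun p : ℝ × ℝ => F p.1 p.2))
    (hb : ∃ C : ℝ, ∀ v w, |F v w| ≤ C * Real.exp (C * (|v| + |w|))) :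
    ∫ x, ∫ y, F (Real.sqrt A * x) (Real.sqrt A * x + s * y) ∂N1 ∂N1 =
      ∫ x, ∫ y, F (A / (A + s ^ 2) * (Real.sqrt (A + s ^ 2) * x) +
        Real.sqrt (A * s ^ 2 / (A + s ^ 2)) * y) (Real.sqrt (A + s ^ 2) * x) ∂N1 ∂N1 := by
  set B : ℝ := A + s ^ 2 with hB
  have hB0 : 0 ≤ B := by positivity
  set θ : ℝ := A / B with hθ
  set τ : ℝ := Real.sqrt (A * s ^ 2 / B) with hτ
  have hτ2 : τ * τ = A * s ^ 2 / B := Real.mul_self_sqrt (by positivity)
  have hA2 : Real.sqrt A * Real.sqrt A = A := Real.mul_self_sqrt hA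
  have hB2 : Real.sqrt B * Real.sqrt B = B := Real.mul_self_sqrt hB0
  have hθB : θ * B = A := by
    rcases eq_or_lt_of_le hB0 with h | h
    · have h1 : A = 0 := by nlinarith [sq_nonneg s]
      rw [hθ, h1, zero_div, zero_mul]
    · rw [hθ, div_mul_cancel₀ _ h.ne']
  have hsum : θ * A + A * s ^ 2 / B = A := by
    rcases eq_or_lt_of_le hB0 with h | h
    · have h1 : A = 0 := by nlinarith [sq_nonneg s]
      rw [h1]
      simp
    · rw [hθ]
      field_simp
      rw [hB]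
  let M : Matrix (Fin 2) (Fin 2) ℝ := !![Real.sqrt A, 0; Real.sqrt A, s]
  let M' : Matrix (Fin 2) (Fin 2) ℝ := !![θ * Real.sqrt B, τ; Real.sqrt B, 0]
  have hMM : M * Mᵀ = M' * M'ᵀ := by
    ext i j
    fin_cases i <;> fin_cases j <;>
      simp only [M, M', Matrix.mul_apply, Fin.sum_univ_two, Matrix.transpose_apply,
        Matrix.of_apply, Matrix.cons_val', Matrix.cons_val_zero, Matrix.cons_val_one,
        Matrix.cons_val_fin_one, Fin.zero_eta, Fin.mk_one, Fin.isValue]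
    · linear_combination hA2 - θ ^ 2 * hB2 - hτ2 - θ * hθB - hsum
    · linear_combination hA2 - θ * hB2 - hθB
    · linear_combination hA2 - θ * hB2 - hθB
    · linear_combination hA2 - hB2 + hB
  have hmap := SN.gam_map_linear_eq M M' hMM
  have hgc : Continuous (fun z : Fin 2 → ℝ => F (z 0) (z 1)) :=
    hF.comp (by fun_prop : Continuous (fun z : Fin 2 → ℝ => ((z 0, z 1) : ℝ × ℝ)))
  have hMc : Continuous (fun x : Fin 2 → ℝ => M.mulVec x) := by fun_prop
  have hMc' : Continuous (fun x : Fin 2 → ℝ => M'.mulVec x) := by fun_prop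
  have e1 : ∫ x, F ((M.mulVec x) 0) ((M.mulVec x) 1) ∂(gam (Fin 2)) =
      ∫ x, F ((M'.mulVec x) 0) ((M'.mulVec x) 1) ∂(gam (Fin 2)) := by
    have h1 := integral_map (μ := gam (Fin 2)) hMc.aemeasurable
      (f := fun z : Fin 2 → ℝ => F (z 0) (z 1)) hgc.aestronglyMeasurable
    have h2 := integral_map (μ := gam (Fin 2)) hMc'.aemeasurable
      (f := fun z : Fin 2 → ℝ => F (z 0) (z 1)) hgc.aestronglyMeasurable
    rw [← h1, ← h2, hmap]
  have m0 : ∀ x : Fin 2 → ℝ, (M.mulVec x) 0 = Real.sqrt A * x 0 := by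
    intro x
    simp [M, Matrix.mulVec, dotProduct, Fin.sum_univ_two]
  have m1 : ∀ x : Fin 2 → ℝ, (M.mulVec x) 1 = Real.sqrt A * x 0 + s * x 1 := by
    intro x
    simp [M, Matrix.mulVec, dotProduct, Fin.sum_univ_two]
  have m0' : ∀ x : Fin 2 → ℝ, (M'.mulVec x) 0 = θ * (Real.sqrt B * x 0) + τ * x 1 := by
    intro x
    simp [M', Matrix.mulVec, dotProduct, Fin.sum_univ_two, mul_assoc]
  have m1' : ∀ x : Fin 2 → ℝ, (M'.mulVec x) 1 = Real.sqrt B * x 0 := by
    intro x
    simp [M', Matrix.mulVec, dotProduct, Fin.sum_univ_two]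
  simp only [m0, m1, m0', m1'] at e1
  obtain ⟨C, hC⟩ := hb
  have hC0 : 0 ≤ C := by
    have h1 := hC 0 0
    have h2 : (0 : ℝ) ≤ C * Real.exp (C * (|0| + |0|)) := (abs_nonneg _).trans h1
    exact nonneg_of_mul_nonneg_left h2 (Real.exp_pos _)
  have hgrow : ∀ (p1 p2 q1 q2 : ℝ), ∃ D : ℝ, ∀ v w,
      |F (p1 * v + p2 * w) (q1 * v + q2 * w)| ≤ D * Real.exp (D * (|v| + |w|)) := by
    intro p1 p2 q1 q2
    refine ⟨C * (1 + |p1| + |p2| + |q1| + |q2|), fun v w => ?_⟩
    refine (hC _ _).trans ?_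
    have h1 : |p1 * v + p2 * w| ≤ |p1| * |v| + |p2| * |w| := by
      refine (abs_add_le _ _).trans ?_
      rw [abs_mul, abs_mul]
    have h2 : |q1 * v + q2 * w| ≤ |q1| * |v| + |q2| * |w| := by
      refine (abs_add_le _ _).trans ?_
      rw [abs_mul, abs_mul]
    have hv := abs_nonneg v
    have hw := abs_nonneg w
    have a1 := abs_nonneg p1
    have a2 := abs_nonneg p2
    have a3 := abs_nonneg q1
    have a4 := abs_nonneg q2
    have h3 : C * (|p1 * v + p2 * w| + |q1 * v + q2 * w|) ≤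
        C * (1 + |p1| + |p2| + |q1| + |q2|) * (|v| + |w|) := by
      rw [mul_assoc]
      refine mul_le_mul_of_nonneg_left ?_ hC0
      nlinarith [mul_nonneg a1 hw, mul_nonneg a2 hv, mul_nonneg a3 hw, mul_nonneg a4 hv]
    refine mul_le_mul ?_ (Real.exp_le_exp.2 h3) (Real.exp_pos _).le (by positivity)
    nlinarith [mul_nonneg hC0 a1, mul_nonneg hC0 a2, mul_nonneg hC0 a3, mul_nonneg hC0 a4]
  have hc2 : ∀ (p1 p2 q1 q2 : ℝ), Continuous (fun p : ℝ × ℝ =>
      F (p1 * p.1 + p2 * p.2) (q1 * p.1 + q2 * p.2)) := by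
    intro p1 p2 q1 q2
    exact hF.comp (by fun_prop : Continuous (fun p : ℝ × ℝ =>
      (p1 * p.1 + p2 * p.2, q1 * p.1 + q2 * p.2)))
  have e2 := Sg4_gam2 (fun v w => F (Real.sqrt A * v + 0 * w) (Real.sqrt A * v + s * w))
    (hc2 _ _ _ _) (hgrow _ _ _ _)
  have e3 := Sg4_gam2 (fun v w => F (θ * Real.sqrt B * v + τ * w) (Real.sqrt B * v + 0 * w))
    (hc2 _ _ _ _) (hgrow _ _ _ _)
  simp only [zero_mul, add_zero] at e2 e3
  rw [← e2, e1]
  have e4 : ∀ x : ℝ, θ * (Real.sqrt B * x) = θ * Real.sqrt B * x := fun x => by ring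
  simp only [e4]
  exact e3

/-- the new factor of the density after one step -/
noncomputable def Sg4_G2 (k θ τ : ℝ) (G : ℝ → ℝ) (v : ℝ) : ℝ :=
  ∫ y, Real.exp (-(k * τ) * y) * G (θ * v + τ * y) ∂N1

theorem Sg4_int (k θ τ c : ℝ) (G : ℝ → ℝ) (hc : Continuous G) (h0 : ∀ v, 0 < G v)
    (hC : ∀ v, G v ≤ c) (v : ℝ) :
    Integrable (fun y => Real.exp (-(k * τ) * y) * G (θ * v + τ * y)) N1 := by
  have h1 : Integrable (fun y : ℝ => Real.exp (-(k * τ) * y)) N1 := integrable_exp_mul_gaussianReal _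
  refine Integrable.mono' (h1.mul_const c) ?_ (Eventually.of_forall fun y => ?_)
  · exact ((by fun_prop : Continuous fun y : ℝ => Real.exp (-(k * τ) * y)).mul
      (hc.comp (by fun_prop : Continuous fun y : ℝ => θ * v + τ * y))).aestronglyMeasurable
  · rw [Real.norm_eq_abs, abs_mul, abs_of_pos (Real.exp_pos _), abs_of_pos (h0 _)]
    exact mul_le_mul_of_nonneg_left (hC _) (Real.exp_pos _).le

theorem Sg4_G2_cont (k θ τ c : ℝ) (G : ℝ → ℝ) (hc : Continuous G) (h0 : ∀ v, 0 < G v)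
    (hC : ∀ v, G v ≤ c) : Continuous (Sg4_G2 k θ τ G) := by
  unfold Sg4_G2
  have h1 : Integrable (fun y : ℝ => Real.exp (-(k * τ) * y)) N1 := integrable_exp_mul_gaussianReal _
  refine continuous_of_dominated (bound := fun y => Real.exp (-(k * τ) * y) * c) ?_ ?_
    (h1.mul_const c) ?_
  · intro v
    exact ((by fun_prop : Continuous fun y : ℝ => Real.exp (-(k * τ) * y)).mul
      (hc.comp (by fun_prop : Continuous fun y : ℝ => θ * v + τ * y))).aestronglyMeasurable
  · intro v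
    refine Eventually.of_forall fun y => ?_
    rw [Real.norm_eq_abs, abs_mul, abs_of_pos (Real.exp_pos _), abs_of_pos (h0 _)]
    exact mul_le_mul_of_nonneg_left (hC _) (Real.exp_pos _).le
  · refine Eventually.of_forall fun y => ?_
    exact continuous_const.mul (hc.comp (by fun_prop : Continuous fun v : ℝ => θ * v + τ * y))

theorem Sg4_G2_pos (k θ τ c : ℝ) (G : ℝ → ℝ) (hc : Continuous G) (h0 : ∀ v, 0 < G v)
    (hC : ∀ v, G v ≤ c) (v : ℝ) : 0 < Sg4_G2 k θ τ G v := by
  unfold Sg4_G2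
  rw [integral_pos_iff_support_of_nonneg (fun y => (mul_pos (Real.exp_pos _) (h0 _)).le)
    (Sg4_int k θ τ c G hc h0 hC v)]
  have h1 : Function.support (fun y => Real.exp (-(k * τ) * y) * G (θ * v + τ * y)) = Set.univ := by
    ext y
    simp only [Function.mem_support, Set.mem_univ, iff_true]
    exact (mul_pos (Real.exp_pos _) (h0 _)).ne'
  rw [h1, measure_univ]
  exact one_pos

theorem Sg4_G2_le (k θ τ c : ℝ) (G : ℝ → ℝ) (hc : Continuous G) (h0 : ∀ v, 0 < G v)
    (hC : ∀ v, G v ≤ c) (v : ℝ) : Sg4_G2 k θ τ G v ≤ c * Real.exp ((k * τ) ^ 2 / 2) := by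
  unfold Sg4_G2
  have h1 : Integrable (fun y : ℝ => Real.exp (-(k * τ) * y)) N1 := integrable_exp_mul_gaussianReal _
  have h2 : ∫ y, Real.exp (-(k * τ) * y) * G (θ * v + τ * y) ∂N1 ≤
      ∫ y, Real.exp (-(k * τ) * y) * c ∂N1 := by
    refine integral_mono (Sg4_int k θ τ c G hc h0 hC v) (h1.mul_const c) fun y => ?_
    exact mul_le_mul_of_nonneg_left (hC _) (Real.exp_pos _).le
  refine h2.trans (le_of_eq ?_)
  rw [integral_mul_const]
  have h3 := Sg0b_cm (fun _ => 1) (-(k * τ))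
  simp only [one_mul, integral_const, probReal_univ, smul_eq_mul, mul_one] at h3
  rw [h3, mul_comm]
  congr 2
  ring

theorem Sg4_G2_mono (k θ τ c : ℝ) (G : ℝ → ℝ) (hc : Continuous G) (h0 : ∀ v, 0 < G v)
    (hC : ∀ v, G v ≤ c) (hθ : 0 ≤ θ) (hm : Monotone G) : Monotone (Sg4_G2 k θ τ G) := by
  intro v v' h
  refine integral_mono (Sg4_int k θ τ c G hc h0 hC v) (Sg4_int k θ τ c G hc h0 hC v') fun y => ?_
  refine mul_le_mul_of_nonneg_left (hm ?_) (Real.exp_pos _).le
  have := mul_le_mul_of_nonneg_left h hθ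
  linarith

theorem Sg4_G2_slope (k θ τ c : ℝ) (G : ℝ → ℝ) (hc : Continuous G) (h0 : ∀ v, 0 < G v)
    (hC : ∀ v, G v ≤ c) (hθ : 0 ≤ θ)
    (hs : ∀ v v', v ≤ v' → G v' ≤ G v * Real.exp (2 * k * (v' - v))) (v v' : ℝ) (h : v ≤ v') :
    Sg4_G2 k θ τ G v' ≤ Sg4_G2 k θ τ G v * Real.exp (2 * (k * θ) * (v' - v)) := by
  unfold Sg4_G2
  rw [← integral_mul_const]
  refine integral_mono (Sg4_int k θ τ c G hc h0 hC v')
    ((Sg4_int k θ τ c G hc h0 hC v).mul_const _) fun y => ?_
  beta_reduce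
  rw [mul_assoc]
  refine mul_le_mul_of_nonneg_left ?_ (Real.exp_pos _).le
  have h1 := hs (θ * v + τ * y) (θ * v' + τ * y) (by
    have := mul_le_mul_of_nonneg_left h hθ
    linarith)
  refine h1.trans (le_of_eq ?_)
  congr 2
  ring

theorem Sg4_G1_bdd {h : ℝ → ℝ} (hc : Continuous h) (hb : ∃ B, ∀ v, |h v| ≤ B) : G1 h := by
  obtain ⟨B, hB⟩ := hb
  refine ⟨hc, |B|, fun v => (hB v).trans ?_⟩
  have h1 : (1 : ℝ) ≤ Real.exp (|B| * |v|) := Real.one_le_exp (by positivity)
  nlinarith [le_abs_self B, abs_nonneg B]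

theorem density_ind (b : ℝ) (l s2 : List (Step Unit)) (hl : Ok (l ++ s2)) :
    ∀ (A m0 k0 c : ℝ) (G : ℝ → ℝ), 0 ≤ A → 0 ≤ k0 → k0 ≤ m0 → m0 ≤ 1 → (∀ a ∈ l, m0 ≤ a.1) →
      Continuous G → (∀ v, 0 < G v) → (∀ v, G v ≤ c) → Monotone G →
      (∀ v v', v ≤ v' → G v' ≤ G v * Real.exp (2 * k0 * (v' - v))) →
      ∃ (m k : ℝ) (G' : ℝ → ℝ), 0 ≤ k ∧ k ≤ m ∧ m ≤ 1 ∧ Continuous G' ∧ (∀ v, 0 < G' v) ∧
        (∀ v, G' v ≤ c * Real.exp (b ^ 2 * Qtot l () ())) ∧ Monotone G' ∧
        (∀ v v', v ≤ v' → G' v' ≤ G' v * Real.exp (2 * k * (v' - v))) ∧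
        ∀ h : ℝ → ℝ, Continuous h → (∃ B, ∀ v, |h v| ≤ B) →
          ∫ x, C1 b l s2 h (Real.sqrt A * x) *
            (Real.exp (m0 * psi1 b (l ++ s2) (Real.sqrt A * x) - k0 * (Real.sqrt A * x)) *
              G (Real.sqrt A * x)) ∂N1 =
          ∫ x, h (Real.sqrt (A + 2 * b ^ 2 * Qtot l () ()) * x) *
            (Real.exp (m * psi1 b s2 (Real.sqrt (A + 2 * b ^ 2 * Qtot l () ()) * x) -
              k * (Real.sqrt (A + 2 * b ^ 2 * Qtot l () ()) * x)) *
              G' (Real.sqrt (A + 2 * b ^ 2 * Qtot l () ()) * x)) ∂N1 := by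
  induction l with
  | nil =>
    intro A m0 k0 c G hA hk0 hkm hm1 _ hGc hG0 hGC hGm hGs
    have hQ : Qtot ([] : List (Step Unit)) () () = 0 := rfl
    refine ⟨m0, k0, G, hk0, hkm, hm1, hGc, hG0, ?_, hGm, hGs, ?_⟩
    · intro v
      rw [hQ, mul_zero, Real.exp_zero, mul_one]
      exact hGC v
    · intro h _ _
      rw [hQ, mul_zero, add_zero, C1_nil, List.nil_append]
  | cons a l2 ih =>
    intro A m0 k0 c G hA hk0 hkm hm1 hal hGc hG0 hGC hGm hGs
    have hOk2 : Ok (l2 ++ s2) := Ok_tail hl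
    set m : ℝ := a.1 with hmdef
    have hm0m : m0 ≤ m := hal a List.mem_cons_self
    have hmle : m ≤ 1 := (hl.2.1 a (by simp)).2
    have hpw := (List.pairwise_cons.1 hl.1).1
    set σ : ℝ := si b a with hσ
    set ψ : ℝ → ℝ := psi1 b (a :: l2 ++ s2) with hψ
    have hψT : ∀ v, ψ v = T1 m σ (psi1 b (l2 ++ s2)) v := fun v => psi1_cons b a (l2 ++ s2) v
    have hψc : Continuous ψ := psi1_cont b _
    have hψl : ∀ v v', |ψ v - ψ v'| ≤ |v - v'| := psi1_lip b _
    have hψg : ∀ v, |v| ≤ ψ v := psi1_ge b _ hl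
    -- the factor before the step
    set k1 : ℝ := k0 + (m - m0) with hk1
    have hk10 : 0 ≤ k1 := by linarith
    have hk11 : k1 ≤ m := by linarith
    let Ga : ℝ → ℝ := fun w => G w * Real.exp ((m - m0) * (w - ψ w))
    have hGac : Continuous Ga := hGc.mul (Real.continuous_exp.comp
      (continuous_const.mul (continuous_id.sub hψc)))
    have hGa0 : ∀ v, 0 < Ga v := fun v => mul_pos (hG0 v) (Real.exp_pos _)
    have hGaC : ∀ v, Ga v ≤ c := by
      intro v
      refine le_trans ?_ (hGC v)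
      have h1 : Real.exp ((m - m0) * (v - ψ v)) ≤ 1 := by
        rw [Real.exp_le_one_iff]
        have h2 : v - ψ v ≤ 0 := by linarith [hψg v, le_abs_self v]
        exact mul_nonpos_of_nonneg_of_nonpos (by linarith) h2
      have h3 := mul_le_mul_of_nonneg_left h1 (hG0 v).le
      rwa [mul_one] at h3
    have hψd : ∀ v v', v ≤ v' → v - ψ v ≤ v' - ψ v' ∧ (v' - ψ v') ≤ (v - ψ v) + 2 * (v' - v) := by
      intro v v' h
      have h1 := abs_le.1 (hψl v' v)
      rw [abs_of_nonneg (sub_nonneg.2 h)] at h1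
      constructor <;> linarith [h1.1, h1.2]
    have hGam : Monotone Ga := by
      intro v v' h
      refine mul_le_mul (hGm h) (Real.exp_le_exp.2 ?_) (Real.exp_pos _).le (hG0 _).le
      exact mul_le_mul_of_nonneg_left (hψd v v' h).1 (by linarith)
    have hGas : ∀ v v', v ≤ v' → Ga v' ≤ Ga v * Real.exp (2 * k1 * (v' - v)) := by
      intro v v' h
      have h1 : Real.exp ((m - m0) * (v' - ψ v')) ≤
          Real.exp ((m - m0) * (v - ψ v)) * Real.exp (2 * (m - m0) * (v' - v)) := by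
        rw [← Real.exp_add]
        refine Real.exp_le_exp.2 ?_
        have h2 := mul_le_mul_of_nonneg_left (hψd v v' h).2 (by linarith : (0 : ℝ) ≤ m - m0)
        linarith
      have h3 := mul_le_mul (hGs v v' h) h1 (Real.exp_pos _).le
        (mul_nonneg (hG0 v).le (Real.exp_pos _).le)
      refine h3.trans (le_of_eq ?_)
      change _ = G v * Real.exp ((m - m0) * (v - ψ v)) * Real.exp (2 * k1 * (v' - v))
      have h4 : Real.exp (2 * k1 * (v' - v)) =
          Real.exp (2 * k0 * (v' - v)) * Real.exp (2 * (m - m0) * (v' - v)) := by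
        rw [← Real.exp_add]
        congr 1
        rw [hk1]
        ring
      rw [h4]
      ring
    -- parameters after the step
    set B : ℝ := A + σ ^ 2 with hB
    have hB0 : 0 ≤ B := by positivity
    set θ : ℝ := A / B with hθ
    set τ : ℝ := Real.sqrt (A * σ ^ 2 / B) with hτ
    have hθ0 : 0 ≤ θ := by positivity
    have hθ1 : θ ≤ 1 := by
      rcases eq_or_lt_of_le hB0 with h | h
      · rw [hθ, ← h, div_zero]
        exact zero_le_one
      · rw [hθ, div_le_one h]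
        rw [hB]
        linarith [sq_nonneg σ]
    have hτ2 : τ ^ 2 ≤ σ ^ 2 := by
      rw [hτ, Real.sq_sqrt (by positivity)]
      have h1 : A * σ ^ 2 / B = θ * σ ^ 2 := by rw [hθ]; ring
      rw [h1]
      nlinarith [sq_nonneg σ]
    have hk20 : 0 ≤ k1 * θ := mul_nonneg hk10 hθ0
    have hk21 : k1 * θ ≤ m := by nlinarith
    have hc0 : 0 < c := lt_of_lt_of_le (hG0 0) (hGC 0)
    obtain ⟨m', k', G', r1, r2, r3, r4, r5, r6, r7, r8, r9⟩ := ih hOk2 B m (k1 * θ)
      (c * Real.exp (σ ^ 2 / 2)) (Sg4_G2 k1 θ τ Ga) hB0 hk20 hk21 hmle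
      (fun a' ha' => hpw a' (List.mem_append_left _ ha'))
      (Sg4_G2_cont k1 θ τ c Ga hGac hGa0 hGaC) (Sg4_G2_pos k1 θ τ c Ga hGac hGa0 hGaC)
      (fun v => (Sg4_G2_le k1 θ τ c Ga hGac hGa0 hGaC v).trans (by
        refine mul_le_mul_of_nonneg_left (Real.exp_le_exp.2 ?_) hc0.le
        have h1 : (k1 * τ) ^ 2 ≤ τ ^ 2 := by
          rw [mul_pow]
          have h2 : k1 ^ 2 ≤ 1 := by nlinarith
          nlinarith [sq_nonneg τ]
        linarith))
      (Sg4_G2_mono k1 θ τ c Ga hGac hGa0 hGaC hθ0 hGam)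
      (Sg4_G2_slope k1 θ τ c Ga hGac hGa0 hGaC hθ0 hGas)
    have hQ : A + 2 * b ^ 2 * Qtot (a :: l2) () () = B + 2 * b ^ 2 * Qtot l2 () () := by
      rw [Qtot_cons_unit, hB, hσ, si_sq]
      ring
    refine ⟨m', k', G', r1, r2, r3, r4, r5, ?_, r7, r8, ?_⟩
    · intro v
      refine (r6 v).trans (le_of_eq ?_)
      rw [mul_assoc, ← Real.exp_add]
      congr 2
      rw [Qtot_cons_unit, hσ, si_sq]
      ring
    · intro h hh hhb
      rw [hQ, ← r9 h hh hhb]
      -- the two sides of the rotation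
      have hGh : G1 h := Sg4_G1_bdd hh hhb
      set H : ℝ → ℝ := C1 b l2 s2 h with hH
      have hHG : G1 H := G1_C1 b l2 s2 hGh
      let Φ : ℝ → ℝ := fun v => H v * Real.exp (m * psi1 b (l2 ++ s2) v)
      let W : ℝ → ℝ := fun w => Real.exp (-(k1 * w)) * Ga w
      have hΦc : Continuous Φ := hHG.1.mul (Real.continuous_exp.comp
        (continuous_const.mul (psi1_cont b _)))
      have hWc : Continuous W := by
        refine Continuous.mul ?_ hGac
        fun_prop
      have hgrow : ∃ C : ℝ, ∀ v w, |Φ w * W v| ≤ C * Real.exp (C * (|v| + |w|)) := by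
        obtain ⟨D, hD⟩ := hHG.2
        set p0 : ℝ := |psi1 b (l2 ++ s2) 0| with hp0
        have hp00 : 0 ≤ p0 := abs_nonneg _
        refine ⟨|D| * Real.exp (|m| * p0) * c + |D| + |m| + |k1|, fun v w => ?_⟩
        have a1 : |Φ w| ≤ |D| * Real.exp (|D| * |w|) * Real.exp (|m| * (p0 + |w|)) := by
          change |H w * Real.exp (m * psi1 b (l2 ++ s2) w)| ≤ _
          rw [abs_mul, abs_of_pos (Real.exp_pos _)]
          refine mul_le_mul ?_ (Real.exp_le_exp.2 ?_) (Real.exp_pos _).le (by positivity)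
          · refine (hD w).trans ?_
            refine mul_le_mul (le_abs_self D) (Real.exp_le_exp.2 ?_) (Real.exp_pos _).le
              (abs_nonneg D)
            exact mul_le_mul_of_nonneg_right (le_abs_self D) (abs_nonneg w)
          · refine (le_abs_self _).trans ?_
            rw [abs_mul]
            exact mul_le_mul_of_nonneg_left (Sg0b_psi_le b _ w) (abs_nonneg m)
        have a2 : |W v| ≤ Real.exp (|k1| * |v|) * c := by
          change |Real.exp (-(k1 * v)) * Ga v| ≤ _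
          rw [abs_mul, abs_of_pos (Real.exp_pos _), abs_of_pos (hGa0 v)]
          refine mul_le_mul (Real.exp_le_exp.2 ?_) (hGaC v) (hGa0 v).le (Real.exp_pos _).le
          refine (le_abs_self _).trans ?_
          rw [abs_neg, abs_mul]
        rw [abs_mul]
        have hv := abs_nonneg v
        have hw := abs_nonneg w
        have d1 := abs_nonneg D
        have d2 := abs_nonneg m
        have d3 := abs_nonneg k1
        set K : ℝ := |D| * Real.exp (|m| * p0) * c + |D| + |m| + |k1| with hK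
        have hK1 : |D| * Real.exp (|m| * p0) * c ≤ K := by rw [hK]; linarith
        have hK0 : 0 ≤ |D| * Real.exp (|m| * p0) * c := by positivity
        refine (mul_le_mul a1 a2 (abs_nonneg _) (by positivity)).trans ?_
        have e1 : |D| * Real.exp (|D| * |w|) * Real.exp (|m| * (p0 + |w|)) *
            (Real.exp (|k1| * |v|) * c) = (|D| * Real.exp (|m| * p0) * c) *
              Real.exp (|D| * |w| + |m| * |w| + |k1| * |v|) := by
          rw [mul_add, Real.exp_add, Real.exp_add, Real.exp_add]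
          ring
        rw [e1]
        refine mul_le_mul hK1 (Real.exp_le_exp.2 ?_) (Real.exp_pos _).le (by linarith)
        have e2 : |D| + |m| + |k1| ≤ K := by rw [hK]; linarith
        nlinarith [mul_nonneg d1 hv, mul_nonneg d2 hv, mul_nonneg d3 hw,
          mul_le_mul_of_nonneg_right e2 (add_nonneg hv hw)]
      have hrot := rot A σ hA (fun w v => Φ v * W w)
        ((hΦc.comp continuous_snd).mul (hWc.comp continuous_fst)) (by
          obtain ⟨C, hC⟩ := hgrow
          exact ⟨C, fun v w => hC v w⟩)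
      -- left side
      have hL : ∀ x : ℝ, C1 b (a :: l2) s2 h (Real.sqrt A * x) *
          (Real.exp (m0 * psi1 b (a :: l2 ++ s2) (Real.sqrt A * x) - k0 * (Real.sqrt A * x)) *
            G (Real.sqrt A * x)) =
          ∫ y, Φ (Real.sqrt A * x + σ * y) * W (Real.sqrt A * x) ∂N1 := by
        intro x
        set w : ℝ := Real.sqrt A * x with hw
        rw [integral_mul_const, C1_cons]
        unfold E1
        rw [← exp_T1, ← hψT]
        change (∫ y, H (w + σ * y) * Real.exp (m * psi1 b (l2 ++ s2) (w + σ * y)) ∂N1) /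
          Real.exp (m * ψ w) * (Real.exp (m0 * ψ w - k0 * w) * G w) =
          (∫ y, H (w + σ * y) * Real.exp (m * psi1 b (l2 ++ s2) (w + σ * y)) ∂N1) *
            (Real.exp (-(k1 * w)) * (G w * Real.exp ((m - m0) * (w - ψ w))))
        rw [div_mul_eq_mul_div, mul_div_assoc]
        congr 1
        rw [div_eq_iff (Real.exp_pos _).ne']
        have e1 : Real.exp (m0 * ψ w - k0 * w) =
            Real.exp (-(k1 * w)) * Real.exp ((m - m0) * (w - ψ w)) * Real.exp (m * ψ w) := by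
          rw [← Real.exp_add, ← Real.exp_add]
          congr 1
          rw [hk1]
          ring
        rw [e1]
        ring
      have hR : ∀ x : ℝ, ∫ y, Φ (Real.sqrt B * x) * W (θ * (Real.sqrt B * x) + τ * y) ∂N1 =
          H (Real.sqrt B * x) * (Real.exp (m * psi1 b (l2 ++ s2) (Real.sqrt B * x) -
            k1 * θ * (Real.sqrt B * x)) * Sg4_G2 k1 θ τ Ga (Real.sqrt B * x)) := by
        intro x
        set v : ℝ := Real.sqrt B * x with hv
        rw [integral_const_mul]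
        have e1 : ∫ y, W (θ * v + τ * y) ∂N1 =
            Real.exp (-(k1 * θ * v)) * Sg4_G2 k1 θ τ Ga v := by
          unfold Sg4_G2
          rw [← integral_const_mul]
          refine integral_congr_ae (Eventually.of_forall fun y => ?_)
          change Real.exp (-(k1 * (θ * v + τ * y))) * Ga (θ * v + τ * y) =
            Real.exp (-(k1 * θ * v)) * (Real.exp (-(k1 * τ) * y) * Ga (θ * v + τ * y))
          have e2 : Real.exp (-(k1 * (θ * v + τ * y))) =
              Real.exp (-(k1 * θ * v)) * Real.exp (-(k1 * τ) * y) := by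
            rw [← Real.exp_add]
            congr 1
            ring
          rw [e2, mul_assoc]
        rw [e1]
        change H v * Real.exp (m * psi1 b (l2 ++ s2) v) * _ = _
        rw [sub_eq_add_neg, Real.exp_add]
        ring
      calc _ = ∫ x, ∫ y, Φ (Real.sqrt A * x + σ * y) * W (Real.sqrt A * x) ∂N1 ∂N1 :=
            integral_congr_ae (Eventually.of_forall hL)
        _ = ∫ x, ∫ y, Φ (Real.sqrt B * x) * W (θ * (Real.sqrt B * x) + τ * y) ∂N1 ∂N1 := hrot
        _ = _ := integral_congr_ae (Eventually.of_forall hR)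

theorem Sg4_gauss_one (A : ℝ) (hA : 0 < A) (f : ℝ → ℝ) :
    ∫ x, f (Real.sqrt A * x) ∂N1 =
      (Real.sqrt (2 * Real.pi * A))⁻¹ * ∫ v, f v * Real.exp (-(v ^ 2 / (2 * A))) := by
  unfold N1
  have hv : (1 : NNReal) ≠ 0 := one_ne_zero
  have hs : 0 < Real.sqrt A := Real.sqrt_pos.2 hA
  have hs2 : Real.sqrt A ^ 2 = A := Real.sq_sqrt hA.le
  rw [integral_gaussianReal_eq_integral_smul hv]
  have h1 := Measure.integral_comp_mul_left (fun v : ℝ => (Real.sqrt (2 * Real.pi * 1))⁻¹ *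
    (f v * Real.exp (-(v ^ 2 / (2 * A))))) (Real.sqrt A)
  have h2 : ∀ x : ℝ, gaussianPDFReal 0 1 x • f (Real.sqrt A * x) =
      (Real.sqrt (2 * Real.pi * 1))⁻¹ * (f (Real.sqrt A * x) *
        Real.exp (-((Real.sqrt A * x) ^ 2 / (2 * A)))) := by
    intro x
    unfold gaussianPDFReal
    rw [smul_eq_mul]
    have e1 : Real.exp (-(x - 0) ^ 2 / (2 * ((1 : NNReal) : ℝ))) =
        Real.exp (-((Real.sqrt A * x) ^ 2 / (2 * A))) := by
      congr 1
      rw [mul_pow, hs2, NNReal.coe_one]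
      field_simp
      ring
    rw [e1, NNReal.coe_one]
    ring
  rw [integral_congr_ae (Eventually.of_forall h2), h1, integral_const_mul, smul_eq_mul,
    abs_of_pos (inv_pos.2 hs), ← mul_assoc]
  congr 1
  rw [mul_one, ← mul_inv, Real.sqrt_mul (by positivity) A, mul_comm]

theorem single_density (b : ℝ) (hb : 0 < b) (q : ℝ) (hq : 0 < q) :
    ∃ C : ℝ, 0 < C ∧ ∀ s1 s2 : List (Step Unit), Ok (s1 ++ s2) →
      Qtot s1 = (fun _ _ => q) → ∃ (m k : ℝ) (G : ℝ → ℝ), 0 ≤ k ∧ k ≤ m ∧ m ≤ 1 ∧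
        (∀ v, 0 < G v) ∧ (∀ v, G v ≤ C) ∧ Monotone G ∧
        (∀ v v', v ≤ v' → G v' ≤ G v * Real.exp (2 * (v' - v))) ∧
        ∀ h : ℝ → ℝ, Continuous h → (∃ B, ∀ v, |h v| ≤ B) →
          ChE (fun _ : Unit => b) s1 (PsiL (fun _ : Unit => b) s2 F0) (fun y => h (y ())) 0 =
            ∫ v, h v * (Real.exp (-(v ^ 2 / (2 * (2 * b ^ 2 * q))) + m * psi1 b s2 v - k * v) * G v) := by
  set A : ℝ := 2 * b ^ 2 * q with hA
  have hA0 : 0 < A := by positivity
  set D : ℝ := (Real.sqrt (2 * Real.pi * A))⁻¹ with hD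
  have hD0 : 0 < D := by positivity
  refine ⟨D * Real.exp (b ^ 2 * q), by positivity, fun s1 s2 hok hQ => ?_⟩
  obtain ⟨m, k, G, hk0, hkm, hm1, hGc, hG0, hGC, hGm, hGs, hG⟩ := density_ind b s1 s2 hok 0 0 0 1
    (fun _ => 1) le_rfl le_rfl le_rfl zero_le_one
    (fun a ha => (hok.2.1 a (List.mem_append_left _ ha)).1) continuous_const (fun _ => one_pos)
    (fun _ => le_rfl) monotone_const (fun v v' _ => by simp)
  have hQq : Qtot s1 () () = q := by rw [hQ]
  rw [hQq] at hGC hG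
  refine ⟨m, k, fun v => D * G v, hk0, hkm, hm1, fun v => mul_pos hD0 (hG0 v), ?_, ?_, ?_, ?_⟩
  · intro v
    have h1 := hGC v
    rw [one_mul] at h1
    exact mul_le_mul_of_nonneg_left h1 hD0.le
  · intro v v' h
    exact mul_le_mul_of_nonneg_left (hGm h) hD0.le
  · intro v v' h
    beta_reduce
    rw [mul_assoc]
    refine mul_le_mul_of_nonneg_left ((hGs v v' h).trans ?_) hD0.le
    refine mul_le_mul_of_nonneg_left (Real.exp_le_exp.2 ?_) (hG0 v).le
    refine mul_le_mul_of_nonneg_right ?_ (sub_nonneg.2 h)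
    linarith
  · intro h hh hhb
    have h1 := hG h hh hhb
    rw [zero_add, Sg4_gauss_one A hA0 (fun v => h v * (Real.exp (m * psi1 b s2 v - k * v) * G v))] at h1
    have h2 : ∫ x, C1 b s1 s2 h (Real.sqrt 0 * x) *
        (Real.exp (0 * psi1 b (s1 ++ s2) (Real.sqrt 0 * x) - 0 * (Real.sqrt 0 * x)) * 1) ∂N1 =
        C1 b s1 s2 h 0 := by
      simp
    rw [h2] at h1
    change C1 b s1 s2 h 0 = _
    rw [h1, ← integral_const_mul]
    refine integral_congr_ae (Eventually.of_forall fun v => ?_)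
    beta_reduce
    have e1 : Real.exp (-(v ^ 2 / (2 * A)) + m * psi1 b s2 v - k * v) =
        Real.exp (-(v ^ 2 / (2 * A))) * Real.exp (m * psi1 b s2 v - k * v) := by
      rw [← Real.exp_add]
      congr 1
      ring
    rw [e1]
    ring

end SKC.Sg
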