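import Pool.Agent.H.MP_08eaf3_pr.J.Base

/-!
# Part J: rules for one step
-/

set_option autoImplicit false
set_option linter.unusedSectionVars false

open MeasureTheory ProbabilityTheory Filter Topology Matrix

namespace SKC.J

open SKC.A

section

variable {K : Type} [Fintype K] {f g h h' : (K → ℝ) → ℝ}

theorem int_step (hf : LG f) (hh : EG h) (m : ℝ) (B : Matrix K K ℝ) (z : K → ℝ) :
    Integrable (fun x => h (z + B.mulVec x) * Real.exp (m * f (z + B.mulVec x))) (gam K) :=
  (SKC.B.EG_int hf hh m B).2 z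

theorem int_exp (hf : LG f) (m : ℝ) (B : Matrix K K ℝ) (z : K → ℝ) :
    Integrable (fun x => Real.exp (m * f (z + B.mulVec x))) (gam K) :=
  (SKC.B.LG_Z hf m B z).2

theorem Z_pos (hf : LG f) (m : ℝ) (B : Matrix K K ℝ) (z : K → ℝ) :
    0 < ∫ x, Real.exp (m * f (z + B.mulVec x)) ∂(gam K) :=
  (SKC.B.LG_Z hf m B z).1

theorem int_EG (hh : EG h) (B : Matrix K K ℝ) (z : K → ℝ) :
    Integrable (fun x => h (z + B.mulVec x)) (gam K) := (hh.comp_affine z B).integrable

theorem int_LG (hf : LG f) (B : Matrix K K ℝ) (z : K → ℝ) :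
    Integrable (fun x => f (z + B.mulVec x)) (gam K) := (hf.comp_affine z B).integrable

theorem Tm_zero (B : Matrix K K ℝ) (f : (K → ℝ) → ℝ) (z : K → ℝ) :
    Tm 0 B f z = ∫ x, f (z + B.mulVec x) ∂(gam K) := if_pos rfl

theorem Tm_ne {m : ℝ} (hm : m ≠ 0) (B : Matrix K K ℝ) (f : (K → ℝ) → ℝ) (z : K → ℝ) :
    Tm m B f z = (1 / m) * Real.log (∫ x, Real.exp (m * f (z + B.mulVec x)) ∂(gam K)) := if_neg hm

theorem exp_mul_Tm (hf : LG f) (m : ℝ) (B : Matrix K K ℝ) (z : K → ℝ) :
    Real.exp (m * Tm m B f z) = ∫ x, Real.exp (m * f (z + B.mulVec x)) ∂(gam K) := by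
  by_cases hm : m = 0
  · subst hm
    simp
  · rw [Tm_ne hm, ← mul_assoc, mul_one_div_cancel hm, one_mul, Real.exp_log (Z_pos hf m B z)]

/-- the basic identity: unnormalised step -/
theorem exp_mul_Es (hf : LG f) (m : ℝ) (B : Matrix K K ℝ) (h : (K → ℝ) → ℝ) (z : K → ℝ) :
    Real.exp (m * Tm m B f z) * Es m B f h z =
      ∫ x, h (z + B.mulVec x) * Real.exp (m * f (z + B.mulVec x)) ∂(gam K) := by
  rw [exp_mul_Tm hf]
  unfold Es
  exact mul_div_cancel₀ _ (Z_pos hf m B z).ne'

theorem Es_eq' (hf : LG f) (m : ℝ) (B : Matrix K K ℝ) (h : (K → ℝ) → ℝ) (z : K → ℝ) :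
    Es m B f h z = Real.exp (-(m * Tm m B f z)) *
      ∫ x, h (z + B.mulVec x) * Real.exp (m * f (z + B.mulVec x)) ∂(gam K) := by
  rw [← exp_mul_Es hf, ← mul_assoc, ← Real.exp_add, neg_add_cancel, Real.exp_zero, one_mul]

theorem Es_const (hf : LG f) (m : ℝ) (B : Matrix K K ℝ) (c : ℝ) (z : K → ℝ) :
    Es m B f (fun _ => c) z = c := by
  unfold Es
  rw [integral_const_mul]
  exact mul_div_cancel_right₀ c (Z_pos hf m B z).ne'

theorem Es_add (hf : LG f) (hh : EG h) (hh' : EG h') (m : ℝ) (B : Matrix K K ℝ) (z : K → ℝ) :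
    Es m B f (fun y => h y + h' y) z = Es m B f h z + Es m B f h' z := by
  unfold Es
  rw [← add_div, ← integral_add (int_step hf hh m B z) (int_step hf hh' m B z)]
  congr 1
  refine integral_congr_ae (Filter.Eventually.of_forall fun x => ?_)
  beta_reduce
  ring

theorem Es_smul (f h : (K → ℝ) → ℝ) (c m : ℝ) (B : Matrix K K ℝ) (z : K → ℝ) :
    Es m B f (fun y => c * h y) z = c * Es m B f h z := by
  unfold Es
  rw [← mul_div_assoc, ← integral_const_mul]
  congr 1
  refine integral_congr_ae (Filter.Eventually.of_forall fun x => ?_)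
  beta_reduce
  ring

theorem Es_sub (hf : LG f) (hh : EG h) (hh' : EG h') (m : ℝ) (B : Matrix K K ℝ) (z : K → ℝ) :
    Es m B f (fun y => h y - h' y) z = Es m B f h z - Es m B f h' z := by
  unfold Es
  rw [← sub_div, ← integral_sub (int_step hf hh m B z) (int_step hf hh' m B z)]
  congr 1
  refine integral_congr_ae (Filter.Eventually.of_forall fun x => ?_)
  beta_reduce
  ring

theorem Es_mono (hf : LG f) (hh : EG h) (hh' : EG h') (hle : ∀ y, h y ≤ h' y) (m : ℝ)
    (B : Matrix K K ℝ) (z : K → ℝ) : Es m B f h z ≤ Es m B f h' z := by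
  unfold Es
  refine div_le_div_of_nonneg_right ?_ (Z_pos hf m B z).le
  refine integral_mono (int_step hf hh m B z) (int_step hf hh' m B z) ?_
  intro x
  exact mul_le_mul_of_nonneg_right (hle _) (Real.exp_pos _).le

theorem Es_nonneg (hp : ∀ y, 0 ≤ h y) (m : ℝ) (B : Matrix K K ℝ) (f : (K → ℝ) → ℝ)
    (z : K → ℝ) : 0 ≤ Es m B f h z := by
  unfold Es
  refine div_nonneg (integral_nonneg fun x => mul_nonneg (hp _) (Real.exp_pos _).le)
    (integral_nonneg fun x => (Real.exp_pos _).le)

theorem Es_pos (hf : LG f) (hh : EG h) (hp : ∀ y, 0 < h y) (m : ℝ) (B : Matrix K K ℝ)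
    (z : K → ℝ) : 0 < Es m B f h z := by
  unfold Es
  refine div_pos ?_ (Z_pos hf m B z)
  have h1 : EG (fun x : K → ℝ => h (z + B.mulVec x) * Real.exp (m * f (z + B.mulVec x))) :=
    (hh.comp_affine z B).mul ((hf.comp_affine z B).exp m)
  exact h1.integral_pos fun x => mul_pos (hp _) (Real.exp_pos _)

theorem Es_abs_le (hf : LG f) (hh : EG h) {C : ℝ} (hC : ∀ y, |h y| ≤ C) (m : ℝ)
    (B : Matrix K K ℝ) (z : K → ℝ) : |Es m B f h z| ≤ C := by
  rw [abs_le]
  refine ⟨?_, ?_⟩
  · rw [← Es_const hf m B (-C) z]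
    exact Es_mono hf (EG.const _) hh (fun y => (abs_le.mp (hC y)).1) m B z
  · conv_rhs => rw [← Es_const hf m B C z]
    exact Es_mono hf hh (EG.const _) (fun y => (abs_le.mp (hC y)).2) m B z

theorem Es_abs_lt_one (hf : LG f) (hh : EG h) (hC : ∀ y, |h y| < 1) (m : ℝ)
    (B : Matrix K K ℝ) (z : K → ℝ) : |Es m B f h z| < 1 := by
  have h1 : 0 < Es m B f (fun y => 1 - h y) z :=
    Es_pos hf ((EG.const 1).sub hh) (fun y => sub_pos.mpr (abs_lt.mp (hC y)).2) m B z
  have h2 : 0 < Es m B f (fun y => 1 + h y) z :=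
    Es_pos hf ((EG.const 1).add hh) (fun y => by linarith [(abs_lt.mp (hC y)).1]) m B z
  rw [Es_sub hf (EG.const 1) hh, Es_const hf] at h1
  rw [Es_add hf (EG.const 1) hh, Es_const hf] at h2
  rw [abs_lt]
  constructor <;> linarith

/-- Cauchy-Schwarz -/
theorem Es_sq_le (hf : LG f) (hh : EG h) (m : ℝ) (B : Matrix K K ℝ) (z : K → ℝ) :
    Es m B f h z ^ 2 ≤ Es m B f (fun y => h y ^ 2) z := by
  set c : ℝ := Es m B f h z with hc
  have h0 : 0 ≤ Es m B f (fun y => (h y ^ 2 - (2 * c) * h y) + c ^ 2) z := by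
    refine Es_nonneg (fun y => ?_) m B f z
    have : (h y ^ 2 - (2 * c) * h y) + c ^ 2 = (h y - c) ^ 2 := by ring
    rw [this]
    exact sq_nonneg _
  rw [Es_add hf ((hh.pow 2).sub (hh.const_mul (2 * c))) (EG.const _),
    Es_sub hf (hh.pow 2) (hh.const_mul (2 * c)), Es_smul, Es_const hf, ← hc] at h0
  nlinarith [h0]

/-! ### rules for `Tm` -/

theorem Tm_mono' (hf : LG f) (hg : LG g) (hle : ∀ y, f y ≤ g y) (m : ℝ)
    (B : Matrix K K ℝ) (z : K → ℝ) : Tm m B f z ≤ Tm m B g z := by
  rcases lt_trichotomy m 0 with hm | hm | hm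
  · rw [Tm_ne hm.ne, Tm_ne hm.ne]
    refine mul_le_mul_of_nonpos_left ?_ (one_div_nonpos.mpr hm.le)
    refine Real.log_le_log (Z_pos hg m B z) ?_
    refine integral_mono (int_exp hg m B z) (int_exp hf m B z) fun x => ?_
    exact Real.exp_le_exp.mpr (mul_le_mul_of_nonpos_left (hle _) hm.le)
  · subst hm
    rw [Tm_zero, Tm_zero]
    exact integral_mono (int_LG hf B z) (int_LG hg B z) fun x => hle _
  · rw [Tm_ne hm.ne', Tm_ne hm.ne']
    refine mul_le_mul_of_nonneg_left ?_ (one_div_nonneg.mpr hm.le)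
    refine Real.log_le_log (Z_pos hf m B z) ?_
    refine integral_mono (int_exp hf m B z) (int_exp hg m B z) fun x => ?_
    exact Real.exp_le_exp.mpr (mul_le_mul_of_nonneg_left (hle _) hm.le)

theorem Tm_add_const (hf : LG f) (c m : ℝ) (B : Matrix K K ℝ) (z : K → ℝ) :
    Tm m B (fun y => f y + c) z = Tm m B f z + c := by
  by_cases hm : m = 0
  · subst hm
    rw [Tm_zero, Tm_zero, integral_add (int_LG hf B z) (integrable_const c), integral_const,
      probReal_univ, one_smul]
  · rw [Tm_ne hm, Tm_ne hm]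
    have h1 : ∀ x : K → ℝ, Real.exp (m * (f (z + B.mulVec x) + c)) =
        Real.exp (m * c) * Real.exp (m * f (z + B.mulVec x)) := by
      intro x
      rw [← Real.exp_add]
      congr 1
      ring
    simp only [h1]
    rw [integral_const_mul, Real.log_mul (Real.exp_pos _).ne' (Z_pos hf m B z).ne', Real.log_exp]
    field_simp
    ring

theorem Tm_congr (hfg : ∀ y, f y = g y) (m : ℝ) (B : Matrix K K ℝ) (z : K → ℝ) :
    Tm m B f z = Tm m B g z := by
  rw [funext hfg]

/-- shift of the argument -/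
theorem Tm_shift (f : (K → ℝ) → ℝ) (m : ℝ) (B : Matrix K K ℝ) (z d : K → ℝ) :
    Tm m B f (z + d) = Tm m B (fun y => f (y + d)) z := by
  have h1 : ∀ x : K → ℝ, z + d + B.mulVec x = z + B.mulVec x + d := fun x => add_right_comm _ _ _
  unfold Tm
  simp only [h1]

/-- a Lipschitz bound for the integrand is a Lipschitz bound for the step -/
theorem Tm_lip (hf : LG f) {L : ℝ} (hL : ∀ y y', |f y - f y'| ≤ L * n1 (y - y')) (m : ℝ)
    (B : Matrix K K ℝ) (z z' : K → ℝ) : |Tm m B f z - Tm m B f z'| ≤ L * n1 (z - z') := by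
  have key : ∀ z z' : K → ℝ, Tm m B f z ≤ Tm m B f z' + L * n1 (z - z') := by
    intro z z'
    have h1 : z = z' + (z - z') := (add_sub_cancel z' z).symm
    have hg : LG (fun y => f (y + (z - z'))) := by
      refine ⟨hf.1.comp (continuous_id.add continuous_const), ?_⟩
      obtain ⟨C, -, hC, hb⟩ := hf.bound 0
      refine ⟨C * (1 + n1 (z - z')), fun y => (hb _).trans ?_⟩
      have h2 := n1_add_le y (z - z')
      have h3 := n1_nonneg y
      have h4 := n1_nonneg (z - z')
      nlinarith [mul_nonneg h3 h4, mul_nonneg hC.le (mul_nonneg h3 h4)]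
    conv_lhs => rw [h1]
    rw [Tm_shift, ← Tm_add_const hf]
    refine Tm_mono' hg (hf.add (LG.const _)) (fun y => ?_) m B z'
    have h5 := hL (y + (z - z')) y
    rw [add_sub_cancel_left] at h5
    linarith [(abs_le.mp h5).2]
  have h1 := key z z'
  have h2 := key z' z
  have h3 : n1 (z' - z) = n1 (z - z') := by rw [← n1_neg, neg_sub]
  rw [h3] at h2
  rw [abs_le]
  constructor <;> linarith

/-- Jensen: a step is at least the Gaussian average -/
theorem Tm_ge_avg (hf : LG f) {m : ℝ} (hm : 0 ≤ m) (B : Matrix K K ℝ) (z : K → ℝ) :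
    ∫ x, f (z + B.mulVec x) ∂(gam K) ≤ Tm m B f z := by
  rcases hm.eq_or_lt with h0 | h0
  · rw [← h0, Tm_zero]
  · set a : ℝ := ∫ x, f (z + B.mulVec x) ∂(gam K) with ha
    rw [Tm_ne h0.ne', one_div, le_inv_mul_iff₀ h0, Real.le_log_iff_exp_le (Z_pos hf m B z)]
    have h1 : ∫ x, Real.exp (m * a) * (1 + m * (f (z + B.mulVec x) - a)) ∂(gam K) =
        Real.exp (m * a) := by
      have hi := int_LG hf B z
      have hi2 : Integrable (fun x => m * (f (z + B.mulVec x) - a)) (gam K) :=
        (hi.sub (integrable_const a)).const_mul m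
      rw [integral_const_mul, integral_add (integrable_const _) hi2,
        integral_const_mul, integral_sub hi (integrable_const a), integral_const, integral_const,
        probReal_univ, one_smul, one_smul, ← ha, sub_self, mul_zero, add_zero, mul_one]
    rw [← h1]
    refine integral_mono ?_ (int_exp hf m B z) fun x => ?_
    · have hi := int_LG hf B z
      exact ((integrable_const (1 : ℝ)).add ((hi.sub (integrable_const a)).const_mul m)).const_mul _
    · have h2 := Real.add_one_le_exp (m * (f (z + B.mulVec x) - a))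
      calc Real.exp (m * a) * (1 + m * (f (z + B.mulVec x) - a))
          ≤ Real.exp (m * a) * Real.exp (m * (f (z + B.mulVec x) - a)) :=
            mul_le_mul_of_nonneg_left (by linarith) (Real.exp_pos _).le
        _ = Real.exp (m * f (z + B.mulVec x)) := by
            rw [← Real.exp_add]
            congr 1
            ring

/-- the step increases with the weight: `T_m f ≤ T_1 f` for `0 ≤ m ≤ 1` -/
theorem exp_Tm_le (hf : LG f) {m : ℝ} (hm : 0 ≤ m) (hm1 : m ≤ 1) (B : Matrix K K ℝ) (z : K → ℝ) :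
    Real.exp (Tm m B f z) ≤ ∫ x, Real.exp (f (z + B.mulVec x)) ∂(gam K) := by
  have hint : Integrable (fun x => Real.exp (f (z + B.mulVec x))) (gam K) := by
    have := int_exp hf 1 B z
    simpa using this
  have hpos : 0 < ∫ x, Real.exp (f (z + B.mulVec x)) ∂(gam K) := by
    have := Z_pos hf 1 B z
    simpa using this
  set S : ℝ := ∫ x, Real.exp (f (z + B.mulVec x)) ∂(gam K) with hS
  set L : ℝ := Real.log S with hL
  have hSL : Real.exp L = S := Real.exp_log hpos
  rw [← hSL]
  refine Real.exp_le_exp.mpr ?_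
  rcases hm.eq_or_lt with h0 | h0
  · rw [← h0, Tm_zero]
    -- Jensen
    have h1 : ∫ x, (f (z + B.mulVec x) - L) ∂(gam K) ≤
        ∫ x, (Real.exp (-L) * Real.exp (f (z + B.mulVec x)) - 1) ∂(gam K) := by
      refine integral_mono ((int_LG hf B z).sub (integrable_const L))
        ((hint.const_mul _).sub (integrable_const 1)) fun x => ?_
      have h2 := Real.add_one_le_exp (f (z + B.mulVec x) - L)
      have h3 : Real.exp (-L) * Real.exp (f (z + B.mulVec x)) = Real.exp (f (z + B.mulVec x) - L) := by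
        rw [← Real.exp_add]
        congr 1
        ring
      beta_reduce
      rw [h3]
      linarith
    rw [integral_sub (int_LG hf B z) (integrable_const L), integral_sub (hint.const_mul _)
      (integrable_const 1), integral_const_mul, integral_const, integral_const, probReal_univ,
      one_smul, one_smul, ← hS, ← hSL, ← Real.exp_add, neg_add_cancel, Real.exp_zero, sub_self] at h1
    linarith
  · rw [Tm_ne h0.ne', one_div, inv_mul_le_iff₀ h0, Real.log_le_iff_le_exp (Z_pos hf m B z)]
    have h1 : ∫ x, Real.exp (m * L) * ((1 - m) + m * (Real.exp (-L) * Real.exp (f (z + B.mulVec x)))) ∂(gam K) =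
        Real.exp (m * L) := by
      rw [integral_const_mul, integral_add (integrable_const _) ((hint.const_mul _).const_mul m),
        integral_const_mul, integral_const_mul, integral_const, probReal_univ, one_smul, ← hS, ← hSL,
        ← Real.exp_add, neg_add_cancel, Real.exp_zero]
      ring
    rw [← h1]
    refine integral_mono (int_exp hf m B z) ?_ fun x => ?_
    · exact ((integrable_const (1 - m)).add ((hint.const_mul _).const_mul m)).const_mul _
    · have h3 : Real.exp (-L) * Real.exp (f (z + B.mulVec x)) = Real.exp (f (z + B.mulVec x) - L) := by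
        rw [← Real.exp_add]
        congr 1
        ring
      beta_reduce
      rw [h3]
      have h4 : Real.exp (m * (f (z + B.mulVec x) - L)) ≤ (1 - m) + m * Real.exp (f (z + B.mulVec x) - L) := by
        have h5 := convexOn_exp.2 (Set.mem_univ (0 : ℝ)) (Set.mem_univ (f (z + B.mulVec x) - L))
          (sub_nonneg.mpr hm1) h0.le (by ring)
        simpa [smul_eq_mul] using h5
      calc Real.exp (m * f (z + B.mulVec x))
          = Real.exp (m * L) * Real.exp (m * (f (z + B.mulVec x) - L)) := by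
            rw [← Real.exp_add]
            congr 1
            ring
        _ ≤ _ := mul_le_mul_of_nonneg_left h4 (Real.exp_pos _).le

/-- exponential moments of a step (identity of J4) -/
theorem Es_exp_dot (hf : LG f) (m : ℝ) (B : Matrix K K ℝ) (θ z : K → ℝ) :
    Es m B f (fun y => Real.exp (dot θ y)) z =
      Real.exp (dot θ z + dot θ ((B * Bᵀ).mulVec θ) / 2 +
        m * (Tm m B f (z + (B * Bᵀ).mulVec θ) - Tm m B f z)) := by
  have h1 := cm_step' B θ (fun w => Real.exp (m * f (z + w)))
  have h2 : ∫ x, Real.exp (dot θ (z + B.mulVec x)) * Real.exp (m * f (z + B.mulVec x)) ∂(gam K) =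
      Real.exp (dot θ z) * ∫ x, Real.exp (m * f (z + B.mulVec x)) * Real.exp (dot θ (B.mulVec x)) ∂(gam K) := by
    rw [← integral_const_mul]
    refine integral_congr_ae (Filter.Eventually.of_forall fun x => ?_)
    beta_reduce
    rw [dot_add_right, Real.exp_add]
    ring
  have h3 : ∀ x : K → ℝ, z + (B.mulVec x + (B * Bᵀ).mulVec θ) = z + (B * Bᵀ).mulVec θ + B.mulVec x := by
    intro x
    rw [add_comm (B.mulVec x), add_assoc]
  rw [Es_eq' hf, h2, h1]
  simp only [h3]
  rw [← exp_mul_Tm hf, ← Real.exp_add, ← Real.exp_add, ← Real.exp_add]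
  congr 1
  ring

end

end SKC.J
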